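import Pool.Agent.Lib.MP_a147dc_co.B.Defs

/-! Points of a curve with nonzero curvature split into few sets in general position. -/

namespace Pool.Agent.Lib.MP_a147dc_co.B

open Finset NumberField Module Polynomial Filter
open scoped nonZeroDivisors

lemma arcs_core {R : Type*} [CommRing R] [IsDomain R] (f : R[X][X]) {x y a b t₁ t₂ : R}
    (hab : a = 1 ∨ b = 1) (n1 : t₁ ≠ 0) (n2 : t₂ ≠ 0) (n12 : t₂ - t₁ ≠ 0)
    (e0 : f.evalEval x y = 0) (e1 : f.evalEval (x + a * t₁) (y + b * t₁) = 0)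
    (e2 : f.evalEval (x + a * t₂) (y + b * t₂) = 0) :
    ∃ A B : R, (Hes f).evalEval x y = t₁ * A + t₂ * B := by
  set F := onLine x a y b f with hF
  have F0 : F.IsRoot 0 := by simp [IsRoot, hF, eval_onLine, e0]
  have F1 : eval t₁ F = 0 := by rw [hF, eval_onLine, e1]
  have F2 : eval t₂ F = 0 := by rw [hF, eval_onLine, e2]
  obtain ⟨G₁, hG₁⟩ := dvd_iff_isRoot.2 F0
  have G1 : G₁.IsRoot t₁ := by
    rw [hG₁] at F1; simpa [IsRoot, n1] using F1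
  obtain ⟨G₂, hG₂⟩ := dvd_iff_isRoot.2 G1
  have G2 : G₂.IsRoot t₂ := by
    rw [hG₁, hG₂] at F2; simpa [IsRoot, n2, n12] using F2
  obtain ⟨G, hG⟩ := dvd_iff_isRoot.2 G2
  have hFF : F = X * ((X - C t₁) * ((X - C t₂) * G)) := by rw [hG₁, hG₂, hG]; simp
  have d1 : eval 0 (derivative F) = t₁ * (t₂ * eval 0 G) := by
    rw [hFF]; simp [derivative_mul]
  have d2 : eval 0 (derivative (derivative F)) =
      t₁ * (2 * t₂ * eval 0 (derivative G) - 2 * eval 0 G) + t₂ * (-2 * eval 0 G) := by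
    rw [hFF]; simp [derivative_mul]; ring
  obtain ⟨K₁, hK₁⟩ := onLine_Hes_a x a y b f
  obtain ⟨K₂, hK₂⟩ := onLine_Hes_b x a y b f
  have h1 := congrArg (eval 0) hK₁
  have h2 := congrArg (eval 0) hK₂
  simp only [eval_mul, eval_pow, eval_C, eval_add, eval_onLine, mul_zero, add_zero] at h1 h2
  rw [← hF, d1, d2] at h1 h2
  rcases hab with h | h
  · rw [h, one_pow, one_mul] at h1
    exact ⟨(derivative f).evalEval x y ^ 2 * (2 * t₂ * eval 0 (derivative G) - 2 * eval 0 G) +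
      t₂ * eval 0 G * eval 0 K₁, (derivative f).evalEval x y ^ 2 * (-2 * eval 0 G),
      by rw [h1]; ring⟩
  · rw [h, one_pow, one_mul] at h2
    exact ⟨(dX f).evalEval x y ^ 2 * (2 * t₂ * eval 0 (derivative G) - 2 * eval 0 G) +
      t₂ * eval 0 G * eval 0 K₂, (dX f).evalEval x y ^ 2 * (-2 * eval 0 G),
      by rw [h2]; ring⟩

section Val

variable {L Γ : Type*} [Field L] [LinearOrderedCommGroupWithZero Γ] (v : Valuation L Γ)

lemma arcs_param {p q u : L × L} (hpq : p ≠ q) (hd : dt p q u = 0)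
    (c1 : v (q.1 - p.1) < 1) (c2 : v (q.2 - p.2) < 1) (c3 : v (u.1 - p.1) < 1)
    (c4 : v (u.2 - p.2) < 1) :
    ∃ a b t₁ t₂ : L, (a = 1 ∨ b = 1) ∧ v a ≤ 1 ∧ v b ≤ 1 ∧ v t₁ < 1 ∧ v t₂ < 1 ∧
      q.1 = p.1 + a * t₁ ∧ q.2 = p.2 + b * t₁ ∧ u.1 = p.1 + a * t₂ ∧ u.2 = p.2 + b * t₂ := by
  unfold dt at hd
  have key : ∀ s t : L, v s ≤ v t → (t = 0 → s = 0) ∧ v (s / t) ≤ 1 := by
    intro s t h
    refine ⟨fun ht => ?_, ?_⟩
    · rw [ht, map_zero, le_zero_iff] at h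
      exact v.zero_iff.1 h
    · rw [map_div₀]; exact div_le_one_of_le₀ h zero_le
  rcases le_total (v (q.2 - p.2)) (v (q.1 - p.1)) with h | h
  · have h0 : q.1 - p.1 ≠ 0 := fun h0 =>
      hpq (Prod.ext (sub_eq_zero.1 h0).symm (sub_eq_zero.1 ((key _ _ h).1 h0)).symm)
    refine ⟨1, (q.2 - p.2) / (q.1 - p.1), q.1 - p.1, u.1 - p.1, Or.inl rfl, by simp,
      (key _ _ h).2, c1, c3, by ring, by field_simp; ring, by ring, ?_⟩
    field_simp
    linear_combination hd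
  · have h0 : q.2 - p.2 ≠ 0 := fun h0 =>
      hpq (Prod.ext (sub_eq_zero.1 ((key _ _ h).1 h0)).symm (sub_eq_zero.1 h0).symm)
    refine ⟨(q.1 - p.1) / (q.2 - p.2), 1, q.2 - p.2, u.2 - p.2, Or.inr rfl, (key _ _ h).2,
      by simp, c2, c4, by field_simp; ring, by ring, ?_, by ring⟩
    field_simp
    linear_combination -hd

lemma arcs_val {A : Type*} [CommRing A] (φ : A →+* L) (hφ : ∀ a, v (φ a) ≤ 1) (f : A[X][X])
    {p q u : L × L} (hpq : p ≠ q) (hpu : p ≠ u) (hqu : q ≠ u) (hd : dt p q u = 0)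
    (p1 : v p.1 ≤ 1) (p2 : v p.2 ≤ 1)
    (c1 : v (q.1 - p.1) < 1) (c2 : v (q.2 - p.2) < 1) (c3 : v (u.1 - p.1) < 1)
    (c4 : v (u.2 - p.2) < 1) (e0 : (f.map (mapRingHom φ)).evalEval p.1 p.2 = 0)
    (e1 : (f.map (mapRingHom φ)).evalEval q.1 q.2 = 0)
    (e2 : (f.map (mapRingHom φ)).evalEval u.1 u.2 = 0) :
    v ((Hes (f.map (mapRingHom φ))).evalEval p.1 p.2) < 1 := by
  obtain ⟨a, b, t₁, t₂, hab, ha, hb, h1, h2, q1, q2, u1, u2⟩ := arcs_param v hpq hd c1 c2 c3 c4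
  let ψ : A →+* v.integer := φ.codRestrict v.integer hφ
  set g := f.map (mapRingHom ψ) with hg
  have hgf : f.map (mapRingHom φ) = g.map (mapRingHom v.integer.subtype) := by
    rw [hg, Polynomial.map_map, mapRingHom_comp]; rfl
  have ev : ∀ (w : v.integer[X][X]) (x y : v.integer),
      (w.map (mapRingHom v.integer.subtype)).evalEval (x : L) (y : L) = (w.evalEval x y : _) :=
    fun w x y => map_mapRingHom_evalEval v.integer.subtype w x y
  rw [hgf] at e0 e1 e2 ⊢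
  obtain ⟨A, B, hAB⟩ := arcs_core g (x := ⟨p.1, p1⟩) (y := ⟨p.2, p2⟩) (a := ⟨a, ha⟩)
    (b := ⟨b, hb⟩) (t₁ := ⟨t₁, h1.le⟩) (t₂ := ⟨t₂, h2.le⟩)
    (hab.imp (fun h => Subtype.ext h) fun h => Subtype.ext h)
    (fun h => hpq (by
      have h' : t₁ = 0 := congrArg Subtype.val h
      ext <;> simp [q1, q2, h']))
    (fun h => hpu (by
      have h' : t₂ = 0 := congrArg Subtype.val h
      ext <;> simp [u1, u2, h']))
    (fun h => hqu (by
      have h' : t₂ - t₁ = 0 := congrArg Subtype.val h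
      ext <;> simp [q1, q2, u1, u2, sub_eq_zero.1 h']))
    (Subtype.ext ((ev g _ _).symm.trans e0))
    (Subtype.ext ((ev g _ _).symm.trans (by rw [q1, q2] at e1; exact e1)))
    (Subtype.ext ((ev g _ _).symm.trans (by rw [u1, u2] at e2; exact e2)))
  have h3 := ev (Hes g) ⟨p.1, p1⟩ ⟨p.2, p2⟩
  rw [hAB] at h3
  rw [Hes_map, h3]
  have m : ∀ (t : L) (w : v.integer), v t < 1 → v (t * w) < 1 := fun t w ht => by
    rw [map_mul]; exact mul_lt_one_of_lt_of_le ht w.2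
  exact v.map_add_lt (m t₁ A h1) (m t₂ B h2)

end Val

lemma arcs_prime {N Ξ Y : ℕ} (hN : N ≠ 0) (h : N ≤ 2 ^ Ξ) (hY : 16 * (Ξ + 1) ^ 2 ≤ Y) :
    ∃ l : ℕ, l.Prime ∧ l ≤ Y ∧ ¬ l ∣ N := by
  by_contra hc
  push Not at hc
  have h1 : (Nat.primesLE Y).card ≤ Ξ := by
    have a1 : 2 ^ (Nat.primesLE Y).card ≤ ∏ p ∈ Nat.primesLE Y, p :=
      Finset.pow_card_le_prod _ _ _ fun p hp => (Nat.prime_of_mem_primesLE hp).two_le
    have a2 : ∏ p ∈ Nat.primesLE Y, p ∣ N :=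
      Finset.prod_primes_dvd _ (fun p hp => (Nat.prime_of_mem_primesLE hp).prime)
        fun p hp => hc p (Nat.prime_of_mem_primesLE hp) (Nat.le_of_mem_primesLE hp)
    exact (Nat.pow_le_pow_iff_right (by norm_num)).1
      (a1.trans ((Nat.le_of_dvd (Nat.pos_of_ne_zero hN) a2).trans h))
  have hY0 : Y ≠ 0 := by
    have : 0 < (Ξ + 1) ^ 2 := by positivity
    omega
  have h2 : Nat.lcmUpto Y ≤ (Y + 1) ^ Ξ := by
    rw [Nat.lcmUpto_eq_prod_pow_log]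
    refine (Finset.prod_le_pow_card _ _ (Y + 1) fun p _ => ?_).trans
      (Nat.pow_le_pow_right (by omega) h1)
    exact (Nat.pow_log_le_self p hY0).trans (Nat.le_succ Y)
  have h3 := Chebyshev.two_pow_le_mul_lcmUpto Y
  set s := Nat.sqrt Y with hs
  have s1 : 4 * (Ξ + 1) ≤ s := Nat.le_sqrt'.2 (by nlinarith)
  have s2 : s ^ 2 ≤ Y := Nat.sqrt_le' Y
  have s3 : Y + 1 ≤ (s + 1) ^ 2 := Nat.lt_succ_sqrt' Y
  have s4 : s + 1 ≤ 2 ^ s := Nat.lt_two_pow_self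
  have h4 : 2 ^ Y ≤ 2 ^ (s * 2 * (Ξ + 1)) := by
    calc 2 ^ Y ≤ (Y + 1) * (Y + 1) ^ Ξ := h3.trans (Nat.mul_le_mul_left _ h2)
      _ = (Y + 1) ^ (Ξ + 1) := by ring
      _ ≤ ((2 ^ s) ^ 2) ^ (Ξ + 1) :=
        Nat.pow_le_pow_left (s3.trans (Nat.pow_le_pow_left s4 2)) _
      _ = _ := by rw [← pow_mul, ← pow_mul, mul_assoc]
  have h5 := (Nat.pow_le_pow_iff_right (by norm_num : 1 < 2)).1 h4
  nlinarith

variable {K : Type*} [Field K] [NumberField K]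

lemma arcs_ideal {l : ℕ} (hl : l.Prime) : ∃ P : Ideal (𝓞 K), P.IsMaximal ∧ P ≠ ⊥ ∧
    l ∣ Ideal.absNorm P ∧ Ideal.absNorm P ≤ l ^ finrank ℚ K := by
  have hn : Ideal.absNorm (Ideal.span {(l : 𝓞 K)}) = l ^ finrank ℚ K := by
    rw [Ideal.absNorm_span_natCast, RingOfIntegers.rank]
  have ht : Ideal.span {(l : 𝓞 K)} ≠ ⊤ := by
    intro h
    rw [h, Ideal.absNorm_top] at hn
    exact (Nat.one_lt_pow (finrank_pos (R := ℚ) (M := K)).ne' hl.one_lt).ne hn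
  obtain ⟨P, hP, hle⟩ := Ideal.exists_le_maximal _ ht
  have hd : Ideal.absNorm P ∣ l ^ finrank ℚ K := hn ▸ Ideal.absNorm_dvd_absNorm_of_le hle
  refine ⟨P, hP, fun h => ?_, ?_, Nat.le_of_dvd (pow_pos hl.pos _) hd⟩
  · rw [h, Ideal.absNorm_bot, zero_dvd_iff] at hd
    exact (pow_pos hl.pos _).ne' hd
  · obtain ⟨k, -, hk⟩ := (Nat.dvd_prime_pow hl).1 hd
    rw [hk]
    refine dvd_pow_self l fun h0 => hP.ne_top ?_
    rw [h0, pow_zero] at hk
    exact Ideal.absNorm_eq_one_iff.1 hk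

lemma arcs_class {S U : Finset (K × K)} {α : ℕ}
    (hα : ∀ G ⊆ S, GPK G → G.card ≤ α) (hU : U ⊆ S) (f : (𝓞 K)[X][X])
    (h0 : ∀ p ∈ U, (f.map (mapRingHom (algebraMap (𝓞 K) K))).evalEval p.1 p.2 = 0)
    {P : Ideal (𝓞 K)} (hP : P.IsMaximal) (hP0 : P ≠ ⊥)
    (h1 : ∀ p ∈ U, ∃ (c x y h : 𝓞 K) (n : ℕ), (x : K) = c * p.1 ∧ (y : K) = c * p.2 ∧
      (h : K) = c ^ n * (Hes (f.map (mapRingHom (algebraMap (𝓞 K) K)))).evalEval p.1 p.2 ∧
      c * h ∉ P) : U.card ≤ Ideal.absNorm P ^ 2 * α := by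
  classical
  let w : IsDedekindDomain.HeightOneSpectrum (𝓞 K) := ⟨P, hP.isPrime, hP0⟩
  let v := w.valuation K
  have v1 : ∀ a : 𝓞 K, v (a : K) ≤ 1 := fun a => w.valuation_le_one a
  have v2 : ∀ a : 𝓞 K, v (a : K) < 1 ↔ a ∈ P := fun a => w.valuation_lt_one_iff_mem a
  have hk : ∀ p : K × K, ∃ r : 𝓞 K × 𝓞 K, p ∈ U → v (p.1 - r.1) < 1 ∧ v (p.2 - r.2) < 1 ∧
      ¬ v ((Hes (f.map (mapRingHom (algebraMap (𝓞 K) K)))).evalEval p.1 p.2) < 1 := by
    intro p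
    by_cases hp : p ∈ U
    swap
    · exact ⟨0, fun h => absurd h hp⟩
    obtain ⟨c, x, y, h, n, hx, hy, hh, hc⟩ := h1 p hp
    have c1 : c ∉ P := fun h' => hc (P.mul_mem_right _ h')
    have c2 : h ∉ P := fun h' => hc (P.mul_mem_left _ h')
    have c3 : v (c : K) = 1 := (v1 c).antisymm (not_lt.1 fun h' => c1 ((v2 c).1 h'))
    obtain ⟨s, t, ht, hst⟩ := hP.exists_inv c1
    have hst' : (s : K) * c + t = 1 := by exact_mod_cast congrArg (fun z : 𝓞 K => (z : K)) hst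
    have key : ∀ (z : K) (a : 𝓞 K), (a : K) = c * z → v (z - ((s * a : 𝓞 K) : K)) < 1 := by
      intro z a ha
      have e1 : z - ((s * a : 𝓞 K) : K) = t * z := by
        have e0 : ((s * a : 𝓞 K) : K) = (s : K) * (a : K) := map_mul (algebraMap (𝓞 K) K) s a
        rw [e0, ha]; linear_combination (-z) * hst'
      have e2 : v z ≤ 1 := by
        have := v1 a
        rwa [ha, map_mul, c3, one_mul] at this
      rw [e1, map_mul]
      exact mul_lt_one_of_lt_of_le ((v2 t).2 ht) e2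
    refine ⟨(s * x, s * y), fun _ => ⟨key _ _ hx, key _ _ hy, fun h' => c2 ((v2 h).1 ?_)⟩⟩
    rwa [hh, map_mul, map_pow, c3, one_pow, one_mul]
  choose r hr using hk
  have : Finite (𝓞 K ⧸ P) := (Ideal.absNorm_ne_zero_iff P).1 fun h =>
    hP0 (Ideal.absNorm_eq_zero_iff.1 h)
  have : Fintype (𝓞 K ⧸ P) := Fintype.ofFinite _
  have le1 : ∀ (z : K) (a : 𝓞 K), v (z - a) < 1 → v z ≤ 1 := fun z a h => by
    have := v.map_add_le h.le (v1 a)
    rwa [sub_add_cancel] at this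
  have cl : ∀ (z z' : K) (a a' : 𝓞 K), v (z - a) < 1 → v (z' - a') < 1 →
      Ideal.Quotient.mk P a = Ideal.Quotient.mk P a' → v (z - z') < 1 := by
    intro z z' a a' h h' e
    have e1 := (v2 _).2 (Ideal.Quotient.eq.1 e)
    have e2 : z - z' = (z - a) - (z' - a') + ((a - a' : 𝓞 K) : K) := by push_cast; ring
    rw [e2]
    exact v.map_add_lt (v.map_sub_lt h h') e1
  have := Finset.card_le_mul_card_image_of_maps_to (s := U)
    (t := (univ : Finset ((𝓞 K ⧸ P) × (𝓞 K ⧸ P))))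
    (f := fun p => (Ideal.Quotient.mk P (r p).1, Ideal.Quotient.mk P (r p).2))
    (fun _ _ => mem_univ _) α (by
      intro k _
      apply hα _ ((Finset.filter_subset _ _).trans hU)
      intro x hx y hy z hz hxy hxz hyz hd
      simp only [Finset.mem_filter] at hx hy hz
      obtain ⟨x1, x2, x3⟩ := hr x hx.1
      obtain ⟨y1, y2, -⟩ := hr y hy.1
      obtain ⟨z1, z2, -⟩ := hr z hz.1
      have ey := Prod.ext_iff.1 (hy.2.trans hx.2.symm)
      have ez := Prod.ext_iff.1 (hz.2.trans hx.2.symm)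
      exact x3 (arcs_val v (algebraMap (𝓞 K) K) v1 f hxy hxz hyz hd (le1 _ _ x1) (le1 _ _ x2)
        (cl _ _ _ _ y1 x1 ey.1) (cl _ _ _ _ y2 x2 ey.2) (cl _ _ _ _ z1 x1 ez.1)
        (cl _ _ _ _ z2 x2 ez.2) (h0 x hx.1) (h0 y hy.1) (h0 z hz.1)))
  rw [card_univ, Fintype.card_prod, ← Nat.card_eq_fintype_card] at this
  rw [Ideal.absNorm_apply, Submodule.cardQuot_apply, sq, mul_comm]
  exact this

/-- `c` clears the denominators of the point and of the curvature value -/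
theorem arcs_K {S U : Finset (K × K)} {α Y Ξ D : ℕ} (hD : finrank ℚ K ≤ D)
    (hα : ∀ G ⊆ S, GPK G → G.card ≤ α) (hU : U ⊆ S) (f : (𝓞 K)[X][X])
    (h0 : ∀ p ∈ U, (f.map (mapRingHom (algebraMap (𝓞 K) K))).evalEval p.1 p.2 = 0)
    (h1 : ∀ p ∈ U, ∃ (c x y h : 𝓞 K) (n : ℕ), (x : K) = c * p.1 ∧ (y : K) = c * p.2 ∧
      (h : K) = c ^ n * (Hes (f.map (mapRingHom (algebraMap (𝓞 K) K)))).evalEval p.1 p.2 ∧
      c * h ≠ 0 ∧ Ideal.absNorm (Ideal.span {c * h}) ≤ 2 ^ Ξ)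
    (hY : 16 * (Ξ + 1) ^ 2 ≤ Y) : U.card ≤ Y ^ (2 * D + 1) * α := by
  classical
  have hq : ∀ p : K × K, ∃ l : ℕ, p ∈ U → l.Prime ∧ l ≤ Y ∧
      ∃ (c x y h : 𝓞 K) (n : ℕ), (x : K) = c * p.1 ∧ (y : K) = c * p.2 ∧
      (h : K) = c ^ n * (Hes (f.map (mapRingHom (algebraMap (𝓞 K) K)))).evalEval p.1 p.2 ∧
      ¬ l ∣ Ideal.absNorm (Ideal.span {c * h}) := by
    intro p
    by_cases hp : p ∈ U
    swap
    · exact ⟨0, fun h => absurd h hp⟩
    obtain ⟨c, x, y, h, n, hx, hy, hh, hc, hb⟩ := h1 p hp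
    obtain ⟨l, l1, l2, l3⟩ := arcs_prime (fun h' => hc
      (Ideal.span_singleton_eq_bot.1 (Ideal.absNorm_eq_zero_iff.1 h'))) hb hY
    exact ⟨l, fun _ => ⟨l1, l2, c, x, y, h, n, hx, hy, hh, l3⟩⟩
  choose q hq using hq
  have := Finset.card_le_mul_card_image_of_maps_to (s := U)
    (t := (Finset.Icc 1 Y).filter Nat.Prime) (f := q) (fun p hp => by
      obtain ⟨a1, a2, -⟩ := hq p hp
      exact mem_filter.2 ⟨mem_Icc.2 ⟨a1.one_le, a2⟩, a1⟩) (Y ^ (2 * D) * α) (by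
      intro l hl
      obtain ⟨l1, l2⟩ := mem_filter.1 hl
      obtain ⟨l0, l1⟩ := mem_Icc.1 l1
      obtain ⟨P, hP, hP0, d1, d2⟩ := arcs_ideal (K := K) l2
      refine (arcs_class hα ((filter_subset _ _).trans hU) f
        (fun p hp => h0 p (mem_filter.1 hp).1) hP hP0 fun p hp => ?_).trans ?_
      · obtain ⟨p1, p2⟩ := mem_filter.1 hp
        obtain ⟨-, -, c, x, y, h, n, hx, hy, hh, hc⟩ := hq p p1
        refine ⟨c, x, y, h, n, hx, hy, hh, fun hm => hc ?_⟩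
        rw [p2]
        exact d1.trans (Ideal.absNorm_dvd_absNorm_of_le
          ((Ideal.span_singleton_le_iff_mem _).2 hm))
      · refine Nat.mul_le_mul_right _ ?_
        rw [mul_comm 2 D, pow_mul]
        exact Nat.pow_le_pow_left (d2.trans ((Nat.pow_le_pow_left l1 _).trans
          (Nat.pow_le_pow_right (l0.trans l1) hD))) 2)
  have hc : ((Finset.Icc 1 Y).filter Nat.Prime).card ≤ Y :=
    (card_filter_le _ _).trans (by simp)
  calc _ ≤ _ := this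
    _ ≤ Y ^ (2 * D) * α * Y := Nat.mul_le_mul_left _ hc
    _ = _ := by ring

end Pool.Agent.Lib.MP_a147dc_co.B
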