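import Pool.Agent.Lib.MP_a147dc_co.B.Cell

/-! Counting integers in boxes: the target set is large, fibres of the carry map are small. -/

namespace Pool.Agent.Lib.MP_a147dc_co.B

open Finset NumberField Module Polynomial Filter
open scoped nonZeroDivisors

variable {K : Type*} [Field K] [NumberField K]

lemma box_norm_pos {I : FractionalIdeal (𝓞 K)⁰ K} (hI : I ≠ 0) :
    (0 : ℝ) < ((FractionalIdeal.absNorm I : ℚ) : ℝ) := by
  have h1 : FractionalIdeal.absNorm I ≠ 0 := fun h =>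
    hI (FractionalIdeal.absNorm_eq_zero_iff.1 h)
  exact_mod_cast lt_of_le_of_ne (FractionalIdeal.absNorm_nonneg I) h1.symm

/-- the cell bound for large radius -/
lemma box_cell {I : FractionalIdeal (𝓞 K)⁰ K} (hI : I ≠ 0) (w : (K →+* ℂ) → ℝ)
    (hw : ∀ σ, 0 < w σ) (hc : ∀ σ, w (ComplexEmbedding.conjugate σ) = w σ) :
    ∀ᶠ r : ℝ in atTop, ∀ A : Finset K,
      (∀ a ∈ A, ∀ b ∈ A, a - b ∈ I ∧ ∀ σ : K →+* ℂ, ‖σ (a - b)‖ ≤ r * w σ) →
      (A.card : ℝ) ≤ 13 ^ finrank ℚ K * (r ^ finrank ℚ K * (∏ σ, w σ) /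
        ((FractionalIdeal.absNorm I : ℚ) : ℝ)) := by
  have hN := box_norm_pos hI
  have hW : 0 < ∏ σ, w σ := Finset.prod_pos fun σ _ => hw σ
  filter_upwards [eventually_ge_atTop (1 : ℝ),
    eventually_ge_atTop (((FractionalIdeal.absNorm I : ℚ) : ℝ) / ∏ σ, w σ)] with r h1 h2 A hA
  have hr : 0 < r := by linarith
  have key := cell A (fun σ => r * w σ) (fun σ => mul_pos hr (hw σ))
    (fun σ => by simp only [hc σ]) hI hA
  have hp : ∏ σ : K →+* ℂ, r * w σ = r ^ finrank ℚ K * ∏ σ, w σ := by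
    rw [Finset.prod_mul_distrib, Finset.prod_const, Finset.card_univ, Embeddings.card K ℂ]
  rw [hp] at key
  have h3 : r ≤ r ^ finrank ℚ K := le_self_pow₀ h1 (finrank_pos (R := ℚ) (M := K)).ne'
  have h4 : 1 ≤ r ^ finrank ℚ K * (∏ σ, w σ) / ((FractionalIdeal.absNorm I : ℚ) : ℝ) := by
    rw [le_div_iff₀ hN, one_mul]
    rw [div_le_iff₀ hW] at h2
    exact h2.trans (mul_le_mul_of_nonneg_right h3 hW.le)
  rwa [max_eq_right h4] at key

open Classical in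
lemma box_in_prime {𝔓 : Ideal (𝓞 K)} (h𝔓 : 𝔓 ≠ ⊥) : ∀ᶠ r : ℝ in atTop,
    (((Bx K r).filter fun a => a ∈ 𝔓).card : ℝ) ≤
      (26 * r) ^ finrank ℚ K / Ideal.absNorm 𝔓 := by
  have hI : (𝔓 : FractionalIdeal (𝓞 K)⁰ K) ≠ 0 := FractionalIdeal.coeIdeal_ne_zero.2 h𝔓
  filter_upwards [box_cell hI (fun _ => 2) (fun _ => two_pos) fun _ => rfl] with r h
  have key := h (((Bx K r).filter fun a => a ∈ 𝔓).image fun a : 𝓞 K => (a : K)) (by
    intro x hx y hy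
    obtain ⟨a, ha, rfl⟩ := Finset.mem_image.1 hx
    obtain ⟨b, hb, rfl⟩ := Finset.mem_image.1 hy
    rw [Finset.mem_filter, mem_Bx] at ha hb
    refine ⟨?_, fun σ => ?_⟩
    · exact (FractionalIdeal.mem_coeIdeal _).2 ⟨a - b, 𝔓.sub_mem ha.2 hb.2, by simp⟩
    · have := (ha.1.sub hb.1) σ
      linarith)
  rw [Finset.card_image_of_injective _ RingOfIntegers.coe_injective, Finset.prod_const,
    Finset.card_univ, Embeddings.card K ℂ, FractionalIdeal.coeIdeal_absNorm] at key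
  refine key.trans (le_of_eq ?_)
  rw [show (26 : ℝ) * r = 13 * (r * 2) by ring, mul_pow, mul_pow]
  push_cast
  ring

lemma bb_ge {𝔓 : Ideal (𝓞 K)} [𝔓.IsMaximal] (d : 𝓞 K) {β : ℝ} (hβ : 1 ≤ β)
    (θ : Fin (finrank ℚ K) → 𝓞 K) (hθ : LinearIndependent ℚ fun i => (θ i : K))
    (hb : ∀ i, Bd β (θ i : K))
    (hq : 2 * (26 * finrank ℚ K * β) ^ finrank ℚ K ≤ Ideal.absNorm 𝔓) :
    ∀ᶠ r : ℝ in atTop, ∃ γ : 𝓞 K,
      (r / (finrank ℚ K * β)) ^ (4 * finrank ℚ K) / (2 * Ideal.absNorm 𝔓) ≤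
        (BB 𝔓 d γ r).card := by
  classical
  have hn : (0 : ℝ) < finrank ℚ K := by exact_mod_cast finrank_pos (R := ℚ) (M := K)
  have hnβ : (0 : ℝ) < finrank ℚ K * β := by positivity
  have h26 : (0 : ℝ) < (26 * finrank ℚ K * β) ^ finrank ℚ K := by positivity
  have hq0 : (0 : ℝ) < Ideal.absNorm 𝔓 := by linarith
  have hq1 : Ideal.absNorm 𝔓 ≠ 0 := by exact_mod_cast hq0.ne'
  have h𝔓 : 𝔓 ≠ ⊥ := fun h => hq1 (Ideal.absNorm_eq_zero_iff.2 h)
  have hcard : Nat.card (𝓞 K ⧸ 𝔓) = Ideal.absNorm 𝔓 := by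
    rw [Ideal.absNorm_apply, Submodule.cardQuot_apply]
  have : Finite (𝓞 K ⧸ 𝔓) := Nat.finite_of_card_ne_zero (hcard ▸ hq1)
  let _ : Fintype (𝓞 K ⧸ 𝔓) := Fintype.ofFinite _
  let _ : Field (𝓞 K ⧸ 𝔓) := Ideal.Quotient.field 𝔓
  filter_upwards [box_in_prime h𝔓, eventually_ge_atTop (0 : ℝ)] with r h1 hr
  have h2 := card_Bx_ge hβ hr θ hθ hb
  set x : ℝ := (r / (finrank ℚ K * β)) ^ finrank ℚ K with hx
  have hx0 : 0 ≤ x := by positivity
  have h3 : (26 * r) ^ finrank ℚ K / Ideal.absNorm 𝔓 ≤ x / 2 := by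
    rw [div_le_div_iff₀ hq0 two_pos]
    have e : (26 * r) ^ finrank ℚ K = x * (26 * finrank ℚ K * β) ^ finrank ℚ K := by
      rw [hx, ← mul_pow]
      congr 1
      field_simp
    rw [e]
    nlinarith [mul_le_mul_of_nonneg_left hq hx0]
  set A := Bx K r with hA
  set A' := A.filter fun a => a ∉ 𝔓 with hA'
  have h4 : x / 2 ≤ A'.card := by
    have := Finset.card_filter_add_card_filter_not (s := A) fun a => a ∈ 𝔓
    have h5 : ((A.filter fun a => a ∈ 𝔓).card : ℝ) + A'.card = A.card := by exact_mod_cast this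
    linarith
  set U : Finset (Fin 4 → 𝓞 K) := Fintype.piFinset ![A', A, A, A] with hU
  have hUc : x ^ 4 / 2 ≤ U.card := by
    rw [hU, Fintype.card_piFinset, Fin.prod_univ_four]
    simp only [Matrix.cons_val_zero, Matrix.cons_val_one, Matrix.cons_val]
    push_cast
    calc x ^ 4 / 2 = x / 2 * x * x * x := by ring
      _ ≤ _ := by gcongr
  let mk := Ideal.Quotient.mk 𝔓
  let f : (Fin 4 → 𝓞 K) → 𝓞 K ⧸ 𝔓 := fun u =>
    (mk (u 0) * mk (u 3) - mk (u 1) ^ 2 + mk d * mk (u 2) ^ 2) / mk (u 0) ^ 2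
  obtain ⟨c, -, hc⟩ := Finset.exists_le_card_fiber_of_nsmul_le_card_of_maps_to
    (s := U) (t := (univ : Finset (𝓞 K ⧸ 𝔓))) (f := f) (M := ℝ)
    (b := x ^ 4 / (2 * Ideal.absNorm 𝔓)) (fun _ _ => mem_univ _) univ_nonempty (by
      rw [Finset.card_univ, ← Nat.card_eq_fintype_card, hcard, nsmul_eq_mul]
      refine le_trans (le_of_eq ?_) hUc
      field_simp)
  obtain ⟨γ, rfl⟩ := Ideal.Quotient.mk_surjective c
  refine ⟨γ, ?_⟩
  rw [mul_comm 4, pow_mul]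
  refine hc.trans ?_
  refine Nat.cast_le.2 (Finset.card_le_card fun u hu => ?_)
  rw [Finset.mem_filter, hU, Fintype.mem_piFinset] at hu
  obtain ⟨hu, hf⟩ := hu
  have u0 : u 0 ∈ A' := hu 0
  rw [hA', Finset.mem_filter] at u0
  have hne : mk (u 0) ≠ 0 := fun h => u0.2 (Ideal.Quotient.eq_zero_iff_mem.1 h)
  unfold BB
  rw [Finset.mem_filter, Fintype.mem_piFinset]
  refine ⟨fun i => ?_, u0.2, ?_⟩
  · fin_cases i
    · exact u0.1
    · exact hu 1
    · exact hu 2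
    · exact hu 3
  · rw [← Ideal.Quotient.eq_zero_iff_mem]
    have hf' : mk (u 0) * mk (u 3) - mk (u 1) ^ 2 + mk d * mk (u 2) ^ 2 =
        mk γ * mk (u 0) ^ 2 := (div_eq_iff (pow_ne_zero 2 hne)).1 hf
    simp only [map_sub, map_add, map_mul, map_pow]
    linear_combination hf'

omit [NumberField K] in
lemma box_mem_of_mul_le [IsDedekindDomain (𝓞 K)] [IsFractionRing (𝓞 K) K]
    {I J : FractionalIdeal (𝓞 K)⁰ K} (hI : I ≠ 0) {x : K}
    (h : FractionalIdeal.spanSingleton (𝓞 K)⁰ x * I ≤ J) : x ∈ J * I⁻¹ := by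
  rw [← FractionalIdeal.spanSingleton_le_iff_mem]
  calc FractionalIdeal.spanSingleton (𝓞 K)⁰ x
      = FractionalIdeal.spanSingleton (𝓞 K)⁰ x * I * I⁻¹ := by
        rw [mul_assoc, mul_inv_cancel₀ hI, mul_one]
    _ ≤ J * I⁻¹ := by gcongr

lemma box_one_add_ne (I : FractionalIdeal (𝓞 K)⁰ K) : 1 + I ≠ 0 := by
  intro h
  have h1 : (1 : FractionalIdeal (𝓞 K)⁰ K) ≤ 1 + I := by
    rw [← FractionalIdeal.sup_eq_add]; exact le_sup_left
  rw [h] at h1
  exact one_ne_zero (le_antisymm h1 (FractionalIdeal.zero_le _))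

open Classical in
/-- one coordinate: triples with given residues and given carry -/
lemma fibre_le {𝔓 : Ideal (𝓞 K)} (h𝔓 : 𝔓 ≠ ⊥) {a b : K} :
    ∀ᶠ r : ℝ in atTop, ∀ A : Finset (𝓞 K × 𝓞 K × 𝓞 K),
      (∀ t ∈ A, Bd r (t.1 : K) ∧ Bd r (t.2.1 : K) ∧ Bd r (t.2.2 : K)) →
      (∀ t ∈ A, ∀ t' ∈ A, t.1 - t'.1 ∈ 𝔓 ∧ t.2.1 - t'.2.1 ∈ 𝔓 ∧ t.2.2 - t'.2.2 ∈ 𝔓 ∧
        (t.2.2 : K) - a * t.1 - b * t.2.1 = (t'.2.2 : K) - a * t'.1 - b * t'.2.1) →
      (A.card : ℝ) ≤ 1352 ^ finrank ℚ K * r ^ (2 * finrank ℚ K) / (Ideal.absNorm 𝔓 ^ 2 *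
        ((∏ σ : K →+* ℂ, max 1 (max ‖σ a‖ ‖σ b‖)) / ((FractionalIdeal.absNorm
          (1 + FractionalIdeal.spanSingleton (𝓞 K)⁰ a + FractionalIdeal.spanSingleton (𝓞 K)⁰ b) :
            ℚ) : ℝ))) := by
  set P : FractionalIdeal (𝓞 K)⁰ K := (𝔓 : FractionalIdeal (𝓞 K)⁰ K) with hP
  set Ia : FractionalIdeal (𝓞 K)⁰ K := 1 + FractionalIdeal.spanSingleton (𝓞 K)⁰ a with hIa
  set I : FractionalIdeal (𝓞 K)⁰ K := Ia + FractionalIdeal.spanSingleton (𝓞 K)⁰ b with hI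
  have hP0 : P ≠ 0 := FractionalIdeal.coeIdeal_ne_zero.2 h𝔓
  have hIa0 : Ia ≠ 0 := box_one_add_ne _
  have hI0 : I ≠ 0 := by rw [hI, hIa, add_assoc]; exact box_one_add_ne _
  have h1a : (1 : K) ∈ Ia := by
    rw [hIa]
    exact (FractionalIdeal.mem_add _ _ _).2
      ⟨1, FractionalIdeal.one_mem_one _, 0, FractionalIdeal.zero_mem _, add_zero _⟩
  have haa : a ∈ Ia := by
    rw [hIa]
    exact (FractionalIdeal.mem_add _ _ _).2
      ⟨0, FractionalIdeal.zero_mem _, a, FractionalIdeal.mem_spanSingleton_self _ _, zero_add _⟩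
  have hPm : ∀ x y : 𝓞 K, x - y ∈ 𝔓 → (x : K) - y ∈ P := fun x y h =>
    (FractionalIdeal.mem_coeIdeal _).2 ⟨x - y, h, by simp⟩
  set m : (K →+* ℂ) → ℝ := fun σ => max 1 ‖σ a‖ with hm
  set M : (K →+* ℂ) → ℝ := fun σ => max 1 (max ‖σ a‖ ‖σ b‖) with hM
  have hm1 : ∀ σ, 1 ≤ m σ := fun σ => le_max_left _ _
  have hM1 : ∀ σ, 1 ≤ M σ := fun σ => le_max_left _ _
  have hm0 : ∀ σ, 0 < m σ := fun σ => one_pos.trans_le (hm1 σ)
  have hM0 : ∀ σ, 0 < M σ := fun σ => one_pos.trans_le (hM1 σ)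
  have hcj : ∀ (σ : K →+* ℂ) (x : K), ‖ComplexEmbedding.conjugate σ x‖ = ‖σ x‖ := fun σ x => by
    rw [ComplexEmbedding.conjugate_coe_eq, Complex.norm_conj]
  have hJ1 : P * Ia * I⁻¹ ≠ 0 := mul_ne_zero (mul_ne_zero hP0 hIa0) (inv_ne_zero hI0)
  have hJ2 : P * Ia⁻¹ ≠ 0 := mul_ne_zero hP0 (inv_ne_zero hIa0)
  filter_upwards [box_cell hJ1 (fun σ => 4 * m σ / M σ)
      (fun σ => div_pos (mul_pos four_pos (hm0 σ)) (hM0 σ)) (fun σ => by simp only [hm, hM, hcj]),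
    box_cell hJ2 (fun σ => 2 / m σ) (fun σ => div_pos two_pos (hm0 σ))
      (fun σ => by simp only [hm, hcj]), eventually_ge_atTop (0 : ℝ)] with r c1 c2 hr A hB hA
  have hd : ∀ t ∈ A, ∀ t' ∈ A, ∀ σ : K →+* ℂ, ‖σ ((t.1 : K) - t'.1)‖ ≤ 2 * r ∧
      ‖σ ((t.2.1 : K) - t'.2.1)‖ ≤ 2 * r ∧ ‖σ ((t.2.2 : K) - t'.2.2)‖ ≤ 2 * r := by
    intro t ht t' ht' σ
    have e1 := ((hB t ht).1.sub (hB t' ht').1) σ
    have e2 := ((hB t ht).2.1.sub (hB t' ht').2.1) σ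
    have e3 := ((hB t ht).2.2.sub (hB t' ht').2.2) σ
    exact ⟨by linarith, by linarith, by linarith⟩
  have k1 := c1 (A.image fun t => (t.2.1 : K)) (by
    intro x hx y hy
    obtain ⟨t, ht, rfl⟩ := Finset.mem_image.1 hx
    obtain ⟨t', ht', rfl⟩ := Finset.mem_image.1 hy
    obtain ⟨p1, p2, p3, e⟩ := hA t ht t' ht'
    have e' : ((t.2.1 : K) - t'.2.1) * b = ((t.2.2 : K) - t'.2.2) * 1 - ((t.1 : K) - t'.1) * a := by
      linear_combination -e
    refine ⟨box_mem_of_mul_le hI0 ?_, fun σ => ?_⟩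
    · rw [hI, mul_add, FractionalIdeal.spanSingleton_mul_spanSingleton,
        ← FractionalIdeal.sup_eq_add]
      refine sup_le ?_ ?_
      · have := FractionalIdeal.spanSingleton_le_iff_mem.2 (hPm _ _ p2)
        gcongr
      · rw [FractionalIdeal.spanSingleton_le_iff_mem, e']
        exact (P * Ia : FractionalIdeal (𝓞 K)⁰ K).coeToSubmodule.sub_mem
          (FractionalIdeal.mul_mem_mul (hPm _ _ p3) h1a)
          (FractionalIdeal.mul_mem_mul (hPm _ _ p1) haa)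
    · obtain ⟨d1, d2, d3⟩ := hd t ht t' ht' σ
      have hb : ‖σ ((t.2.1 : K) - t'.2.1)‖ * ‖σ b‖ ≤ 2 * r + 2 * r * ‖σ a‖ := by
        rw [← norm_mul, ← map_mul, e', map_sub, mul_one, map_mul]
        refine (norm_sub_le _ _).trans (add_le_add d3 ?_)
        rw [norm_mul]
        exact mul_le_mul_of_nonneg_right d1 (norm_nonneg _)
      have ha : ‖σ a‖ ≤ m σ := le_max_right _ _
      have h1 := hm1 σ
      have h0 := norm_nonneg (σ ((t.2.1 : K) - t'.2.1))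
      have h0a := norm_nonneg (σ a)
      have q1 : r ≤ r * m σ := le_mul_of_one_le_right hr h1
      have q2 : r * ‖σ a‖ ≤ r * m σ := mul_le_mul_of_nonneg_left ha hr
      have q3 : ‖σ ((t.2.1 : K) - t'.2.1)‖ * ‖σ a‖ ≤ 2 * r * ‖σ a‖ :=
        mul_le_mul_of_nonneg_right d2 h0a
      rw [← mul_div_assoc, le_div_iff₀ (hM0 σ), hM]
      simp only [mul_max_of_nonneg _ _ h0]
      refine max_le (by linarith) (max_le (by linarith) (by linarith)))
  have k2 : ∀ y ∈ A.image fun t => (t.2.1 : K),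
      ((A.filter fun t => (t.2.1 : K) = y).card : ℝ) ≤ 13 ^ finrank ℚ K *
        (r ^ finrank ℚ K * (∏ σ, 2 / m σ) /
          ((FractionalIdeal.absNorm (P * Ia⁻¹) : ℚ) : ℝ)) := by
    intro y _
    have hinj : Set.InjOn (fun t : 𝓞 K × 𝓞 K × 𝓞 K => (t.1 : K))
        (A.filter fun t => (t.2.1 : K) = y : Finset _) := by
      intro t ht t' ht' h
      rw [Finset.mem_coe, Finset.mem_filter] at ht ht'
      have e := (hA t ht.1 t' ht'.1).2.2.2
      have h' : (t.1 : K) = t'.1 := h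
      have h2 : (t.2.1 : K) = t'.2.1 := ht.2.trans ht'.2.symm
      have h3 : (t.2.2 : K) = t'.2.2 := by rw [h', h2] at e; linear_combination e
      exact Prod.ext (RingOfIntegers.coe_injective h')
        (Prod.ext (RingOfIntegers.coe_injective h2) (RingOfIntegers.coe_injective h3))
    rw [← Finset.card_image_of_injOn hinj]
    refine c2 _ ?_
    intro x hx z hz
    obtain ⟨t, ht, rfl⟩ := Finset.mem_image.1 hx
    obtain ⟨t', ht', rfl⟩ := Finset.mem_image.1 hz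
    rw [Finset.mem_filter] at ht ht'
    obtain ⟨p1, -, p3, e⟩ := hA t ht.1 t' ht'.1
    have h2 : (t.2.1 : K) = t'.2.1 := ht.2.trans ht'.2.symm
    have e' : ((t.1 : K) - t'.1) * a = (t.2.2 : K) - t'.2.2 := by
      rw [h2] at e; linear_combination -e
    refine ⟨box_mem_of_mul_le hIa0 ?_, fun σ => ?_⟩
    · rw [hIa, mul_add, FractionalIdeal.spanSingleton_mul_spanSingleton,
        ← FractionalIdeal.sup_eq_add, mul_one, e']
      exact sup_le (FractionalIdeal.spanSingleton_le_iff_mem.2 (hPm _ _ p1))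
        (FractionalIdeal.spanSingleton_le_iff_mem.2 (hPm _ _ p3))
    · obtain ⟨d1, -, d3⟩ := hd t ht.1 t' ht'.1 σ
      have h0 := norm_nonneg (σ ((t.1 : K) - t'.1))
      rw [← e', map_mul, norm_mul] at d3
      rw [← mul_div_assoc, le_div_iff₀ (hm0 σ), hm]
      simp only [mul_max_of_nonneg _ _ h0]
      exact max_le (by linarith) (by linarith)
  have hNP : (0 : ℝ) < Ideal.absNorm 𝔓 := by
    have : Ideal.absNorm 𝔓 ≠ 0 := fun h => h𝔓 (Ideal.absNorm_eq_zero_iff.1 h)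
    positivity
  have hNa := box_norm_pos hIa0
  have hNI := box_norm_pos hI0
  have hpm : 0 < ∏ σ, m σ := Finset.prod_pos fun σ _ => hm0 σ
  have hpM : 0 < ∏ σ, M σ := Finset.prod_pos fun σ _ => hM0 σ
  have hsum : (A.card : ℝ) = ∑ y ∈ A.image fun t => (t.2.1 : K),
      ((A.filter fun t => (t.2.1 : K) = y).card : ℝ) := by
    exact_mod_cast Finset.card_eq_sum_card_image (fun t : 𝓞 K × 𝓞 K × 𝓞 K => (t.2.1 : K)) A
  have k3 := (Finset.sum_le_card_nsmul _ _ _ k2)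
  rw [← hsum, nsmul_eq_mul] at k3
  have hN2 := box_norm_pos hJ2
  have hw2 : 0 < ∏ σ, 2 / m σ := Finset.prod_pos fun σ _ => div_pos two_pos (hm0 σ)
  refine k3.trans ((mul_le_mul_of_nonneg_right k1 (by positivity)).trans (le_of_eq ?_))
  rw [Finset.prod_div_distrib, Finset.prod_div_distrib, Finset.prod_mul_distrib, Finset.prod_const,
    Finset.prod_const, Finset.card_univ, Embeddings.card K ℂ]
  simp only [map_mul, map_inv₀, hP, FractionalIdeal.coeIdeal_absNorm]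
  push_cast
  have e : (1352 : ℝ) ^ finrank ℚ K =
      13 ^ finrank ℚ K * 13 ^ finrank ℚ K * 4 ^ finrank ℚ K * 2 ^ finrank ℚ K := by
    rw [← mul_pow, ← mul_pow, ← mul_pow]; norm_num
  rw [e]
  field_simp
  ring

end Pool.Agent.Lib.MP_a147dc_co.B
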