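import Pool.Agent.Lib.MP_a147dc_co.B.Defs

/-! Solutions of a linear equation on the cone over an elliptic quadric. -/

namespace Pool.Agent.Lib.MP_a147dc_co.B

open Finset

variable {F : Type*} [Field F] [Fintype F] [DecidableEq F]

lemma cone_mem {d γ : F} {u : Fin 4 → F} :
    u ∈ Cone d γ ↔ u 0 ≠ 0 ∧ u 0 * u 3 = u 1 ^ 2 - d * u 2 ^ 2 + γ * u 0 ^ 2 := by
  simp [Cone]

lemma cone_sol {d γ a b c : F} {k : Fin 4 → F} {t : (Fin 4 → F) × (Fin 4 → F) × (Fin 4 → F)} :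
    t ∈ Sol4 d γ a b c k ↔ t.1 ∈ Cone d γ ∧ t.2.1 ∈ Cone d γ ∧ t.2.2 ∈ Cone d γ ∧
      ∀ i, a * t.1 i + b * t.2.1 i + c * t.2.2 i = k i := by
  simp only [Sol4, mem_filter, mem_product, and_assoc]

lemma cone_ext {d γ : F} {u v : Fin 4 → F} (hu : u ∈ Cone d γ) (hv : v ∈ Cone d γ)
    (h0 : u 0 = v 0) (h1 : u 1 = v 1) (h2 : u 2 = v 2) : u = v := by
  obtain ⟨a0, a1⟩ := cone_mem.1 hu
  obtain ⟨-, b1⟩ := cone_mem.1 hv
  have h3 : u 3 = v 3 := by
    refine mul_left_cancel₀ a0 ?_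
    rw [a1, h0, b1, h1, h2]
  funext i
  fin_cases i
  exacts [h0, h1, h2, h3]

lemma cone_card (d γ : F) : (Cone d γ).card ≤ Fintype.card F ^ 3 := by
  have h := card_le_card_of_injOn (s := Cone d γ) (t := (univ : Finset (F × F × F)))
    (fun u => (u 0, u 1, u 2)) (fun _ _ => mem_coe.2 (mem_univ _)) (fun u hu v hv e => by
      simp only [Prod.mk.injEq] at e
      exact cone_ext hu hv e.1 e.2.1 e.2.2)
  refine h.trans_eq ?_
  simp only [card_univ, Fintype.card_prod]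
  ring

lemma cone_swap23 (d γ a b c : F) (k : Fin 4 → F) :
    (Sol4 d γ a b c k).card ≤ (Sol4 d γ a c b k).card := by
  refine card_le_card_of_injOn (fun t => (t.1, t.2.2, t.2.1)) (fun t ht => ?_) fun t _ s _ e => ?_
  · obtain ⟨h1, h2, h3, h4⟩ := cone_sol.1 ht
    exact cone_sol.2 ⟨h1, h3, h2, fun i => by rw [← h4 i]; ring⟩
  · simp only [Prod.mk.injEq] at e
    exact Prod.ext e.1 (Prod.ext e.2.2 e.2.1)

lemma cone_swap13 (d γ a b c : F) (k : Fin 4 → F) :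
    (Sol4 d γ a b c k).card ≤ (Sol4 d γ c b a k).card := by
  refine card_le_card_of_injOn (fun t => (t.2.2, t.2.1, t.1)) (fun t ht => ?_) fun t _ s _ e => ?_
  · obtain ⟨h1, h2, h3, h4⟩ := cone_sol.1 ht
    exact cone_sol.2 ⟨h3, h2, h1, fun i => by rw [← h4 i]; ring⟩
  · simp only [Prod.mk.injEq] at e
    exact Prod.ext e.2.2 (Prod.ext e.2.1 e.1)

/-- the first and the third vector determine the second -/
lemma cone_det {d γ a b c : F} {k : Fin 4 → F} (hb : b ≠ 0)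
    {t s : (Fin 4 → F) × (Fin 4 → F) × (Fin 4 → F)} (ht : t ∈ Sol4 d γ a b c k)
    (hs : s ∈ Sol4 d γ a b c k) (h1 : t.1 = s.1) (h3 : t.2.2 = s.2.2) : t = s := by
  refine Prod.ext h1 (Prod.ext (funext fun i => mul_left_cancel₀ hb ?_) h3)
  have e1 := (cone_sol.1 ht).2.2.2 i
  have e2 := (cone_sol.1 hs).2.2.2 i
  rw [h1, h3] at e1
  linear_combination e1 - e2

lemma cone_any {d γ a b c : F} (k : Fin 4 → F) (hb : b ≠ 0) :
    (Sol4 d γ a b c k).card ≤ Fintype.card F ^ 6 := by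
  have h := card_le_card_of_injOn (s := Sol4 d γ a b c k) (t := Cone d γ ×ˢ Cone d γ)
    (fun t => (t.1, t.2.2))
    (fun t ht => mem_coe.2 (mem_product.2 ⟨(cone_sol.1 ht).1, (cone_sol.1 ht).2.2.1⟩))
    (fun t ht s hs e => by
      simp only [Prod.mk.injEq] at e
      exact cone_det hb ht hs e.1 e.2)
  rw [card_product] at h
  refine (h.trans (Nat.mul_le_mul (cone_card d γ) (cone_card d γ))).trans_eq ?_
  ring

lemma cone_prop {d γ a b c : F} (hd : ¬ IsSquare d) (ha : a ≠ 0) (hc : c ≠ 0)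
    {t : (Fin 4 → F) × (Fin 4 → F) × (Fin 4 → F)} (ht : t ∈ Sol4 d γ a b c 0) :
    t.1 0 * t.2.2 1 = t.2.2 0 * t.1 1 ∧ t.1 0 * t.2.2 2 = t.2.2 0 * t.1 2 := by
  obtain ⟨u, v, w⟩ := t
  obtain ⟨h1, h2, h3, h4⟩ := cone_sol.1 ht
  obtain ⟨-, hu⟩ := cone_mem.1 h1
  obtain ⟨-, hv⟩ := cone_mem.1 h2
  obtain ⟨-, hw⟩ := cone_mem.1 h3
  have e : ∀ i, b * v i = -(a * u i + c * w i) := fun i => by
    have := h4 i
    simp only [Pi.zero_apply] at this
    linear_combination this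
  dsimp only at hu hv hw ⊢
  have e1 : (b * v 0) * (b * v 3) = (b * v 1) ^ 2 - d * (b * v 2) ^ 2 + γ * (b * v 0) ^ 2 := by
    linear_combination b ^ 2 * hv
  rw [e 0, e 1, e 2, e 3] at e1
  have e2 : u 0 * w 3 + u 3 * w 0 - 2 * u 1 * w 1 + 2 * d * u 2 * w 2 - 2 * γ * u 0 * w 0 = 0 := by
    refine mul_left_cancel₀ (mul_ne_zero ha hc) ?_
    linear_combination e1 - a ^ 2 * hu - c ^ 2 * hw
  have e3 : (u 0 * w 1 - w 0 * u 1) ^ 2 = d * (u 0 * w 2 - w 0 * u 2) ^ 2 := by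
    linear_combination u 0 * w 0 * e2 - w 0 ^ 2 * hu - u 0 ^ 2 * hw
  have e4 : u 0 * w 2 - w 0 * u 2 = 0 := by
    by_contra hne
    refine hd ⟨(u 0 * w 1 - w 0 * u 1) / (u 0 * w 2 - w 0 * u 2), ?_⟩
    rw [div_mul_div_comm, eq_div_iff (mul_ne_zero hne hne)]
    linear_combination -e3
  rw [e4, zero_pow two_ne_zero, mul_zero] at e3
  exact ⟨sub_eq_zero.1 (pow_eq_zero_iff two_ne_zero |>.1 e3), sub_eq_zero.1 e4⟩

lemma sol_low {d γ a b c : F} (hd : ¬ IsSquare d) (ha : a ≠ 0) (hb : b ≠ 0) (hc : c ≠ 0) :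
    (Sol4 d γ a b c 0).card ≤ Fintype.card F ^ 4 := by
  have h := card_le_card_of_injOn (s := Sol4 d γ a b c 0) (t := Cone d γ ×ˢ (univ : Finset F))
    (fun t => (t.1, t.2.2 0))
    (fun t ht => mem_coe.2 (mem_product.2 ⟨(cone_sol.1 ht).1, mem_univ _⟩))
    (fun t ht s hs e => by
      simp only [Prod.mk.injEq] at e
      obtain ⟨p1, p2⟩ := cone_prop hd ha hc ht
      obtain ⟨q1, q2⟩ := cone_prop hd ha hc hs
      have h0 := (cone_mem.1 (cone_sol.1 hs).1).1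
      rw [e.1, e.2] at p1 p2
      exact cone_det hb ht hs e.1 (cone_ext (cone_sol.1 ht).2.2.1 (cone_sol.1 hs).2.2.1 e.2
        (mul_left_cancel₀ h0 (p1.trans q1.symm)) (mul_left_cancel₀ h0 (p2.trans q2.symm))))
  rw [card_product, card_univ] at h
  exact (h.trans (Nat.mul_le_mul_right _ (cone_card d γ))).trans_eq (pow_succ _ _).symm

lemma sol_any {d γ a b c : F} (k : Fin 4 → F)
    (h : (a ≠ 0 ∧ b ≠ 0) ∨ (a ≠ 0 ∧ c ≠ 0) ∨ (b ≠ 0 ∧ c ≠ 0)) :
    (Sol4 d γ a b c k).card ≤ Fintype.card F ^ 6 := by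
  rcases h with h | h | h
  · exact cone_any k h.2
  · exact (cone_swap23 d γ a b c k).trans (cone_any k h.2)
  · exact cone_any k h.1

/-- hyperplane sections of the cone -/
lemma cone_hyp {d γ e : F} {k : Fin 4 → F} (h2 : (2 : F) ≠ 0) (hd : d ≠ 0)
    (hk : k 0 ≠ 0 ∨ k 1 ≠ 0 ∨ k 2 ≠ 0) (S : Finset (Fin 4 → F)) (hS : S ⊆ Cone d γ)
    (he : ∀ u ∈ S, k 0 * u 3 + k 3 * u 0 - 2 * k 1 * u 1 + 2 * d * k 2 * u 2
      - 2 * γ * k 0 * u 0 = e) : S.card ≤ 2 * Fintype.card F ^ 2 := by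
  have hq : (univ : Finset (F × F)).card = Fintype.card F ^ 2 := by
    rw [card_univ, Fintype.card_prod, sq]
  rw [← hq]
  by_cases h0 : k 0 = 0
  · refine le_trans ?_ (Nat.le_mul_of_pos_left _ two_pos)
    by_cases h1 : k 1 = 0
    · have h3 : k 2 ≠ 0 := by tauto
      refine card_le_card_of_injOn (fun u => (u 0, u 1)) (fun _ _ => mem_coe.2 (mem_univ _))
        fun u hu v hv p => ?_
      simp only [Prod.mk.injEq] at p
      refine cone_ext (hS hu) (hS hv) p.1 p.2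
        (mul_left_cancel₀ (mul_ne_zero (mul_ne_zero h2 hd) h3) ?_)
      have a1 := he u hu
      have a2 := he v hv
      rw [h0, h1] at a1 a2
      rw [p.1] at a1
      linear_combination a1 - a2
    · refine card_le_card_of_injOn (fun u => (u 0, u 2)) (fun _ _ => mem_coe.2 (mem_univ _))
        fun u hu v hv p => ?_
      simp only [Prod.mk.injEq] at p
      refine cone_ext (hS hu) (hS hv) p.1 (mul_left_cancel₀ (mul_ne_zero h2 h1) ?_) p.2
      have a1 := he u hu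
      have a2 := he v hv
      rw [h0] at a1 a2
      rw [p.1, p.2] at a1
      linear_combination a2 - a1
  · refine card_le_mul_card_image_of_maps_to (f := fun u => (u 0, u 1)) (fun _ _ => mem_univ _) 2
      fun x _ => ?_
    rcases (S.filter fun u => (u 0, u 1) = x).eq_empty_or_nonempty with h | ⟨v, hv'⟩
    · rw [h]; exact Nat.zero_le _
    obtain ⟨hv, hx⟩ := mem_filter.1 hv'
    clear hv'
    subst hx
    refine (card_le_card_of_injOn (t := {v 2, 2 * k 2 * v 0 / k 0 - v 2}) (fun u => u 2)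
      (fun u hu => ?_) fun u hu w hw p => ?_).trans card_le_two
    · obtain ⟨hu, p⟩ := mem_filter.1 hu
      simp only [Prod.mk.injEq] at p
      have a1 := he u hu
      have a2 := he v hv
      have a3 := (cone_mem.1 (hS hu)).2
      have a4 := (cone_mem.1 (hS hv)).2
      rw [p.1, p.2] at a1 a3
      have a5 : d * ((u 2 - v 2) * (k 0 * (u 2 + v 2) - 2 * k 2 * v 0)) = 0 := by
        linear_combination v 0 * a2 - v 0 * a1 + k 0 * a3 - k 0 * a4
      rw [mem_coe, mem_insert, mem_singleton]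
      rcases mul_eq_zero.1 ((mul_eq_zero.1 a5).resolve_left hd) with h | h
      · exact Or.inl (sub_eq_zero.1 h)
      · refine Or.inr ?_
        rw [eq_sub_iff_add_eq, eq_div_iff h0]
        linear_combination h
    · obtain ⟨hu, p1⟩ := mem_filter.1 hu
      obtain ⟨hw, p2⟩ := mem_filter.1 hw
      have p3 := p1.trans p2.symm
      simp only [Prod.mk.injEq] at p3
      exact cone_ext (hS hu) (hS hw) p3.1 p3.2 p

lemma cone_gen {d γ a b c : F} {k : Fin 4 → F} (h2 : (2 : F) ≠ 0) (hd : d ≠ 0) (ha : a ≠ 0)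
    (hb : b ≠ 0) (hk : c ≠ 0 ∨ k 0 ≠ 0 ∨ k 1 ≠ 0 ∨ k 2 ≠ 0) :
    (Sol4 d γ a b c k).card ≤ 3 * Fintype.card F ^ 5 := by
  set p : (Fin 4 → F) × (Fin 4 → F) × (Fin 4 → F) → Prop := fun t =>
    k 0 = c * t.2.2 0 ∧ k 1 = c * t.2.2 1 ∧ k 2 = c * t.2.2 2 with hp
  have h1 : ((Sol4 d γ a b c k).filter p).card ≤ (Cone d γ).card := by
    refine card_le_card_of_injOn (fun t => t.1)
      (fun t ht => mem_coe.2 (cone_sol.1 (mem_filter.1 ht).1).1) fun t ht s hs e => ?_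
    obtain ⟨ht, t0, t1, t2⟩ := mem_filter.1 ht
    obtain ⟨hs, s0, s1, s2⟩ := mem_filter.1 hs
    have hc : c ≠ 0 := by
      rintro rfl
      rw [zero_mul] at t0 t1 t2
      tauto
    exact cone_det hb ht hs e (cone_ext (cone_sol.1 ht).2.2.1 (cone_sol.1 hs).2.2.1
      (mul_left_cancel₀ hc (t0.symm.trans s0)) (mul_left_cancel₀ hc (t1.symm.trans s1))
      (mul_left_cancel₀ hc (t2.symm.trans s2)))
  have h3 : ((Sol4 d γ a b c k).filter fun t => ¬ p t).card ≤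
      2 * Fintype.card F ^ 2 * (Cone d γ).card := by
    refine card_le_mul_card_image_of_maps_to (f := fun t => t.2.2)
      (fun t ht => (cone_sol.1 (mem_filter.1 ht).1).2.2.1) _ fun w _ => ?_
    set T := ((Sol4 d γ a b c k).filter fun t => ¬ p t).filter fun t => t.2.2 = w with hT
    rcases T.eq_empty_or_nonempty with h | ⟨s, hs⟩
    · rw [h]; exact Nat.zero_le _
    have hm : ∀ t ∈ T, t ∈ Sol4 d γ a b c k ∧ ¬ p t ∧ t.2.2 = w := fun t ht =>
      ⟨(mem_filter.1 (mem_filter.1 ht).1).1, (mem_filter.1 (mem_filter.1 ht).1).2,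
        (mem_filter.1 ht).2⟩
    rw [← card_image_of_injOn (f := fun t => t.1) fun t ht s hs e =>
      cone_det hb (hm t ht).1 (hm s hs).1 e ((hm t ht).2.2.trans (hm s hs).2.2.symm)]
    set l : Fin 4 → F := fun i => k i - c * w i with hl
    refine cone_hyp (k := l) (γ := γ)
      (e := (l 0 * l 3 - l 1 ^ 2 + d * l 2 ^ 2 - γ * l 0 ^ 2) / a) h2 hd ?_ _ ?_ ?_
    · have := (hm s hs).2.1
      simp only [hp, (hm s hs).2.2] at this
      simp only [hl, ne_eq, sub_eq_zero]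
      tauto
    · intro u hu
      obtain ⟨t, ht, rfl⟩ := mem_image.1 hu
      exact (cone_sol.1 (hm t ht).1).1
    · intro u hu
      obtain ⟨t, ht, rfl⟩ := mem_image.1 hu
      obtain ⟨a1, a2, -, a4⟩ := cone_sol.1 (hm t ht).1
      have e : ∀ i, l i = a * t.1 i + b * t.2.1 i := fun i => by
        have := a4 i
        rw [(hm t ht).2.2] at this
        simp only [hl]
        linear_combination -this
      rw [eq_div_iff ha, e 0, e 1, e 2, e 3]
      linear_combination a ^ 2 * (cone_mem.1 a1).2 - b ^ 2 * (cone_mem.1 a2).2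
  have h4 := card_filter_add_card_filter_not (s := Sol4 d γ a b c k) p
  have h5 := cone_card d γ
  have h6 : Fintype.card F ^ 3 ≤ Fintype.card F ^ 5 :=
    Nat.pow_le_pow_right Fintype.card_pos (by norm_num)
  have h7 : 2 * Fintype.card F ^ 2 * (Cone d γ).card ≤ 2 * Fintype.card F ^ 5 :=
    (Nat.mul_le_mul_left _ h5).trans_eq (by ring)
  omega

lemma sol_gen {d γ a b c : F} {k : Fin 4 → F} (h2 : (2 : F) ≠ 0) (hd : d ≠ 0)
    (h : (a ≠ 0 ∧ b ≠ 0) ∨ (a ≠ 0 ∧ c ≠ 0) ∨ (b ≠ 0 ∧ c ≠ 0))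
    (hk : (a ≠ 0 ∧ b ≠ 0 ∧ c ≠ 0) ∨ k 0 ≠ 0 ∨ k 1 ≠ 0 ∨ k 2 ≠ 0) :
    (Sol4 d γ a b c k).card ≤ 3 * Fintype.card F ^ 5 := by
  rcases h with h | h | h
  · exact cone_gen h2 hd h.1 h.2 (hk.imp_left fun x => x.2.2)
  · exact (cone_swap23 d γ a b c k).trans (cone_gen h2 hd h.1 h.2 (hk.imp_left fun x => x.2.1))
  · exact (cone_swap13 d γ a b c k).trans (cone_gen h2 hd h.2 h.1 (hk.imp_left fun x => x.1))

end Pool.Agent.Lib.MP_a147dc_co.B
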