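import Pool.Agent.Lib.MP_a147dc_co.B.Cell
import Pool.Agent.Lib.MP_a147dc_co.B.Cone
import Pool.Agent.Lib.MP_a147dc_co.B.Box

/-! Counting the lifted solutions by their carries. -/

namespace Pool.Agent.Lib.MP_a147dc_co.B

open Finset NumberField Module Polynomial Filter
open scoped nonZeroDivisors

lemma nc_count {α β γ : Type*} [DecidableEq β] [DecidableEq γ] (N : Finset α) (κ : α → β)
    (π : α → γ) (S : β → Finset γ) (hS : ∀ t ∈ N, π t ∈ S (κ t)) {B : ℝ}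
    (hB : ∀ k c, ((N.filter fun t => κ t = k ∧ π t = c).card : ℝ) ≤ B) :
    (N.card : ℝ) ≤ (∑ k ∈ N.image κ, ((S k).card : ℝ)) * B := by
  rw [card_eq_sum_card_image κ N, Nat.cast_sum, sum_mul]
  refine sum_le_sum fun k _ => ?_
  rw [card_eq_sum_card_fiberwise (f := π) (t := S k) fun t ht => by
    obtain ⟨h1, h2⟩ := mem_filter.1 (mem_coe.1 ht)
    exact mem_coe.2 (h2 ▸ hS t h1), Nat.cast_sum]
  refine (sum_le_card_nsmul _ _ B fun c _ => ?_).trans_eq (nsmul_eq_mul _ _)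
  rw [filter_filter]
  exact hB k c

lemma nc_fib {R : Type*} [DecidableEq R] (A : Finset ((Fin 4 → R) × (Fin 4 → R) × (Fin 4 → R)))
    {B : ℝ} (h : ∀ i, ((A.image fun t => (t.1 i, t.2.1 i, t.2.2 i)).card : ℝ) ≤ B) :
    (A.card : ℝ) ≤ B ^ 4 := by
  have h1 : A.card ≤
      (Fintype.piFinset fun i => A.image fun t => (t.1 i, t.2.1 i, t.2.2 i)).card := by
    refine card_le_card_of_injOn (fun t i => (t.1 i, t.2.1 i, t.2.2 i)) (fun t ht => ?_)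
      fun t _ t' _ e => ?_
    · exact mem_coe.2 (Fintype.mem_piFinset.2 fun i => mem_image_of_mem _ ht)
    · have e' := fun i => congrFun e i
      simp only [Prod.mk.injEq] at e'
      exact Prod.ext (funext fun i => (e' i).1)
        (Prod.ext (funext fun i => (e' i).2.1) (funext fun i => (e' i).2.2))
  rw [Fintype.card_piFinset] at h1
  refine (Nat.cast_le.2 h1).trans ?_
  rw [Nat.cast_prod]
  exact (prod_le_prod (fun _ _ => Nat.cast_nonneg _) fun i _ => h i).trans_eq (by simp)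

lemma nc_num {c A u q k₀ : ℝ} (hc : 1 ≤ c) (c' : ℝ) (hc' : 0 ≤ c') (hA : A = c' * (c * u))
    (hq : 1 ≤ q) (hu : q ≤ u ^ 3) (hu0 : 0 ≤ u) (h0 : 0 ≤ k₀) (hk : k₀ ≤ c' * max 1 (c * u / q)) :
    k₀ ^ 3 * q ≤ A ^ 3 := by
  refine (mul_le_mul_of_nonneg_right (pow_le_pow_left₀ h0 hk 3) (by linarith)).trans ?_
  rw [hA, mul_pow, mul_pow c', mul_assoc]
  refine mul_le_mul_of_nonneg_left ?_ (by positivity)
  rcases le_total 1 (c * u / q) with h | h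
  · rw [max_eq_right h, div_pow, div_mul_eq_mul_div, div_le_iff₀ (by positivity)]
    refine mul_le_mul_of_nonneg_left ?_ (by positivity)
    exact le_self_pow₀ hq three_ne_zero
  · rw [max_eq_left h, one_pow, one_mul, mul_pow]
    exact hu.trans (le_mul_of_one_le_left (by positivity) (one_le_pow₀ hc))

lemma nc_two {p : Fin 3 → Prop} (h : ∃ i, ¬ p i)
    (h' : (p 0 → p 1 → p 2) ∧ (p 0 → p 2 → p 1) ∧ (p 1 → p 2 → p 0)) :
    (¬ p 1 ∧ ¬ p 2) ∨ (¬ p 1 ∧ ¬ p 0) ∨ (¬ p 2 ∧ ¬ p 0) := by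
  simp only [Fin.exists_fin_succ, IsEmpty.exists_iff, Fin.succ_zero_eq_one,
    Fin.succ_one_eq_two] at h
  tauto

variable {K : Type*} [Field K] [NumberField K]

/-- the ideal generated by the coefficients -/
noncomputable def ncI (a b : K) : FractionalIdeal (𝓞 K)⁰ K :=
  1 + FractionalIdeal.spanSingleton (𝓞 K)⁰ a + FractionalIdeal.spanSingleton (𝓞 K)⁰ b

/-- the size of the coefficients -/
noncomputable def ncM (a b : K) (σ : K →+* ℂ) : ℝ := max 1 (max ‖σ a‖ ‖σ b‖)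

/-- the height of the coefficients -/
noncomputable def ncH (a b : K) : ℝ :=
  (∏ σ, ncM a b σ) / ((FractionalIdeal.absNorm (ncI a b) : ℚ) : ℝ)

variable {a b : K}

lemma nc_mem (i : Fin 3) : ![1, a, b] i ∈ ncI a b := by
  have h0 := fun I : FractionalIdeal (𝓞 K)⁰ K => FractionalIdeal.zero_mem I
  fin_cases i
  · exact (FractionalIdeal.mem_add _ _ _).2 ⟨1, (FractionalIdeal.mem_add _ _ _).2
      ⟨1, FractionalIdeal.one_mem_one _, 0, h0 _, add_zero _⟩, 0, h0 _, add_zero _⟩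
  · exact (FractionalIdeal.mem_add _ _ _).2 ⟨a, (FractionalIdeal.mem_add _ _ _).2
      ⟨0, h0 _, a, FractionalIdeal.mem_spanSingleton_self _ _, zero_add _⟩, 0, h0 _, add_zero _⟩
  · exact (FractionalIdeal.mem_add _ _ _).2
      ⟨0, h0 _, b, FractionalIdeal.mem_spanSingleton_self _ _, zero_add _⟩

lemma nc_ne : ncI a b ≠ 0 := fun h => by
  have h1 := nc_mem (a := a) (b := b) 0
  rw [h, FractionalIdeal.mem_zero_iff] at h1
  exact one_ne_zero h1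

lemma nc_rep {x : K} (hx : x ∈ ncI a b) : ∃ r s t : 𝓞 K, x = r + s * a + t * b := by
  obtain ⟨y, hy, z, hz, rfl⟩ := (FractionalIdeal.mem_add _ _ _).1 hx
  obtain ⟨u, hu, v, hv, rfl⟩ := (FractionalIdeal.mem_add _ _ _).1 hy
  obtain ⟨r, rfl⟩ := (FractionalIdeal.mem_one_iff _).1 hu
  obtain ⟨s, rfl⟩ := (FractionalIdeal.mem_spanSingleton _).1 hv
  obtain ⟨t, rfl⟩ := (FractionalIdeal.mem_spanSingleton _).1 hz
  exact ⟨r, s, t, rfl⟩

lemma nc_comb (r s t : 𝓞 K) : (r : K) + s * a + t * b ∈ ncI a b := by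
  have h := fun (c : 𝓞 K) i => (ncI a b : Submodule (𝓞 K) K).smul_mem c (nc_mem i)
  have h1 := add_mem (add_mem (h r 0) (h s 1)) (h t 2)
  rw [FractionalIdeal.mem_coe] at h1
  simpa [Algebra.smul_def] using h1

lemma nc_norm_pos {I : FractionalIdeal (𝓞 K)⁰ K} (hI : I ≠ 0) :
    (0 : ℝ) < ((FractionalIdeal.absNorm I : ℚ) : ℝ) := by
  exact_mod_cast (FractionalIdeal.absNorm_nonneg I).lt_of_ne'
    (mt FractionalIdeal.absNorm_eq_zero_iff.1 hI)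

omit [NumberField K] in
lemma nc_one_le (σ : K →+* ℂ) : 1 ≤ ncM a b σ := le_max_left _ _

omit [NumberField K] in
lemma nc_le (σ : K →+* ℂ) (i : Fin 3) : ‖σ (![1, a, b] i)‖ ≤ ncM a b σ := by
  fin_cases i
  · simpa using nc_one_le σ
  · exact le_max_of_le_right (le_max_left _ _)
  · exact le_max_of_le_right (le_max_right _ _)

lemma nc_one_le_H : 1 ≤ ncH a b := by
  rw [ncH, le_div_iff₀ (nc_norm_pos nc_ne), one_mul]
  exact (absNorm_le_prod nc_ne (nc_mem 0) one_ne_zero).trans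
    (prod_le_prod (fun _ _ => norm_nonneg _) fun σ _ => nc_le σ 0)

lemma nc_low {H : ℕ} (ha : Low H a) (hb : Low H b) : ncH a b ≤ ((H : ℝ) ^ 3) ^ finrank ℚ K := by
  obtain ⟨d, d1, d2, d3, d4⟩ := ha
  obtain ⟨d', e1, e2, e3, e4⟩ := hb
  have hH : (1 : ℝ) ≤ H := by exact_mod_cast d1.trans d2
  have h0 : ((d * d' : ℕ) : K) ≠ 0 := by exact_mod_cast (by positivity : d * d' ≠ 0)
  have h1 : FractionalIdeal.spanSingleton (𝓞 K)⁰ ((d * d' : ℕ) : K) * ncI a b ≤ 1 := fun x hx => by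
    obtain ⟨y, hy, rfl⟩ := FractionalIdeal.mem_singleton_mul.1 hx
    obtain ⟨r, s, t, rfl⟩ := nc_rep hy
    refine (FractionalIdeal.mem_one_iff _).2
      ⟨d * d' * r + d' * s * ⟨_, d3⟩ + d * t * ⟨_, e3⟩, ?_⟩
    simp only [map_add, map_mul, map_natCast, RingOfIntegers.map_mk, Nat.cast_mul]
    ring
  obtain ⟨B, hB⟩ := FractionalIdeal.le_one_iff_exists_coeIdeal.1 h1
  have h2 : B ≠ ⊥ := fun e => mul_ne_zero (FractionalIdeal.spanSingleton_ne_zero_iff.2 h0) nc_ne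
    (by rw [← hB, e, FractionalIdeal.coeIdeal_bot])
  have h3 := congrArg (fun I => ((FractionalIdeal.absNorm I : ℚ) : ℝ)) hB
  simp only [map_mul, FractionalIdeal.coeIdeal_absNorm, FractionalIdeal.absNorm_span_singleton,
    Rat.cast_mul, Rat.cast_abs, abs_norm_eq, map_natCast, Complex.norm_natCast, prod_const,
    card_univ, Embeddings.card, Rat.cast_natCast] at h3
  have h4 : (1 : ℝ) ≤ Ideal.absNorm B := by
    exact_mod_cast Nat.pos_of_ne_zero (mt Ideal.absNorm_eq_zero_iff.1 h2)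
  have h5 : ∏ σ, ncM a b σ ≤ (H : ℝ) ^ finrank ℚ K :=
    (prod_le_prod (fun σ _ => zero_le_one.trans (nc_one_le σ)) fun σ _ =>
      max_le hH (max_le (d4 σ) (e4 σ))).trans_eq (by simp [Embeddings.card])
  have h6 : ((d * d' : ℕ) : ℝ) ^ finrank ℚ K ≤ ((H : ℝ) ^ 2) ^ finrank ℚ K :=
    pow_le_pow_left₀ (by positivity) (by rw [sq]; exact_mod_cast Nat.mul_le_mul d2 e2) _
  have h7 := (nc_norm_pos (nc_ne (a := a) (b := b))).le
  rw [ncH, div_le_iff₀ (nc_norm_pos nc_ne), pow_succ' (H : ℝ) 2, mul_pow, mul_assoc]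
  refine h5.trans (le_mul_of_one_le_right (by positivity) ?_)
  exact (h4.trans_eq h3).trans (mul_le_mul_of_nonneg_right h6 h7)

lemma nc_prime {𝔓 : Ideal (𝓞 K)} [h𝔓 : 𝔓.IsMaximal] {w : K} {y : Fin 3 → 𝓞 K}
    (hy : ∀ i, (y i : K) = w * ![1, a, b] i) (h : ∃ i, y i ∉ 𝔓) {x : K} (hx : x ∈ ncI a b)
    {z : 𝓞 K} (hz : (z : K) = w * x) (hz' : z ∈ 𝔓) :
    x ∈ (𝔓 : FractionalIdeal (𝓞 K)⁰ K) * ncI a b := by
  obtain ⟨i, hi⟩ := h
  obtain ⟨c, p, hp, e⟩ := h𝔓.exists_inv hi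
  have e' : (c : K) * y i + p = 1 := by exact_mod_cast congrArg (algebraMap (𝓞 K) K) e
  have h1 := (((𝔓 : FractionalIdeal (𝓞 K)⁰ K) * ncI a b : FractionalIdeal (𝓞 K)⁰ K) :
    Submodule (𝓞 K) K).add_mem
    (FractionalIdeal.mul_mem_mul (FractionalIdeal.mem_coeIdeal_of_mem _ (𝔓.mul_mem_left c hz'))
      (nc_mem i)) (FractionalIdeal.mul_mem_mul (FractionalIdeal.mem_coeIdeal_of_mem _ hp) hx)
  have h2 : algebraMap (𝓞 K) K (c * z) * ![1, a, b] i + algebraMap (𝓞 K) K p * x = x := by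
    rw [map_mul]
    change (c : K) * z * _ + (p : K) * x = x
    linear_combination x * e' + (c * ![1, a, b] i) * hz - (c * x) * hy i
  rwa [h2] at h1

lemma nc_cell {I : FractionalIdeal (𝓞 K)⁰ K} (hI : I ≠ 0) {W : ℝ} (hW : 0 < W) (A : Finset K)
    (hA : ∀ x ∈ A, x ∈ I ∧ ∀ σ, ‖σ x‖ ≤ ncM a b σ / W) : (A.card : ℝ) ≤ 13 ^ finrank ℚ K *
      max 1 (2 ^ finrank ℚ K * ((∏ σ, ncM a b σ) / ((FractionalIdeal.absNorm I : ℚ) : ℝ) /
        W ^ finrank ℚ K)) := by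
  have h := cell A (fun σ => 2 * (ncM a b σ / W))
    (fun σ => by have := nc_one_le (a := a) (b := b) σ; positivity)
    (fun σ => by simp [ncM, ComplexEmbedding.conjugate_coe_eq]) hI fun x hx x' hx' =>
      ⟨(I : Submodule (𝓞 K) K).sub_mem (hA x hx).1 (hA x' hx').1, fun σ => by
        rw [map_sub]
        linarith [norm_sub_le (σ x) (σ x'), (hA x hx).2 σ, (hA x' hx').2 σ]⟩
  rw [prod_mul_distrib, prod_div_distrib, prod_const, prod_const, card_univ, Embeddings.card] at h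
  refine h.trans_eq ?_
  congr 2
  ring

/-- the carry -/
noncomputable def ncK (Q : ℕ) (a b : K)
    (t : (Fin 4 → 𝓞 K) × (Fin 4 → 𝓞 K) × (Fin 4 → 𝓞 K)) (i : Fin 4) : K :=
  ((t.2.2 i : K) - a * t.1 i - b * t.2.1 i) / Q

lemma nc_BB {𝔓 : Ideal (𝓞 K)} {d γ : 𝓞 K} {r : ℝ} {u : Fin 4 → 𝓞 K} (h : u ∈ BB 𝔓 d γ r) :
    (∀ i, Bd r (u i : K)) ∧ u 0 ∉ 𝔓 ∧ u 0 * u 3 - (u 1 ^ 2 - d * u 2 ^ 2 + γ * u 0 ^ 2) ∈ 𝔓 := by
  simpa only [BB, mem_filter, Fintype.mem_piFinset, mem_Bx] using h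

lemma nc_NN {𝔓 : Ideal (𝓞 K)} {d γ : 𝓞 K} {r : ℝ} {Q e : ℕ}
    {t : (Fin 4 → 𝓞 K) × (Fin 4 → 𝓞 K) × (Fin 4 → 𝓞 K)} (h : t ∈ NN 𝔓 d γ r Q e a b) :
    (t.1 ∈ BB 𝔓 d γ r ∧ t.2.1 ∈ BB 𝔓 d γ r ∧ t.2.2 ∈ BB 𝔓 d γ r) ∧
      ∀ i, ∃ y : 𝓞 K, (e : K) * ((t.2.2 i : K) - a * t.1 i - b * t.2.1 i) = Q * y := by
  simpa only [NN, mem_filter, mem_product] using h

lemma nc_carry {𝔓 : Ideal (𝓞 K)} {d γ : 𝓞 K} {W : ℝ} (hW : 0 < W) {Q e : ℕ} (hQ : 1 ≤ Q)
    (hQe : Q.Coprime e) {t : (Fin 4 → 𝓞 K) × (Fin 4 → 𝓞 K) × (Fin 4 → 𝓞 K)}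
    (h : t ∈ NN 𝔓 d γ (Q / (4 * W)) Q e a b) (i : Fin 4) :
    ncK Q a b t i ∈ ncI a b ∧ ∀ σ, ‖σ (ncK Q a b t i)‖ ≤ 3 / 4 * (ncM a b σ / W) := by
  obtain ⟨⟨h1, h2, h3⟩, h4⟩ := nc_NN h
  obtain ⟨y, hy⟩ := h4 i
  have hQ0 : (Q : K) ≠ 0 := by exact_mod_cast (by omega : Q ≠ 0)
  have hQ1 : (0 : ℝ) < Q := by exact_mod_cast hQ
  refine ⟨?_, fun σ => ?_⟩
  · obtain ⟨s, s', hs⟩ : IsCoprime (Q : 𝓞 K) e := hQe.cast
    have hs' : (s : K) * Q + s' * e = 1 := by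
      simpa using congrArg (algebraMap (𝓞 K) K) hs
    have h5 := nc_comb (a := a) (b := b) (s * t.2.2 i + s' * y) (-(s * t.1 i)) (-(s * t.2.1 i))
    refine (congrArg (· ∈ ncI a b) ?_).mp h5
    rw [ncK, eq_div_iff hQ0]
    simp only [map_add, map_mul, map_neg]
    linear_combination ((t.2.2 i : K) - a * t.1 i - b * t.2.1 i) * hs' - s' * hy
  · have k1 := (nc_BB h1).1 i σ
    have k2 := (nc_BB h2).1 i σ
    have k3 := (nc_BB h3).1 i σ
    have m0 := nc_one_le (a := a) (b := b) σ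
    have m1 := mul_le_mul (nc_le (a := a) (b := b) σ 1) k1 (norm_nonneg _) (by linarith)
    have m2 := mul_le_mul (nc_le (a := a) (b := b) σ 2) k2 (norm_nonneg _) (by linarith)
    have m3 := k3.trans (le_mul_of_one_le_left (by positivity) m0)
    rw [← norm_mul] at m1 m2
    rw [ncK, map_div₀, norm_div, map_natCast, Complex.norm_natCast, div_le_iff₀ hQ1, map_sub,
      map_sub, map_mul, map_mul]
    refine ((norm_sub_le _ _).trans
      (add_le_add ((norm_sub_le _ _).trans (add_le_add m3 m1)) m2)).trans_eq ?_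
    field_simp
    ring

theorem nn_le {𝔓 : Ideal (𝓞 K)} [𝔓.IsMaximal] (h2 : (2 : 𝓞 K) ∉ 𝔓) {d : 𝓞 K}
    (hd : ¬ IsSquare (Ideal.Quotient.mk 𝔓 d)) {a b : K} (ha : a ≠ 0) (hb : b ≠ 0)
    (hn : NonDeg 𝔓 a b) {H e : ℕ} (hH : 1 ≤ H)
    (hq : (H ^ 3) ^ (2 * finrank ℚ K) < Ideal.absNorm 𝔓) :
    ∀ᶠ Q : ℕ in atTop, Q.Coprime e → (Q : 𝓞 K) ∉ 𝔓 → ∀ γ : 𝓞 K,
      ((NN 𝔓 d γ (Q / (4 * H ^ 3)) Q e a b).card : ℝ) ≤
        1352 ^ (4 * finrank ℚ K) * (Q / (4 * H ^ 3) : ℝ) ^ (8 * finrank ℚ K) /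
          Ideal.absNorm 𝔓 ^ 4 ∨
      (¬ (Low H a ∧ Low H b) ∧ ((NN 𝔓 d γ (Q / (4 * H ^ 3)) Q e a b).card : ℝ) ≤
        4 * (1352 * 26) ^ (4 * finrank ℚ K) * (Q / (4 * H ^ 3) : ℝ) ^ (8 * finrank ℚ K) /
          (Ideal.absNorm 𝔓 ^ 3 * ((H : ℝ) ^ 3) ^ (4 * finrank ℚ K))) := by
  classical
  have hq0 : 0 < Ideal.absNorm 𝔓 := (Nat.zero_le _).trans_lt hq
  have h𝔓 : 𝔓 ≠ ⊥ := mt Ideal.absNorm_eq_zero_iff.2 hq0.ne'
  have : Finite (𝓞 K ⧸ 𝔓) := 𝔓.finiteQuotientOfFreeOfNeBot h𝔓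
  let _ := Fintype.ofFinite (𝓞 K ⧸ 𝔓)
  let _ := Ideal.Quotient.field 𝔓
  have hcard : Fintype.card (𝓞 K ⧸ 𝔓) = Ideal.absNorm 𝔓 := by
    rw [Ideal.absNorm_apply, Submodule.cardQuot_apply, Nat.card_eq_fintype_card]
  have hne : ∀ i, ![1, a, b] i ≠ 0 := fun i => by
    fin_cases i
    exacts [one_ne_zero, ha, hb]
  obtain ⟨w, y, hy, hy'⟩ := exists_prim ![1, a, b] (fun e => hne 0 (congrFun e 0)) 𝔓
    (Ideal.IsMaximal.ne_top inferInstance)
  have y0 : (y 0 : K) = w := (hy 0).trans (mul_one w)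
  have y1 : (y 1 : K) = w * a := hy 1
  have y2 : (y 2 : K) = w * b := hy 2
  have hL : ∀ x : K, ∃ z : 𝓞 K, x ∈ ncI a b → (z : K) = w * x := fun x => by
    by_cases hx : x ∈ ncI a b
    · obtain ⟨r, s, t, rfl⟩ := nc_rep hx
      refine ⟨r * y 0 + s * y 1 + t * y 2, fun _ => ?_⟩
      simp only [map_add, map_mul]
      linear_combination r * y0 + s * y1 + t * y2
    · exact ⟨0, fun h => absurd h hx⟩
  choose L hL using hL
  have hq' : ((H : ℝ) ^ 3) ^ (2 * finrank ℚ K) < Ideal.absNorm 𝔓 := by exact_mod_cast hq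
  have hW : (1 : ℝ) ≤ (H : ℝ) ^ 3 := one_le_pow₀ (by exact_mod_cast hH)
  have hlow := fun h : Low H a ∧ Low H b => nc_low h.1 h.2
  generalize (H : ℝ) ^ 3 = W at *
  have hW0 : 0 < W := by linarith
  have hq1 : (1 : ℝ) ≤ Ideal.absNorm 𝔓 := by exact_mod_cast hq0
  have hI := mul_ne_zero (FractionalIdeal.coeIdeal_ne_zero.2 h𝔓) (nc_ne (a := a) (b := b))
  have hIN : ((FractionalIdeal.absNorm ((𝔓 : FractionalIdeal (𝓞 K)⁰ K) * ncI a b) : ℚ) : ℝ) =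
      Ideal.absNorm 𝔓 * ((FractionalIdeal.absNorm (ncI a b) : ℚ) : ℝ) := by
    rw [map_mul, FractionalIdeal.coeIdeal_absNorm, Rat.cast_mul, Rat.cast_natCast]
  have hN0 := nc_norm_pos (nc_ne (a := a) (b := b))
  have hin : ∀ i, y i ∈ 𝔓 → (Ideal.absNorm 𝔓 : ℝ) ≤ ncH a b := fun i hi => by
    rw [ncH, le_div_iff₀ hN0, ← hIN]
    exact (absNorm_le_prod hI (nc_prime hy hy' (nc_mem i) (hy i) hi) (hne i)).trans
      (prod_le_prod (fun _ _ => norm_nonneg _) fun σ _ => nc_le σ i)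
  have hH1 := nc_one_le_H (a := a) (b := b)
  have ht : Tendsto (fun Q : ℕ => (Q / (4 * W) : ℝ)) atTop atTop :=
    tendsto_natCast_atTop_atTop.atTop_div_const (by positivity)
  filter_upwards [ht.eventually (fibre_le h𝔓 (a := a) (b := b)), eventually_ge_atTop 1]
    with Q hF hQ1 hQe hQ γ
  have hQ0 : (Q : K) ≠ 0 := by exact_mod_cast (by omega : Q ≠ 0)
  have hc := fun t => nc_carry (𝔓 := 𝔓) (d := d) (γ := γ) (a := a) (b := b) hW0 hQ1 hQe (t := t)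
  let S : (Fin 4 → K) → Finset _ := fun k => Sol4 (Ideal.Quotient.mk 𝔓 d) (Ideal.Quotient.mk 𝔓 γ)
    (-Ideal.Quotient.mk 𝔓 (y 1)) (-Ideal.Quotient.mk 𝔓 (y 2)) (Ideal.Quotient.mk 𝔓 (y 0))
    fun i => Ideal.Quotient.mk 𝔓 (Q * L (k i))
  have hcone : ∀ u ∈ BB 𝔓 d γ (Q / (4 * W)), (fun i => Ideal.Quotient.mk 𝔓 (u i)) ∈
      Cone (Ideal.Quotient.mk 𝔓 d) (Ideal.Quotient.mk 𝔓 γ) := fun u hu => by
    obtain ⟨-, u1, u2⟩ := nc_BB hu
    refine mem_filter.2 ⟨mem_univ _, mt Ideal.Quotient.eq_zero_iff_mem.1 u1, ?_⟩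
    simpa only [map_mul, map_add, map_sub, map_pow] using Ideal.Quotient.eq.2 u2
  have hN := nc_count (NN 𝔓 d γ (Q / (4 * W)) Q e a b) (ncK Q a b)
    (fun t => (fun i => Ideal.Quotient.mk 𝔓 (t.1 i), fun i => Ideal.Quotient.mk 𝔓 (t.2.1 i),
      fun i => Ideal.Quotient.mk 𝔓 (t.2.2 i))) S (fun t ht => by
      obtain ⟨⟨h1, h2, h3⟩, -⟩ := nc_NN ht
      refine mem_filter.2 ⟨mem_product.2 ⟨hcone _ h1, mem_product.2 ⟨hcone _ h2, hcone _ h3⟩⟩,
        fun i => ?_⟩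
      have e1 : -y 1 * t.1 i + -y 2 * t.2.1 i + y 0 * t.2.2 i = Q * L (ncK Q a b t i) := by
        refine RingOfIntegers.coe_injective ?_
        have e2 := hL _ (hc t ht i).1
        have e3 : ncK Q a b t i * Q = _ := div_mul_cancel₀ _ hQ0
        simp only [map_add, map_mul, map_neg, map_natCast]
        linear_combination (-t.1 i : K) * y1 - t.2.1 i * y2 + t.2.2 i * y0 - Q * e2 - w * e3
      simpa only [map_mul, map_add, map_neg] using congrArg (Ideal.Quotient.mk 𝔓) e1)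
    (B := (1352 ^ finrank ℚ K * (Q / (4 * W) : ℝ) ^ (2 * finrank ℚ K) /
      (Ideal.absNorm 𝔓 ^ 2 * ncH a b)) ^ 4) fun k c => nc_fib _ fun i => hF _ (fun s hs => by
      obtain ⟨t, ht, rfl⟩ := mem_image.1 hs
      obtain ⟨⟨h1, h2, h3⟩, -⟩ := nc_NN (mem_filter.1 ht).1
      exact ⟨(nc_BB h1).1 i, (nc_BB h2).1 i, (nc_BB h3).1 i⟩) fun s hs s' hs' => by
      obtain ⟨t, ht, rfl⟩ := mem_image.1 hs
      obtain ⟨t', ht', rfl⟩ := mem_image.1 hs'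
      obtain ⟨-, h1, h2⟩ := mem_filter.1 ht
      obtain ⟨-, h3, h4⟩ := mem_filter.1 ht'
      have h5 := h2.trans h4.symm
      simp only [Prod.mk.injEq] at h5
      exact ⟨Ideal.Quotient.eq.1 (congrFun h5.1 i), Ideal.Quotient.eq.1 (congrFun h5.2.1 i),
        Ideal.Quotient.eq.1 (congrFun h5.2.2 i),
        (div_left_inj' hQ0).1 (congrFun (h1.trans h3.symm) i)⟩
  have hr : (0 : ℝ) ≤ Q / (4 * W) := by positivity
  generalize NN 𝔓 d γ (Q / (4 * W)) Q e a b = N at *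
  generalize (Q / (4 * W) : ℝ) = r at *
  have hz : ∀ i, Ideal.Quotient.mk 𝔓 (y i) = 0 → (Ideal.absNorm 𝔓 : ℝ) ≤ ncH a b := fun i hi =>
    hin i (Ideal.Quotient.eq_zero_iff_mem.1 hi)
  have hWn : 1 ≤ W ^ finrank ℚ K := one_le_pow₀ hW
  rw [two_mul, pow_add] at hq'
  rcases le_or_gt (ncH a b) (W ^ finrank ℚ K) with hu | hu
  · have h0 : ∀ i, Ideal.Quotient.mk 𝔓 (y i) ≠ 0 := fun i hi =>
      (((hz i hi).trans hu).trans (le_mul_of_one_le_left (by positivity) hWn)).not_gt hq'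
    have h1 : N.image (ncK Q a b) ⊆ {0} := fun k hk => by
      obtain ⟨t, ht, rfl⟩ := mem_image.1 hk
      refine mem_singleton.2 (funext fun i => by_contra fun h => ?_)
      have h3 := (absNorm_le_prod nc_ne (hc t ht i).1 h).trans
        (prod_le_prod (fun _ _ => norm_nonneg _) fun σ _ => (hc t ht i).2 σ)
      rw [prod_mul_distrib, prod_const, prod_div_distrib, prod_const, card_univ,
        Embeddings.card] at h3
      rw [ncH, div_le_iff₀ hN0, ← div_le_iff₀' (by positivity)] at hu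
      have h4 : (3 / 4 : ℝ) ^ finrank ℚ K < 1 :=
        pow_lt_one₀ (by norm_num) (by norm_num) finrank_pos.ne'
      exact (h3.trans (mul_le_mul_of_nonneg_left hu (by positivity))).not_gt
        (mul_lt_of_lt_one_left hN0 h4)
    have h3 : L 0 = 0 := RingOfIntegers.coe_injective
      ((hL 0 (FractionalIdeal.zero_mem _)).trans ((mul_zero w).trans (map_zero _).symm))
    have h4 : ((S 0).card : ℝ) ≤ Ideal.absNorm 𝔓 ^ 4 := by
      have := sol_low (γ := Ideal.Quotient.mk 𝔓 γ) hd (neg_ne_zero.2 (h0 1)) (neg_ne_zero.2 (h0 2))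
        (h0 0)
      simp only [S, Pi.zero_apply, h3, mul_zero, map_zero]
      exact_mod_cast hcard ▸ this
    have h5 := (sum_le_sum_of_subset_of_nonneg (f := fun k => ((S k).card : ℝ)) h1
      fun _ _ _ => Nat.cast_nonneg _).trans ((sum_singleton _ _).trans_le h4)
    refine Or.inl (hN.trans ((mul_le_mul h5 (pow_le_pow_left₀ (by positivity)
      (div_le_div_of_nonneg_left (by positivity) (by positivity)
        (le_mul_of_one_le_right (by positivity) hH1)) 4) (by positivity)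
      (by positivity)).trans_eq ?_))
    field_simp
    ring
  refine Or.inr ⟨fun h => (hlow h).not_gt hu, hN.trans ?_⟩
  obtain ⟨u, hu'⟩ : ∃ u, u = ncH a b / W ^ finrank ℚ K := ⟨_, rfl⟩
  have u1 : 1 < u := by rwa [hu', one_lt_div (by positivity)]
  have c2 : (1 : ℝ) ≤ 2 ^ finrank ℚ K := one_le_pow₀ one_le_two
  obtain ⟨A, hA⟩ : ∃ A : ℝ, A = 13 ^ finrank ℚ K * (2 ^ finrank ℚ K * u) := ⟨_, rfl⟩
  have A0 : 0 ≤ A := by rw [hA]; positivity
  let KK : Finset K := (N ×ˢ univ).image fun p => ncK Q a b p.1 p.2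
  have k0 : ∀ x ∈ KK, x ∈ ncI a b ∧ ∀ σ, ‖σ x‖ ≤ ncM a b σ / W := fun x hx => by
    obtain ⟨p, hp, rfl⟩ := mem_image.1 hx
    have h := hc _ (mem_product.1 hp).1 p.2
    exact ⟨h.1, fun σ => by linarith [h.2 σ, norm_nonneg (σ (ncK Q a b p.1 p.2))]⟩
  have k1 : (KK.card : ℝ) ≤ A := by
    have h := nc_cell nc_ne hW0 KK k0
    rwa [← ncH, ← hu', max_eq_right (one_le_mul_of_one_le_of_one_le c2 u1.le), ← hA] at h
  have k2 : ∀ k ∈ N.image (ncK Q a b), ∀ i, k i ∈ KK := fun k hk i => by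
    obtain ⟨t, ht, rfl⟩ := mem_image.1 hk
    exact mem_image.2 ⟨(t, i), mem_product.2 ⟨ht, mem_univ _⟩, rfl⟩
  have hy2 := hn (y 0) (y 1) (y 2) (y0 ▸ y1) (y0 ▸ y2)
  have two : (-Ideal.Quotient.mk 𝔓 (y 1) ≠ 0 ∧ -Ideal.Quotient.mk 𝔓 (y 2) ≠ 0) ∨
      (-Ideal.Quotient.mk 𝔓 (y 1) ≠ 0 ∧ Ideal.Quotient.mk 𝔓 (y 0) ≠ 0) ∨
      (-Ideal.Quotient.mk 𝔓 (y 2) ≠ 0 ∧ Ideal.Quotient.mk 𝔓 (y 0) ≠ 0) := by
    simp only [ne_eq, neg_eq_zero, Ideal.Quotient.eq_zero_iff_mem]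
    exact nc_two (p := fun i => y i ∈ 𝔓) hy' hy2
  let P : (Fin 4 → K) → Prop := fun k => (∀ i, y i ∉ 𝔓) ∨ L (k 0) ∉ 𝔓 ∨ L (k 1) ∉ 𝔓 ∨ L (k 2) ∉ 𝔓
  have s1 : ∑ k ∈ (N.image (ncK Q a b)).filter P, ((S k).card : ℝ) ≤
      A ^ 4 * (3 * Ideal.absNorm 𝔓 ^ 5) := by
    refine (sum_le_card_nsmul _ _ (3 * (Ideal.absNorm 𝔓 : ℝ) ^ 5) fun k hk => ?_).trans ?_
    · have m : ∀ z, z ∉ 𝔓 → Ideal.Quotient.mk 𝔓 (Q * z) ≠ 0 := fun z hz h =>
        (Ideal.IsPrime.mem_or_mem inferInstance (Ideal.Quotient.eq_zero_iff_mem.1 h)).elim hQ hz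
      have m' : ∀ z, z ∉ 𝔓 → Ideal.Quotient.mk 𝔓 z ≠ 0 := fun z =>
        mt Ideal.Quotient.eq_zero_iff_mem.1
      have := sol_gen (γ := Ideal.Quotient.mk 𝔓 γ) (d := Ideal.Quotient.mk 𝔓 d)
        (k := fun i => Ideal.Quotient.mk 𝔓 (Q * L (k i))) (m' 2 h2)
        (fun h => hd (h ▸ IsSquare.zero)) two ((mem_filter.1 hk).2.imp
          (fun h => ⟨neg_ne_zero.2 (m' _ (h 1)), neg_ne_zero.2 (m' _ (h 2)), m' _ (h 0)⟩)
          (Or.imp (m _) (Or.imp (m _) (m _))))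
      exact_mod_cast hcard ▸ this
    · rw [nsmul_eq_mul]
      refine mul_le_mul_of_nonneg_right (le_trans ?_ (pow_le_pow_left₀ (Nat.cast_nonneg _) k1 4))
        (by positivity)
      have := card_le_card (t := Fintype.piFinset fun _ : Fin 4 => KK) fun k hk =>
        Fintype.mem_piFinset.2 (k2 k (filter_subset P _ hk))
      rw [Fintype.card_piFinset_const] at this
      exact_mod_cast this
  have s2 : ∑ k ∈ (N.image (ncK Q a b)).filter fun k => ¬ P k, ((S k).card : ℝ) ≤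
      A ^ 4 * Ideal.absNorm 𝔓 ^ 5 := by
    by_cases hall : ∀ i, y i ∉ 𝔓
    · rw [filter_false_of_mem fun k _ h => h (Or.inl hall), sum_empty]
      positivity
    obtain ⟨j, hj⟩ := not_forall.1 hall
    have q1 := hin j (not_not.1 hj)
    have q2 : (Ideal.absNorm 𝔓 : ℝ) ≤ u ^ 2 := by
      rw [hu', div_pow, le_div_iff₀ (by positivity), sq, sq]
      exact mul_le_mul q1 (hq'.le.trans q1) (by positivity) (by positivity)
    let K₀ := KK.filter fun x => L x ∈ 𝔓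
    have q3 := nc_cell hI hW0 K₀ fun x hx => by
      obtain ⟨h3, h4⟩ := mem_filter.1 hx
      exact ⟨nc_prime hy hy' (k0 x h3).1 (hL x (k0 x h3).1) h4, (k0 x h3).2⟩
    have q4 := nc_num c2 _ (by positivity) hA hq1 (q2.trans (pow_le_pow_right₀ u1.le (by omega)))
      (by linarith) (Nat.cast_nonneg _) (q3.trans_eq (by
        rw [hIN, hu', ncH]
        congr 2
        field_simp))
    refine (sum_le_card_nsmul _ _ ((Ideal.absNorm 𝔓 : ℝ) ^ 6) fun k _ => ?_).trans ?_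
    · exact_mod_cast hcard ▸ sol_any _ two
    have := card_le_card (s := (N.image (ncK Q a b)).filter fun k => ¬ P k)
      (t := Fintype.piFinset ![K₀, K₀, K₀, KK]) fun k hk => by
        obtain ⟨h3, h4⟩ := mem_filter.1 hk
        simp only [P, not_or, not_not] at h4
        refine Fintype.mem_piFinset.2 fun i => ?_
        fin_cases i
        exacts [mem_filter.2 ⟨k2 k h3 0, h4.2.1⟩, mem_filter.2 ⟨k2 k h3 1, h4.2.2.1⟩,
          mem_filter.2 ⟨k2 k h3 2, h4.2.2.2⟩, k2 k h3 3]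
    rw [Fintype.card_piFinset, Fin.prod_univ_four] at this
    have q5 : ((((N.image (ncK Q a b)).filter fun k => ¬ P k).card : ℕ) : ℝ) ≤
        K₀.card * K₀.card * K₀.card * KK.card := by exact_mod_cast this
    have q6 := mul_le_mul q4 k1 (Nat.cast_nonneg _) (by positivity)
    rw [nsmul_eq_mul]
    calc _ ≤ (K₀.card * K₀.card * K₀.card * KK.card : ℝ) * Ideal.absNorm 𝔓 ^ 6 :=
          mul_le_mul_of_nonneg_right q5 (by positivity)
      _ = K₀.card ^ 3 * Ideal.absNorm 𝔓 * KK.card * Ideal.absNorm 𝔓 ^ 5 := by ring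
      _ ≤ A ^ 3 * A * Ideal.absNorm 𝔓 ^ 5 := mul_le_mul_of_nonneg_right q6 (by positivity)
      _ = _ := by ring
  rw [← sum_filter_add_sum_filter_not _ P]
  refine (mul_le_mul_of_nonneg_right (add_le_add s1 s2) (by positivity)).trans_eq ?_
  rw [hA, hu', show (1352 * 26 : ℝ) = 1352 * (13 * 2) by norm_num, mul_pow (1352 : ℝ),
    mul_pow (13 : ℝ) 2]
  field_simp
  ring

end Pool.Agent.Lib.MP_a147dc_co.B
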