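import Pool.Agent.Lib.MP_a147dc_co.B.Defs

/-! Random linear forms modulo a large prime are uniform on independent vectors. -/

namespace Pool.Agent.Lib.MP_a147dc_co.B

open Finset NumberField Module Polynomial Filter
open scoped nonZeroDivisors

variable {K : Type*} [Field K] [NumberField K]

/-- an integral multiple of a dual family -/
lemma unif_dual {s n : ℕ} (ξ : Fin n → Fin s → 𝓞 K)
    (hξ : LinearIndependent K fun l => fun j => (ξ l j : K)) :
    ∃ y : ℤ, y ≠ 0 ∧ ∃ η : Fin s → Fin n → 𝓞 K,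
      ∀ l l', ∑ j, η j l' * ξ l j = if l = l' then (y : 𝓞 K) else 0 := by
  classical
  obtain ⟨g, hg⟩ := LinearMap.exists_leftInverse_of_injective _
    (LinearMap.ker_eq_bot.2 hξ.fintypeLinearCombination_injective)
  have : Algebra.IsAlgebraic ℤ K := (IsFractionRing.comap_isAlgebraic_iff (K := ℚ)).2 inferInstance
  obtain ⟨y, hy, hi⟩ := Algebra.IsAlgebraic.exists_integral_multiples ℤ
    (univ.image fun u : Fin s × Fin n => g (Pi.single u.1 1) u.2)
  have h0 : ∀ j l', ∃ e : 𝓞 K, algebraMap (𝓞 K) K e = y * g (Pi.single j 1) l' := fun j l' =>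
    ⟨⟨_, hi _ (mem_image_of_mem _ (mem_univ (j, l')))⟩, zsmul_eq_mul _ _⟩
  choose η hη using h0
  refine ⟨y, hy, η, fun l l' => ?_⟩
  have h1 : g (fun j => (ξ l j : K)) = Pi.single l 1 := by
    have := LinearMap.congr_fun hg (Pi.single l 1)
    rwa [LinearMap.comp_apply, Fintype.linearCombination_apply_single, one_smul] at this
  rw [pi_eq_sum_univ' fun j => (ξ l j : K), map_sum] at h1
  have h3 := congrFun h1 l'
  simp only [map_smul, Finset.sum_apply, Pi.smul_apply, smul_eq_mul] at h3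
  apply RingOfIntegers.coe_injective
  have h4 : ∀ j, algebraMap (𝓞 K) K (η j l' * ξ l j) =
      (y : K) * ((ξ l j : K) * g (Pi.single j 1) l') := fun j => by
    rw [map_mul, hη, mul_assoc, mul_comm (g _ _)]
  rw [map_sum, sum_congr rfl fun j _ => h4 j, ← mul_sum, h3, Pi.single_apply]
  by_cases h : l = l'
  · simp [h]
  · simp [h, Ne.symm h]

/-- fibres of a surjective homomorphism -/
lemma unif_fib {G M : Type*} [AddGroup G] [Fintype G] [AddGroup M] [Fintype M] [DecidableEq M]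
    (f : G →+ M) (hf : Function.Surjective f) (v : M) :
    (univ.filter fun g => f g = v).card * Fintype.card M = Fintype.card G := by
  rw [← card_univ (α := G), card_eq_sum_card_fiberwise (f := f) (s := univ) (t := univ)
    fun _ _ => mem_univ _, sum_congr rfl fun w _ =>
      AddMonoidHom.card_fiber_eq_of_mem_range f (hf w) (hf v), sum_const, card_univ,
    smul_eq_mul, mul_comm]

open Classical in
/-- random linear forms modulo a large prime are uniform on independent vectors -/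
theorem unif {s n : ℕ} (ξ : Fin n → Fin s → 𝓞 K)
    (hξ : LinearIndependent K fun l => fun j => (ξ l j : K)) :
    ∀ᶠ Q : ℕ in atTop, Q.Prime → ∀ [Fintype (𝓞 K ⧸ Ideal.span {(Q : 𝓞 K)})],
      ∀ v : Fin n → Fin 4 → 𝓞 K ⧸ Ideal.span {(Q : 𝓞 K)},
      (univ.filter fun ω : Fin 4 → Fin s → 𝓞 K ⧸ Ideal.span {(Q : 𝓞 K)} =>
        ∀ l i, ∑ j, ω i j * Ideal.Quotient.mk _ (ξ l j) = v l i).card *
          Q ^ (4 * n * finrank ℚ K) = Q ^ (4 * s * finrank ℚ K) := by
  obtain ⟨y, hy, η, hη⟩ := unif_dual ξ hξ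
  filter_upwards [eventually_gt_atTop y.natAbs] with Q hQ hp _ v
  obtain ⟨a, b, hab⟩ : IsCoprime y (Q : ℤ) := by
    rw [Int.isCoprime_iff_gcd_eq_one, Int.gcd_eq_natAbs, Int.natAbs_natCast]
    exact (Nat.coprime_of_lt_prime (Int.natAbs_ne_zero.2 hy) hQ hp).symm
  have hQ0 : (Q : 𝓞 K ⧸ Ideal.span {(Q : 𝓞 K)}) = 0 := by
    rw [← map_natCast (Ideal.Quotient.mk (Ideal.span {(Q : 𝓞 K)})),
      Ideal.Quotient.eq_zero_iff_mem]
    exact Ideal.mem_span_singleton_self _
  have hu : (a : 𝓞 K ⧸ Ideal.span {(Q : 𝓞 K)}) * y = 1 := by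
    have := congrArg (Int.cast : ℤ → 𝓞 K ⧸ Ideal.span {(Q : 𝓞 K)}) hab
    push_cast at this
    rwa [hQ0, mul_zero, add_zero] at this
  let f : (Fin 4 → Fin s → 𝓞 K ⧸ Ideal.span {(Q : 𝓞 K)}) →+
      (Fin n → Fin 4 → 𝓞 K ⧸ Ideal.span {(Q : 𝓞 K)}) :=
    AddMonoidHom.mk' (fun ω l i => ∑ j, ω i j * Ideal.Quotient.mk _ (ξ l j)) fun ω ω' => by
      ext l i
      simp only [Pi.add_apply, add_mul, sum_add_distrib]
  have hf : Function.Surjective f := fun w => by
    refine ⟨fun i j => a * ∑ l', w l' i * Ideal.Quotient.mk _ (η j l'), ?_⟩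
    ext l i
    change ∑ j, (a * ∑ l', w l' i * Ideal.Quotient.mk _ (η j l')) *
      Ideal.Quotient.mk _ (ξ l j) = w l i
    have h1 : ∀ l', ∑ j, w l' i * Ideal.Quotient.mk _ (η j l') * Ideal.Quotient.mk _ (ξ l j) =
        if l = l' then w l' i * y else 0 := fun l' => by
      simp only [mul_assoc, ← map_mul]
      rw [← mul_sum, ← map_sum, hη]
      split_ifs <;> simp
    simp only [mul_assoc]
    rw [← mul_sum]
    simp only [sum_mul]
    rw [sum_comm, sum_congr rfl fun l' _ => h1 l', sum_ite_eq, if_pos (mem_univ _),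
      mul_left_comm, hu, mul_one]
  have hc : Fintype.card (𝓞 K ⧸ Ideal.span {(Q : 𝓞 K)}) = Q ^ finrank ℚ K := by
    rw [← Nat.card_eq_fintype_card, ← Submodule.cardQuot_apply, ← Ideal.absNorm_apply,
      Ideal.absNorm_span_natCast, RingOfIntegers.rank]
  have h := unif_fib f hf v
  simp only [Fintype.card_fun, Fintype.card_fin, hc, ← pow_mul] at h
  rw [show 4 * n * finrank ℚ K = finrank ℚ K * 4 * n by ring,
    show 4 * s * finrank ℚ K = finrank ℚ K * s * 4 by ring, ← h]
  congr 2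
  ext ω
  simp only [mem_filter, mem_univ, true_and, funext_iff]
  rfl

end Pool.Agent.Lib.MP_a147dc_co.B
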