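import Pool.Agent.Lib.MP_a147dc_co.B.Cell
import Pool.Agent.Lib.MP_a147dc_co.B.Box
import Pool.Agent.Lib.MP_a147dc_co.B.NCount
import Pool.Agent.Lib.MP_a147dc_co.B.Unif

/-! The random linear map and the deletion step. -/

namespace Pool.Agent.Lib.MP_a147dc_co.B

open Finset NumberField Module Polynomial Filter
open scoped nonZeroDivisors

open Classical in
lemma behA_avg {ι Ω : Type*} [Fintype Ω] {α : ℕ} (R : Finset ι) (T : Finset (ι × ι × ι))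
    (hT : ∀ t ∈ T, t.1 ∈ R ∧ t.2.1 ∈ R ∧ t.2.2 ∈ R ∧ t.1 ≠ t.2.1 ∧ t.1 ≠ t.2.2 ∧ t.2.1 ≠ t.2.2)
    (hα : ∀ G ⊆ R, (∀ t ∈ T, ¬ (t.1 ∈ G ∧ t.2.1 ∈ G ∧ t.2.2 ∈ G)) → G.card ≤ α)
    (In : Ω → ι → Prop) {μ N lam : ℝ} (c : ι × ι × ι → ℝ) (hN : (Fintype.card Ω : ℝ) = N)
    (N0 : 0 < N) (μ0 : 0 < μ) (h0 : 0 ≤ lam) (h1 : lam ≤ μ)
    (h2 : ∀ p ∈ R, μ * N ≤ (univ.filter fun ω => In ω p).card)
    (h3 : ∀ t ∈ T, ((univ.filter fun ω => In ω t.1 ∧ In ω t.2.1 ∧ In ω t.2.2).card : ℝ) ≤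
      c t * (μ ^ 3 * N)) :
    lam * R.card - lam ^ 3 * ∑ t ∈ T, c t ≤ α := by
  have π0 : 0 ≤ lam / μ := by positivity
  have hdel : ∀ ω ∈ (univ : Finset Ω), lam / μ * (R.filter fun p => In ω p).card - (lam / μ) ^ 3 *
      (T.filter fun t => In ω t.1 ∧ In ω t.2.1 ∧ In ω t.2.2).card ≤ α := by
    intro ω _
    refine deletion _ _ _ (fun t ht => ?_) (fun G hG h => ?_) π0 ((div_le_one μ0).2 h1)
    · obtain ⟨ht, b1, b2, b3⟩ := mem_filter.1 ht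
      obtain ⟨a1, a2, a3, a4⟩ := hT t ht
      exact ⟨mem_filter.2 ⟨a1, b1⟩, mem_filter.2 ⟨a2, b2⟩, mem_filter.2 ⟨a3, b3⟩, a4⟩
    · exact hα G (hG.trans (filter_subset _ _)) fun t ht k => h t (mem_filter.2 ⟨ht,
        (mem_filter.1 (hG k.1)).2, (mem_filter.1 (hG k.2.1)).2, (mem_filter.1 (hG k.2.2)).2⟩) k
  have hsum := sum_le_card_nsmul _ _ _ hdel
  rw [nsmul_eq_mul, card_univ, hN, sum_sub_distrib, ← mul_sum, ← mul_sum] at hsum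
  have hW : R.card * (μ * N) ≤ ∑ ω : Ω, ((R.filter fun p => In ω p).card : ℝ) := by
    simp only [card_filter]
    push_cast
    rw [sum_comm, ← nsmul_eq_mul]
    refine card_nsmul_le_sum _ _ _ fun p hp => ?_
    rw [sum_boole]
    exact h2 p hp
  have hX : ∑ ω : Ω, ((T.filter fun t => In ω t.1 ∧ In ω t.2.1 ∧ In ω t.2.2).card : ℝ) ≤
      (∑ t ∈ T, c t) * (μ ^ 3 * N) := by
    simp only [card_filter]
    push_cast
    rw [sum_comm, sum_mul]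
    refine sum_le_sum fun t ht => ?_
    rw [sum_boole]
    exact h3 t ht
  have e1 := mul_le_mul_of_nonneg_left hW π0
  have e2 := mul_le_mul_of_nonneg_left hX (pow_nonneg π0 3)
  refine le_of_mul_le_mul_left (a := N) (le_trans (le_of_eq ?_)
    ((sub_le_sub e1 e2).trans hsum)) N0
  field_simp

lemma behA_up {Ω κ Z : Type*} [Fintype Ω] (φ : Ω → Z → Prop)
    {i₁ : ∀ v, DecidablePred fun ω => φ ω v} {m N : ℕ}
    (hU : ∀ v, (univ.filter fun ω => φ ω v).card * m = N) (A : Finset κ) (F : κ → Z)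
    (P : Ω → Prop) {i₂ : DecidablePred P} (hP : ∀ ω, P ω → ∃ a ∈ A, φ ω (F a)) :
    ((univ.filter P).card : ℝ) * m ≤ A.card * N := by
  classical
  have h : univ.filter P ⊆ A.biUnion fun a => univ.filter fun ω => φ ω (F a) := fun ω hω => by
    obtain ⟨a, ha, h⟩ := hP ω (mem_filter.1 hω).2
    exact mem_biUnion.2 ⟨a, ha, mem_filter.2 ⟨mem_univ _, h⟩⟩
  have h2 := Nat.mul_le_mul_right m ((card_le_card h).trans card_biUnion_le)
  rw [sum_mul, sum_congr rfl fun a _ => hU (F a), sum_const, smul_eq_mul] at h2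
  exact_mod_cast h2

lemma behA_low {Ω κ Z : Type*} [Fintype Ω] (φ : Ω → Z → Prop)
    {i₁ : ∀ v, DecidablePred fun ω => φ ω v} {m N : ℕ}
    (hU : ∀ v, (univ.filter fun ω => φ ω v).card * m = N) (A : Finset κ) (F : κ → Z)
    (P : Ω → Prop) {i₂ : DecidablePred P} (hP : ∀ ω, ∀ a ∈ A, φ ω (F a) → P ω)
    (hA : ∀ ω, ∀ a ∈ A, ∀ a' ∈ A, φ ω (F a) → φ ω (F a') → a = a') :
    (A.card : ℝ) * N ≤ (univ.filter P).card * m := by
  classical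
  have h : (A.biUnion fun a => univ.filter fun ω => φ ω (F a)) ⊆ univ.filter P := fun ω hω => by
    obtain ⟨a, ha, h⟩ := mem_biUnion.1 hω
    exact mem_filter.2 ⟨mem_univ _, hP ω a ha (mem_filter.1 h).2⟩
  have h2 := Nat.mul_le_mul_right m (card_le_card h)
  rw [card_biUnion fun a ha a' ha' hne => disjoint_left.2 fun ω k k' =>
    hne (hA ω a ha a' ha' (mem_filter.1 k).2 (mem_filter.1 k').2), sum_mul,
    sum_congr rfl fun a _ => hU (F a), sum_const, smul_eq_mul] at h2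
  exact_mod_cast h2

lemma behA_num {d D : ℕ} (hd : 0 < d) (hD : d ≤ D) {β x : ℝ} (hβ : 1 ≤ β) (x0 : 0 ≤ x)
    (hx : x ≤ 1352 * 26) :
    32 * x ^ (4 * d) * 4 ^ (4 * d) * ((d * β) ^ (4 * d)) ^ 3 ≤ (1000 * D * β) ^ (12 * D) := by
  have d1 : (1 : ℝ) ≤ d := Nat.one_le_cast.2 hd
  have d2 : (d : ℝ) ≤ D := Nat.cast_le.2 hD
  have h1 : (32 : ℝ) ≤ 32 ^ (4 * d) := le_self_pow₀ (by norm_num) (by omega)
  calc _ ≤ 32 ^ (4 * d) * x ^ (4 * d) * 4 ^ (4 * d) * ((d * β) ^ (4 * d)) ^ 3 := by gcongr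
    _ = (32 * x * 4 * (d * β) ^ 3) ^ (4 * d) := by
        rw [← pow_mul, mul_comm (4 * d) 3, pow_mul _ 3, ← mul_pow, ← mul_pow, ← mul_pow]
    _ ≤ ((1000 * D * β) ^ 3) ^ (4 * d) := by
        refine pow_le_pow_left₀ (by positivity) ?_ _
        rw [mul_assoc 1000, mul_pow 1000]
        gcongr
        linarith
    _ = (1000 * D * β) ^ (12 * d) := by rw [← pow_mul]; congr 1; ring
    _ ≤ _ := pow_le_pow_right₀ (by nlinarith) (by omega)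

variable {K : Type*} [Field K] [NumberField K]

lemma behA_den (s : Finset K) : ∃ e : ℕ, 0 < e ∧ ∀ x ∈ s, ∃ y : 𝓞 K, (y : K) = e * x := by
  obtain ⟨y, hy, h⟩ := exists_integral_multiples ℤ ℚ s
  refine ⟨y.natAbs, Int.natAbs_pos.2 hy, fun x hx => ?_⟩
  have h1 : IsIntegral ℤ ((y.natAbs : K) * x) := by
    have h2 := h x hx
    rw [zsmul_eq_mul] at h2
    rcases Int.natAbs_eq y with e | e
    · rwa [e, Int.cast_natCast] at h2
    · rw [e, Int.cast_neg, Int.cast_natCast, neg_mul] at h2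
      simpa using h2.neg
  exact ⟨⟨_, h1⟩, rfl⟩

lemma behA_inj {Q : ℕ} (hQ : 0 < Q) {u v : 𝓞 K} (hu : Bd (Q / 4) (u : K)) (hv : Bd (Q / 4) (v : K))
    (h : Ideal.Quotient.mk (Ideal.span {(Q : 𝓞 K)}) u = Ideal.Quotient.mk _ v) : u = v := by
  obtain ⟨η, hη⟩ := Ideal.mem_span_singleton'.1 (Ideal.Quotient.eq.1 h)
  have Q0 : (0 : ℝ) < Q := Nat.cast_pos.2 hQ
  have h1 : ∀ σ : K →+* ℂ, ‖σ (η : K)‖ ≤ 1 / 2 := fun σ => by
    have h2 := hu.sub hv σ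
    have h3 : (u : K) - v = η * Q := by exact_mod_cast congrArg (fun x : 𝓞 K => (x : K)) hη.symm
    rw [h3, map_mul, map_natCast, norm_mul, Complex.norm_natCast] at h2
    exact le_of_mul_le_mul_right (by linarith) Q0
  have h2 : (Ideal.absNorm (Ideal.span {η}) : ℝ) < 1 := by
    rw [absNorm_span_eq]
    refine (prod_le_prod (fun _ _ => norm_nonneg _) fun σ _ => h1 σ).trans_lt ?_
    rw [prod_const]
    exact pow_lt_one₀ (by norm_num) (by norm_num) (card_pos.2 univ_nonempty).ne'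
  have h3 : η = 0 := Ideal.span_singleton_eq_bot.1 (Ideal.absNorm_eq_zero_iff.1
    (Nat.lt_one_iff.1 (Nat.cast_lt_one.1 h2 ▸ one_pos)))
  rw [h3, zero_mul] at hη
  exact sub_eq_zero.1 hη.symm

/-- the value of the random map at `x` lies over the target set -/
def behA_In {s : ℕ} (Q : ℕ) (B : Finset (Fin 4 → 𝓞 K))
    (ω : Fin 4 → Fin s → 𝓞 K ⧸ Ideal.span {(Q : 𝓞 K)}) (x : Fin s → 𝓞 K) : Prop :=
  ∃ u ∈ B, ∀ i, ∑ j, ω i j * Ideal.Quotient.mk _ (x j) = Ideal.Quotient.mk _ (u i)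

open Classical in
lemma behA_zero (s : ℕ) : ∀ᶠ Q : ℕ in atTop, Q.Prime →
    ∀ [Fintype (𝓞 K ⧸ Ideal.span {(Q : 𝓞 K)})],
      Fintype.card (Fin 4 → Fin s → 𝓞 K ⧸ Ideal.span {(Q : 𝓞 K)}) = Q ^ (4 * s * finrank ℚ K) := by
  filter_upwards [unif (K := K) (s := s) (n := 0) (fun l => l.elim0) linearIndependent_empty_type]
    with Q h hQ _
  simpa using h hQ fun l => l.elim0

open Classical in
lemma behA_one {s : ℕ} {x : Fin s → 𝓞 K}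
    (hx : LinearIndependent K fun l => fun j => ((![x] : Fin 1 → Fin s → 𝓞 K) l j : K)) :
    ∀ᶠ Q : ℕ in atTop, Q.Prime → ∀ [Fintype (𝓞 K ⧸ Ideal.span {(Q : 𝓞 K)})],
      ∀ B : Finset (Fin 4 → 𝓞 K), (∀ u ∈ B, ∀ i, Bd (Q / 4) (u i : K)) →
      (B.card : ℝ) * (Q ^ (4 * s * finrank ℚ K) : ℕ) ≤
        (univ.filter fun ω => behA_In Q B ω x).card * (Q ^ (4 * 1 * finrank ℚ K) : ℕ) := by
  filter_upwards [unif _ hx] with Q h hQ _ B hB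
  have h' := h hQ
  have k := behA_low (fun (ω : Fin 4 → Fin s → 𝓞 K ⧸ Ideal.span {(Q : 𝓞 K)})
    (v : Fin 1 → Fin 4 → 𝓞 K ⧸ Ideal.span {(Q : 𝓞 K)}) => ∀ l i, ∑ j, ω i j * Ideal.Quotient.mk _
    ((![x] : Fin 1 → Fin s → 𝓞 K) l j) = v l i) h' B
    (fun u _ i => Ideal.Quotient.mk _ (u i)) (fun ω => behA_In Q B ω x) (i₂ := inferInstance)
    (fun ω u hu k => ⟨u, hu, k 0⟩) fun ω u hu v hv k k' => funext fun i =>
      behA_inj hQ.pos (hB u hu i) (hB v hv i) ((k 0 i).symm.trans (k' 0 i))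
  exact k

open Classical in
lemma behA_three {s : ℕ} {x y z : Fin s → 𝓞 K}
    (hx : LinearIndependent K fun l => fun j => ((![x, y, z] : Fin 3 → Fin s → 𝓞 K) l j : K)) :
    ∀ᶠ Q : ℕ in atTop, Q.Prime → ∀ [Fintype (𝓞 K ⧸ Ideal.span {(Q : 𝓞 K)})],
      ∀ B : Finset (Fin 4 → 𝓞 K),
      ((univ.filter fun ω => behA_In Q B ω x ∧ behA_In Q B ω y ∧ behA_In Q B ω z).card : ℝ) *
        (Q ^ (4 * 3 * finrank ℚ K) : ℕ) ≤ B.card ^ 3 * (Q ^ (4 * s * finrank ℚ K) : ℕ) := by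
  filter_upwards [unif _ hx] with Q h hQ _ B
  have h' := h hQ
  have k := behA_up (fun (ω : Fin 4 → Fin s → 𝓞 K ⧸ Ideal.span {(Q : 𝓞 K)})
    (v : Fin 3 → Fin 4 → 𝓞 K ⧸ Ideal.span {(Q : 𝓞 K)}) => ∀ l i, ∑ j, ω i j * Ideal.Quotient.mk _
    ((![x, y, z] : Fin 3 → Fin s → 𝓞 K) l j) = v l i) h' (B ×ˢ B ×ˢ B)
    (fun t l i => Ideal.Quotient.mk _ ((![t.1, t.2.1, t.2.2] : Fin 3 → Fin 4 → 𝓞 K) l i))
    (fun ω => behA_In Q B ω x ∧ behA_In Q B ω y ∧ behA_In Q B ω z) (i₂ := inferInstance)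
  refine (k ?_).trans_eq ?_
  · rintro ω ⟨⟨u, hu, k1⟩, ⟨v, hv, k2⟩, w, hw, k3⟩
    refine ⟨(u, v, w), mem_product.2 ⟨hu, mem_product.2 ⟨hv, hw⟩⟩, fun l => ?_⟩
    fin_cases l
    exacts [k1, k2, k3]
  · simp only [card_product]
    push_cast
    ring

open Classical in
lemma behA_two {s e : ℕ} {x y z : Fin s → 𝓞 K} (𝔓 : Ideal (𝓞 K)) (d : 𝓞 K) {a b : K}
    (hx : LinearIndependent K fun l => fun j => ((![x, y] : Fin 2 → Fin s → 𝓞 K) l j : K))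
    (hz : ∀ j, (z j : K) = a * x j + b * y j) (ha : ∃ A : 𝓞 K, (A : K) = e * a)
    (hb : ∃ A : 𝓞 K, (A : K) = e * b) :
    ∀ᶠ Q : ℕ in atTop, Q.Prime → ∀ [Fintype (𝓞 K ⧸ Ideal.span {(Q : 𝓞 K)})],
      ∀ (γ : 𝓞 K) (r : ℝ), ((univ.filter fun ω => behA_In Q (BB 𝔓 d γ r) ω x ∧
        behA_In Q (BB 𝔓 d γ r) ω y ∧ behA_In Q (BB 𝔓 d γ r) ω z).card : ℝ) *
        (Q ^ (4 * 2 * finrank ℚ K) : ℕ) ≤
          (NN 𝔓 d γ r Q e a b).card * (Q ^ (4 * s * finrank ℚ K) : ℕ) := by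
  obtain ⟨A, hA⟩ := ha
  obtain ⟨B, hB⟩ := hb
  have h1 : ∀ j, (e : 𝓞 K) * z j = A * x j + B * y j := fun j => by
    apply RingOfIntegers.coe_injective
    simp only [map_add, map_mul, map_natCast]
    change (e : K) * (z j : K) = (A : K) * x j + (B : K) * y j
    rw [hz, hA, hB]
    ring
  filter_upwards [unif _ hx] with Q h hQ _ γ r
  have h' := h hQ
  have k := behA_up (fun (ω : Fin 4 → Fin s → 𝓞 K ⧸ Ideal.span {(Q : 𝓞 K)})
    (v : Fin 2 → Fin 4 → 𝓞 K ⧸ Ideal.span {(Q : 𝓞 K)}) => ∀ l i, ∑ j, ω i j * Ideal.Quotient.mk _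
    ((![x, y] : Fin 2 → Fin s → 𝓞 K) l j) = v l i) h' (NN 𝔓 d γ r Q e a b)
    (fun t l i => Ideal.Quotient.mk _ ((![t.1, t.2.1] : Fin 2 → Fin 4 → 𝓞 K) l i))
    (fun ω => behA_In Q (BB 𝔓 d γ r) ω x ∧ behA_In Q (BB 𝔓 d γ r) ω y ∧
      behA_In Q (BB 𝔓 d γ r) ω z) (i₂ := inferInstance)
  refine k ?_
  rintro ω ⟨⟨u, hu, k1⟩, ⟨v, hv, k2⟩, w, hw, k3⟩
  refine ⟨(u, v, w), mem_filter.2 ⟨mem_product.2 ⟨hu, mem_product.2 ⟨hv, hw⟩⟩, fun i => ?_⟩,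
    fun l => ?_⟩
  · have h2 : Ideal.Quotient.mk (Ideal.span {(Q : 𝓞 K)}) (e * w i) =
        Ideal.Quotient.mk _ (A * u i + B * v i) := by
      rw [map_add, map_mul, map_mul, map_mul, ← k1, ← k2, ← k3, mul_sum, mul_sum, mul_sum,
        ← sum_add_distrib]
      refine sum_congr rfl fun j _ => ?_
      rw [mul_left_comm, ← map_mul, h1, map_add, map_mul, map_mul]
      ring
    obtain ⟨η, hη⟩ := Ideal.mem_span_singleton'.1 (Ideal.Quotient.eq.1 h2)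
    refine ⟨η, ?_⟩
    have h3 : (η : K) * Q = e * (w i : K) - ((A : K) * u i + (B : K) * v i) := by
      exact_mod_cast congrArg (fun x : 𝓞 K => (x : K)) hη
    rw [hA, hB] at h3
    linear_combination -h3
  · fin_cases l
    exacts [k1, k2]

open Classical in
theorem behrend_abs {ι V : Type*} [AddCommGroup V] [Module K V] [FiniteDimensional K V]
    {D H α : ℕ} {β : ℝ} (hD : finrank ℚ K ≤ D) (hH : 1 ≤ H) (hβ : 1 ≤ β)
    (θ : Fin (finrank ℚ K) → 𝓞 K) (hθ : LinearIndependent ℚ fun i => (θ i : K))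
    (hb : ∀ i, Bd β (θ i : K)) {𝔓 : Ideal (𝓞 K)} [𝔓.IsMaximal] (h2 : (2 : 𝓞 K) ∉ 𝔓)
    (hq1 : (H ^ 3) ^ (2 * D) < Ideal.absNorm 𝔓) (hq2 : 2 * (26 * D * β) ^ D ≤ Ideal.absNorm 𝔓)
    (R : Finset ι) (Y : ι → V) (hY : ∀ p ∈ R, Y p ≠ 0) (T : Finset (ι × ι × ι))
    (Cl : ι × ι × ι → Prop)
    (hT : ∀ t ∈ T, t.1 ∈ R ∧ t.2.1 ∈ R ∧ t.2.2 ∈ R ∧ t.1 ≠ t.2.1 ∧ t.1 ≠ t.2.2 ∧ t.2.1 ≠ t.2.2)
    (hα : ∀ G ⊆ R, (∀ t ∈ T, ¬ (t.1 ∈ G ∧ t.2.1 ∈ G ∧ t.2.2 ∈ G)) → G.card ≤ α)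
    (hrel : ∀ t ∈ T, (Cl t ∧ LinearIndependent K ![Y t.1, Y t.2.1, Y t.2.2]) ∨
      (LinearIndependent K ![Y t.1, Y t.2.1] ∧ ∃ a b : K, a ≠ 0 ∧ b ≠ 0 ∧
        Y t.2.2 = a • Y t.1 + b • Y t.2.1 ∧ NonDeg 𝔓 a b ∧ (Cl t ∨ (Low H a ∧ Low H b))))
    {lam : ℝ} (h0 : 0 ≤ lam)
    (h1 : lam * (2 * Ideal.absNorm 𝔓 * (4 * H ^ 3 * D * β) ^ (4 * D)) ≤ 1) :
    lam * R.card - lam ^ 3 * ((1000 * D * β) ^ (12 * D) *
      ((T.filter Cl).card + ((H : ℝ) ^ 3) ^ (4 * D) / Ideal.absNorm 𝔓 * T.card)) ≤ α := by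
  obtain ⟨dn, hdn⟩ : ∃ dn, dn = finrank ℚ K := ⟨_, rfl⟩
  have d0 : 0 < dn := hdn ▸ finrank_pos
  have dD : dn ≤ D := hdn ▸ hD
  have d1 : (1 : ℝ) ≤ dn := Nat.one_le_cast.2 d0
  have d2 : (dn : ℝ) ≤ D := Nat.cast_le.2 dD
  have H1 : (1 : ℝ) ≤ H := Nat.one_le_cast.2 hH
  have a1 : (1 : ℝ) ≤ H ^ 3 := one_le_pow₀ H1
  have a2 : ∀ x : ℝ, 1 ≤ x → 1 ≤ x * D * β := fun x hx =>
    one_le_mul_of_one_le_of_one_le (one_le_mul_of_one_le_of_one_le hx (d1.trans d2)) hβ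
  have q0 : 0 < Ideal.absNorm 𝔓 := lt_of_le_of_lt (Nat.zero_le _) hq1
  obtain ⟨d, hd⟩ : ∃ d : 𝓞 K, ¬ IsSquare (Ideal.Quotient.mk 𝔓 d) := by
    let _ := Ideal.Quotient.field 𝔓
    have := 𝔓.finiteQuotientOfFreeOfNeBot fun h => q0.ne' (Ideal.absNorm_eq_zero_iff.2 h)
    obtain ⟨x, hx⟩ := FiniteField.exists_nonsquare (F := 𝓞 K ⧸ 𝔓) fun h => h2 (by
      have h3 := (ringChar.spec (𝓞 K ⧸ 𝔓) 2).2 (h ▸ dvd_rfl)
      rw [← Ideal.Quotient.eq_zero_iff_mem, map_ofNat]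
      exact_mod_cast h3)
    obtain ⟨d, rfl⟩ := Ideal.Quotient.mk_surjective x
    exact ⟨d, hx⟩
  obtain ⟨s, ⟨bV⟩⟩ : ∃ s, Nonempty (Basis (Fin s) K V) := ⟨_, ⟨Module.finBasis K V⟩⟩
  obtain ⟨N₀, N0, hN₀⟩ := behA_den ((R ×ˢ univ).image fun x : ι × Fin s => bV.repr (Y x.1) x.2)
  have h3 : ∀ p j, ∃ y : 𝓞 K, p ∈ R → (y : K) = N₀ * bV.repr (Y p) j := fun p j => by
    by_cases hp : p ∈ R
    · obtain ⟨y, hy⟩ := hN₀ _ (mem_image_of_mem _ (mem_product.2 ⟨hp, mem_univ j⟩ : (p, j) ∈ _))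
      exact ⟨y, fun _ => hy⟩
    · exact ⟨0, fun h => absurd h hp⟩
  choose ξ hξ using h3
  have hli : ∀ {n : ℕ} (f : Fin n → V) (g : Fin n → Fin s → 𝓞 K), LinearIndependent K f →
      (∀ l, ∃ p ∈ R, f l = Y p ∧ g l = ξ p) → LinearIndependent K fun l j => (g l j : K) := by
    intro n f g hf hg
    have h := hf.map' ((N₀ : K) • bV.equivFun.toLinearMap) (by
      rw [LinearMap.ker_smul _ _ (Nat.cast_ne_zero.2 N0.ne'), LinearEquiv.ker])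
    have e : (fun l j => (g l j : K)) = ((N₀ : K) • bV.equivFun.toLinearMap) ∘ f := by
      funext l j
      obtain ⟨p, hp, e1, e2⟩ := hg l
      simp [e1, e2, hξ p j hp]
    rwa [e]
  have h4 : ∀ t : ι × ι × ι, ∃ a b : K, t ∈ T →
      (Cl t ∧ LinearIndependent K ![Y t.1, Y t.2.1, Y t.2.2]) ∨
      (LinearIndependent K ![Y t.1, Y t.2.1] ∧ a ≠ 0 ∧ b ≠ 0 ∧
        Y t.2.2 = a • Y t.1 + b • Y t.2.1 ∧ NonDeg 𝔓 a b ∧ (Cl t ∨ (Low H a ∧ Low H b))) := by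
    intro t
    by_cases ht : t ∈ T
    · rcases hrel t ht with h | ⟨h, a, b, h'⟩
      exacts [⟨0, 0, fun _ => .inl h⟩, ⟨a, b, fun _ => .inr ⟨h, h'⟩⟩]
    · exact ⟨0, 0, fun h => absurd h ht⟩
  choose a b hab using h4
  obtain ⟨e, e0, he⟩ := behA_den (T.image a ∪ T.image b)
  obtain ⟨q, hq⟩ : ∃ q : ℝ, q = Ideal.absNorm 𝔓 := ⟨_, rfl⟩
  obtain ⟨Γ, hΓ⟩ : ∃ Γ : ℝ, Γ = (1000 * D * β) ^ (12 * D) := ⟨_, rfl⟩
  obtain ⟨w, hw⟩ : ∃ w : ℝ, w = ((H : ℝ) ^ 3) ^ (4 * dn) := ⟨_, rfl⟩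
  obtain ⟨Z, hZ⟩ : ∃ Z : ℝ, Z = (dn * β) ^ (4 * dn) := ⟨_, rfl⟩
  obtain ⟨f, hf⟩ : ∃ f : ℝ, f = 4 ^ (4 * dn) := ⟨_, rfl⟩
  have q1 : 0 < q := hq ▸ Nat.cast_pos.2 q0
  have w0 : 0 < w := by rw [hw]; positivity
  have Z0 : 0 < Z := by rw [hZ]; positivity
  have f0 : 0 < f := by rw [hf]; positivity
  have Γ1 : 1 ≤ Γ := hΓ ▸ one_le_pow₀ (a2 _ (by norm_num))
  have w1 : w ≤ ((H : ℝ) ^ 3) ^ (4 * D) := hw ▸ pow_le_pow_right₀ (one_le_pow₀ H1) (by omega)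
  obtain ⟨c, hc⟩ : ∃ c : ι × ι × ι → ℝ, ∀ t,
    c t = Γ * ((if Cl t then 1 else 0) + ((H : ℝ) ^ 3) ^ (4 * D) / q) := ⟨_, fun _ => rfl⟩
  have c1 : ∀ t, Cl t → Γ ≤ c t := fun t h => by
    rw [hc, if_pos h]
    exact le_mul_of_one_le_right (by linarith) (le_add_of_nonneg_right (by positivity))
  have c2 : ∀ t, Γ * w / q ≤ c t := fun t => by
    rw [hc, mul_div_assoc]
    refine mul_le_mul_of_nonneg_left (le_add_of_nonneg_of_le (by split_ifs <;> norm_num) ?_)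
      (by linarith)
    gcongr
  have E3 : ∀ t ∈ T, ∀ᶠ Q : ℕ in atTop, Q.Prime → Q.Coprime e → (Q : 𝓞 K) ∉ 𝔓 →
      ∀ [Fintype (𝓞 K ⧸ Ideal.span {(Q : 𝓞 K)})] (γ : 𝓞 K) (μ : ℝ), 1 / (2 * q * f * w * Z) ≤ μ →
      (BB 𝔓 d γ (Q / (4 * H ^ 3))).card = μ * Q ^ (4 * dn) →
      ((univ.filter fun ω => behA_In Q (BB 𝔓 d γ (Q / (4 * H ^ 3))) ω (ξ t.1) ∧
        behA_In Q (BB 𝔓 d γ (Q / (4 * H ^ 3))) ω (ξ t.2.1) ∧
        behA_In Q (BB 𝔓 d γ (Q / (4 * H ^ 3))) ω (ξ t.2.2)).card : ℝ) ≤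
        c t * (μ ^ 3 * Q ^ (4 * s * dn)) := by
    intro t ht
    obtain ⟨t1, t2, t3, -⟩ := hT t ht
    rcases hab t ht with ⟨k1, k2⟩ | ⟨k1, k2, k3, k4, k5, k6⟩
    · filter_upwards [behA_three (hli _ ![ξ t.1, ξ t.2.1, ξ t.2.2] k2 fun l => by
        fin_cases l
        exacts [⟨_, t1, rfl, rfl⟩, ⟨_, t2, rfl, rfl⟩, ⟨_, t3, rfl, rfl⟩])]
        with Q h hQ _ _ _ γ μ m1 m2
      have Q0 : (0 : ℝ) < Q := Nat.cast_pos.2 hQ.pos
      have μ0 : 0 < μ := lt_of_lt_of_le (by positivity) m1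
      have h5 := h hQ (BB 𝔓 d γ (Q / (4 * H ^ 3)))
      rw [m2, ← hdn] at h5
      push_cast at h5
      refine le_trans (le_of_mul_le_mul_right (h5.trans_eq ?_) (by positivity))
        (le_mul_of_one_le_left (by positivity) (Γ1.trans (c1 t k1)))
      ring
    · filter_upwards [behA_two (e := e) (z := ξ t.2.2) 𝔓 d (hli _ ![ξ t.1, ξ t.2.1] k1 fun l => by
          fin_cases l
          exacts [⟨_, t1, rfl, rfl⟩, ⟨_, t2, rfl, rfl⟩]) (a := a t) (b := b t) (fun j => by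
          rw [hξ _ j t1, hξ _ j t2, hξ _ j t3, k4]
          simp only [map_add, map_smul, Finsupp.add_apply, Finsupp.smul_apply, smul_eq_mul]
          ring) (he _ (mem_union_left _ (mem_image_of_mem _ ht)))
          (he _ (mem_union_right _ (mem_image_of_mem _ ht))),
        nn_le (e := e) h2 hd k2 k3 k5 hH (lt_of_le_of_lt (Nat.pow_le_pow_right (by positivity)
          (by omega)) hq1)] with Q h h' hQ y1 y2 _ γ μ m1 m2
      have Q0 : (0 : ℝ) < Q := Nat.cast_pos.2 hQ.pos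
      have h5 := h hQ γ (Q / (4 * H ^ 3))
      have h6 := h' y1 y2 γ
      rw [← hdn] at h5 h6
      push_cast at h5
      have e1 : (Q / (4 * H ^ 3) : ℝ) ^ (8 * dn) = Q ^ (4 * 2 * dn) / (f * w) ^ 2 := by
        rw [hf, hw, ← mul_pow, ← pow_mul, div_pow, show 4 * dn * 2 = 8 * dn by ring]
      rw [e1, ← hq, ← hw] at h6
      have h7 : ((NN 𝔓 d γ (Q / (4 * H ^ 3)) Q e (a t) (b t)).card : ℝ) ≤
          c t * (1 / (2 * q * f * w * Z)) ^ 3 * Q ^ (4 * 2 * dn) := by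
        rcases h6 with h6 | ⟨h8, h6⟩
        · have n1 := behA_num d0 dD hβ (x := 1352) (by norm_num) (by norm_num)
          rw [← hΓ, ← hZ, ← hf] at n1
          calc _ ≤ _ := h6
            _ = 8 * 1352 ^ (4 * dn) * f * Z ^ 3 * w / q * (1 / (2 * q * f * w * Z)) ^ 3 *
                Q ^ (4 * 2 * dn) := by field_simp; norm_num
            _ ≤ _ := by
              gcongr ?_ * _ * _
              refine le_trans ?_ (c2 t)
              gcongr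
              refine le_trans ?_ n1
              gcongr
              norm_num
        · have n1 := behA_num d0 dD hβ (x := 1352 * 26) (by norm_num) le_rfl
          rw [← hΓ, ← hZ, ← hf] at n1
          calc _ ≤ _ := h6
            _ = 32 * (1352 * 26) ^ (4 * dn) * f * Z ^ 3 * (1 / (2 * q * f * w * Z)) ^ 3 *
                Q ^ (4 * 2 * dn) := by field_simp; norm_num
            _ ≤ _ := by
              gcongr ?_ * _ * _
              exact n1.trans (c1 t (k6.resolve_right h8))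
      have c0 : 0 ≤ c t := le_trans (by positivity) (c2 t)
      refine le_of_mul_le_mul_right (a := (Q : ℝ) ^ (4 * 2 * dn)) (h5.trans ?_) (by positivity)
      calc _ ≤ c t * μ ^ 3 * Q ^ (4 * 2 * dn) * Q ^ (4 * s * dn) := by
            gcongr ?_ * _
            refine h7.trans ?_
            gcongr
        _ = _ := by ring
  have E1 := fun p (hp : p ∈ R) => behA_one (hli ![Y p] ![ξ p]
    (by simpa using hY p hp) fun l => by
      fin_cases l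
      exact ⟨_, hp, rfl, rfl⟩)
  have E2 := ((tendsto_natCast_atTop_atTop (R := ℝ)).atTop_div_const
    (show (0 : ℝ) < 4 * H ^ 3 by positivity)).eventually (bb_ge (𝔓 := 𝔓) d hβ θ hθ hb (by
      rw [← hdn]
      refine le_trans (mul_le_mul_of_nonneg_left (le_trans (pow_le_pow_left₀ (by positivity) ?_ _)
        (pow_le_pow_right₀ (a2 _ (by norm_num)) dD)) zero_le_two) hq2
      gcongr))
  obtain ⟨M, hM⟩ := eventually_atTop.1 (((eventually_all_finset T).2 E3).and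
    (((eventually_all_finset R).2 E1).and (E2.and ((behA_zero (K := K) s).and
      ((eventually_gt_atTop e).and (eventually_gt_atTop (Ideal.absNorm 𝔓)))))))
  obtain ⟨Q, hQM, hQ⟩ := Nat.exists_infinite_primes M
  obtain ⟨g3, g1, ⟨γ, g2⟩, g0, ge, gq⟩ := hM Q hQM
  have Q0 : (0 : ℝ) < Q := Nat.cast_pos.2 hQ.pos
  have := (Ideal.span {(Q : 𝓞 K)}).finiteQuotientOfFreeOfNeBot
    (by rw [Ne, Ideal.span_singleton_eq_bot]; exact Nat.cast_ne_zero.2 hQ.ne_zero)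
  let _ := Fintype.ofFinite (𝓞 K ⧸ Ideal.span {(Q : 𝓞 K)})
  have y2 : (Q : 𝓞 K) ∉ 𝔓 := fun h => by
    obtain ⟨u, v, huv⟩ := (Nat.coprime_of_lt_prime q0.ne' gq hQ).cast (R := 𝓞 K)
    exact Ideal.IsMaximal.ne_top inferInstance ((Ideal.eq_top_iff_one 𝔓).2 (huv ▸ add_mem
      (Ideal.mul_mem_left _ _ h) (Ideal.mul_mem_left _ _ (Ideal.absNorm_mem 𝔓))))
  obtain ⟨μ, hμ⟩ : ∃ μ : ℝ, (BB 𝔓 d γ (Q / (4 * H ^ 3))).card = μ * Q ^ (4 * dn) :=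
    ⟨_, (div_mul_cancel₀ _ (by positivity)).symm⟩
  have m1 : 1 / (2 * q * f * w * Z) ≤ μ := by
    rw [hμ, ← hdn, ← hq, div_pow, div_pow, mul_pow 4, ← hf, ← hw, ← hZ] at g2
    refine le_of_mul_le_mul_right (le_trans (le_of_eq ?_) g2) (pow_pos Q0 _)
    field_simp
  have key := behA_avg R T hT hα (fun ω p => behA_In Q (BB 𝔓 d γ (Q / (4 * H ^ 3))) ω (ξ p))
    (μ := μ) (N := Q ^ (4 * s * dn)) (lam := lam) c (by rw [g0 hQ, hdn]; push_cast; rfl)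
    (by positivity) (lt_of_lt_of_le (by positivity) m1) h0 (le_trans ?_ m1) (fun p hp => ?_)
    fun t ht => g3 t ht hQ (Nat.coprime_of_lt_prime e0.ne' ge hQ) y2 γ μ m1 hμ
  · refine le_trans (le_of_eq ?_) key
    simp only [hc, ← mul_sum, sum_add_distrib, sum_boole, sum_const, nsmul_eq_mul, hΓ, hq]
    ring
  · rw [le_div_iff₀ (by positivity)]
    refine le_trans (mul_le_mul_of_nonneg_left ?_ h0) h1
    rw [← hq, hf, hw, hZ, mul_assoc, mul_assoc, ← mul_pow, ← mul_pow]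
    refine mul_le_mul_of_nonneg_left ?_ (by positivity)
    refine le_trans (pow_le_pow_left₀ (by positivity) ?_ _)
      (pow_le_pow_right₀ (a2 _ (by linarith only [a1])) (by omega))
    rw [mul_assoc _ (D : ℝ), mul_assoc 4]
    gcongr
  · have h5 := g1 p hp hQ (BB 𝔓 d γ (Q / (4 * H ^ 3))) fun u hu i =>
      (mem_Bx.1 (Fintype.mem_piFinset.1 (mem_filter.1 hu).1 i)).mono (by
        gcongr
        exact le_mul_of_one_le_right (by norm_num) (one_le_pow₀ H1))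
    rw [hμ, ← hdn] at h5
    push_cast at h5
    refine le_of_mul_le_mul_right (le_trans (le_of_eq ?_) h5) (by positivity)
    ring

end Pool.Agent.Lib.MP_a147dc_co.B
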