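import Pool.Agent.Lib.MP_a147dc_co.B.Cell

/-! Projective congruences and chordal distances. -/

namespace Pool.Agent.Lib.MP_a147dc_co.B

open Finset NumberField Module Polynomial Filter
open scoped nonZeroDivisors

variable {K : Type*} [Field K] [NumberField K]

omit [NumberField K] in
lemma proj_id (x y z : Fin 3 → K) (i j k : Fin 3) :
    y k * mn x z i j = z j * mn x y i k - z i * mn x y j k + x k * mn y z i j := by
  unfold mn; ring

omit [NumberField K] in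
lemma proj_mn_smul (x y : Fin 3 → K) (μ ν : K) (i j : Fin 3) :
    mn (μ • x) (ν • y) i j = μ * ν * mn x y i j := by
  simp only [mn, Pi.smul_apply, smul_eq_mul]; ring

omit [NumberField K] in
lemma proj_mn_symm (x y : Fin 3 → K) (i j : Fin 3) : mn y x i j = mn x y j i := by
  unfold mn; ring

lemma proj_span_le (x : Fin 3 → K) (i : Fin 3) :
    FractionalIdeal.spanSingleton (𝓞 K)⁰ (x i) ≤ ct x :=
  single_le_sum (f := fun i => FractionalIdeal.spanSingleton (𝓞 K)⁰ (x i))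
    (fun _ _ => FractionalIdeal.zero_le _) (mem_univ i)

lemma proj_mem (x : Fin 3 → K) (i : Fin 3) : x i ∈ ct x :=
  FractionalIdeal.spanSingleton_le_iff_mem.1 (proj_span_le x i)

lemma proj_sum_le {ι : Type*} {s : Finset ι} {f : ι → FractionalIdeal (𝓞 K)⁰ K}
    {I : FractionalIdeal (𝓞 K)⁰ K} : ∑ i ∈ s, f i ≤ I ↔ ∀ i ∈ s, f i ≤ I := by
  classical
  induction s using Finset.induction_on with
  | empty => simp
  | insert a s ha ih =>
    rw [sum_insert ha, ← FractionalIdeal.sup_eq_add, sup_le_iff, ih, forall_mem_insert]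

lemma proj_ct_ne {x : Fin 3 → K} (hx : x ≠ 0) : ct x ≠ 0 := fun h => hx (funext fun i => by
  have := proj_mem x i
  rwa [h, FractionalIdeal.mem_zero_iff] at this)

lemma proj_ct_smul (μ : K) (x : Fin 3 → K) :
    ct (μ • x) = FractionalIdeal.spanSingleton (𝓞 K)⁰ μ * ct x := by
  simp only [ct, mul_sum, Pi.smul_apply, smul_eq_mul,
    FractionalIdeal.spanSingleton_mul_spanSingleton]

lemma proj_cancel {I J L : FractionalIdeal (𝓞 K)⁰ K} (hL : L ≠ 0) : I * L ≤ J * L ↔ I ≤ J := by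
  refine ⟨fun h => ?_, fun h => mul_le_mul_left h L⟩
  have := mul_le_mul_left h L⁻¹
  rwa [mul_inv_cancel_right₀ hL, mul_inv_cancel_right₀ hL] at this

lemma PC.refl (J : Ideal (𝓞 K)) (x : Fin 3 → K) : PC J x x := fun i j => by
  rw [show mn x x i j = 0 by unfold mn; ring]
  exact FractionalIdeal.zero_mem _

lemma PC.symm {J : Ideal (𝓞 K)} {x y : Fin 3 → K} (h : PC J x y) : PC J y x := fun i j => by
  rw [proj_mn_symm, mul_right_comm]
  exact h j i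

lemma PC.trans {J : Ideal (𝓞 K)} {x y z : Fin 3 → K} (hy : y ≠ 0) (h : PC J x y) (h' : PC J y z) :
    PC J x z := fun i j => by
  rw [← FractionalIdeal.spanSingleton_le_iff_mem, ← proj_cancel (proj_ct_ne hy)]
  conv_lhs => rw [ct, mul_sum]
  refine proj_sum_le.2 fun k _ => ?_
  rw [FractionalIdeal.spanSingleton_mul_spanSingleton, FractionalIdeal.spanSingleton_le_iff_mem,
    mul_comm (mn x z i j), proj_id]
  have h1 : ∀ a b, z a * mn x y b k ∈ (J : FractionalIdeal (𝓞 K)⁰ K) * ct x * ct z * ct y :=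
    fun a b => by
      rw [mul_right_comm, mul_comm (z a)]
      exact FractionalIdeal.mul_mem_mul (h b k) (proj_mem z a)
  have h2 : x k * mn y z i j ∈ (J : FractionalIdeal (𝓞 K)⁰ K) * ct x * ct z * ct y := by
    rw [show (J : FractionalIdeal (𝓞 K)⁰ K) * ct x * ct z * ct y = ct x * (J * ct y * ct z) by ring]
    exact FractionalIdeal.mul_mem_mul (proj_mem x k) (h' i j)
  exact Submodule.add_mem _ (Submodule.sub_mem _ (h1 j i) (h1 i j)) h2

lemma PC.mono {J J' : Ideal (𝓞 K)} {x y : Fin 3 → K} (h : PC J x y) (hJ : J ≤ J') :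
    PC J' x y := fun i j =>
  mul_le_mul_left (mul_le_mul_left (FractionalIdeal.coeIdeal_le_coeIdeal K |>.2 hJ) _) _ (h i j)

lemma PC_top (x y : Fin 3 → K) : PC (⊤ : Ideal (𝓞 K)) x y := fun i j => by
  rw [FractionalIdeal.coeIdeal_top, one_mul]
  exact Submodule.sub_mem _ (FractionalIdeal.mul_mem_mul (proj_mem x i) (proj_mem y j))
    (FractionalIdeal.mul_mem_mul (proj_mem x j) (proj_mem y i))

lemma PC_smul {J : Ideal (𝓞 K)} {x y : Fin 3 → K} {μ ν : K} (hμ : μ ≠ 0) (hν : ν ≠ 0) :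
    PC J (μ • x) (ν • y) ↔ PC J x y := by
  refine forall₂_congr fun i j => ?_
  rw [proj_mn_smul, proj_ct_smul, proj_ct_smul, ← FractionalIdeal.spanSingleton_le_iff_mem,
    ← FractionalIdeal.spanSingleton_le_iff_mem, mul_comm (μ * ν),
    ← FractionalIdeal.spanSingleton_mul_spanSingleton,
    ← proj_cancel (J := (J : FractionalIdeal (𝓞 K)⁰ K) * ct x * ct y)
      (FractionalIdeal.spanSingleton_ne_zero_iff.2 (mul_ne_zero hμ hν)),
    ← FractionalIdeal.spanSingleton_mul_spanSingleton μ ν]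
  exact Eq.to_iff (congrArg _ (by ring))

lemma proj_PC_iff {J : Ideal (𝓞 K)} {x y : Fin 3 → K} : PC J x y ↔
    ∑ i, ∑ j, FractionalIdeal.spanSingleton (𝓞 K)⁰ (mn x y i j) ≤
      (J : FractionalIdeal (𝓞 K)⁰ K) * ct x * ct y := by
  simp only [proj_sum_le, mem_univ, true_imp_iff, FractionalIdeal.spanSingleton_le_iff_mem, PC]

/-- the exact congruence ideal -/
lemma PC.exists_exact {J : Ideal (𝓞 K)} {x y : Fin 3 → K} (hJ : J ≠ ⊥) (hx : x ≠ 0) (hy : y ≠ 0)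
    (h : PC J x y) : ∃ B : Ideal (𝓞 K), (∀ B' : Ideal (𝓞 K), PC (J * B') x y ↔ B' ∣ B) ∧
      ∑ i, ∑ j, FractionalIdeal.spanSingleton (𝓞 K)⁰ (mn x y i j) =
        ((J * B : Ideal (𝓞 K)) : FractionalIdeal (𝓞 K)⁰ K) * ct x * ct y := by
  have h0 : (J : FractionalIdeal (𝓞 K)⁰ K) * ct x * ct y ≠ 0 :=
    mul_ne_zero (mul_ne_zero (FractionalIdeal.coeIdeal_ne_zero.2 hJ) (proj_ct_ne hx))
      (proj_ct_ne hy)
  have e : ∀ B : Ideal (𝓞 K), ((J * B : Ideal (𝓞 K)) : FractionalIdeal (𝓞 K)⁰ K) * ct x * ct y =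
      B * (J * ct x * ct y) := fun B => by rw [FractionalIdeal.coeIdeal_mul]; ring
  have h1 := mul_le_mul_left (proj_PC_iff.1 h) ((J : FractionalIdeal (𝓞 K)⁰ K) * ct x * ct y)⁻¹
  rw [mul_inv_cancel₀ h0] at h1
  obtain ⟨B, hB⟩ := FractionalIdeal.le_one_iff_exists_coeIdeal.1 h1
  have h2 := (eq_mul_inv_iff_mul_eq₀ h0).1 hB
  refine ⟨B, fun B' => ?_, by rw [e, h2]⟩
  rw [proj_PC_iff, e, ← h2, proj_cancel h0, FractionalIdeal.coeIdeal_le_coeIdeal, Ideal.dvd_iff_le]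

/-- integral vectors: the minors lie in the modulus -/
lemma PC.mem {J : Ideal (𝓞 K)} {x y : Fin 3 → 𝓞 K} (h : PC J (fun i => (x i : K)) fun i => y i)
    (i j : Fin 3) : x i * y j - x j * y i ∈ J := by
  have h1 : ∀ x : Fin 3 → 𝓞 K, ct (fun i => (x i : K)) ≤ 1 := fun x => proj_sum_le.2 fun i _ =>
    FractionalIdeal.spanSingleton_le_iff_mem.2 ((FractionalIdeal.mem_one_iff _).2 ⟨x i, rfl⟩)
  have h2 := mul_le_mul' (mul_le_mul_right (h1 x) (J : FractionalIdeal (𝓞 K)⁰ K)) (h1 y) (h i j)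
  rw [mul_one, mul_one] at h2
  obtain ⟨a, ha, e⟩ := (FractionalIdeal.mem_coeIdeal _).1 h2
  have : a = x i * y j - x j * y i := RingOfIntegers.coe_injective (e.trans (by simp [mn]))
  exact this ▸ ha

omit [NumberField K] in
lemma proj_nrm_nonneg (σ : K →+* ℂ) (x : Fin 3 → K) : 0 ≤ nrm σ x := norm_nonneg _

omit [NumberField K] in
lemma proj_le_nrm (σ : K →+* ℂ) (x : Fin 3 → K) (i : Fin 3) : ‖σ (x i)‖ ≤ nrm σ x :=
  norm_le_pi_norm (fun i => σ (x i)) i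

omit [NumberField K] in
lemma proj_nrm_smul (σ : K →+* ℂ) (μ : K) (x : Fin 3 → K) :
    nrm σ (μ • x) = ‖σ μ‖ * nrm σ x := by
  rw [nrm, nrm, ← norm_smul]
  exact congrArg _ (funext fun i => map_mul σ μ (x i))

omit [NumberField K] in
lemma AC.symm {σ : K →+* ℂ} {ρ : ℝ} {x y : Fin 3 → K} (h : AC σ ρ x y) : AC σ ρ y x :=
  fun i j => by
    rw [proj_mn_symm, mul_right_comm]
    exact h j i

omit [NumberField K] in
lemma AC.tri {σ : K →+* ℂ} {ρ : ℝ} {x y z : Fin 3 → K} (hy : y ≠ 0) (h : AC σ ρ y x)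
    (h' : AC σ ρ y z) : AC σ (3 * ρ) x z := fun i j => by
  obtain ⟨k, hk⟩ := exists_max_image univ (fun i => ‖σ (y i)‖) univ_nonempty
  have h1 : nrm σ y = ‖σ (y k)‖ := le_antisymm
    ((pi_norm_le_iff_of_nonneg (norm_nonneg _)).2 fun i => hk.2 i (mem_univ i)) (proj_le_nrm σ y k)
  have h2 : 0 < nrm σ y := by
    obtain ⟨l, hl⟩ := Function.ne_iff.1 hy
    exact (norm_pos_iff.2 ((_root_.map_ne_zero σ).2 hl)).trans_le (proj_le_nrm σ y l)
  have h3 : ∀ a b, ‖σ (z a * mn x y b k)‖ ≤ nrm σ z * (ρ * nrm σ x * nrm σ y) := fun a b => by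
    rw [map_mul, norm_mul]
    exact mul_le_mul (proj_le_nrm σ z a) (h.symm b k) (norm_nonneg _) (proj_nrm_nonneg _ _)
  have h4 : ‖σ (x k * mn y z i j)‖ ≤ nrm σ x * (ρ * nrm σ y * nrm σ z) := by
    rw [map_mul, norm_mul]
    exact mul_le_mul (proj_le_nrm σ x k) (h' i j) (norm_nonneg _) (proj_nrm_nonneg _ _)
  have h5 : ‖σ (y k * mn x z i j)‖ ≤ ‖σ (z j * mn x y i k)‖ + ‖σ (z i * mn x y j k)‖ +
      ‖σ (x k * mn y z i j)‖ := by
    rw [proj_id, map_add, map_sub]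
    exact (norm_add_le _ _).trans (add_le_add_left (norm_sub_le _ _) _)
  rw [map_mul, norm_mul, ← h1] at h5
  refine le_of_mul_le_mul_left ?_ h2
  linarith [h3 j i, h3 i j]

omit [NumberField K] in
lemma AC_two (σ : K →+* ℂ) (x y : Fin 3 → K) : AC σ 2 x y := fun i j => by
  have h : ∀ a b, ‖σ (x a * y b)‖ ≤ nrm σ x * nrm σ y := fun a b => by
    rw [map_mul, norm_mul]
    exact mul_le_mul (proj_le_nrm σ x a) (proj_le_nrm σ y b) (norm_nonneg _) (proj_nrm_nonneg _ _)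
  rw [mn, map_sub]
  linarith [norm_sub_le (σ (x i * y j)) (σ (x j * y i)), h i j, h j i]

omit [NumberField K] in
lemma AC_smul {σ : K →+* ℂ} {ρ : ℝ} {x y : Fin 3 → K} {μ ν : K} (hμ : μ ≠ 0) (hν : ν ≠ 0) :
    AC σ ρ (μ • x) (ν • y) ↔ AC σ ρ x y := by
  refine forall₂_congr fun i j => ?_
  have h : 0 < ‖σ μ‖ * ‖σ ν‖ := mul_pos (norm_pos_iff.2 ((_root_.map_ne_zero σ).2 hμ))
    (norm_pos_iff.2 ((_root_.map_ne_zero σ).2 hν))
  rw [proj_mn_smul, proj_nrm_smul, proj_nrm_smul, map_mul, map_mul, norm_mul, norm_mul,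
    show ρ * (‖σ μ‖ * nrm σ x) * (‖σ ν‖ * nrm σ y) = ‖σ μ‖ * ‖σ ν‖ * (ρ * nrm σ x * nrm σ y) by
      ring, mul_le_mul_iff_right₀ h]

lemma Cls.symm {J : Ideal (𝓞 K)} {ρ : (K →+* ℂ) → ℝ} {H : ℕ} {x y : Fin 3 → K}
    (h : Cls J ρ H x y) : Cls J ρ H y x :=
  h.imp (fun ⟨B, h1, h2⟩ => ⟨B, h1, h2.symm⟩) fun ⟨σ, h1⟩ => ⟨σ, h1.symm⟩

lemma Cls_smul {J : Ideal (𝓞 K)} {ρ : (K →+* ℂ) → ℝ} {H : ℕ} {x y : Fin 3 → K} {μ ν : K}
    (hμ : μ ≠ 0) (hν : ν ≠ 0) : Cls J ρ H (μ • x) (ν • y) ↔ Cls J ρ H x y := by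
  simp only [Cls, FC, PC_smul hμ hν, AC_smul hμ hν]

omit [NumberField K] in
lemma exists_mn_ne {p q : K × K} (h : p ≠ q) : ∃ i j, mn (hm p) (hm q) i j ≠ 0 := by
  by_contra! hc
  have h1 := hc 0 1
  have h2 := hc 0 2
  simp only [mn, hm, Matrix.cons_val, one_mul, mul_one, sub_eq_zero] at h1 h2
  exact h (Prod.ext h1.symm h2.symm)

omit [NumberField K] in
lemma exists_param {p q u : K × K} (hpq : p ≠ q) (hpu : p ≠ u) (hqu : q ≠ u) (h : dt p q u = 0) :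
    ∃ a b : K, a ≠ 0 ∧ b ≠ 0 ∧ hm u = a • hm p + b • hm q := by
  obtain ⟨τ, h1, h2⟩ : ∃ τ : K, u.1 = p.1 + τ * (q.1 - p.1) ∧ u.2 = p.2 + τ * (q.2 - p.2) := by
    unfold dt at h
    by_cases e : q.1 - p.1 = 0
    · have e' : q.2 - p.2 ≠ 0 := fun e' =>
        hpq (Prod.ext (sub_eq_zero.1 e).symm (sub_eq_zero.1 e').symm)
      refine ⟨(u.2 - p.2) / (q.2 - p.2), ?_, ?_⟩ <;> field_simp
      · linear_combination (-1 : K) * h
      · ring
    · refine ⟨(u.1 - p.1) / (q.1 - p.1), ?_, ?_⟩ <;> field_simp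
      · ring
      · linear_combination h
  refine ⟨1 - τ, τ, fun e => hqu ?_, fun e => hpu ?_, funext fun i => ?_⟩
  · rw [← sub_eq_zero.1 e] at h1 h2
    exact Prod.ext (by rw [h1]; ring) (by rw [h2]; ring)
  · rw [e] at h1 h2
    exact Prod.ext (by rw [h1]; ring) (by rw [h2]; ring)
  · fin_cases i
    · simp [hm]
    · simp only [hm, h1]
      simp
      ring
    · simp only [hm, h2]
      simp
      ring

lemma pot_ge {m : ℕ} {p q : K × K} (hp : Hgt m p) (hq : Hgt m q) (hpq : p ≠ q) {J : Ideal (𝓞 K)}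
    {ρ : (K →+* ℂ) → ℝ} (h : PC J (hm p) (hm q)) (h' : ∀ σ, AC σ (ρ σ) (hm p) (hm q)) :
    J ≠ ⊥ ∧ (Ideal.absNorm J : ℝ) ≤ (m : ℝ) ^ (2 * finrank ℚ K) * ∏ σ, ρ σ := by
  obtain ⟨c, hc, hp⟩ := hp
  obtain ⟨c', hc', hq⟩ := hq
  obtain ⟨x, hx⟩ : ∃ x : Fin 3 → 𝓞 K, (fun i => (x i : K)) = c • hm p :=
    ⟨fun i => ⟨c * hm p i, (hp i).1⟩, rfl⟩
  obtain ⟨y, hy⟩ : ∃ y : Fin 3 → 𝓞 K, (fun i => (y i : K)) = c' • hm q :=
    ⟨fun i => ⟨c' * hm q i, (hq i).1⟩, rfl⟩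
  obtain ⟨i, j, hij⟩ := exists_mn_ne hpq
  have h1 : x i * y j - x j * y i ∈ J := PC.mem (hx ▸ hy ▸ (PC_smul hc hc').2 h) i j
  have h2 : ((x i * y j - x j * y i : 𝓞 K) : K) = mn (c • hm p) (c' • hm q) i j := by
    rw [← hx, ← hy]
    simp [mn]
  have h3 : mn (c • hm p) (c' • hm q) i j ≠ 0 := by
    rw [proj_mn_smul]
    exact mul_ne_zero (mul_ne_zero hc hc') hij
  have h4 : x i * y j - x j * y i ≠ 0 := fun e => h3 (by rw [← h2, e]; simp)
  refine ⟨fun e => h4 (by rwa [e] at h1), ?_⟩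
  have h5 : Ideal.absNorm J ≤ Ideal.absNorm (Ideal.span {x i * y j - x j * y i}) :=
    Nat.le_of_dvd (Nat.pos_of_ne_zero fun e => h4
      (Ideal.span_singleton_eq_bot.1 (Ideal.absNorm_eq_zero_iff.1 e)))
      (Ideal.absNorm_dvd_absNorm_of_le ((Ideal.span_singleton_le_iff_mem _).2 h1))
  refine (Nat.cast_le.2 h5).trans ?_
  rw [absNorm_span_eq, h2, pow_mul, ← Embeddings.card K ℂ, ← card_univ, ← prod_const,
    ← prod_mul_distrib]
  refine prod_le_prod (fun _ _ => norm_nonneg _) fun σ _ => ?_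
  have h6 := (AC_smul hc hc').2 (h' σ) i j
  have h7 : nrm σ (c • hm p) ≤ m :=
    (pi_norm_le_iff_of_nonneg m.cast_nonneg).2 fun l => (hp l).2 σ
  have h8 : nrm σ (c' • hm q) ≤ m :=
    (pi_norm_le_iff_of_nonneg m.cast_nonneg).2 fun l => (hq l).2 σ
  have h9 := mul_nonneg (proj_nrm_nonneg σ (c • hm p)) (proj_nrm_nonneg σ (c' • hm q))
  have h10 : 0 < ‖σ (mn (c • hm p) (c' • hm q) i j)‖ :=
    norm_pos_iff.2 ((_root_.map_ne_zero σ).2 h3)
  rw [mul_assoc] at h6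
  have h11 : 0 ≤ ρ σ := not_lt.1 fun e =>
    (h10.trans_le h6).not_ge (mul_nonpos_of_nonpos_of_nonneg e.le h9)
  refine h6.trans ?_
  rw [mul_comm _ (ρ σ), sq]
  exact mul_le_mul_of_nonneg_left
    (mul_le_mul h7 h8 (proj_nrm_nonneg _ _) m.cast_nonneg) h11

end Pool.Agent.Lib.MP_a147dc_co.B
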