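import Pool.Agent.Lib.MP_a147dc_co.B.Cell
import Pool.Agent.Lib.MP_a147dc_co.B.Proj

/-! Collinear triples whose points are not close have comparable coordinates. -/

namespace Pool.Agent.Lib.MP_a147dc_co.B

open Finset NumberField Module Polynomial Filter
open scoped nonZeroDivisors

variable {K : Type*} [Field K] [NumberField K]

lemma near_sum_le {ι : Type*} [Fintype ι] {f : ι → K} {I : FractionalIdeal (𝓞 K)⁰ K}
    (h : ∀ i, f i ∈ I) : ∑ i, FractionalIdeal.spanSingleton (𝓞 K)⁰ (f i) ≤ I := by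
  refine Finset.sum_induction _ (· ≤ I) (fun a b ha hb => ?_) (FractionalIdeal.zero_le I)
    fun i _ => FractionalIdeal.spanSingleton_le_iff_mem.2 (h i)
  rw [← FractionalIdeal.sup_eq_add]
  exact sup_le ha hb

lemma near_le_sum {ι : Type*} [Fintype ι] (f : ι → FractionalIdeal (𝓞 K)⁰ K) (i : ι) :
    f i ≤ ∑ j, f j := by
  classical
  rw [← Finset.add_sum_erase _ _ (mem_univ i), ← FractionalIdeal.sup_eq_add]
  exact le_sup_left

lemma near_mem_ct (x : Fin 3 → K) (i : Fin 3) : x i ∈ ct x :=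
  FractionalIdeal.spanSingleton_le_iff_mem.1
    (near_le_sum (fun i => FractionalIdeal.spanSingleton (𝓞 K)⁰ (x i)) i)

lemma near_ct_smul (μ : K) (x : Fin 3 → K) :
    ct (μ • x) = FractionalIdeal.spanSingleton (𝓞 K)⁰ μ * ct x := by
  simp only [ct, Finset.mul_sum, FractionalIdeal.spanSingleton_mul_spanSingleton, Pi.smul_apply,
    smul_eq_mul]

lemma near_ct_le {c : K} {x : Fin 3 → K} {I : FractionalIdeal (𝓞 K)⁰ K} (h : ∀ i, c * x i ∈ I)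
    {t : K} (ht : t ∈ ct x) : c * t ∈ I := by
  have h1 : FractionalIdeal.spanSingleton (𝓞 K)⁰ c * ct x ≤ I := by
    rw [← near_ct_smul]
    exact near_sum_le h
  exact h1 (FractionalIdeal.mul_mem_mul (FractionalIdeal.mem_spanSingleton_self _ c) ht)

lemma near_ct_ne {x : Fin 3 → K} (hx : x ≠ 0) : ct x ≠ 0 := fun h => hx (funext fun i => by
  have h1 := near_mem_ct x i
  rwa [h, FractionalIdeal.mem_zero_iff] at h1)

omit [NumberField K] in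
lemma near_nat_mul (n : ℕ) {I : FractionalIdeal (𝓞 K)⁰ K} {t : K} (h : t ∈ I) :
    (n : K) * t ∈ I := by
  have h1 : n • t ∈ (I : Submodule (𝓞 K) K) :=
    nsmul_mem (S := (I : Submodule (𝓞 K) K)) h n
  rwa [nsmul_eq_mul] at h1

lemma near_norm_mem (B : Ideal (𝓞 K)) :
    ((Ideal.absNorm B : ℕ) : K) ∈ (B : FractionalIdeal (𝓞 K)⁰ K) :=
  (FractionalIdeal.mem_coeIdeal _).2 ⟨_, Ideal.absNorm_mem B, map_natCast _ _⟩

lemma near_mem_of_eq {B₁ B₂ : Ideal (𝓞 K)} {I₁ I₂ : FractionalIdeal (𝓞 K)⁰ K}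
    (h : (B₂ : FractionalIdeal (𝓞 K)⁰ K) * I₂ = B₁ * I₁) {t : K} (ht : t ∈ I₂) :
    ((Ideal.absNorm B₂ : ℕ) : K) * t ∈ I₁ := by
  have h1 := FractionalIdeal.mul_mem_mul (near_norm_mem B₂) ht
  rw [h] at h1
  have h2 : (B₁ : FractionalIdeal (𝓞 K)⁰ K) * I₁ ≤ 1 * I₁ :=
    mul_le_mul_left FractionalIdeal.coeIdeal_le_one I₁
  rw [one_mul] at h2
  exact h2 h1

lemma near_cancel {I A B : FractionalIdeal (𝓞 K)⁰ K} (hI : I ≠ 0) (h : I * A ≤ I * B) :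
    A ≤ B := by
  have h1 : I⁻¹ * (I * A) ≤ I⁻¹ * (I * B) := mul_le_mul_right h I⁻¹
  rwa [inv_mul_cancel_left₀ hI, inv_mul_cancel_left₀ hI] at h1

omit [NumberField K] in
lemma near_ne {x y : Fin 3 → K} (h : ∃ i j, mn x y i j ≠ 0) : x ≠ 0 ∧ y ≠ 0 := by
  obtain ⟨i, j, h⟩ := h
  constructor <;> rintro rfl <;> simp [mn] at h

omit [NumberField K] in
lemma near_nrm_smul (σ : K →+* ℂ) (μ : K) (x : Fin 3 → K) :
    nrm σ (μ • x) = ‖σ μ‖ * nrm σ x := by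
  rw [nrm, nrm, ← norm_smul]
  exact congrArg _ (funext fun i => by simp)

omit [NumberField K] in
lemma near_nrm_pos (σ : K →+* ℂ) {x : Fin 3 → K} (hx : x ≠ 0) : 0 < nrm σ x :=
  norm_pos_iff.2 fun h => hx (funext fun i => (map_eq_zero σ).1 (congrFun h i))

omit [NumberField K] in
lemma near_nrm_nn (σ : K →+* ℂ) (x : Fin 3 → K) : 0 ≤ nrm σ x := norm_nonneg _

/-- the exact ideal of a pair that is not close -/
lemma near_exact {J : Ideal (𝓞 K)} (hJ : J ≠ ⊥) {ρ : (K →+* ℂ) → ℝ} {H : ℕ} {x y : Fin 3 → K}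
    (hxy : ∃ i j, mn x y i j ≠ 0) (p : PC J x y) (c : ¬ Cls J ρ H x y) :
    ∃ B : Ideal (𝓞 K), 1 ≤ Ideal.absNorm B ∧ Ideal.absNorm B ≤ H ∧
      ∑ i, ∑ j, FractionalIdeal.spanSingleton (𝓞 K)⁰ (mn x y i j) =
        (J : FractionalIdeal (𝓞 K)⁰ K) * B * ct x * ct y := by
  obtain ⟨B, h1, h2⟩ := p.exists_exact hJ (near_ne hxy).1 (near_ne hxy).2
  refine ⟨B, Nat.one_le_iff_ne_zero.2 fun h => ?_,
    (not_le.1 fun h => c (Or.inl ⟨B, h, (h1 B).2 dvd_rfl⟩)).le,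
    by rw [h2, FractionalIdeal.coeIdeal_mul]⟩
  obtain ⟨i, j, hij⟩ := hxy
  have h3 := (h1 B).2 dvd_rfl i j
  rw [Ideal.absNorm_eq_zero_iff.1 h, Ideal.mul_bot, FractionalIdeal.coeIdeal_bot, zero_mul,
    zero_mul, FractionalIdeal.mem_zero_iff] at h3
  exact hij h3

omit [NumberField K] in
lemma near_far {σ : K →+* ℂ} {r : ℝ} {x y : Fin 3 → K} (c : ¬ AC σ r x y) :
    ∃ i j, r * nrm σ x * nrm σ y ≤ ‖σ (mn x y i j)‖ := by
  by_contra h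
  exact c fun i j => (not_le.1 fun h' => h ⟨i, j, h'⟩).le

lemma near_real {ρ H A B C : ℝ} (hρ : 0 < ρ) (hH : 0 < H) (hA : 0 < A)
    (h : ρ / H * A * B ≤ ρ * A * C) : B ≤ H * C := by
  have h1 : ρ / H * A * B = (ρ * A) * (B / H) := by field_simp
  rw [h1] at h
  have h2 := le_of_mul_le_mul_left h (mul_pos hρ hA)
  rwa [div_le_iff₀ hH, mul_comm] at h2

lemma near_of_triple {J : Ideal (𝓞 K)} (hJ : J ≠ ⊥) {ρ : (K →+* ℂ) → ℝ} (hρ : ∀ σ, 0 < ρ σ)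
    {H : ℕ} (hH : 1 ≤ H) {x y z : Fin 3 → K} {a b : K} (hb : b ≠ 0) (hz : z = a • x + b • y)
    (hxy : ∃ i j, mn x y i j ≠ 0) (p1 : PC J x y) (p2 : PC J x z)
    (a1 : ∀ σ, AC σ (ρ σ) x y) (a2 : ∀ σ, AC σ (ρ σ) x z)
    (c1 : ¬ Cls J ρ H x y) (c2 : ¬ Cls J ρ H x z) : Near (H ^ 2) z y := by
  have hm : ∀ i j, mn x z i j = b * mn x y i j := fun i j => by
    simp only [hz, mn, Pi.add_apply, Pi.smul_apply, smul_eq_mul]
    ring
  have hxz : ∃ i j, mn x z i j ≠ 0 := by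
    obtain ⟨i, j, h⟩ := hxy
    exact ⟨i, j, hm i j ▸ mul_ne_zero hb h⟩
  have hx := (near_ne hxy).1
  obtain ⟨B₁, l1, u1, e1⟩ := near_exact hJ hxy p1 c1
  obtain ⟨B₂, l2, u2, e2⟩ := near_exact hJ hxz p2 c2
  have e3 : (B₂ : FractionalIdeal (𝓞 K)⁰ K) * ct z = B₁ * ct (b • y) := by
    refine mul_left_cancel₀ (mul_ne_zero (FractionalIdeal.coeIdeal_ne_zero.2 hJ) (near_ct_ne hx)) ?_
    have e4 : ∑ i, ∑ j, FractionalIdeal.spanSingleton (𝓞 K)⁰ (mn x z i j) =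
        FractionalIdeal.spanSingleton (𝓞 K)⁰ b *
          ∑ i, ∑ j, FractionalIdeal.spanSingleton (𝓞 K)⁰ (mn x y i j) := by
      simp only [hm, Finset.mul_sum, FractionalIdeal.spanSingleton_mul_spanSingleton]
    rw [e1, e2] at e4
    rw [near_ct_smul]
    calc _ = (J : FractionalIdeal (𝓞 K)⁰ K) * B₂ * ct x * ct z := by ring
      _ = _ := by rw [e4]; ring
  have hH' : (1 : ℝ) ≤ H := by exact_mod_cast hH
  have hH0 : (0 : ℝ) < H := by linarith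
  have hH2 : (H : ℝ) ≤ (H ^ 2 : ℕ) := by push_cast; nlinarith
  refine ⟨b, hb, Ideal.absNorm B₁ * Ideal.absNorm B₂, Nat.mul_pos l1 l2,
    by rw [sq]; exact Nat.mul_le_mul u1 u2, fun i => ?_, fun i => ?_, fun σ => ⟨?_, ?_⟩⟩
  · rw [Nat.cast_mul, mul_assoc]
    exact near_nat_mul _ (near_mem_of_eq e3 (near_mem_ct z i))
  · rw [Nat.cast_mul, mul_comm (_ : K) ((Ideal.absNorm B₂ : ℕ) : K), mul_assoc]
    exact near_nat_mul _ (near_mem_of_eq e3.symm (near_mem_ct _ i))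
  · obtain ⟨i, j, h⟩ := near_far fun h => c2 (Or.inr ⟨σ, h⟩)
    refine (near_real (hρ σ) hH0 (near_nrm_pos σ hx) (h.trans ?_)).trans
      (mul_le_mul_of_nonneg_right hH2 (near_nrm_nn σ _))
    rw [hm, map_mul, norm_mul, near_nrm_smul, mul_left_comm]
    exact mul_le_mul_of_nonneg_left (a1 σ i j) (norm_nonneg _)
  · obtain ⟨i, j, h⟩ := near_far fun h => c1 (Or.inr ⟨σ, h⟩)
    refine (near_real (hρ σ) hH0 (near_nrm_pos σ hx) (le_trans ?_ (a2 σ i j))).trans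
      (mul_le_mul_of_nonneg_right hH2 (near_nrm_nn σ _))
    rw [hm, map_mul, norm_mul, near_nrm_smul, mul_left_comm]
    exact mul_le_mul_of_nonneg_left h (norm_nonneg _)

lemma Cmp.tri {G : ℕ} {x y z : Fin 3 → K} (h : Cmp G x y) (h' : Cmp G x z) :
    Cmp (G ^ 2) y z := by
  obtain ⟨d₁, l1, u1, f1, g1, n1⟩ := h
  obtain ⟨d₂, l2, u2, f2, g2, n2⟩ := h'
  have hG : (0 : ℝ) ≤ G := G.cast_nonneg
  refine ⟨d₁ * d₂, Nat.mul_pos l1 l2, by rw [sq]; exact Nat.mul_le_mul u1 u2, fun i => ?_,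
    fun i => ?_, fun σ => ⟨?_, ?_⟩⟩
  · rw [Nat.cast_mul, mul_comm (d₁ : K), mul_assoc]
    exact near_ct_le f2 (g1 i)
  · rw [Nat.cast_mul, mul_assoc]
    exact near_ct_le f1 (g2 i)
  · rw [Nat.cast_pow, sq, mul_assoc]
    exact (n1 σ).2.trans (mul_le_mul_of_nonneg_left (n2 σ).1 hG)
  · rw [Nat.cast_pow, sq, mul_assoc]
    exact (n2 σ).2.trans (mul_le_mul_of_nonneg_left (n1 σ).1 hG)

lemma low_of_not_close {J : Ideal (𝓞 K)} (hJ : J ≠ ⊥) {ρ : (K →+* ℂ) → ℝ} (hρ : ∀ σ, 0 < ρ σ)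
    {H G : ℕ} (hH : 1 ≤ H) {x y z : Fin 3 → K} {a b : K} (hz : z = a • x + b • y)
    (hxy : ∃ i j, mn x y i j ≠ 0) (p1 : PC J x y) (p2 : PC J z y)
    (a2 : ∀ σ, AC σ (ρ σ) z y) (c1 : ¬ Cls J ρ H x y) (hG : Cmp G z x) : Low (H * G) a := by
  have hm : ∀ i j, mn z y i j = a * mn x y i j := fun i j => by
    simp only [hz, mn, Pi.add_apply, Pi.smul_apply, smul_eq_mul]
    ring
  obtain ⟨hx, hy⟩ := near_ne hxy
  obtain ⟨B, l1, u1, e1⟩ := near_exact hJ hxy p1 c1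
  obtain ⟨d, l2, u2, f, -, n⟩ := hG
  have e2 : FractionalIdeal.spanSingleton (𝓞 K)⁰ a * B * ct x ≤ ct z := by
    refine near_cancel (mul_ne_zero (FractionalIdeal.coeIdeal_ne_zero.2 hJ) (near_ct_ne hy)) ?_
    have e4 : FractionalIdeal.spanSingleton (𝓞 K)⁰ a *
        ∑ q : Fin 3 × Fin 3, FractionalIdeal.spanSingleton (𝓞 K)⁰ (mn x y q.1 q.2) ≤
          (J : FractionalIdeal (𝓞 K)⁰ K) * ct z * ct y := by
      simp only [Finset.mul_sum, FractionalIdeal.spanSingleton_mul_spanSingleton, ← hm]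
      exact near_sum_le fun q => p2 q.1 q.2
    rw [Fintype.sum_prod_type, e1] at e4
    calc _ = FractionalIdeal.spanSingleton (𝓞 K)⁰ a *
          ((J : FractionalIdeal (𝓞 K)⁰ K) * B * ct x * ct y) := by ring
      _ ≤ _ := e4
      _ = _ := by ring
  have e3 : FractionalIdeal.spanSingleton (𝓞 K)⁰ (((Ideal.absNorm B * d : ℕ) : K) * a) ≤ 1 := by
    refine near_cancel (near_ct_ne hx) ?_
    rw [mul_one, mul_comm, ← near_ct_smul]
    refine near_sum_le fun i => ?_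
    have h1 := near_ct_le f (e2 (FractionalIdeal.mul_mem_mul (FractionalIdeal.mul_mem_mul
      (FractionalIdeal.mem_spanSingleton_self _ a) (near_norm_mem B)) (near_mem_ct x i)))
    rw [Pi.smul_apply, smul_eq_mul, Nat.cast_mul]
    exact (congrArg (· ∈ ct x) (by ring)).mp h1
  have hH0 : (0 : ℝ) < H := by exact_mod_cast hH
  refine ⟨Ideal.absNorm B * d, Nat.mul_pos l1 l2, Nat.mul_le_mul u1 u2, ?_, fun σ => ?_⟩
  · obtain ⟨t, ht⟩ := (FractionalIdeal.mem_one_iff _).1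
      (FractionalIdeal.spanSingleton_le_iff_mem.1 e3)
    exact ht ▸ t.isIntegral_coe
  · obtain ⟨i, j, h⟩ := near_far fun h => c1 (Or.inr ⟨σ, h⟩)
    rw [Nat.cast_mul]
    refine near_real (hρ σ) hH0 (mul_pos (near_nrm_pos σ hx) (near_nrm_pos σ hy)) ?_
    have h1 := a2 σ i j
    rw [hm, map_mul, norm_mul] at h1
    have h2 := mul_le_mul_of_nonneg_left h (norm_nonneg (σ a))
    have h3 := mul_le_mul_of_nonneg_left (n σ).1 (mul_nonneg (hρ σ).le (near_nrm_nn σ y))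
    linarith

omit [NumberField K] in
lemma near_not_mem {P d : ℕ} (hP : P.Prime) (h1 : 1 ≤ d) (h2 : d < P) {𝔔 : Ideal (𝓞 K)}
    [h𝔔 : 𝔔.IsPrime] (hP𝔔 : (P : 𝓞 K) ∈ 𝔔) : (d : 𝓞 K) ∉ 𝔔 := fun h => by
  obtain ⟨u, v, e⟩ : IsCoprime (P : 𝓞 K) (d : 𝓞 K) :=
    Nat.Coprime.cast (Nat.coprime_of_lt_prime (by omega) h2 hP)
  exact h𝔔.ne_top ((Ideal.eq_top_iff_one _).2
    (e ▸ 𝔔.add_mem (𝔔.mul_mem_left u hP𝔔) (𝔔.mul_mem_left v h)))

lemma Cmp.mem_prime {G P : ℕ} (hP : P.Prime) (hGP : G < P) {𝔔 : Ideal (𝓞 K)} [𝔔.IsPrime]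
    (hP𝔔 : (P : 𝓞 K) ∈ 𝔔) {x y z : Fin 3 → K} (hx : x ≠ 0) (h : Cmp G x y) (h' : Cmp G x z)
    {a b c : 𝓞 K} (e : (a : K) • x + (b : K) • y + (c : K) • z = 0) (hb : b ∈ 𝔔) (hc : c ∈ 𝔔) :
    a ∈ 𝔔 := by
  have h𝔔 : 𝔔.IsPrime := inferInstance
  obtain ⟨d₁, l1, u1, -, g1, -⟩ := h
  obtain ⟨d₂, l2, u2, -, g2, -⟩ := h'
  obtain ⟨w, X, hX, i, hi⟩ := exists_prim x hx 𝔔 h𝔔.ne_top
  have hw : ∀ i, w * x i ∈ (1 : FractionalIdeal (𝓞 K)⁰ K) := fun i =>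
    (FractionalIdeal.mem_one_iff _).2 ⟨X i, hX i⟩
  obtain ⟨Y, hY⟩ := (FractionalIdeal.mem_one_iff _).1 (near_ct_le hw (g1 i))
  obtain ⟨Z, hZ⟩ := (FractionalIdeal.mem_one_iff _).1 (near_ct_le hw (g2 i))
  have e1 := congrFun e i
  simp only [Pi.add_apply, Pi.smul_apply, smul_eq_mul, Pi.zero_apply] at e1
  have e2 : (d₁ : 𝓞 K) * (d₂ * (X i * a)) = -(d₂ * Y * b + d₁ * Z * c) := by
    apply RingOfIntegers.coe_injective
    simp only [map_mul, map_neg, map_add, map_natCast, hY, hZ]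
    have h1 : algebraMap (𝓞 K) K (X i) = w * x i := hX i
    rw [h1]
    change (d₁ : K) * (d₂ * (w * x i * a)) =
      -(d₂ * (w * (d₁ * y i)) * b + d₁ * (w * (d₂ * z i)) * c)
    linear_combination (d₁ : K) * d₂ * w * e1
  have e3 : (d₁ : 𝓞 K) * (d₂ * (X i * a)) ∈ 𝔔 :=
    e2 ▸ 𝔔.neg_mem (𝔔.add_mem (𝔔.mul_mem_left _ hb) (𝔔.mul_mem_left _ hc))
  exact (h𝔔.mem_or_mem ((h𝔔.mem_or_mem ((h𝔔.mem_or_mem e3).resolve_left
    (near_not_mem hP l1 (u1.trans_lt hGP) hP𝔔))).resolve_left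
    (near_not_mem hP l2 (u2.trans_lt hGP) hP𝔔))).resolve_left hi

end Pool.Agent.Lib.MP_a147dc_co.B
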