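import Pool.Agent.Lib.MP_a147dc_co.B.Cell
import Pool.Agent.Lib.MP_a147dc_co.B.Proj
import Pool.Agent.Lib.MP_a147dc_co.B.Near
import Pool.Agent.Lib.MP_a147dc_co.B.BehA

/-! The Behrend type step inside one ball of comparable points. -/

namespace Pool.Agent.Lib.MP_a147dc_co.B

open Finset NumberField Module Polynomial Filter
open scoped nonZeroDivisors

variable {K : Type*} [Field K] [NumberField K]

omit [NumberField K] in
lemma ball_ind {x y : Fin 3 → K} (h : ∃ i j, mn x y i j ≠ 0) {s t : K} (e : s • x + t • y = 0) :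
    s = 0 ∧ t = 0 := by
  obtain ⟨i, j, h⟩ := h
  have hi : s * x i + t * y i = 0 := congrFun e i
  have hj : s * x j + t * y j = 0 := congrFun e j
  unfold mn at h
  constructor
  · refine (mul_eq_zero.1 ?_).resolve_right h
    linear_combination y j * hi - y i * hj
  · refine (mul_eq_zero.1 ?_).resolve_right h
    linear_combination x i * hj - x j * hi

omit [NumberField K] in
lemma ball_mn {p q : K × K} (h : p ≠ q) {μ ν : K} (hμ : μ ≠ 0) (hν : ν ≠ 0) :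
    ∃ i j, mn (μ • hm p) (ν • hm q) i j ≠ 0 := by
  obtain ⟨i, j, h⟩ := exists_mn_ne h
  refine ⟨i, j, ?_⟩
  have e : mn (μ • hm p) (ν • hm q) i j = μ * ν * mn (hm p) (hm q) i j := by
    simp only [mn, Pi.smul_apply, smul_eq_mul]
    ring
  rw [e]
  exact mul_ne_zero (mul_ne_zero hμ hν) h

lemma ball_norm {P : ℕ} {𝔓 : Ideal (𝓞 K)} (h : (P : 𝓞 K) ∈ 𝔓) :
    Ideal.absNorm 𝔓 ∣ P ^ finrank ℚ K := by
  have h1 := Ideal.absNorm_dvd_absNorm_of_le ((Ideal.span_singleton_le_iff_mem 𝔓).2 h)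
  rwa [Ideal.absNorm_span_natCast, RingOfIntegers.rank] at h1

/-- a prime of the subfield below a prime of the field above a rational prime -/
lemma ball_prime (k : IntermediateField ℚ K) {P D : ℕ} (hP : P.Prime) (hP2 : 2 < P)
    (hD : finrank ℚ k ≤ D) : ∃ 𝔔 : Ideal (𝓞 K), 𝔔.IsMaximal ∧ (P : 𝓞 K) ∈ 𝔔 ∧
      (𝔔.comap (algebraMap (𝓞 k) (𝓞 K))).IsMaximal ∧
      (2 : 𝓞 k) ∉ 𝔔.comap (algebraMap (𝓞 k) (𝓞 K)) ∧
      P ≤ Ideal.absNorm (𝔔.comap (algebraMap (𝓞 k) (𝓞 K))) ∧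
      Ideal.absNorm (𝔔.comap (algebraMap (𝓞 k) (𝓞 K))) ≤ P ^ D := by
  have h0 : Ideal.span {(P : 𝓞 K)} ≠ ⊤ := by
    intro h
    have h1 := Ideal.absNorm_eq_one_iff.2 h
    rw [Ideal.absNorm_span_natCast, RingOfIntegers.rank] at h1
    rcases Nat.pow_eq_one.1 h1 with h2 | h2
    · exact hP.one_lt.ne' h2
    · exact (finrank_pos (R := ℚ) (M := K)).ne' h2
  obtain ⟨𝔔, hQ, hle⟩ := Ideal.exists_le_maximal _ h0
  have hPQ : (P : 𝓞 K) ∈ 𝔔 := hle (Ideal.mem_span_singleton_self _)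
  have hmax : (𝔔.comap (algebraMap (𝓞 k) (𝓞 K))).IsMaximal :=
    Ideal.isMaximal_comap_of_isIntegral_of_isMaximal 𝔔
  have hPP : (P : 𝓞 k) ∈ 𝔔.comap (algebraMap (𝓞 k) (𝓞 K)) := by
    rw [Ideal.mem_comap, map_natCast]
    exact hPQ
  obtain ⟨j, hj, hq⟩ := (Nat.dvd_prime_pow hP).1 (ball_norm hPP)
  have hj0 : j ≠ 0 := by
    rintro rfl
    exact hmax.ne_top (Ideal.absNorm_eq_one_iff.1 (by simpa using hq))
  refine ⟨𝔔, hQ, hPQ, hmax, fun h2 => ?_, ?_, ?_⟩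
  · have h3 := ball_norm (P := 2) (𝔓 := 𝔔.comap (algebraMap (𝓞 k) (𝓞 K))) (by simpa using h2)
    rw [hq] at h3
    have h4 := hP.dvd_of_dvd_pow ((dvd_pow_self P hj0).trans h3)
    exact absurd (Nat.le_of_dvd two_pos h4) (by omega)
  · rw [hq]
    exact Nat.le_self_pow hj0 P
  · rw [hq]
    exact Nat.pow_le_pow_right hP.pos (hj.trans hD)

lemma ball_mem {H : ℕ} {k : IntermediateField ℚ K}
    (hk : ∀ x : K, IsIntegral ℤ x → Bd ((H ^ 10 : ℕ) : ℝ) x → x ∈ k) {a : K}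
    (h : Low (H ^ 5) a) : a ∈ k := by
  obtain ⟨d, h1, h2, h3, h4⟩ := h
  have hd : (d : K) ≠ 0 := Nat.cast_ne_zero.2 (by omega)
  have h5 : Bd ((H ^ 5 : ℕ) : ℝ) (d : K) := fun σ => by
    rw [map_natCast, Complex.norm_natCast]
    exact_mod_cast h2
  have h6 : (d : K) * a ∈ k := hk _ h3 ((h5.mul h4).mono (le_of_eq (by push_cast; ring)))
  have h7 := k.div_mem h6 (natCast_mem k d)
  rwa [mul_div_cancel_left₀ _ hd] at h7

lemma ball_low {G : ℕ} {k : IntermediateField ℚ K} {a : k} (h : Low G (a : K)) : Low G a := by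
  obtain ⟨d, h1, h2, h3, h4⟩ := h
  refine ⟨d, h1, h2, ?_, Bd.of_algebraMap (K := K) h4⟩
  refine (isIntegral_algebraMap_iff (algebraMap k K).injective).1 ?_
  rw [map_mul, map_natCast]
  exact h3

lemma ball_nondeg {G P : ℕ} (hP : P.Prime) (hGP : G < P) {𝔔 : Ideal (𝓞 K)} [𝔔.IsPrime]
    (hPQ : (P : 𝓞 K) ∈ 𝔔) {x y z : Fin 3 → K} (hx : x ≠ 0) (hy : y ≠ 0) (hz : z ≠ 0)
    (xy : Cmp G x y) (xz : Cmp G x z) (yx : Cmp G y x) (yz : Cmp G y z) (zx : Cmp G z x)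
    (zy : Cmp G z y) {k : IntermediateField ℚ K} {a b : k}
    (e : z = (a : K) • x + (b : K) • y) : NonDeg (𝔔.comap (algebraMap (𝓞 k) (𝓞 K))) a b := by
  intro g ga gb h1 h2
  have c : ∀ u : 𝓞 k, ((algebraMap (𝓞 k) (𝓞 K) u : 𝓞 K) : K) = ((u : k) : K) := fun u => rfl
  have h3 : ((ga : k) : K) = ((g : k) : K) * a := by rw [h1]; rfl
  have h4 : ((gb : k) : K) = ((g : k) : K) * b := by rw [h2]; rfl
  simp only [Ideal.mem_comap]
  set A := algebraMap (𝓞 k) (𝓞 K) ga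
  set B := algebraMap (𝓞 k) (𝓞 K) gb
  set C := algebraMap (𝓞 k) (𝓞 K) g
  have e1 : (A : K) • x + (B : K) • y + ((-C : 𝓞 K) : K) • z = 0 := by
    have h5 : ((-C : 𝓞 K) : K) = -((g : k) : K) := rfl
    rw [c ga, c gb, h5, h3, h4, e]
    module
  refine ⟨fun hC hA => ?_, fun hC hB => ?_, fun hA hB => ?_⟩
  · exact Cmp.mem_prime hP hGP hPQ hy yx yz (by rw [← e1]; abel) hA (𝔔.neg_mem hC)
  · exact Cmp.mem_prime hP hGP hPQ hx xy xz e1 hB (𝔔.neg_mem hC)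
  · exact 𝔔.neg_mem_iff.1 (Cmp.mem_prime hP hGP hPQ hz zx zy (by rw [← e1]; abel) hA hB)

lemma ball_rel {H P : ℕ} (hH : 1 ≤ H) {k : IntermediateField ℚ K}
    (hk : ∀ x : K, IsIntegral ℤ x → Bd ((H ^ 10 : ℕ) : ℝ) x → x ∈ k)
    (hP : P.Prime) (hGP : H ^ 4 < P) {𝔔 : Ideal (𝓞 K)} [𝔔.IsPrime] (hPQ : (P : 𝓞 K) ∈ 𝔔)
    {J : Ideal (𝓞 K)} (hJ : J ≠ ⊥) {ρ : (K →+* ℂ) → ℝ} (hρ : ∀ σ, 0 < ρ σ)
    {x y z : Fin 3 → K} (hx : x ≠ 0) (hy : y ≠ 0) (hz : z ≠ 0)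
    (xy : Cmp (H ^ 4) x y) (xz : Cmp (H ^ 4) x z) (yx : Cmp (H ^ 4) y x) (yz : Cmp (H ^ 4) y z)
    (zx : Cmp (H ^ 4) z x) (zy : Cmp (H ^ 4) z y) (m1 : ∃ i j, mn x y i j ≠ 0)
    (m2 : ∃ i j, mn y x i j ≠ 0) (p1 : PC J x y) (p2 : PC J z x) (p3 : PC J z y)
    (a2 : ∀ σ, AC σ (ρ σ) z x) (a3 : ∀ σ, AC σ (ρ σ) z y) {a b : K} (ha : a ≠ 0) (hb : b ≠ 0)
    (e : z = a • x + b • y) :
    (Cls J ρ H x y ∧ LinearIndependent k ![x, y, z]) ∨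
      (LinearIndependent k ![x, y] ∧ ∃ a b : k, a ≠ 0 ∧ b ≠ 0 ∧ z = a • x + b • y ∧
        NonDeg (𝔔.comap (algebraMap (𝓞 k) (𝓞 K))) a b ∧
          (Cls J ρ H x y ∨ (Low (H ^ 5) a ∧ Low (H ^ 5) b))) := by
  have hl : ¬ Cls J ρ H x y → Low (H ^ 5) a ∧ Low (H ^ 5) b := fun hc => by
    have e5 : H ^ 5 = H * H ^ 4 := by ring
    rw [e5]
    exact ⟨low_of_not_close hJ hρ hH e m1 p1 p3 a3 hc zx,
      low_of_not_close hJ hρ hH (e.trans (add_comm _ _)) m2 p1.symm p2 a2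
        (fun h => hc h.symm) zy⟩
  by_cases hab : a ∈ k ∧ b ∈ k
  · refine Or.inr ⟨LinearIndependent.pair_iff.2 fun s t hst => ?_, ⟨a, hab.1⟩, ⟨b, hab.2⟩,
      fun h => ha (congrArg Subtype.val h), fun h => hb (congrArg Subtype.val h), e,
      ball_nondeg hP hGP hPQ hx hy hz xy xz yx yz zx zy e, ?_⟩
    · obtain ⟨h1, h2⟩ := ball_ind m1 (s := (s : K)) (t := (t : K)) hst
      exact ⟨Subtype.ext h1, Subtype.ext h2⟩
    · by_cases hc : Cls J ρ H x y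
      · exact Or.inl hc
      · exact Or.inr ⟨ball_low (hl hc).1, ball_low (hl hc).2⟩
  · refine Or.inl ⟨by_contra fun hc => hab ⟨ball_mem hk (hl hc).1, ball_mem hk (hl hc).2⟩, ?_⟩
    refine Fintype.linearIndependent_iff.2 fun g hg => ?_
    rw [Fin.sum_univ_three] at hg
    have h1 : ((g 0 : k) : K) • x + ((g 1 : k) : K) • y + ((g 2 : k) : K) • z = 0 := hg
    have h2 : (((g 0 : k) : K) + (g 2 : k) * a) • x +
        (((g 1 : k) : K) + (g 2 : k) * b) • y = 0 := by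
      rw [← h1, e]
      module
    obtain ⟨h3, h4⟩ := ball_ind m1 h2
    have h5 : ((g 2 : k) : K) = 0 := by
      by_contra h5
      refine hab ⟨?_, ?_⟩
      · have h6 : a = -((g 0 : k) : K) / (g 2 : k) := by
          rw [eq_div_iff h5]
          linear_combination h3
        rw [h6]
        exact k.div_mem (k.neg_mem (g 0).2) (g 2).2
      · have h6 : b = -((g 1 : k) : K) / (g 2 : k) := by
          rw [eq_div_iff h5]
          linear_combination h4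
        rw [h6]
        exact k.div_mem (k.neg_mem (g 1).2) (g 2).2
    rw [h5, zero_mul, add_zero] at h3 h4
    intro i
    fin_cases i
    · exact Subtype.ext h3
    · exact Subtype.ext h4
    · exact Subtype.ext h5

open Classical in
theorem ball_step {D H α P : ℕ} {β : ℝ} (hD : finrank ℚ K ≤ D) (hH : 2 ≤ H) (hβ : 1 ≤ β)
    (k : IntermediateField ℚ K) (θ : Fin (finrank ℚ k) → 𝓞 k)
    (hθ : LinearIndependent ℚ fun i => (θ i : k)) (hb : ∀ i, Bd β (θ i : k))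
    (hk : ∀ x : K, IsIntegral ℤ x → Bd ((H ^ 10 : ℕ) : ℝ) x → x ∈ k)
    (hP : P.Prime) (hP1 : H ^ (30 * D) < P) (hP2 : 2 * (26 * D * β) ^ D ≤ P)
    {R : Finset (K × K)} (h4 : No4K R) (hα : ∀ G ⊆ R, GPK G → G.card ≤ α)
    {J : Ideal (𝓞 K)} (hJ : J ≠ ⊥) {ρ : (K →+* ℂ) → ℝ} (hρ : ∀ σ, 0 < ρ σ) (hSt : St R J ρ)
    {x₀ : Fin 3 → K} (hx : ∀ p ∈ R, Near (H ^ 2) x₀ (hm p))
    {lam : ℝ} (h0 : 0 ≤ lam)
    (h1 : lam * (2 * (P : ℝ) ^ D * (4 * H ^ 15 * D * β) ^ (4 * D)) ≤ 1) :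
    lam * R.card - lam ^ 3 * ((1000 * D * β) ^ (12 * D) *
      (((R ×ˢ R).filter fun y => y.1 ≠ y.2 ∧ Cls J ρ H (hm y.1) (hm y.2)).card +
        (H : ℝ) ^ (60 * D) / P * R.card ^ 2)) ≤ α := by
  choose! μ hμ0 hμ using hx
  have hD1 : 1 ≤ D := (finrank_pos (R := ℚ) (M := K)).trans_le hD
  have hDk : finrank ℚ k ≤ D :=
    (LinearMap.finrank_le_finrank_of_injective (f := k.val.toLinearMap)
      Subtype.val_injective).trans hD
  have hH1 : 1 ≤ H := by omega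
  have hG : H ^ 4 < P := (Nat.pow_le_pow_right hH1 (by omega)).trans_lt hP1
  have h2P : 2 < P := (hH.trans (Nat.le_self_pow (by omega) H)).trans_lt hG
  obtain ⟨𝔔, hQ, hPQ, hmax, h2, hq1, hq2⟩ := ball_prime k hP h2P hDk
  have hC : ∀ p ∈ R, ∀ q ∈ R, Cmp (H ^ 4) (μ p • hm p) (μ q • hm q) := fun p hp q hq => by
    have h := (hμ p hp).tri (hμ q hq)
    rwa [← pow_mul] at h
  have hY : ∀ p ∈ R, μ p • hm p ≠ 0 := fun p hp => smul_ne_zero (hμ0 p hp) (hm_ne p)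
  have hPC : ∀ p ∈ R, ∀ q ∈ R, PC J (μ p • hm p) (μ q • hm q) := fun p hp q hq =>
    (PC_smul (hμ0 p hp) (hμ0 q hq)).2 (hSt p hp q hq).1
  have hAC : ∀ p ∈ R, ∀ q ∈ R, ∀ σ, AC σ (ρ σ) (μ p • hm p) (μ q • hm q) := fun p hp q hq σ =>
    (AC_smul (hμ0 p hp) (hμ0 q hq)).2 ((hSt p hp q hq).2 σ)
  set q := Ideal.absNorm (𝔔.comap (algebraMap (𝓞 k) (𝓞 K))) with hq
  set T : Finset ((K × K) × (K × K) × (K × K)) := (R ×ˢ R ×ˢ R).filter fun t =>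
    t.1 ≠ t.2.1 ∧ t.1 ≠ t.2.2 ∧ t.2.1 ≠ t.2.2 ∧ dt t.1 t.2.1 t.2.2 = 0 with hTd
  have hT : ∀ t, t ∈ T ↔ (t.1 ∈ R ∧ t.2.1 ∈ R ∧ t.2.2 ∈ R) ∧
      t.1 ≠ t.2.1 ∧ t.1 ≠ t.2.2 ∧ t.2.1 ≠ t.2.2 ∧ dt t.1 t.2.1 t.2.2 = 0 := fun t => by
    rw [hTd, mem_filter, mem_product, mem_product]
  have hPq : (P : ℝ) ≤ q := by exact_mod_cast hq1
  have hqP : (q : ℝ) ≤ (P : ℝ) ^ D := by exact_mod_cast hq2
  have hP0 : (0 : ℝ) < P := by exact_mod_cast hP.pos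
  have hβ0 : 0 ≤ β := zero_le_one.trans hβ
  have key := behrend_abs (K := k) (V := Fin 3 → K) (H := H ^ 5) (α := α) hDk
    (Nat.one_le_pow _ _ hH1) hβ θ hθ hb (𝔓 := 𝔔.comap (algebraMap (𝓞 k) (𝓞 K))) h2
    (by
      rw [← pow_mul, ← pow_mul, show 5 * (3 * (2 * D)) = 30 * D by ring]
      exact hP1.trans_le hq1)
    (hP2.trans hPq) R (fun p => μ p • hm p) hY T (fun t => Cls J ρ H (hm t.1) (hm t.2.1))
    (fun t ht => by
      obtain ⟨⟨a1, a2, a3⟩, a4, a5, a6, -⟩ := (hT t).1 ht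
      exact ⟨a1, a2, a3, a4, a5, a6⟩)
    (fun G hGR hGT => hα G hGR fun x hx y hy z hz xy xz yz hd =>
      hGT (x, y, z) ((hT _).2 ⟨⟨hGR hx, hGR hy, hGR hz⟩, xy, xz, yz, hd⟩) ⟨hx, hy, hz⟩)
    (fun t ht => by
      obtain ⟨⟨a1, a2, a3⟩, a4, a5, a6, a7⟩ := (hT t).1 ht
      obtain ⟨a, b, ha, hb, e⟩ := exists_param a4 a5 a6 a7
      have n1 := hμ0 _ a1
      have n2 := hμ0 _ a2
      have n3 := hμ0 _ a3
      have e' : μ t.2.2 • hm t.2.2 = (μ t.2.2 * a / μ t.1) • μ t.1 • hm t.1 +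
          (μ t.2.2 * b / μ t.2.1) • μ t.2.1 • hm t.2.1 := by
        rw [smul_smul, smul_smul, div_mul_cancel₀ _ n1, div_mul_cancel₀ _ n2, e, smul_add,
          smul_smul, smul_smul]
      have h := ball_rel hH1 hk hP hG hPQ hJ hρ (hY _ a1) (hY _ a2) (hY _ a3) (hC _ a1 _ a2)
        (hC _ a1 _ a3) (hC _ a2 _ a1) (hC _ a2 _ a3) (hC _ a3 _ a1) (hC _ a3 _ a2)
        (ball_mn a4 n1 n2) (ball_mn a4.symm n2 n1) (hPC _ a1 _ a2) (hPC _ a3 _ a1)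
        (hPC _ a3 _ a2) (hAC _ a3 _ a1) (hAC _ a3 _ a2) (div_ne_zero (mul_ne_zero n3 ha) n1)
        (div_ne_zero (mul_ne_zero n3 hb) n2) e'
      rw [Cls_smul n1 n2] at h
      exact h)
    h0
    (by
      refine le_trans (mul_le_mul_of_nonneg_left ?_ h0) h1
      have e : (((H ^ 5 : ℕ) : ℝ)) ^ 3 = (H : ℝ) ^ 15 := by push_cast; ring
      rw [e]
      exact mul_le_mul_of_nonneg_right (by linarith) (by positivity))
  have hinj : Set.InjOn (fun t : (K × K) × (K × K) × (K × K) => (t.1, t.2.1)) T := by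
    rintro ⟨x, y, z⟩ ht ⟨x', y', w⟩ ht' h
    obtain ⟨rfl, rfl⟩ := Prod.mk.inj h
    obtain ⟨⟨a1, a2, a3⟩, a4, a5, a6, a7⟩ := (hT _).1 ht
    obtain ⟨⟨-, -, b3⟩, -, b5, b6, b7⟩ := (hT _).1 ht'
    have hzw : z = w := by_contra fun hzw => h4 x a1 y a2 z a3 w b3 a4 a5 b5 a6 b6 hzw a7 b7
    rw [hzw]
  have c1 : T.card ≤ (R ×ˢ R).card := card_le_card_of_injOn _ (fun t ht => by
    obtain ⟨⟨a1, a2, -⟩, -⟩ := (hT t).1 ht
    exact mem_coe.2 (mem_product.2 ⟨a1, a2⟩)) hinj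
  have c2 : (T.filter fun t => Cls J ρ H (hm t.1) (hm t.2.1)).card ≤
      ((R ×ˢ R).filter fun y => y.1 ≠ y.2 ∧ Cls J ρ H (hm y.1) (hm y.2)).card :=
    card_le_card_of_injOn _ (fun t ht => by
      obtain ⟨b1, b2⟩ := mem_filter.1 (mem_coe.1 ht)
      obtain ⟨⟨a1, a2, -⟩, a4, -⟩ := (hT t).1 b1
      exact mem_coe.2 (mem_filter.2 ⟨mem_product.2 ⟨a1, a2⟩, a4, b2⟩))
      (hinj.mono (coe_subset.2 (filter_subset _ _)))
  refine le_trans (sub_le_sub_left (mul_le_mul_of_nonneg_left (mul_le_mul_of_nonneg_left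
    (add_le_add ?_ ?_) (by positivity)) (by positivity)) _) key
  · exact_mod_cast c2
  · have e : ((((H ^ 5 : ℕ) : ℝ)) ^ 3) ^ (4 * D) = (H : ℝ) ^ (60 * D) := by
      push_cast
      rw [← pow_mul, ← pow_mul, show 5 * (3 * (4 * D)) = 60 * D by ring]
    rw [e]
    refine mul_le_mul (div_le_div_of_nonneg_left (by positivity) hP0 hPq) ?_ (by positivity)
      (by positivity)
    rw [card_product] at c1
    rw [sq]
    exact_mod_cast c1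

end Pool.Agent.Lib.MP_a147dc_co.B
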