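import Pool.Agent.Lib.MP_a147dc_co.B.Defs

/-! Norms, cells and boxes in a number field. -/

namespace Pool.Agent.Lib.MP_a147dc_co.B

open Finset NumberField Module Polynomial Filter
open scoped nonZeroDivisors

variable {K : Type*} [Field K] [NumberField K]

lemma abs_norm_eq (x : K) : |((Algebra.norm ℚ x : ℚ) : ℝ)| = ∏ σ : K →+* ℂ, ‖σ x‖ := by
  have h := congr_arg (‖·‖) (Algebra.norm_eq_prod_embeddings ℚ ℂ x)
  simp only [norm_prod] at h
  rw [← Fintype.prod_equiv (RingHom.equivRatAlgHom K ℂ) (fun f => ‖f x‖) (fun φ => ‖φ x‖)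
    fun _ => rfl] at h
  rw [← h, eq_ratCast, ← Complex.ofReal_ratCast, Complex.norm_real, Real.norm_eq_abs]

lemma absNorm_le_prod {I : FractionalIdeal (𝓞 K)⁰ K} (hI : I ≠ 0) {x : K} (hx : x ∈ I)
    (h0 : x ≠ 0) : ((FractionalIdeal.absNorm I : ℚ) : ℝ) ≤ ∏ σ : K →+* ℂ, ‖σ x‖ := by
  have h1 : FractionalIdeal.spanSingleton (𝓞 K)⁰ x * I⁻¹ ≤ 1 := by
    rw [← mul_inv_cancel₀ hI]
    exact mul_le_mul_left (FractionalIdeal.spanSingleton_le_iff_mem.2 hx) _
  obtain ⟨B, hB⟩ := FractionalIdeal.le_one_iff_exists_coeIdeal.1 h1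
  have h2 : FractionalIdeal.spanSingleton (𝓞 K)⁰ x = (B : FractionalIdeal (𝓞 K)⁰ K) * I := by
    rw [hB, inv_mul_cancel_right₀ hI]
  have h3 : B ≠ 0 := by
    rintro rfl
    exact h0 (FractionalIdeal.spanSingleton_eq_zero_iff.1 (by simpa using h2))
  have h4 := congrArg FractionalIdeal.absNorm h2
  rw [FractionalIdeal.absNorm_span_singleton, map_mul, FractionalIdeal.coeIdeal_absNorm] at h4
  have h5 : (1 : ℚ) ≤ Ideal.absNorm B := by
    exact_mod_cast Nat.one_le_iff_ne_zero.2 (mt Ideal.absNorm_eq_zero_iff.1 h3)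
  rw [← abs_norm_eq, ← Rat.cast_abs, h4, Rat.cast_le]
  exact le_mul_of_one_le_left (FractionalIdeal.absNorm_nonneg I) h5

lemma absNorm_span_eq (x : 𝓞 K) :
    (Ideal.absNorm (Ideal.span {x}) : ℝ) = ∏ σ : K →+* ℂ, ‖σ (x : K)‖ := by
  have h := FractionalIdeal.coeIdeal_absNorm (K := K) (Ideal.span {x})
  rw [FractionalIdeal.coeIdeal_span_singleton, FractionalIdeal.absNorm_span_singleton] at h
  rw [← abs_norm_eq, ← Rat.cast_abs, ← Rat.cast_natCast, ← h]

lemma cell_norm (z : ℂ) : ‖z‖ ≤ |z.re + z.im| + |z.re - z.im| := by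
  refine (Complex.norm_le_abs_re_add_abs_im z).trans ?_
  have h1 := abs_add_le (z.re + z.im) (z.re - z.im)
  have h2 := abs_sub (z.re + z.im) (z.re - z.im)
  rw [show z.re + z.im + (z.re - z.im) = 2 * z.re by ring, abs_mul, abs_two] at h1
  rw [show z.re + z.im - (z.re - z.im) = 2 * z.im by ring, abs_mul, abs_two] at h2
  linarith

lemma cell_aux (A : Finset K) (r : (K →+* ℂ) → ℝ) (hr : ∀ σ, 0 < r σ)
    (hc : ∀ σ, r (ComplexEmbedding.conjugate σ) = r σ) {τ : ℝ} (hτ : 1 ≤ τ)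
    (h1 : ∀ a ∈ A, ∀ b ∈ A, ∀ σ : K →+* ℂ, ‖σ (a - b)‖ ≤ r σ)
    (h2 : ∀ a ∈ A, ∀ b ∈ A, (∀ σ : K →+* ℂ, ‖σ (a - b)‖ < r σ / τ) → a = b) :
    (A.card : ℝ) ≤ (13 * τ) ^ finrank ℚ K := by
  classical
  rcases A.eq_empty_or_nonempty with rfl | ⟨a₀, h₀⟩
  · simp only [card_empty, Nat.cast_zero]
    positivity
  let f : K → (K →+* ℂ) → ℝ := fun a σ =>
    ((σ (a - a₀)).re + (σ (a - a₀)).im + 2 * r σ) * (2 * τ) / r σ
  have b : ∀ a ∈ A, ∀ σ, 0 ≤ f a σ ∧ f a σ ≤ 8 * τ := fun a ha σ => by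
    have e1 := abs_le.1 ((Complex.abs_re_le_norm _).trans (h1 a ha a₀ h₀ σ))
    have e2 := abs_le.1 ((Complex.abs_im_le_norm _).trans (h1 a ha a₀ h₀ σ))
    refine ⟨div_nonneg (mul_nonneg (by linarith) (by linarith)) (hr σ).le, ?_⟩
    rw [div_le_iff₀ (hr σ)]
    nlinarith
  have c : A.card ≤ (Fintype.piFinset fun _ : K →+* ℂ => range (⌊8 * τ⌋₊ + 1)).card := by
    refine card_le_card_of_injOn (fun a σ => ⌊f a σ⌋₊) (fun a ha => ?_) fun a ha a' ha' e => ?_
    · exact mem_coe.2 (Fintype.mem_piFinset.2 fun σ =>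
        mem_range.2 (Nat.lt_succ_of_le (Nat.floor_le_floor (b a ha σ).2)))
    · have g : ∀ σ : K →+* ℂ, |(σ (a - a')).re + (σ (a - a')).im| < r σ / (2 * τ) := fun σ => by
        have e1 : ⌊f a σ⌋₊ = ⌊f a' σ⌋₊ := congrFun e σ
        have e2 := Nat.floor_le (b a ha σ).1
        have e3 := Nat.floor_le (b a' ha' σ).1
        have e4 := Nat.lt_floor_add_one (f a σ)
        have e5 := Nat.lt_floor_add_one (f a' σ)
        have e6 : |f a σ - f a' σ| < 1 := by
          rw [e1] at e2 e4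
          exact abs_lt.2 ⟨by linarith, by linarith⟩
        have e7 : f a σ - f a' σ = ((σ (a - a')).re + (σ (a - a')).im) * (2 * τ / r σ) := by
          simp only [f, map_sub, Complex.sub_re, Complex.sub_im]
          ring
        have e8 : 0 < 2 * τ / r σ := div_pos (by linarith) (hr σ)
        rw [e7, abs_mul, abs_of_pos e8, ← lt_div_iff₀ e8, one_div, inv_div] at e6
        exact e6
      refine h2 a ha a' ha' fun σ => (cell_norm _).trans_lt ?_
      have g1 := g σ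
      have g2 := g (ComplexEmbedding.conjugate σ)
      rw [hc, ComplexEmbedding.conjugate_coe_eq, Complex.conj_re, Complex.conj_im,
        ← sub_eq_add_neg] at g2
      rw [show r σ / τ = r σ / (2 * τ) + r σ / (2 * τ) by field_simp; ring]
      exact add_lt_add g1 g2
  rw [Fintype.card_piFinset, prod_const, card_range, card_univ, Embeddings.card K ℂ] at c
  have c2 : ((⌊8 * τ⌋₊ + 1 : ℕ) : ℝ) ≤ 13 * τ := by
    have := Nat.floor_le (show 0 ≤ 8 * τ by linarith)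
    push_cast
    linarith
  exact (Nat.cast_le.2 c).trans (Nat.cast_pow (α := ℝ) _ _ ▸ pow_le_pow_left₀ (by positivity) c2 _)

lemma cell (A : Finset K) (r : (K →+* ℂ) → ℝ) (hr : ∀ σ, 0 < r σ)
    (hc : ∀ σ, r (ComplexEmbedding.conjugate σ) = r σ) {I : FractionalIdeal (𝓞 K)⁰ K} (hI : I ≠ 0)
    (h1 : ∀ a ∈ A, ∀ b ∈ A, a - b ∈ I ∧ ∀ σ, ‖σ (a - b)‖ ≤ r σ) :
    (A.card : ℝ) ≤ 13 ^ finrank ℚ K *
      max 1 ((∏ σ, r σ) / ((FractionalIdeal.absNorm I : ℚ) : ℝ)) := by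
  have d0 : finrank ℚ K ≠ 0 := finrank_pos.ne'
  have n0 : (0 : ℝ) < (FractionalIdeal.absNorm I : ℚ) := Rat.cast_pos.2
    ((FractionalIdeal.absNorm_nonneg I).lt_of_ne' (mt FractionalIdeal.absNorm_eq_zero_iff.1 hI))
  set M := max 1 ((∏ σ, r σ) / ((FractionalIdeal.absNorm I : ℚ) : ℝ)) with hM
  have m1 : 1 ≤ M := le_max_left _ _
  have t1 : 1 ≤ M ^ (finrank ℚ K : ℝ)⁻¹ := Real.one_le_rpow m1 (by positivity)
  have t2 : (M ^ (finrank ℚ K : ℝ)⁻¹) ^ finrank ℚ K = M :=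
    Real.rpow_inv_natCast_pow (by linarith) d0
  have := cell_aux A r hr hc t1 (fun a ha b hb => (h1 a ha b hb).2) fun a ha b hb h => by
    by_contra e
    have e0 := sub_ne_zero.2 e
    have e1 := absNorm_le_prod hI (h1 a ha b hb).1 e0
    have e2 := prod_lt_prod_of_nonempty (s := univ)
      (fun σ _ => norm_pos_iff.2 ((map_ne_zero σ).2 e0)) (fun σ _ => h σ) univ_nonempty
    rw [prod_div_distrib, prod_const, card_univ, Embeddings.card K ℂ, t2] at e2
    have e3 : (∏ σ, r σ) / ((FractionalIdeal.absNorm I : ℚ) : ℝ) ≤ M := le_max_right _ _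
    rw [div_le_iff₀ n0] at e3
    have e4 := (lt_div_iff₀ (by linarith)).1 (e1.trans_lt e2)
    linarith
  rwa [mul_pow, t2] at this

lemma card_Bx_le {r : ℝ} (hr : 1 ≤ r) : ((Bx K r).card : ℝ) ≤ (26 * r) ^ finrank ℚ K := by
  classical
  have h := cell ((Bx K r).image fun a : 𝓞 K => (a : K)) (fun _ => 2 * r) (fun _ => by linarith)
    (fun _ => rfl) (I := 1) one_ne_zero fun a ha b hb => by
      obtain ⟨u, hu, rfl⟩ := mem_image.1 ha
      obtain ⟨v, hv, rfl⟩ := mem_image.1 hb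
      exact ⟨(FractionalIdeal.mem_one_iff _).2 ⟨u - v, map_sub _ _ _⟩,
        fun σ => (((mem_Bx.1 hu).sub (mem_Bx.1 hv)) σ).trans_eq (two_mul r).symm⟩
  rw [card_image_of_injective _ RingOfIntegers.coe_injective, prod_const, card_univ,
    Embeddings.card K ℂ, map_one, Rat.cast_one, div_one,
    max_eq_right (one_le_pow₀ (by linarith)), ← mul_pow] at h
  exact h.trans_eq (by ring)

lemma card_Bx_ge {β r : ℝ} (hβ : 1 ≤ β) (hr : 0 ≤ r) (θ : Fin (finrank ℚ K) → 𝓞 K)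
    (hθ : LinearIndependent ℚ fun i => (θ i : K)) (hb : ∀ i, Bd β (θ i : K)) :
    (r / (finrank ℚ K * β)) ^ finrank ℚ K ≤ (Bx K r).card := by
  classical
  have d0 : (0 : ℝ) < finrank ℚ K := Nat.cast_pos.2 finrank_pos
  set x := r / (finrank ℚ K * β) with hx
  have x0 : 0 ≤ x := by positivity
  have c : (Fintype.piFinset fun _ : Fin (finrank ℚ K) => range (⌊x⌋₊ + 1)).card ≤
      (Bx K r).card := by
    refine card_le_card_of_injOn (fun k => ∑ i, (k i : 𝓞 K) * θ i) (fun k hk => ?_)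
      fun k _ k' _ e => ?_
    · refine mem_coe.2 (mem_Bx.2 fun σ => ?_)
      have e : (((∑ i, (k i : 𝓞 K) * θ i : 𝓞 K)) : K) = ∑ i, (k i : K) * (θ i : K) := by simp
      rw [e, map_sum]
      refine (norm_sum_le _ _).trans ((sum_le_sum (g := fun _ => x * β) fun i _ => ?_).trans_eq ?_)
      · rw [map_mul, norm_mul, map_natCast, Complex.norm_natCast]
        have := Nat.lt_succ_iff.1 (mem_range.1 (Fintype.mem_piFinset.1 (mem_coe.1 hk) i))
        exact mul_le_mul ((Nat.cast_le.2 this).trans (Nat.floor_le x0)) (hb i σ) (norm_nonneg _) x0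
      · rw [sum_const, card_univ, Fintype.card_fin, nsmul_eq_mul, hx]
        field_simp
    · have e1 : ∑ i, (k i : ℚ) • (θ i : K) = ∑ i, (k' i : ℚ) • (θ i : K) := by
        simpa [Algebra.smul_def] using congrArg (fun z : 𝓞 K => (z : K)) e
      exact funext fun i => Nat.cast_injective
        (Fintype.linearIndependent_iffₛ.1 hθ (fun i => (k i : ℚ)) (fun i => (k' i : ℚ)) e1 i)
  rw [Fintype.card_piFinset, prod_const, card_range, card_univ, Fintype.card_fin] at c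
  refine le_trans ?_ (Nat.cast_le.2 c)
  push_cast
  exact pow_le_pow_left₀ x0 (Nat.lt_floor_add_one x).le _

/-- a vector can be scaled to be integral and primitive at a given prime -/
lemma exists_prim {ι : Type*} [Fintype ι] (x : ι → K) (hx : x ≠ 0) (𝔭 : Ideal (𝓞 K))
    (h𝔭 : 𝔭 ≠ ⊤) : ∃ (w : K) (y : ι → 𝓞 K), (∀ i, (y i : K) = w * x i) ∧ ∃ i, y i ∉ 𝔭 := by
  classical
  let I : FractionalIdeal (𝓞 K)⁰ K := ∑ i, FractionalIdeal.spanSingleton (𝓞 K)⁰ (x i)
  have hle : ∀ i, FractionalIdeal.spanSingleton (𝓞 K)⁰ (x i) ≤ I := fun i =>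
    single_le_sum (f := fun i => FractionalIdeal.spanSingleton (𝓞 K)⁰ (x i))
      (fun _ _ => FractionalIdeal.zero_le _) (mem_univ i)
  have hI : I ≠ 0 := fun e => hx (funext fun i => FractionalIdeal.spanSingleton_eq_zero_iff.1
    (le_antisymm (e ▸ hle i) (FractionalIdeal.zero_le _)))
  have hint : ∀ w ∈ I⁻¹, ∀ i, ∃ y : 𝓞 K, (y : K) = w * x i := fun w hw i => by
    have := FractionalIdeal.mul_mem_mul hw (FractionalIdeal.spanSingleton_le_iff_mem.1 (hle i))
    rw [inv_mul_cancel₀ hI] at this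
    exact (FractionalIdeal.mem_one_iff _).1 this
  by_contra hc
  push Not at hc
  have h1 : I⁻¹ * I ≤ (𝔭 : FractionalIdeal (𝓞 K)⁰ K) := by
    conv_lhs => rw [show I⁻¹ * I = ∑ i, I⁻¹ * FractionalIdeal.spanSingleton (𝓞 K)⁰ (x i) from
      mul_sum _ _ _]
    refine sum_induction _ (· ≤ (𝔭 : FractionalIdeal (𝓞 K)⁰ K)) (fun a b ha hb => sup_le ha hb)
      (FractionalIdeal.zero_le _) fun i _ => ?_
    intro z hz
    obtain ⟨w, hw, rfl⟩ := FractionalIdeal.mem_singleton_mul.1 (mul_comm (I⁻¹) _ ▸ hz)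
    choose y hy using hint w hw
    exact (FractionalIdeal.mem_coeIdeal _).2 ⟨y i, hc w y hy i, (hy i).trans (mul_comm _ _)⟩
  rw [inv_mul_cancel₀ hI, ← FractionalIdeal.coeIdeal_top,
    FractionalIdeal.coeIdeal_le_coeIdeal] at h1
  exact h𝔭 (top_le_iff.1 h1)

/-- extension of embeddings -/
lemma Bd.of_algebraMap {k : Type*} [Field k] [NumberField k] [Algebra k K] {M : ℝ} {x : k}
    (h : Bd M (algebraMap k K x)) : Bd M x := fun σ => by
  rw [← ComplexEmbedding.lift_algebraMap_apply K σ x]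
  exact h _

end Pool.Agent.Lib.MP_a147dc_co.B
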