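import Pool.Agent.Lib.MP_a147dc_co.B.Defs

/-! A subfield that contains all small integers and has a basis of much smaller integers. -/

namespace Pool.Agent.Lib.MP_a147dc_co.B

open Finset NumberField Module Polynomial Filter
open scoped nonZeroDivisors

variable {K : Type*} [Field K] [NumberField K]

/-- integers with bounded conjugates -/
def chainSet (K : Type*) [Field K] (u : ℝ) : Set K := {x | IsIntegral ℤ x ∧ Bd u x}

lemma chain_mono {u v : ℝ} (h : u ≤ v) :
    Submodule.span ℚ (chainSet K u) ≤ Submodule.span ℚ (chainSet K v) :=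
  Submodule.span_mono fun _ hx => ⟨hx.1, hx.2.mono h⟩

lemma chain_one {u : ℝ} (h : 1 ≤ u) : (1 : K) ∈ Submodule.span ℚ (chainSet K u) :=
  Submodule.subset_span ⟨isIntegral_one, fun σ => by simpa using h⟩

lemma chain_stop {D : ℕ} (hD : finrank ℚ K ≤ D) (W : ℕ → Submodule ℚ K)
    (h1 : ∀ j, (1 : K) ∈ W j) (hW : ∀ j < D, W (j + 1) ≤ W j) : ∃ j < D, W (j + 1) = W j := by
  by_contra hc
  push Not at hc
  have key : ∀ j ≤ D, finrank ℚ (W j) + j ≤ finrank ℚ K := by
    intro j
    induction j with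
    | zero => intro _; simpa using Submodule.finrank_le (W 0)
    | succ j ih =>
      intro hj
      have h2 := ih (by omega)
      have h3 : finrank ℚ (W (j + 1)) < finrank ℚ (W j) :=
        Submodule.finrank_lt_finrank_of_lt (lt_of_le_of_ne (hW j (by omega)) (hc j (by omega)))
      omega
  have h4 := key D le_rfl
  have h5 : finrank ℚ (W D) ≠ 0 := fun e => by
    have h6 := h1 D
    rw [Submodule.finrank_eq_zero.1 e] at h6
    exact one_ne_zero ((Submodule.mem_bot ℚ).1 h6)
  omega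

lemma chain_mul {u v : ℝ} (h : u ^ 2 ≤ v) {x y : K} (hx : x ∈ Submodule.span ℚ (chainSet K u))
    (hy : y ∈ Submodule.span ℚ (chainSet K u)) : x * y ∈ Submodule.span ℚ (chainSet K v) := by
  have h1 := Submodule.mul_mem_mul hx hy
  rw [Submodule.span_mul_span] at h1
  refine Submodule.span_mono ?_ h1
  rintro _ ⟨a, ha, b, hb, rfl⟩
  exact ⟨ha.1.mul hb.1, (ha.2.mul hb.2).mono (by rw [← sq]; exact h)⟩

lemma chain_bd {k : IntermediateField ℚ K} {M : ℝ} {x : k} (h : Bd M (x : K)) : Bd M x :=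
  fun σ => by
    rw [← ComplexEmbedding.lift_algebraMap_apply K σ x]
    exact h _

theorem chain {D : ℕ} (hD : finrank ℚ K ≤ D) (U : ℕ → ℕ) (hU1 : ∀ j, 1 ≤ U j)
    (hU : ∀ j < D, U (j + 1) ^ 2 ≤ U j) : ∃ j < D, ∃ (k : IntermediateField ℚ K)
      (θ : Fin (finrank ℚ k) → 𝓞 k), LinearIndependent ℚ (fun i => (θ i : k)) ∧
      (∀ i, Bd (U (j + 1)) (θ i : k)) ∧ ∀ x : K, IsIntegral ℤ x → Bd (U j) x → x ∈ k := by
  obtain ⟨j, hj, e⟩ := chain_stop hD (fun j => Submodule.span ℚ (chainSet K (U j)))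
    (fun j => chain_one (by exact_mod_cast hU1 j)) fun j hj => chain_mono (by
      exact_mod_cast (Nat.le_self_pow two_ne_zero _).trans (hU j hj))
  set W := Submodule.span ℚ (chainSet K (U (j + 1))) with hW
  let A : Subalgebra ℚ K := W.toSubalgebra (chain_one (by exact_mod_cast hU1 _))
    fun x y hx hy => e ▸ chain_mul (v := U j) (by exact_mod_cast hU j hj) hx hy
  have hA : A.IsAlgebraic := fun x _ => Algebra.IsAlgebraic.isAlgebraic x
  let k : IntermediateField ℚ K := hA.toIntermediateField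
  have hk : ∀ x : K, x ∈ k ↔ x ∈ W := fun x => Iff.rfl
  obtain ⟨f, f1, f2, f3⟩ := Submodule.exists_fun_fin_finrank_span_eq ℚ (chainSet K (U (j + 1)))
  have hr : finrank ℚ k = finrank ℚ W := rfl
  have fk : ∀ i, f i ∈ k := fun i => (hk _).2 (Submodule.subset_span (f1 i))
  have fi : ∀ i, IsIntegral ℤ (⟨f i, fk i⟩ : k) := fun i =>
    (isIntegral_algHom_iff (k.val.restrictScalars ℤ) Subtype.val_injective).1 (f1 i).1
  refine ⟨j, hj, k, fun i => ⟨⟨f (i.cast hr), fk _⟩, fi _⟩, ?_, fun i => chain_bd (f1 _).2,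
    fun x h1 h2 => (hk x).2 (e ▸ Submodule.subset_span ⟨h1, h2⟩)⟩
  exact LinearIndependent.of_comp k.val.toLinearMap (f3.comp _ (Fin.cast_injective hr))

end Pool.Agent.Lib.MP_a147dc_co.B
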