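import Pool.Agent.Lib.MP_a147dc_co.B.Defs

/-! Kernel vectors made of minors, and sizes of integer polynomials. -/

namespace Pool.Agent.Lib.MP_a147dc_co.B

open Finset NumberField Module Polynomial Filter
open scoped nonZeroDivisors

lemma ker_inj {A L ι κ : Type*} [CommRing A] [Field L] (φ : A →+* L) (M : ι → κ → A) {n : ℕ}
    {ρ : Fin n → ι} {γ : Fin n → κ} (h : φ (Matrix.of fun a b => M (ρ a) (γ b)).det ≠ 0) :
    Function.Injective γ := fun a b hab => by
  by_contra hne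
  refine h ?_
  rw [Matrix.det_zero_of_column_eq hne fun k => by simp [hab], map_zero]

lemma ker_lt {A L ι κ : Type*} [CommRing A] [Field L] [Fintype κ] (φ : A →+* L)
    (M : ι → κ → A) (t₀ : κ → L) (h0 : t₀ ≠ 0) (hM : ∀ i, ∑ j, φ (M i j) * t₀ j = 0) {n : ℕ}
    {ρ : Fin n → ι} {γ : Fin n → κ} (h : φ (Matrix.of fun a b => M (ρ a) (γ b)).det ≠ 0) :
    n < Fintype.card κ := by
  have hi := ker_inj φ M h
  have h1 : n ≤ Fintype.card κ := by simpa using Fintype.card_le_of_injective γ hi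
  refine h1.lt_of_ne fun h2 => h0 ?_
  have hb : Function.Bijective γ :=
    (Fintype.bijective_iff_injective_and_card γ).2 ⟨hi, by simpa using h2⟩
  rw [RingHom.map_det] at h
  have h3 : t₀ ∘ γ = 0 := by
    refine Matrix.eq_zero_of_mulVec_eq_zero h (funext fun a => ?_)
    have := hM (ρ a)
    rw [← hb.sum_comp fun j => φ (M (ρ a) j) * t₀ j] at this
    simpa [Matrix.mulVec, dotProduct] using this
  funext j
  obtain ⟨b, rfl⟩ := hb.2 j
  exact congrFun h3 b

lemma ker_minors {A L ι κ : Type*} [CommRing A] [Field L] [Fintype κ] (φ : A →+* L)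
    (M : ι → κ → A) (t₀ : κ → L) (h0 : t₀ ≠ 0) (hM : ∀ i, ∑ j, φ (M i j) * t₀ j = 0) :
    ∃ t : κ → A, (∃ j, φ (t j) ≠ 0) ∧ (∀ i, ∑ j, φ (M i j) * φ (t j) = 0) ∧
      ∀ j, t j = 0 ∨ ∃ (n : ℕ) (ρ : Fin n → ι) (γ : Fin n → κ), n < Fintype.card κ ∧
        (t j = (Matrix.of fun a b => M (ρ a) (γ b)).det ∨
          t j = -(Matrix.of fun a b => M (ρ a) (γ b)).det) := by
  classical
  obtain ⟨n, ⟨ρ, γ, h⟩, hn⟩ : ∃ n : ℕ, (∃ (ρ : Fin n → ι) (γ : Fin n → κ),
      φ (Matrix.of fun a b => M (ρ a) (γ b)).det ≠ 0) ∧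
      ¬ ∃ (ρ : Fin (n + 1) → ι) (γ : Fin (n + 1) → κ),
        φ (Matrix.of fun a b => M (ρ a) (γ b)).det ≠ 0 := by
    by_contra hc
    have : ∀ n : ℕ, ∃ (ρ : Fin n → ι) (γ : Fin n → κ),
        φ (Matrix.of fun a b => M (ρ a) (γ b)).det ≠ 0 := fun n => by
      induction n with
      | zero => exact ⟨Fin.elim0, Fin.elim0, by simp⟩
      | succ n ih =>
        by_contra h
        exact hc ⟨n, ih, h⟩
    obtain ⟨ρ, γ, h⟩ := this (Fintype.card κ)
    exact (ker_lt φ M t₀ h0 hM h).false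
  have hlt := ker_lt φ M t₀ h0 hM h
  have hi := ker_inj φ M h
  obtain ⟨j₀, hj⟩ : ∃ j₀, j₀ ∉ Set.range γ := by
    by_contra hc
    have hs : Function.Surjective γ := fun j => by
      by_contra h1
      exact hc ⟨j, h1⟩
    have := Fintype.card_le_of_surjective γ hs
    simp only [Fintype.card_fin] at this
    omega
  obtain ⟨γ', hγ⟩ : ∃ γ' : Fin (n + 1) → κ, γ' = Fin.cons j₀ γ := ⟨_, rfl⟩
  have hi' : Function.Injective γ' := hγ ▸ Fin.cons_injective_iff.2 ⟨hj, hi⟩
  obtain ⟨s, hs⟩ : ∃ s : Fin (n + 1) → A, s = fun c : Fin (n + 1) => (-1) ^ (c : ℕ) *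
    (Matrix.of fun a b => M (ρ a) (γ' (c.succAbove b))).det := ⟨_, rfl⟩
  refine ⟨Function.extend γ' s 0, ⟨γ' 0, ?_⟩, fun i => ?_, fun j => ?_⟩
  · rw [hi'.extend_apply, hs]
    simpa [hγ] using h
  · have h1 : φ (Matrix.of fun a b => M ((Fin.cons i ρ : Fin (n + 1) → ι) a) (γ' b)).det = 0 := by
      by_contra h1
      exact hn ⟨_, _, h1⟩
    rw [Matrix.det_succ_row_zero, map_sum] at h1
    rw [← h1]
    symm
    refine Fintype.sum_of_injective γ' hi' _ _ (fun j hj => ?_) fun c => ?_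
    · rw [Function.extend_apply' _ _ _ hj]
      simp
    · rw [hi'.extend_apply, hs, ← map_mul]
      refine congrArg φ ?_
      have : (Matrix.of fun a b => M ((Fin.cons i ρ : Fin (n + 1) → ι) a) (γ' b)).submatrix
          Fin.succ c.succAbove = Matrix.of fun a b => M (ρ a) (γ' (c.succAbove b)) := by
        ext a b
        simp
      rw [this]
      simp only [Matrix.of_apply, Fin.cons_zero]
      ring
  · by_cases hj : ∃ c, γ' c = j
    · obtain ⟨c, rfl⟩ := hj
      refine Or.inr ⟨n, ρ, fun b => γ' (c.succAbove b), hlt, ?_⟩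
      rw [hi'.extend_apply, hs]
      rcases neg_one_pow_eq_or A (c : ℕ) with h1 | h1
      · exact Or.inl (by simp only [h1, one_mul])
      · exact Or.inr (by simp only [h1, neg_mul, one_mul])
    · exact Or.inl (Function.extend_apply' _ _ _ hj)

lemma ker_l1_eq {τ : Type*} (P : MvPolynomial τ ℤ) {s : Finset (τ →₀ ℕ)} (h : P.support ⊆ s) :
    l1 P = ∑ m ∈ s, (P.coeff m).natAbs :=
  Finset.sum_subset h fun m _ hm => by rw [MvPolynomial.notMem_support_iff.1 hm]; rfl

lemma l1_add {τ : Type*} (P Q : MvPolynomial τ ℤ) : l1 (P + Q) ≤ l1 P + l1 Q := by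
  classical
  rw [ker_l1_eq (P + Q) MvPolynomial.support_add, ker_l1_eq P subset_union_left,
    ker_l1_eq Q subset_union_right, ← Finset.sum_add_distrib]
  exact Finset.sum_le_sum fun m _ => by rw [MvPolynomial.coeff_add]; exact Int.natAbs_add_le _ _

lemma l1_neg {τ : Type*} (P : MvPolynomial τ ℤ) : l1 (-P) = l1 P := by
  simp [l1]

lemma l1_sub {τ : Type*} (P Q : MvPolynomial τ ℤ) : l1 (P - Q) ≤ l1 P + l1 Q := by
  rw [sub_eq_add_neg, ← l1_neg Q]
  exact l1_add _ _

lemma l1_sum {τ ι : Type*} (s : Finset ι) (P : ι → MvPolynomial τ ℤ) :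
    l1 (∑ i ∈ s, P i) ≤ ∑ i ∈ s, l1 (P i) := by
  classical
  induction s using Finset.induction_on with
  | empty => simp [l1]
  | insert a s ha ih =>
    rw [Finset.sum_insert ha, Finset.sum_insert ha]
    exact (l1_add _ _).trans (Nat.add_le_add_left ih _)

lemma l1_monomial {τ : Type*} (m : τ →₀ ℕ) (c : ℤ) :
    l1 (MvPolynomial.monomial m c) = c.natAbs := by
  classical
  rw [ker_l1_eq _ MvPolynomial.support_monomial_subset]
  simp

lemma l1_mul {τ : Type*} (P Q : MvPolynomial τ ℤ) : l1 (P * Q) ≤ l1 P * l1 Q := by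
  have h : P * Q = ∑ m ∈ P.support, ∑ m' ∈ Q.support,
      MvPolynomial.monomial (m + m') (P.coeff m * Q.coeff m') := by
    conv_lhs => rw [P.as_sum, Q.as_sum]
    simp only [Finset.sum_mul_sum, MvPolynomial.monomial_mul]
  rw [h, l1, l1, l1, Finset.sum_mul_sum]
  refine (l1_sum _ _).trans (Finset.sum_le_sum fun m _ => (l1_sum _ _).trans
    (Finset.sum_le_sum fun m' _ => ?_))
  rw [l1_monomial, Int.natAbs_mul]

lemma ker_l1_prod {τ ι : Type*} (s : Finset ι) (P : ι → MvPolynomial τ ℤ) :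
    l1 (∏ i ∈ s, P i) ≤ ∏ i ∈ s, l1 (P i) := by
  classical
  induction s using Finset.induction_on with
  | empty => exact (l1_monomial 0 1).le
  | insert a s ha ih =>
    rw [Finset.prod_insert ha, Finset.prod_insert ha]
    exact (l1_mul _ _).trans (Nat.mul_le_mul_left _ ih)

lemma l1_det {τ : Type*} {n d M : ℕ} (A : Matrix (Fin n) (Fin n) (MvPolynomial τ ℤ))
    (h : ∀ i j, (A i j).totalDegree ≤ d ∧ l1 (A i j) ≤ M) :
    A.det.totalDegree ≤ n * d ∧ l1 A.det ≤ (n * M) ^ n := by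
  rw [Matrix.det_apply]
  have h1 : ∀ σ : Equiv.Perm (Fin n),
      (Equiv.Perm.sign σ • ∏ i, A (σ i) i).totalDegree ≤ n * d ∧
        l1 (Equiv.Perm.sign σ • ∏ i, A (σ i) i) ≤ M ^ n := fun σ => by
    have h2 : (∏ i, A (σ i) i).totalDegree ≤ n * d :=
      (MvPolynomial.totalDegree_finsetProd _ _).trans
        ((Finset.sum_le_sum fun i _ => (h _ _).1).trans (by simp))
    have h3 : l1 (∏ i, A (σ i) i) ≤ M ^ n :=
      (ker_l1_prod _ _).trans ((Finset.prod_le_prod' fun i _ => (h _ _).2).trans (by simp))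
    rcases Int.units_eq_one_or (Equiv.Perm.sign σ) with h4 | h4
    · rw [h4, one_smul]
      exact ⟨h2, h3⟩
    · rw [h4, Units.neg_smul, one_smul, MvPolynomial.totalDegree_neg, l1_neg]
      exact ⟨h2, h3⟩
  refine ⟨(MvPolynomial.totalDegree_finsetSum _ _).trans (Finset.sup_le fun σ _ => (h1 σ).1),
    (l1_sum _ _).trans ((Finset.sum_le_sum fun σ _ => (h1 σ).2).trans ?_)⟩
  rw [Finset.sum_const, Finset.card_univ, Fintype.card_perm, Fintype.card_fin, smul_eq_mul, mul_pow]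
  exact Nat.mul_le_mul_right _ (Nat.factorial_le_pow n)

lemma l1_coeff_finSuccEquiv {s : ℕ} (P : MvPolynomial (Fin (s + 1)) ℤ) (j : ℕ) :
    ((MvPolynomial.finSuccEquiv ℤ s P).coeff j).totalDegree ≤ P.totalDegree ∧
      l1 ((MvPolynomial.finSuccEquiv ℤ s P).coeff j) ≤ l1 P := by
  classical
  constructor
  · by_cases h : (MvPolynomial.finSuccEquiv ℤ s P).coeff j = 0
    · simp [h]
    · exact le_trans (Nat.le_add_right _ _)
        (MvPolynomial.totalDegree_coeff_finSuccEquiv_add_le P j h)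
  · rw [l1, l1]
    simp only [MvPolynomial.finSuccEquiv_coeff_coeff]
    rw [← Finset.sum_image (g := fun m : Fin s →₀ ℕ => m.cons j)
      (f := fun m => (P.coeff m).natAbs) fun a _ b _ hab => Finsupp.cons_right_injective j hab]
    refine Finset.sum_le_sum_of_subset fun m hm => ?_
    obtain ⟨a, ha, rfl⟩ := Finset.mem_image.1 hm
    rwa [MvPolynomial.mem_support_iff, MvPolynomial.finSuccEquiv_coeff_coeff,
      ← MvPolynomial.mem_support_iff] at ha

lemma Bd_det {K : Type*} [Field K] {n : ℕ} {M : ℝ} (A : Matrix (Fin n) (Fin n) K)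
    (h : ∀ i j, Bd M (A i j)) : Bd ((n * M) ^ n) A.det := fun σ => by
  rw [Matrix.det_apply, map_sum]
  have h1 : ∀ π : Equiv.Perm (Fin n), ‖σ (Equiv.Perm.sign π • ∏ i, A (π i) i)‖ ≤ M ^ n :=
    fun π => by
    have h2 : ‖σ (∏ i, A (π i) i)‖ ≤ M ^ n := by
      rw [map_prod, norm_prod]
      exact (Finset.prod_le_prod (fun i _ => norm_nonneg _) fun i _ => h _ _ σ).trans (by simp)
    rcases Int.units_eq_one_or (Equiv.Perm.sign π) with h4 | h4
    · rwa [h4, one_smul]
    · rwa [h4, Units.neg_smul, one_smul, map_neg, norm_neg]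
  refine (norm_sum_le _ _).trans ((Finset.sum_le_sum fun π _ => h1 π).trans ?_)
  rw [Finset.sum_const, Finset.card_univ, Fintype.card_perm, Fintype.card_fin, nsmul_eq_mul,
    mul_pow]
  exact mul_le_mul_of_nonneg_right (by exact_mod_cast Nat.factorial_le_pow n)
    ((norm_nonneg _).trans (h1 1))

end Pool.Agent.Lib.MP_a147dc_co.B
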