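import Pool.Agent.Lib.MP_a147dc_co.B.CurveK0
import Pool.Agent.Lib.MP_a147dc_co.B.Ker
import Pool.Agent.Lib.MP_a147dc_co.B.Cell
import Pool.Agent.Lib.MP_a147dc_co.B.Arcs

/-! Few points of bounded height lie on a curve of low degree over a number field. -/

namespace Pool.Agent.Lib.MP_a147dc_co.B

open Finset NumberField Module Polynomial Filter
open scoped nonZeroDivisors

section
variable {K : Type*} [Field K]

/-- integral with bounded conjugates -/
def curveK_IB (M : ℕ) (x : K) : Prop := IsIntegral ℤ x ∧ Bd (M : ℝ) x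

lemma curveK_IB.mono {M M' : ℕ} {x : K} (h : curveK_IB M x) (hM : M ≤ M') : curveK_IB M' x :=
  ⟨h.1, h.2.mono (by exact_mod_cast hM)⟩

lemma curveK_IB.mul {M M' : ℕ} {x y : K} (h : curveK_IB M x) (h' : curveK_IB M' y) :
    curveK_IB (M * M') (x * y) :=
  ⟨h.1.mul h'.1, (h.2.mul h'.2).mono (by push_cast; exact le_rfl)⟩

lemma curveK_IB.add {M M' : ℕ} {x y : K} (h : curveK_IB M x) (h' : curveK_IB M' y) :
    curveK_IB (M + M') (x + y) :=
  ⟨h.1.add h'.1, (h.2.add h'.2).mono (by push_cast; exact le_rfl)⟩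

lemma curveK_IB.sub {M M' : ℕ} {x y : K} (h : curveK_IB M x) (h' : curveK_IB M' y) :
    curveK_IB (M + M') (x - y) :=
  ⟨h.1.sub h'.1, (h.2.sub h'.2).mono (by push_cast; exact le_rfl)⟩

lemma curveK_IB.pow {M : ℕ} {x : K} (h : curveK_IB M x) (n : ℕ) : curveK_IB (M ^ n) (x ^ n) :=
  ⟨h.1.pow n, (h.2.pow n).mono (by push_cast; exact le_rfl)⟩

lemma curveK_IB_zero (M : ℕ) : curveK_IB M (0 : K) :=
  ⟨isIntegral_zero, fun σ => by simp⟩

lemma curveK_IB_nat (n : ℕ) : curveK_IB n (n : K) :=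
  ⟨by simpa using (isIntegral_algebraMap (R := ℤ) (A := K) (x := (n : ℤ))), fun σ => by simp⟩

lemma curveK_IB_sum {ι : Type*} {M : ℕ} (s : Finset ι) (v : ι → K)
    (h : ∀ i ∈ s, curveK_IB M (v i)) : curveK_IB (s.card * M) (∑ i ∈ s, v i) := by
  classical
  induction s using Finset.induction_on with
  | empty => simpa using curveK_IB_zero 0
  | insert a s ha ih =>
    rw [Finset.sum_insert ha, Finset.card_insert_of_notMem ha]
    exact ((h a (Finset.mem_insert_self _ _)).add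
      (ih fun i hi => h i (Finset.mem_insert_of_mem hi))).mono (le_of_eq (by ring))

lemma curveK_monom {m a b i j : ℕ} {c x y : K} (hc : curveK_IB m c) (hx : curveK_IB m (c * x))
    (hy : curveK_IB m (c * y)) (hi : i ≤ a) (hj : j ≤ b) :
    curveK_IB (m ^ (a + b)) (c ^ (a + b) * (x ^ i * y ^ j)) := by
  obtain ⟨a', rfl⟩ := Nat.exists_eq_add_of_le hi
  obtain ⟨b', rfl⟩ := Nat.exists_eq_add_of_le hj
  have e : c ^ (i + a' + (j + b')) * (x ^ i * y ^ j) =
      c ^ (a' + b') * ((c * x) ^ i * (c * y) ^ j) := by ring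
  rw [e]
  exact ((hc.pow _).mul ((hx.pow i).mul (hy.pow j))).mono (le_of_eq (by ring))

/-- all coefficients are integral and bounded -/
def curveK_Ht (f : K[X][X]) (M : ℕ) : Prop := ∀ j i, curveK_IB M ((f.coeff j).coeff i)

lemma curveK_Ht.mono {f : K[X][X]} {M M' : ℕ} (h : curveK_Ht f M) (hM : M ≤ M') :
    curveK_Ht f M' := fun j i => (h j i).mono hM

lemma curveK_Ht.deriv {f : K[X][X]} {e M : ℕ} (hd : Deg f e e) (h : curveK_Ht f M) :
    curveK_Ht (derivative f) ((e + 1) * M) := by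
  intro j i
  rw [coeff_derivative]
  by_cases hj : j + 1 ≤ e
  · have : ((j : K[X]) + 1) = C (((j + 1 : ℕ) : K)) := by simp
    rw [this, coeff_mul_C]
    exact ((h _ _).mul (curveK_IB_nat (j + 1))).mono
      (by rw [mul_comm]; exact Nat.mul_le_mul_right _ (by omega))
  · rw [coeff_eq_zero_of_natDegree_lt (lt_of_le_of_lt hd.1 (by omega))]
    simpa using curveK_IB_zero _

lemma curveK_Ht.dX {f : K[X][X]} {e M : ℕ} (hd : Deg f e e) (h : curveK_Ht f M) :
    curveK_Ht (dX f) ((e + 1) * M) := by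
  intro j i
  rw [coeff_dX, coeff_derivative]
  by_cases hi : i + 1 ≤ e
  · have : ((i : K) + 1) = ((i + 1 : ℕ) : K) := by simp
    rw [this]
    exact ((h _ _).mul (curveK_IB_nat (i + 1))).mono
      (by rw [mul_comm]; exact Nat.mul_le_mul_right _ (by omega))
  · rw [coeff_eq_zero_of_natDegree_lt (lt_of_le_of_lt (hd.2 j) (by omega))]
    simpa using curveK_IB_zero _

lemma curveK_val {m a b M : ℕ} {c x y : K} (hc : curveK_IB m c) (hx : curveK_IB m (c * x))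
    (hy : curveK_IB m (c * y)) {f : K[X][X]} (hf : Deg f a b) (hM : curveK_Ht f M) :
    curveK_IB ((a + 1) * (b + 1) * (m ^ (a + b) * M)) (c ^ (a + b) * f.evalEval x y) := by
  rw [eq_polyOf hf, evalEval_polyOf, Finset.mul_sum]
  refine (curveK_IB_sum (M := m ^ (a + b) * M) _ _ fun p _ => ?_).mono (le_of_eq (by simp))
  rw [← mul_assoc]
  exact (curveK_monom hc hx hy (Nat.lt_succ_iff.1 p.1.2) (Nat.lt_succ_iff.1 p.2.2)).mul (hM _ _)

lemma curveK_hes {m e M : ℕ} {c x y : K} (hc : curveK_IB m c) (hx : curveK_IB m (c * x))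
    (hy : curveK_IB m (c * y)) {f : K[X][X]} (hf : Deg f e e) (hM : curveK_Ht f M) :
    curveK_IB (4 * ((e + 1) * (e + 1) * (m ^ (e + e) * ((e + 1) * ((e + 1) * M)))) ^ 3)
      (c ^ (6 * e) * (Hes f).evalEval x y) := by
  have hle : (e + 1) * M ≤ (e + 1) * ((e + 1) * M) := Nat.le_mul_of_pos_left _ (by omega)
  have b1 := curveK_val hc hx hy hf.deriv ((hM.deriv hf).mono hle)
  have b2 := curveK_val hc hx hy hf.dX ((hM.dX hf).mono hle)
  have b3 := curveK_val hc hx hy hf.dX.dX ((hM.dX hf).dX hf.dX)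
  have b4 := curveK_val hc hx hy hf.deriv.dX ((hM.deriv hf).dX hf.deriv)
  have b5 := curveK_val hc hx hy hf.deriv.deriv ((hM.deriv hf).deriv hf.deriv)
  have e2 : (2 : K[X][X]).evalEval x y = 2 := by simp [evalEval]
  simp only [Hes, evalEval_add, evalEval_sub, evalEval_mul, evalEval_pow, e2]
  generalize ((e + 1) * (e + 1) * (m ^ (e + e) * ((e + 1) * ((e + 1) * M)))) = V at *
  generalize (derivative f).evalEval x y = B at *
  generalize (MP_a147dc_co.dX f).evalEval x y = A at *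
  generalize (MP_a147dc_co.dX (MP_a147dc_co.dX f)).evalEval x y = p at *
  generalize (MP_a147dc_co.dX (derivative f)).evalEval x y = q at *
  generalize (derivative (derivative f)).evalEval x y = r at *
  have e3 : c ^ (6 * e) * (B ^ 2 * p - 2 * A * B * q + A ^ 2 * r) =
      c ^ (e + e) * B * (c ^ (e + e) * B) * (c ^ (e + e) * p) -
      c ^ (e + e) * A * (c ^ (e + e) * B) * (c ^ (e + e) * q) -
      c ^ (e + e) * A * (c ^ (e + e) * B) * (c ^ (e + e) * q) +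
      c ^ (e + e) * A * (c ^ (e + e) * A) * (c ^ (e + e) * r) := by ring
  rw [e3]
  exact (((((b1.mul b1).mul b3).sub ((b2.mul b1).mul b4)).sub ((b2.mul b1).mul b4)).add
    ((b2.mul b2).mul b5)).mono (le_of_eq (by ring))

lemma curveK_hgt {m : ℕ} {p : K × K} (h : Hgt m p) :
    ∃ c : K, c ≠ 0 ∧ curveK_IB m c ∧ curveK_IB m (c * p.1) ∧ curveK_IB m (c * p.2) := by
  obtain ⟨c, hc, h⟩ := h
  refine ⟨c, hc, ?_, h 1, h 2⟩
  have := h 0
  simp only [hm, Matrix.cons_val_zero, mul_one] at this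
  exact this

lemma curveK_map_polyOf {A : Type*} [CommRing A] (φ : A →+* K) {a b : ℕ}
    (t : Fin (a + 1) × Fin (b + 1) → A) :
    (polyOf t).map (mapRingHom φ) = polyOf fun q => φ (t q) := by
  ext j i
  rw [coeff_map, coe_mapRingHom, coeff_map, coeff_polyOf, coeff_polyOf]
  split_ifs <;> simp

end

lemma curveK_num1 {m l E : ℕ} (hl : 1 ≤ l) (hml : m ≤ 2 ^ l) :
    m * (4 * ((E + 1) * (E + 1) * (m ^ (E + E) * ((E + 1) * ((E + 1) *
      ((E + 1) * (E + 1) * m ^ (E + E)) ^ ((E + 1) * (E + 1)))))) ^ 3) ≤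
      2 ^ (33 * l * (E + 1) ^ 3) := by
  have h1 : m ^ (E + E) ≤ (2 ^ (l * (E + 1))) ^ 2 := by
    calc _ ≤ (2 ^ l) ^ (E + E) := Nat.pow_le_pow_left hml _
      _ ≤ (2 ^ l) ^ ((E + 1) * 2) := Nat.pow_le_pow_right (by positivity) (by omega)
      _ = _ := by rw [← pow_mul, ← pow_mul, mul_assoc]
  have h2 : E + 1 ≤ 2 ^ (l * (E + 1)) :=
    Nat.lt_two_pow_self.le.trans (Nat.pow_le_pow_right (by norm_num) (Nat.le_mul_of_pos_left _ hl))
  have h3 : m ≤ 2 ^ (l * (E + 1)) :=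
    hml.trans (Nat.pow_le_pow_right (by norm_num) (Nat.le_mul_of_pos_right _ (by omega)))
  have h4 : 2 ≤ 2 ^ (l * (E + 1)) := by
    calc 2 = 2 ^ 1 := rfl
      _ ≤ _ := Nat.pow_le_pow_right (by norm_num) (Nat.mul_pos hl (by omega))
  have e : 2 ^ (33 * l * (E + 1) ^ 3) = (2 ^ (l * (E + 1))) ^ (33 * ((E + 1) * (E + 1))) := by
    rw [← pow_mul]; congr 1; ring
  rw [e]
  have hN : 1 ≤ (E + 1) * (E + 1) := Nat.mul_pos (by omega) (by omega)
  generalize 2 ^ (l * (E + 1)) = x at *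
  generalize m ^ (E + E) = w at *
  generalize E + 1 = u at *
  have h5 : (u * u * w) ^ (u * u) ≤ (x * x * x ^ 2) ^ (u * u) := by gcongr
  generalize (u * u * w) ^ (u * u) = k at *
  generalize hNN : u * u = N at h5 hN ⊢
  have h6 : N ≤ x * x := by rw [← hNN]; gcongr
  have h7 : 4 ≤ x * x := by nlinarith
  calc _ ≤ x * (x * x * (x * x * (x ^ 2 * (x * (x * (x * x * x ^ 2) ^ N)))) ^ 3) := by gcongr
    _ = x ^ (21 + 12 * N) := by ring
    _ ≤ _ := Nat.pow_le_pow_right (by omega) (by omega)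

lemma curveK_num2 {l D e α : ℕ} (hl : 1 ≤ l) (hD : 1 ≤ D) :
    2 * e * ((16 * (33 * l * (2 * e + 1) ^ 3 * D + 1) ^ 2) ^ (2 * D + 1) * α +
      36 * (2 * e) ^ 2 + 3 * (2 * e) + 3) ≤ (4096 * D * l * (e + 1)) ^ (20 * D) * (α + 1) := by
  have hP : 1 ≤ D * l := Nat.mul_pos hD hl
  have h0 : 4096 * (e + 1) ≤ 4096 * D * l * (e + 1) := by
    calc _ = 4096 * 1 * (e + 1) := by ring
      _ ≤ 4096 * (D * l) * (e + 1) := by gcongr
      _ = _ := by ring
  have h1 : 4 * (33 * l * (2 * e + 1) ^ 3 * D + 1) ≤ (4096 * D * l * (e + 1)) ^ 3 := by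
    have a1 : (2 * e + 1) ^ 3 ≤ (2 * (e + 1)) ^ 3 := Nat.pow_le_pow_left (by omega) _
    have a2 : 1 ≤ D * l * (e + 1) ^ 3 := Nat.mul_pos hP (by positivity)
    have a3 : D * l ≤ (D * l) ^ 3 := Nat.le_self_pow (by norm_num) _
    calc _ ≤ 4 * (33 * l * (2 * (e + 1)) ^ 3 * D + D * l * (e + 1) ^ 3) := by gcongr
      _ = 1060 * (D * l) * (e + 1) ^ 3 := by ring
      _ ≤ 4096 ^ 3 * (D * l) ^ 3 * (e + 1) ^ 3 := by gcongr; norm_num
      _ = _ := by ring
  generalize 4096 * D * l * (e + 1) = T at *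
  generalize 33 * l * (2 * e + 1) ^ 3 * D + 1 = Z at *
  have hT : 1 ≤ T := by omega
  have h2 : (16 * Z ^ 2) ^ (2 * D + 1) ≤ T ^ (18 * D) := by
    calc _ = ((4 * Z) ^ 2) ^ (2 * D + 1) := by congr 1; ring
      _ ≤ ((T ^ 3) ^ 2) ^ (2 * D + 1) := by gcongr
      _ = T ^ (12 * D + 6) := by rw [← pow_mul, ← pow_mul]; congr 1; ring
      _ ≤ _ := Nat.pow_le_pow_right hT (by omega)
  have h3 : 36 * (2 * e) ^ 2 + 3 * (2 * e) + 3 ≤ T ^ (18 * D) := by
    calc _ ≤ (4096 * (e + 1)) ^ 2 := by nlinarith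
      _ ≤ T ^ 2 := Nat.pow_le_pow_left h0 _
      _ ≤ _ := Nat.pow_le_pow_right hT (by omega)
  have h4 : T * T ^ (18 * D) ≤ T ^ (20 * D) := by
    rw [← pow_succ']; exact Nat.pow_le_pow_right hT (by omega)
  calc _ = 2 * e * ((16 * Z ^ 2) ^ (2 * D + 1) * α + (36 * (2 * e) ^ 2 + 3 * (2 * e) + 3)) := by
        ring
    _ ≤ T * (T ^ (18 * D) * α + T ^ (18 * D)) := by gcongr; omega
    _ = T * T ^ (18 * D) * (α + 1) := by ring
    _ ≤ _ := Nat.mul_le_mul_right _ h4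

variable {K : Type*} [Field K] [NumberField K]

/-- a polynomial with small integral coefficients through the same points -/
lemma curveK_poly {U : Finset (K × K)} {m a b : ℕ} (hm1 : 1 ≤ m) (hU : ∀ p ∈ U, Hgt m p)
    (g : K[X][X]) (hg : g ≠ 0) (hd : Deg g a b) (hv : ∀ p ∈ U, g.evalEval p.1 p.2 = 0) :
    ∃ t : Fin (a + 1) × Fin (b + 1) → 𝓞 K, (polyOf fun q => (t q : K)) ≠ 0 ∧
      curveK_Ht (polyOf fun q => (t q : K))
        (((a + 1) * (b + 1) * m ^ (a + b)) ^ ((a + 1) * (b + 1))) ∧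
      ∀ p ∈ U, (polyOf fun q => (t q : K)).evalEval p.1 p.2 = 0 := by
  classical
  choose c hc0 hc hx hy using fun p : U => curveK_hgt (hU p.1 p.2)
  have hM : ∀ (p : U) (q : Fin (a + 1) × Fin (b + 1)), curveK_IB (m ^ (a + b))
      (c p ^ (a + b) * (p.1.1 ^ (q.1 : ℕ) * p.1.2 ^ (q.2 : ℕ))) := fun p q =>
    curveK_monom (hc p) (hx p) (hy p) (Nat.lt_succ_iff.1 q.1.2) (Nat.lt_succ_iff.1 q.2.2)
  obtain ⟨M, hMM⟩ : ∃ M : U → Fin (a + 1) × Fin (b + 1) → 𝓞 K, ∀ p q,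
      algebraMap (𝓞 K) K (M p q) = c p ^ (a + b) * (p.1.1 ^ (q.1 : ℕ) * p.1.2 ^ (q.2 : ℕ)) :=
    ⟨fun p q => ⟨_, (hM p q).1⟩, fun _ _ => rfl⟩
  have key : ∀ (p : U) (s : Fin (a + 1) × Fin (b + 1) → K),
      ∑ q, algebraMap (𝓞 K) K (M p q) * s q =
        c p ^ (a + b) * (polyOf s).evalEval p.1.1 p.1.2 := by
    intro p s
    rw [evalEval_polyOf, Finset.mul_sum]
    exact Finset.sum_congr rfl fun q _ => by rw [hMM]; ring
  obtain ⟨t, ⟨j0, hj0⟩, ht, hdet⟩ := ker_minors (algebraMap (𝓞 K) K) M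
    (fun q => (g.coeff q.2).coeff q.1) (by
      intro h0
      apply hg
      rw [eq_polyOf hd, h0]; simp [polyOf]) (by
      intro p
      rw [key, ← eq_polyOf hd, hv p.1 p.2, mul_zero])
  refine ⟨t, polyOf_ne_zero fun h => hj0 (congrFun h j0), fun j i => ?_, fun p hp => ?_⟩
  · rw [coeff_polyOf]
    split_ifs with h
    swap
    · exact curveK_IB_zero _
    refine ⟨RingOfIntegers.isIntegral_coe _, ?_⟩
    rcases hdet (⟨i, h.1⟩, ⟨j, h.2⟩) with h0 | ⟨n, ρ, γ, hn, h1⟩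
    · rw [h0]; exact (curveK_IB_zero _).2
    have hB := Bd_det (M := ((m ^ (a + b) : ℕ) : ℝ))
      ((algebraMap (𝓞 K) K).mapMatrix (Matrix.of fun u v => M (ρ u) (γ v))) (fun u v => by
        have := (hM (ρ u) (γ v)).2
        rw [← hMM] at this
        exact this)
    rw [← RingHom.map_det] at hB
    have hle : (n * m ^ (a + b)) ^ n ≤ ((a + 1) * (b + 1) * m ^ (a + b)) ^ ((a + 1) * (b + 1)) := by
      have hn' : n ≤ (a + 1) * (b + 1) := by simpa using hn.le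
      calc _ ≤ ((a + 1) * (b + 1) * m ^ (a + b)) ^ n := by gcongr
        _ ≤ _ := Nat.pow_le_pow_right (by positivity) hn'
    have hB' := hB.mono (M' := ((((a + 1) * (b + 1) * m ^ (a + b)) ^ ((a + 1) * (b + 1)) : ℕ) : ℝ))
      (by exact_mod_cast hle)
    rcases h1 with h1 | h1
    · rw [h1]; exact hB'
    · rw [h1]
      intro σ
      have := hB' σ
      rw [← norm_neg, ← map_neg, ← map_neg] at this
      exact this
  · have := ht ⟨p, hp⟩
    rw [key] at this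
    exact (mul_eq_zero.1 this).resolve_left (pow_ne_zero _ (hc0 _))

lemma curveK_norm {x : 𝓞 K} {k D : ℕ} (hD : finrank ℚ K ≤ D) (h : Bd ((2 ^ k : ℕ) : ℝ) (x : K)) :
    Ideal.absNorm (Ideal.span {x}) ≤ 2 ^ (k * D) := by
  have h1 : (Ideal.absNorm (Ideal.span {x}) : ℝ) ≤ ((2 ^ k : ℕ) : ℝ) ^ finrank ℚ K := by
    rw [absNorm_span_eq, ← Embeddings.card K ℂ, ← Finset.card_univ, ← Finset.prod_const]
    exact Finset.prod_le_prod (fun _ _ => norm_nonneg _) fun σ _ => h σ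
  have h2 : Ideal.absNorm (Ideal.span {x}) ≤ (2 ^ k) ^ finrank ℚ K := by exact_mod_cast h1
  rw [pow_mul]
  exact h2.trans (Nat.pow_le_pow_right (by positivity) hD)

open Classical in
theorem curve_K {S : Finset (K × K)} {m l D α e : ℕ} (hD : finrank ℚ K ≤ D) (hl : 1 ≤ l)
    (hm1 : 1 ≤ m) (hml : m ≤ 2 ^ l) (hS : ∀ p ∈ S, Hgt m p) (h4 : No4K S)
    (hα : ∀ G ⊆ S, GPK G → G.card ≤ α) (f : K[X][X]) (hf : f ≠ 0) (hd : Deg f e e) :
    (S.filter fun p => f.evalEval p.1 p.2 = 0).card ≤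
      (4096 * D * l * (e + 1)) ^ (20 * D) * (α + 1) := by
  have hD1 : 1 ≤ D := (Module.finrank_pos (R := ℚ) (M := K)).trans_le hD
  refine (curveK_ind h4 (e := 2 * e)
    (L := (16 * (33 * l * (2 * e + 1) ^ 3 * D + 1) ^ 2) ^ (2 * D + 1) * α) ?_ (2 * e) le_rfl f hf
    ?_ _ (Finset.filter_subset _ _) fun x hx => (Finset.mem_filter.1 hx).2).trans
    (curveK_num2 hl hD1)
  swap
  · have := deg_iff.1 hd
    unfold curveK_dg; omega
  generalize 2 * e = E
  intro a b ha hb g hg hgd U hU hv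
  obtain ⟨t, ht0, hH, htv⟩ := curveK_poly hm1 (fun p hp => hS p (hU hp)) g hg hgd hv
  refine ⟨_, ht0, deg_polyOf _, htv, fun V hV hne => ?_⟩
  have hmap : (polyOf t).map (mapRingHom (algebraMap (𝓞 K) K)) = polyOf fun q => (t q : K) :=
    curveK_map_polyOf _ t
  have hH' : curveK_Ht (polyOf fun q => (t q : K))
      (((E + 1) * (E + 1) * m ^ (E + E)) ^ ((E + 1) * (E + 1))) := by
    refine hH.mono ?_
    calc _ ≤ ((E + 1) * (E + 1) * m ^ (E + E)) ^ ((a + 1) * (b + 1)) := by gcongr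
      _ ≤ _ := Nat.pow_le_pow_right (by positivity) (by gcongr)
  refine arcs_K (Ξ := 33 * l * (E + 1) ^ 3 * D) hD hα (hV.trans hU) (polyOf t)
    (fun p hp => by rw [hmap]; exact htv p (hV hp)) (fun p hp => ?_) le_rfl
  rw [hmap]
  obtain ⟨c, hc0, hc, hx, hy⟩ := curveK_hgt (hS p (hU (hV hp)))
  have hh := curveK_hes hc hx hy ((deg_polyOf _).mono ha hb) hH'
  refine ⟨⟨c, hc.1⟩, ⟨_, hx.1⟩, ⟨_, hy.1⟩, ⟨_, hh.1⟩, 6 * E, rfl, rfl, rfl, ?_, ?_⟩
  · intro h0
    exact mul_ne_zero hc0 (mul_ne_zero (pow_ne_zero _ hc0) (hne p hp))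
      (congrArg (algebraMap (𝓞 K) K) h0)
  · exact curveK_norm hD ((hc.mul hh).mono (curveK_num1 hl hml)).2

end Pool.Agent.Lib.MP_a147dc_co.B
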