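import Pool.Agent.Lib.MP_a147dc_co.B.Defs

/-! Points on a curve over a field of characteristic zero: the induction on the degree. -/

namespace Pool.Agent.Lib.MP_a147dc_co.B

open Polynomial

variable {K : Type*} [Field K]

/-- degree measure -/
noncomputable def curveK_dg (f : K[X][X]) : ℕ := f.natDegree + (Bivariate.swap f).natDegree

lemma curveK_dg_mul {f g : K[X][X]} (hf : f ≠ 0) (hg : g ≠ 0) :
    curveK_dg (f * g) = curveK_dg f + curveK_dg g := by
  unfold curveK_dg
  rw [map_mul, natDegree_mul hf hg,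
    natDegree_mul ((map_ne_zero_iff _ Bivariate.swap.injective).2 hf)
    ((map_ne_zero_iff _ Bivariate.swap.injective).2 hg)]
  ring

lemma curveK_deg_dg (f : K[X][X]) : Deg f (Bivariate.swap f).natDegree f.natDegree :=
  deg_iff.2 ⟨le_rfl, le_rfl⟩

lemma curveK_isUnit {f : K[X][X]} (hf : f ≠ 0) (h : curveK_dg f = 0) : IsUnit f := by
  unfold curveK_dg at h
  have h1 : f.natDegree = 0 := by omega
  have h2 : (f.coeff 0).natDegree = 0 := by have := (curveK_deg_dg f).2 0; omega
  rw [eq_C_of_natDegree_eq_zero h1, eq_C_of_natDegree_eq_zero h2] at hf ⊢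
  rw [isUnit_C, isUnit_C, isUnit_iff_ne_zero]
  intro h0
  apply hf
  rw [h0]; simp

lemma curveK_onLine (c σ : K) (f : K[X][X]) : onLine 0 1 c σ f = f.eval (C c + C σ * X) := by
  induction f using Polynomial.induction_on' with
  | add p q hp hq => rw [map_add, eval_add, hp, hq]
  | monomial j a => rw [onLine_monomial, eval_monomial]; simp

lemma curveK_uni [CharZero K] {F B H G : K[X]} (r0 : F.IsRoot 0) (r1 : (derivative F).IsRoot 0)
    (hFH : F ∣ H) (hG : H = B ^ 2 * derivative (derivative F) + derivative F * G)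
    (hB : ¬ B.IsRoot 0) : F = 0 := by
  classical
  by_contra hF
  have hF' : derivative F ≠ 0 := by
    intro h
    have := eq_C_of_derivative_eq_zero h
    rw [this] at r0
    simp only [IsRoot, eval_C] at r0
    rw [r0] at this
    exact hF (by simpa using this)
  have hF'' : derivative (derivative F) ≠ 0 := by
    intro h
    have := eq_C_of_derivative_eq_zero h
    rw [this] at r1
    simp only [IsRoot, eval_C] at r1
    rw [r1] at this
    exact hF' (by simpa using this)
  have m1 := derivative_rootMultiplicity_of_root r0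
  have m2 := derivative_rootMultiplicity_of_root r1
  have p1 : 0 < rootMultiplicity 0 (derivative F) := (rootMultiplicity_pos hF').2 r1
  have dF' := pow_rootMultiplicity_dvd (derivative F) 0
  have dF0 := pow_rootMultiplicity_dvd F 0
  generalize rootMultiplicity 0 (derivative F) = ν at *
  have dF : (X - C (0 : K)) ^ ν ∣ F := (pow_dvd_pow _ (by omega)).trans dF0
  have dB : (X - C (0 : K)) ^ ν ∣ B ^ 2 * derivative (derivative F) := by
    have : B ^ 2 * derivative (derivative F) = H - derivative F * G := by rw [hG]; ring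
    rw [this]; exact dvd_sub (dF.trans hFH) (dF'.mul_right _)
  have hcop : IsCoprime ((X - C (0 : K)) ^ ν) (B ^ 2) := by
    apply IsCoprime.pow
    rw [(irreducible_X_sub_C (0 : K)).coprime_iff_not_dvd, dvd_iff_isRoot]
    exact hB
  have := (le_rootMultiplicity_iff hF'').2 (hcop.dvd_of_dvd_mul_left dB)
  omega

/-- if `f` divides its curvature polynomial, tangent lines lie in the curve -/
lemma curveK_tangent_subset [CharZero K] (f : K[X][X]) (hf : f ∣ Hes f) (x y : K)
    (h0 : f.evalEval x y = 0) (h1 : (derivative f).evalEval x y ≠ 0) :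
    ∃ σ : K, onLine x 1 y σ f = 0 := by
  obtain ⟨σ, hσ⟩ : ∃ σ : K, (dX f).evalEval x y + σ * (derivative f).evalEval x y = 0 :=
    ⟨-(dX f).evalEval x y / (derivative f).evalEval x y, by field_simp; ring⟩
  obtain ⟨G, hG⟩ := onLine_Hes_a x 1 y σ f
  rw [map_one, one_pow, one_mul] at hG
  have hdv : onLine x 1 y σ f ∣ onLine x 1 y σ (Hes f) := by
    obtain ⟨g, hg⟩ := hf
    exact ⟨onLine x 1 y σ g, by rw [← map_mul, ← hg]⟩
  refine ⟨σ, curveK_uni ?_ ?_ hdv hG ?_⟩
  · rw [IsRoot, eval_onLine, mul_zero, mul_zero, add_zero, add_zero, h0]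
  · rw [IsRoot, derivative_onLine, eval_add, eval_mul, eval_mul, eval_C, eval_C, eval_onLine,
      eval_onLine, mul_zero, mul_zero, add_zero, add_zero, one_mul, hσ]
  · rw [IsRoot, eval_onLine, mul_zero, mul_zero, add_zero, add_zero]
    exact h1

lemma curveK_tangent_bound [CharZero K] {S U : Finset (K × K)} (hS : No4K S) (hU : U ⊆ S)
    (f : K[X][X]) (hf0 : f ≠ 0) (hf : f ∣ Hes f) (h0 : ∀ x ∈ U, f.evalEval x.1 x.2 = 0)
    (h1 : ∀ x ∈ U, (derivative f).evalEval x.1 x.2 ≠ 0) : U.card ≤ 3 * f.natDegree := by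
  classical
  have hl : ∀ x : K × K, ∃ p : K × K, x ∈ U → f.IsRoot (C p.1 + C p.2 * X) ∧
      x.2 = p.1 + p.2 * x.1 := by
    intro x
    by_cases hx : x ∈ U
    swap
    · exact ⟨0, fun h => absurd h hx⟩
    obtain ⟨σ, hσ⟩ := curveK_tangent_subset f hf _ _ (h0 x hx) (h1 x hx)
    refine ⟨(x.2 - σ * x.1, σ), fun _ => ⟨?_, by simp⟩⟩
    rw [IsRoot, ← curveK_onLine]
    apply Polynomial.funext
    intro s
    have := congrArg (eval (s - x.1)) hσ
    rw [eval_onLine] at this ⊢
    rw [eval_zero] at this ⊢
    have e1 : (0 : K) + 1 * s = x.1 + 1 * (s - x.1) := by ring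
    have e2 : x.2 - σ * x.1 + σ * s = x.2 + σ * (s - x.1) := by ring
    rw [e1, e2, this]
  choose p hp using hl
  have := Finset.card_le_mul_card_image_of_maps_to (s := U) (t := f.roots.toFinset)
    (f := fun x => C (p x).1 + C (p x).2 * X) (fun x hx => by
      rw [Multiset.mem_toFinset, mem_roots hf0]; exact (hp x hx).1) 3 (by
      intro l _
      apply hS.card_le_three ((Finset.filter_subset _ _).trans hU)
      intro x hx y hy z hz
      simp only [Finset.mem_filter] at hx hy hz
      have key : ∀ w ∈ U, C (p w).1 + C (p w).2 * X = l → w.2 = (p x).1 + (p x).2 * w.1 := by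
        intro w hw hl
        have := congrArg (eval w.1) (hl.trans hx.2.symm)
        simp only [eval_add, eval_mul, eval_C, eval_X] at this
        rw [(hp w hw).2, this]
      have e1 := key x hx.1 hx.2
      have e2 := key y hy.1 hy.2
      have e3 := key z hz.1 hz.2
      unfold dt
      linear_combination (y.1 - x.1) * (e3 - e1) - (z.1 - x.1) * (e2 - e1))
  exact this.trans (Nat.mul_le_mul_left _
    ((Multiset.toFinset_card_le _).trans (card_roots' f)))

lemma curveK_vertical {S U : Finset (K × K)} (hS : No4K S) (hU : U ⊆ S) (r : K[X]) (hr : r ≠ 0)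
    (h : ∀ x ∈ U, r.eval x.1 = 0) : U.card ≤ 3 * r.natDegree := by
  classical
  have := Finset.card_le_mul_card_image_of_maps_to (s := U) (t := r.roots.toFinset)
    (f := fun x => x.1) (fun x hx => by
      rw [Multiset.mem_toFinset, mem_roots hr]; exact h x hx) 3 (by
      intro c _
      apply hS.card_le_three ((Finset.filter_subset _ _).trans hU)
      intro x hx y hy z hz
      simp only [Finset.mem_filter] at hx hy hz
      have e1 : y.1 = x.1 := hy.2.trans hx.2.symm
      have e2 : z.1 = x.1 := hz.2.trans hx.2.symm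
      simp [dt, e1, e2])
  exact this.trans (Nat.mul_le_mul_left _
    ((Multiset.toFinset_card_le _).trans (card_roots' r)))

lemma curveK_bezout (f g : K[X][X]) (hf : Irreducible f) (hf0 : f.natDegree ≠ 0) (hfg : ¬ f ∣ g)
    {E : ℕ} (hE : ∀ j, (f.coeff j).natDegree ≤ E) (hE' : ∀ j, (g.coeff j).natDegree ≤ E) :
    ∃ r : K[X], r ≠ 0 ∧ r.natDegree ≤ (f.natDegree + g.natDegree) * E ∧
      ∀ x y : K, f.evalEval x y = 0 → g.evalEval x y = 0 → r.eval x = 0 := by
  refine ⟨resultant f g, ?_, ?_, ?_⟩
  · intro h0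
    let L := FractionRing K[X]
    have hinj : Function.Injective (algebraMap K[X] L) := IsFractionRing.injective _ _
    have hp := hf.isPrimitive hf0
    have hi : Irreducible (f.map (algebraMap K[X] L)) :=
      (hp.irreducible_iff_irreducible_map_fraction_map).1 hf
    have hnd : ¬ f.map (algebraMap K[X] L) ∣ g.map (algebraMap K[X] L) :=
      fun h => hfg (hp.dvd_of_fraction_map_dvd_fraction_map h)
    have hc := hi.coprime_iff_not_dvd.2 hnd
    have := resultant_ne_zero _ _ hc
    rw [natDegree_map_eq_of_injective hinj, natDegree_map_eq_of_injective hinj,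
      resultant_map_map, h0, map_zero] at this
    exact this rfl
  · unfold resultant
    rw [Matrix.det_apply]
    apply natDegree_sum_le_of_forall_le
    intro σ _
    refine (natDegree_smul_le _ _).trans ((natDegree_prod_le _ _).trans ?_)
    refine (Finset.sum_le_card_nsmul _ _ E ?_).trans (by simp)
    intro i _
    unfold sylvester
    rw [Matrix.of_apply]
    refine Fin.addCases (fun j => ?_) (fun j => ?_) i
    · rw [Fin.addCases_left]; split_ifs
      · exact hE' _
      · simp
    · rw [Fin.addCases_right]; split_ifs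
      · exact hE _
      · simp
  · intro x y hx hy
    obtain ⟨p, q, -, -, h⟩ := exists_mul_add_mul_eq_C_resultant f g le_rfl le_rfl (Or.inl hf0)
    have := congrArg (evalEval x y) h
    rw [evalEval_add, evalEval_mul, evalEval_mul, hx, hy, evalEval_C] at this
    simpa using this.symm

/-- the induction on the degree -/
theorem curveK_ind [CharZero K] {S : Finset (K × K)} (hS : No4K S) {L e : ℕ}
    (hA : ∀ a b : ℕ, a ≤ e → b ≤ e → ∀ g : K[X][X], g ≠ 0 → Deg g a b → ∀ U ⊆ S,
      (∀ x ∈ U, g.evalEval x.1 x.2 = 0) → ∃ f : K[X][X], f ≠ 0 ∧ Deg f a b ∧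
        (∀ x ∈ U, f.evalEval x.1 x.2 = 0) ∧
        ∀ V ⊆ U, (∀ x ∈ V, (Hes f).evalEval x.1 x.2 ≠ 0) → V.card ≤ L)
    (d : ℕ) (hd : d ≤ e) : ∀ g : K[X][X], g ≠ 0 → curveK_dg g ≤ d → ∀ U ⊆ S,
      (∀ x ∈ U, g.evalEval x.1 x.2 = 0) → U.card ≤ d * (L + 36 * e ^ 2 + 3 * e + 3) := by
  classical
  induction d using Nat.strong_induction_on with
  | _ d ih =>
  intro g hg hgd U hUS hU
  set Λ := L + 36 * e ^ 2 + 3 * e + 3 with hΛ
  by_contra hc
  push Not at hc
  have ha : (Bivariate.swap g).natDegree ≤ e := by unfold curveK_dg at hgd; omega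
  have hb : g.natDegree ≤ e := by unfold curveK_dg at hgd; omega
  obtain ⟨f, hf, hfD, hv, harc⟩ := hA _ _ ha hb g hg (curveK_deg_dg g) U hUS hU
  have hfd : curveK_dg f ≤ d := by
    have := deg_iff.1 hfD
    unfold curveK_dg at hgd ⊢; omega
  have hnu : ¬ IsUnit f := by
    intro hu
    obtain ⟨x, hx⟩ : U.Nonempty := Finset.card_pos.1 (by omega)
    have := (hu.map (evalEvalRingHom x.1 x.2)).ne_zero
    exact this (hv x hx)
  have hd1 : 1 ≤ curveK_dg f := by
    by_contra h
    exact hnu (curveK_isUnit hf (by omega))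
  have hirr : Irreducible f := by
    refine ⟨hnu, fun p q hpq => ?_⟩
    by_contra hcon
    push Not at hcon
    have hp : p ≠ 0 := by rintro rfl; exact hf (by simp [hpq])
    have hq : q ≠ 0 := by rintro rfl; exact hf (by simp [hpq])
    have e1 := curveK_dg_mul hp hq
    rw [← hpq] at e1
    have p1 : 1 ≤ curveK_dg p := by
      by_contra h
      exact hcon.1 (curveK_isUnit hp (by omega))
    have q1 : 1 ≤ curveK_dg q := by
      by_contra h
      exact hcon.2 (curveK_isUnit hq (by omega))
    have i1 := ih (curveK_dg p) (by omega) (by omega) p hp le_rfl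
      (U.filter fun x => p.evalEval x.1 x.2 = 0) ((Finset.filter_subset _ _).trans hUS)
      (fun x hx => (Finset.mem_filter.1 hx).2)
    have i2 := ih (curveK_dg q) (by omega) (by omega) q hq le_rfl
      (U.filter fun x => ¬ p.evalEval x.1 x.2 = 0) ((Finset.filter_subset _ _).trans hUS)
      (fun x hx => by
        rw [Finset.mem_filter] at hx
        have := hv x hx.1
        rw [hpq, evalEval_mul, mul_eq_zero] at this
        exact this.resolve_left hx.2)
    have := Finset.card_filter_add_card_filter_not (s := U)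
      (fun x : K × K => p.evalEval x.1 x.2 = 0)
    have h2 : curveK_dg p * Λ + curveK_dg q * Λ ≤ d * Λ := by
      rw [← add_mul]; exact Nat.mul_le_mul_right _ (by omega)
    omega
  have hΛ3 : 3 ≤ Λ := by omega
  have hdΛ : Λ ≤ d * Λ := Nat.le_mul_of_pos_left _ (by omega)
  by_cases hy : f.natDegree = 0
  · have hfc := eq_C_of_natDegree_eq_zero hy
    have hr : f.coeff 0 ≠ 0 := by intro h; rw [h] at hfc; exact hf (by simpa using hfc)
    have := curveK_vertical hS hUS (f.coeff 0) hr (fun x hx => by
      have := hv x hx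
      rwa [hfc, evalEval_C] at this)
    have h2 : (f.coeff 0).natDegree ≤ d := by
      have := (curveK_deg_dg f).2 0
      unfold curveK_dg at hfd; omega
    have : 3 * d ≤ d * Λ := by rw [mul_comm]; exact Nat.mul_le_mul_left _ hΛ3
    omega
  have hfe : Deg f e e := hfD.mono ha hb
  by_cases hH : f ∣ Hes f
  · have hder : derivative f ≠ 0 := by
      intro h
      exact hy (derivative_eq_zero.1 h)
    have hdd : curveK_dg (derivative f) ≤ d - 1 := by
      have h1 := natDegree_derivative_lt hy
      have h2 := (deg_iff.1 (curveK_deg_dg f).deriv).2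
      unfold curveK_dg at hfd ⊢; omega
    have i1 := ih (d - 1) (by omega) (by omega) _ hder hdd
      (U.filter fun x => (derivative f).evalEval x.1 x.2 = 0)
      ((Finset.filter_subset _ _).trans hUS) (fun x hx => (Finset.mem_filter.1 hx).2)
    have t1 := curveK_tangent_bound hS ((Finset.filter_subset
      (fun x : K × K => ¬ (derivative f).evalEval x.1 x.2 = 0) U).trans hUS) f hf hH
      (fun x hx => hv x (Finset.mem_filter.1 hx).1) (fun x hx => (Finset.mem_filter.1 hx).2)
    have := Finset.card_filter_add_card_filter_not (s := U)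
      (fun x : K × K => (derivative f).evalEval x.1 x.2 = 0)
    have h2 : (d - 1) * Λ + Λ = d * Λ := by
      obtain ⟨k, rfl⟩ : ∃ k, d = k + 1 := ⟨d - 1, by omega⟩
      simp [add_mul]
    have := hfe.1
    omega
  · obtain ⟨r, hr, hrd, hrv⟩ := curveK_bezout f (Hes f) hirr hy hH (E := 3 * e)
      (fun j => (hfe.2 j).trans (by omega)) hfe.hes.2
    have hrd' : r.natDegree ≤ 12 * e ^ 2 := by
      have h1 := hfe.1
      have h2 := hfe.hes.1
      calc _ ≤ _ := hrd
        _ ≤ (e + 3 * e) * (3 * e) := Nat.mul_le_mul_right _ (by omega)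
        _ = _ := by ring
    have v1 := curveK_vertical hS ((Finset.filter_subset
      (fun x : K × K => (Hes f).evalEval x.1 x.2 = 0) U).trans hUS) r hr (fun x hx => by
        rw [Finset.mem_filter] at hx
        exact hrv _ _ (hv x hx.1) hx.2)
    have a1 := harc _ (Finset.filter_subset
      (fun x : K × K => ¬ (Hes f).evalEval x.1 x.2 = 0) U)
      (fun x hx => (Finset.mem_filter.1 hx).2)
    have := Finset.card_filter_add_card_filter_not (s := U)
      (fun x : K × K => (Hes f).evalEval x.1 x.2 = 0)
    omega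

end Pool.Agent.Lib.MP_a147dc_co.B
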