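import Pool.Agent.Lib.MP_a147dc_co.Asym
import Pool.Agent.Lib.MP_a147dc_co.Parab
import Pool.Agent.Lib.MP_a147dc_co.Delete

/-! Basic notions for point sets over a number field. -/

namespace Pool.Agent.Lib.MP_a147dc_co.B

open Finset NumberField
open scoped nonZeroDivisors

variable {K : Type*} [Field K]

/-- the collinearity determinant -/
def dt (p q r : K × K) : K := (q.1 - p.1) * (r.2 - p.2) - (q.2 - p.2) * (r.1 - p.1)

/-- general position -/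
def GPK (G : Finset (K × K)) : Prop :=
  ∀ x ∈ G, ∀ y ∈ G, ∀ z ∈ G, x ≠ y → x ≠ z → y ≠ z → dt x y z ≠ 0

/-- no four points on a line -/
def No4K (S : Finset (K × K)) : Prop :=
  ∀ x ∈ S, ∀ y ∈ S, ∀ z ∈ S, ∀ w ∈ S, x ≠ y → x ≠ z → x ≠ w → y ≠ z → y ≠ w → z ≠ w →
    dt x y z = 0 → dt x y w = 0 → False

/-- all conjugates are bounded -/
def Bd (M : ℝ) (x : K) : Prop := ∀ σ : K →+* ℂ, ‖σ x‖ ≤ M

/-- homogeneous coordinates -/
def hm (p : K × K) : Fin 3 → K := ![1, p.1, p.2]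

/-- bounded height -/
def Hgt (m : ℕ) (p : K × K) : Prop :=
  ∃ c : K, c ≠ 0 ∧ ∀ i, IsIntegral ℤ (c * hm p i) ∧ Bd m (c * hm p i)

/-- small denominators and conjugates -/
def Low (H : ℕ) (a : K) : Prop :=
  ∃ d : ℕ, 1 ≤ d ∧ d ≤ H ∧ IsIntegral ℤ ((d : K) * a) ∧ Bd H a

/-- two by two minors -/
def mn (x y : Fin 3 → K) (i j : Fin 3) : K := x i * y j - x j * y i

/-- sup norm at an embedding -/
noncomputable def nrm (σ : K →+* ℂ) (x : Fin 3 → K) : ℝ := ‖fun i => σ (x i)‖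

/-- chordal distance at most `ρ` -/
def AC (σ : K →+* ℂ) (ρ : ℝ) (x y : Fin 3 → K) : Prop :=
  ∀ i j, ‖σ (mn x y i j)‖ ≤ ρ * nrm σ x * nrm σ y

lemma No4K.mono {S T : Finset (K × K)} (h : No4K S) (hT : T ⊆ S) : No4K T :=
  fun x hx y hy z hz w hw => h x (hT hx) y (hT hy) z (hT hz) w (hT hw)

lemma hm_ne (p : K × K) : hm p ≠ 0 := fun h => by simpa [hm] using congrFun h 0

lemma Bd.mono {M M' : ℝ} {x : K} (h : Bd M x) (hM : M ≤ M') : Bd M' x :=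
  fun σ => (h σ).trans hM

lemma Bd.mul {M M' : ℝ} {x y : K} (h : Bd M x) (h' : Bd M' y) : Bd (M * M') (x * y) := fun σ => by
  rw [map_mul, norm_mul]
  exact mul_le_mul (h σ) (h' σ) (norm_nonneg _) ((norm_nonneg _).trans (h σ))

lemma Bd.add {M M' : ℝ} {x y : K} (h : Bd M x) (h' : Bd M' y) : Bd (M + M') (x + y) := fun σ => by
  rw [map_add]; exact (norm_add_le _ _).trans (add_le_add (h σ) (h' σ))

lemma Bd.sub {M M' : ℝ} {x y : K} (h : Bd M x) (h' : Bd M' y) : Bd (M + M') (x - y) := fun σ => by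
  rw [map_sub]; exact (norm_sub_le _ _).trans (add_le_add (h σ) (h' σ))

lemma Bd.pow {M : ℝ} {x : K} (h : Bd M x) (n : ℕ) : Bd (M ^ n) (x ^ n) := fun σ => by
  rw [map_pow, norm_pow]; exact pow_le_pow_left₀ (norm_nonneg _) (h σ) n

lemma Hgt.mono {m m' : ℕ} {p : K × K} (h : Hgt m p) (hm' : m ≤ m') : Hgt m' p := by
  obtain ⟨c, hc, h⟩ := h
  exact ⟨c, hc, fun i => ⟨(h i).1, (h i).2.mono (by exact_mod_cast hm')⟩⟩

/-- a collinear subset has at most three points -/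
lemma No4K.card_le_three {S T : Finset (K × K)} (h : No4K S) (hT : T ⊆ S)
    (hc : ∀ x ∈ T, ∀ y ∈ T, ∀ z ∈ T, dt x y z = 0) : T.card ≤ 3 := by
  classical
  by_contra hlt
  push Not at hlt
  obtain ⟨U, hU, hUc⟩ := Finset.exists_subset_card_eq (show 4 ≤ T.card from hlt)
  obtain ⟨x, V, hxV, rfl, hV⟩ := Finset.card_eq_succ.1 (show U.card = 3 + 1 from hUc)
  obtain ⟨y, z, w, hyz, hyw, hzw, rfl⟩ := Finset.card_eq_three.1 hV
  simp only [Finset.mem_insert, Finset.mem_singleton, not_or] at hxV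
  have hx : x ∈ T := hU (by simp)
  have hy : y ∈ T := hU (by simp)
  have hz : z ∈ T := hU (by simp)
  have hw : w ∈ T := hU (by simp)
  exact h x (hT hx) y (hT hy) z (hT hz) w (hT hw) hxV.1 hxV.2.1 hxV.2.2 hyz hyw hzw
    (hc x hx y hy z hz) (hc x hx y hy w hw)

/-- sum of the absolute values of the coefficients -/
noncomputable def l1 {τ : Type*} (P : MvPolynomial τ ℤ) : ℕ :=
  ∑ m ∈ P.support, (P.coeff m).natAbs

section Cone

variable {F : Type*} [Field F] [Fintype F] [DecidableEq F]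

/-- affine part of the cone over an elliptic quadric -/
def Cone (d γ : F) : Finset (Fin 4 → F) :=
  univ.filter fun u => u 0 ≠ 0 ∧ u 0 * u 3 = u 1 ^ 2 - d * u 2 ^ 2 + γ * u 0 ^ 2

/-- solutions of a linear equation on the cone -/
def Sol4 (d γ a b c : F) (k : Fin 4 → F) : Finset ((Fin 4 → F) × (Fin 4 → F) × (Fin 4 → F)) :=
  (Cone d γ ×ˢ Cone d γ ×ˢ Cone d γ).filter fun t =>
    ∀ i, a * t.1 i + b * t.2.1 i + c * t.2.2 i = k i

end Cone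

variable [NumberField K]

/-- content of a vector -/
noncomputable def ct (x : Fin 3 → K) : FractionalIdeal (𝓞 K)⁰ K :=
  ∑ i, FractionalIdeal.spanSingleton (𝓞 K)⁰ (x i)

/-- projective congruence -/
def PC (J : Ideal (𝓞 K)) (x y : Fin 3 → K) : Prop :=
  ∀ i j, mn x y i j ∈ (J : FractionalIdeal (𝓞 K)⁰ K) * ct x * ct y

/-- close at the finite places -/
def FC (J : Ideal (𝓞 K)) (H : ℕ) (x y : Fin 3 → K) : Prop :=
  ∃ B : Ideal (𝓞 K), H ≤ Ideal.absNorm B ∧ PC (J * B) x y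

/-- close pairs -/
def Cls (J : Ideal (𝓞 K)) (ρ : (K →+* ℂ) → ℝ) (H : ℕ) (x y : Fin 3 → K) : Prop :=
  FC J H x y ∨ ∃ σ, AC σ (ρ σ / H) x y

/-- the state of the iteration -/
def St (R : Finset (K × K)) (J : Ideal (𝓞 K)) (ρ : (K →+* ℂ) → ℝ) : Prop :=
  ∀ p ∈ R, ∀ q ∈ R, PC J (hm p) (hm q) ∧ ∀ σ, AC σ (ρ σ) (hm p) (hm q)

/-- comparable vectors -/
def Cmp (G : ℕ) (x y : Fin 3 → K) : Prop :=
  ∃ d : ℕ, 1 ≤ d ∧ d ≤ G ∧ (∀ i, (d : K) * x i ∈ ct y) ∧ (∀ i, (d : K) * y i ∈ ct x) ∧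
    ∀ σ, nrm σ x ≤ G * nrm σ y ∧ nrm σ y ≤ G * nrm σ x

/-- comparable after scaling -/
def Near (G : ℕ) (x y : Fin 3 → K) : Prop := ∃ μ : K, μ ≠ 0 ∧ Cmp G x (μ • y)

/-- no coefficient of the relation is alone outside the prime -/
def NonDeg (𝔓 : Ideal (𝓞 K)) (a b : K) : Prop :=
  ∀ g ga gb : 𝓞 K, (ga : K) = g * a → (gb : K) = g * b →
    (g ∈ 𝔓 → ga ∈ 𝔓 → gb ∈ 𝔓) ∧ (g ∈ 𝔓 → gb ∈ 𝔓 → ga ∈ 𝔓) ∧ (ga ∈ 𝔓 → gb ∈ 𝔓 → g ∈ 𝔓)

lemma finite_box (r : ℝ) : {a : 𝓞 K | Bd r (a : K)}.Finite := by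
  refine Set.Finite.of_finite_image (f := fun a : 𝓞 K => (a : K)) ?_
    (RingOfIntegers.coe_injective.injOn)
  refine (Embeddings.finite_of_norm_le K ℂ r).subset ?_
  rintro _ ⟨a, ha, rfl⟩
  exact ⟨a.isIntegral_coe, ha⟩

variable (K) in
/-- integers with bounded conjugates -/
noncomputable def Bx (r : ℝ) : Finset (𝓞 K) := (finite_box (K := K) r).toFinset

lemma mem_Bx {r : ℝ} {a : 𝓞 K} : a ∈ Bx K r ↔ Bd r (a : K) := by simp [Bx]

open Classical in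
/-- the target set -/
noncomputable def BB (𝔓 : Ideal (𝓞 K)) (d γ : 𝓞 K) (r : ℝ) : Finset (Fin 4 → 𝓞 K) :=
  (Fintype.piFinset fun _ => Bx K r).filter fun u =>
    u 0 ∉ 𝔓 ∧ u 0 * u 3 - (u 1 ^ 2 - d * u 2 ^ 2 + γ * u 0 ^ 2) ∈ 𝔓

open Classical in
/-- lifted solutions -/
noncomputable def NN (𝔓 : Ideal (𝓞 K)) (d γ : 𝓞 K) (r : ℝ) (Q e : ℕ) (a b : K) :
    Finset ((Fin 4 → 𝓞 K) × (Fin 4 → 𝓞 K) × (Fin 4 → 𝓞 K)) :=
  (BB 𝔓 d γ r ×ˢ BB 𝔓 d γ r ×ˢ BB 𝔓 d γ r).filter fun t =>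
    ∀ i, ∃ y : 𝓞 K, (e : K) * ((t.2.2 i : K) - a * t.1 i - b * t.2.1 i) = Q * y

end Pool.Agent.Lib.MP_a147dc_co.B
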