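import Pool.Agent.Lib.MP_a147dc_co.B.MainK

/-! Partitions into general position subsets over a number field. -/

namespace Pool.Agent.Lib.MP_a147dc_co.B

open Finset NumberField Module Polynomial Filter
open scoped nonZeroDivisors

section

variable {K : Type*} [Field K]

/-- colourings whose classes are in general position -/
def partK_Col (R : Finset (K × K)) (k : ℕ) : Prop :=
  ∃ col : K × K → ℕ, (∀ x ∈ R, col x < k) ∧ ∀ x ∈ R, ∀ y ∈ R, ∀ z ∈ R, x ≠ y → x ≠ z → y ≠ z →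
    col x = col y → col x = col z → dt x y z ≠ 0

lemma partK_succ [DecidableEq K] {R G : Finset (K × K)} {k : ℕ} (hG : GPK G)
    (h : partK_Col (R \ G) k) : partK_Col R (k + 1) := by
  obtain ⟨col, h1, h2⟩ := h
  have h3 : ∀ x ∈ R, x ∉ G → col x < k := fun x hx hx' => h1 x (mem_sdiff.2 ⟨hx, hx'⟩)
  refine ⟨fun x => if x ∈ G then k else col x, fun x hx => ?_, ?_⟩
  · dsimp only
    split_ifs with h
    · omega
    · have := h3 x hx h; omega
  · intro x hx y hy z hz hxy hxz hyz c1 c2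
    dsimp only at c1 c2
    by_cases a1 : x ∈ G
    · rw [if_pos a1] at c1 c2
      have a2 : y ∈ G := by
        by_contra a2; rw [if_neg a2] at c1; have := h3 y hy a2; omega
      have a3 : z ∈ G := by
        by_contra a3; rw [if_neg a3] at c2; have := h3 z hz a3; omega
      exact hG x a1 y a2 z a3 hxy hxz hyz
    · rw [if_neg a1] at c1 c2
      have := h3 x hx a1
      have a2 : y ∉ G := by
        intro a2; rw [if_pos a2] at c1; omega
      have a3 : z ∉ G := by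
        intro a3; rw [if_pos a3] at c2; omega
      rw [if_neg a2] at c1
      rw [if_neg a3] at c2
      exact h2 x (mem_sdiff.2 ⟨hx, a1⟩) y (mem_sdiff.2 ⟨hy, a2⟩) z (mem_sdiff.2 ⟨hz, a3⟩)
        hxy hxz hyz c1 c2

lemma partK_card (R : Finset (K × K)) : partK_Col R R.card := by
  classical
  induction R using Finset.induction_on with
  | empty => exact ⟨fun _ => 0, by simp, by simp⟩
  | insert a R ha ih =>
    rw [card_insert_of_notMem ha]
    refine partK_succ (G := {a}) ?_ ?_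
    · intro x hx y hy z _ hxy
      rw [mem_singleton] at hx hy
      exact absurd (hx.trans hy.symm) hxy
    · rwa [insert_sdiff_of_mem _ (mem_singleton_self a), sdiff_singleton_eq_erase,
        erase_eq_of_notMem ha]

lemma partK_greedy {S : Finset (K × K)} {w : ℕ} {ε : ℝ} (hε : 0 < ε) (hε' : ε ≤ 1 / 4)
    (h : ∀ R ⊆ S, w < R.card → ∃ G ⊆ R, GPK G ∧ (R.card : ℝ) ^ (1 / 2 + ε) ≤ G.card) :
    ∀ R ⊆ S, ∃ k : ℕ, (k : ℝ) ≤ 4 * (R.card : ℝ) ^ (1 / 2 - ε) + w ∧ partK_Col R k := by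
  classical
  intro R
  induction R using Finset.strongInduction with
  | H R ih =>
  intro hR
  by_cases hw : w < R.card
  swap
  · refine ⟨R.card, ?_, partK_card R⟩
    have : (R.card : ℝ) ≤ w := by exact_mod_cast not_lt.1 hw
    have : (0 : ℝ) ≤ (R.card : ℝ) ^ (1 / 2 - ε) := by positivity
    linarith
  obtain ⟨G, hG, hGP, hGc⟩ := h R hR hw
  have hN : (0 : ℝ) < R.card := by exact_mod_cast (by omega : 0 < R.card)
  have hG0 : G.Nonempty := by
    rw [← card_pos]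
    have : (0 : ℝ) < G.card := lt_of_lt_of_le (by positivity) hGc
    exact_mod_cast this
  obtain ⟨k, hk, hcol⟩ := ih (R \ G) (sdiff_ssubset hG hG0) (sdiff_subset.trans hR)
  refine ⟨k + 1, ?_, partK_succ hGP hcol⟩
  have hle : (G.card : ℝ) ≤ R.card := by exact_mod_cast card_le_card hG
  rw [card_sdiff_of_subset hG, Nat.cast_sub (card_le_card hG)] at hk
  have e1 : (R.card : ℝ) - G.card = R.card * (1 + -(G.card / R.card)) := by field_simp; ring
  have hs : -1 ≤ -((G.card : ℝ) / R.card) := by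
    rw [neg_le_neg_iff, div_le_one hN]; exact hle
  have e2 := rpow_one_add_le_one_add_mul_self hs (p := 1 / 2 - ε) (by linarith) (by linarith)
  rw [e1, Real.mul_rpow hN.le (by linarith)] at hk
  have e3 : (R.card : ℝ) ^ (1 / 2 - ε) * (R.card : ℝ) ^ (1 / 2 + ε) = R.card := by
    rw [← Real.rpow_add hN]; norm_num
  have hp : (0 : ℝ) < (R.card : ℝ) ^ (1 / 2 - ε) := by positivity
  have e4 : 1 ≤ (R.card : ℝ) ^ (1 / 2 - ε) * (G.card / R.card) := by
    rw [← mul_div_assoc, le_div_iff₀ hN, one_mul]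
    calc _ = _ := e3.symm
      _ ≤ _ := by gcongr
  have e5 := mul_le_mul_of_nonneg_left e2 hp.le
  push_cast
  nlinarith

end

theorem part_K (D C : ℕ) : ∃ ε : ℝ, 0 < ε ∧ ∃ n₀ : ℕ,
    ∀ (K : Type) [Field K] [NumberField K], finrank ℚ K ≤ D → ∀ (S : Finset (K × K)) (m : ℕ),
      n₀ ≤ S.card → m ≤ S.card ^ C → (∀ p ∈ S, Hgt m p) → No4K S →
      ∃ k : ℕ, (k : ℝ) ≤ (S.card : ℝ) ^ (1 / 2 - ε) ∧ ∃ col : K × K → ℕ, (∀ x ∈ S, col x < k) ∧
        ∀ x ∈ S, ∀ y ∈ S, ∀ z ∈ S, x ≠ y → x ≠ z → y ≠ z → col x = col y → col x = col z →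
          dt x y z ≠ 0 := by
  obtain ⟨ε, hε, hε', n₀, H⟩ := main_K D (3 * C)
  have t1 := (tendsto_rpow_atTop (show 0 < ε / 2 by positivity)).comp tendsto_natCast_atTop_atTop
  have t2 := (tendsto_rpow_atTop (show (0 : ℝ) < 1 / 24 by norm_num)).comp
    tendsto_natCast_atTop_atTop
  have t3 := (tendsto_rpow_atTop (show (0 : ℝ) < 3 / 8 by norm_num)).comp
    tendsto_natCast_atTop_atTop
  obtain ⟨n₁, hn₁⟩ := eventually_atTop.1 ((t1.eventually_ge_atTop 12).and
    ((t2.eventually_ge_atTop 3).and (t3.eventually_ge_atTop (3 * n₀))))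
  refine ⟨ε / 2, by positivity, n₀ + n₁ + 1, fun K _ _ hK S m hn hm hB hS => ?_⟩
  have hN1 : (1 : ℝ) ≤ S.card := by exact_mod_cast (by omega : 1 ≤ S.card)
  have hN : (0 : ℝ) < S.card := by linarith
  obtain ⟨v, v1, v2⟩ : ∃ v, v ^ 3 ≤ S.card ∧ S.card < (v + 1) ^ 3 := ⟨Nat.nthRoot 3 S.card,
    Nat.pow_nthRoot_le (Or.inl (by norm_num)), Nat.lt_pow_nthRoot_add_one (by norm_num) _⟩
  obtain ⟨k, hk, hcol⟩ := partK_greedy (S := S) (w := n₀ + v) hε hε' (fun R hR hw =>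
    H K hK R m (by omega) (by
      calc m ≤ ((v + 1) ^ 3) ^ C := hm.trans (Nat.pow_le_pow_left v2.le _)
        _ ≤ (R.card ^ 3) ^ C := by gcongr; omega
        _ = _ := (pow_mul _ _ _).symm) (fun p hp => hB p (hR hp)) (hS.mono hR)) S Subset.rfl
  refine ⟨k, hk.trans ?_, hcol⟩
  obtain ⟨a1, a2, a3⟩ := hn₁ S.card (by omega)
  simp only [Function.comp] at a1 a2 a3
  have b1 : (S.card : ℝ) ^ (1 / 2 - ε / 2) =
      (S.card : ℝ) ^ (1 / 2 - ε) * (S.card : ℝ) ^ (ε / 2) := by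
    rw [← Real.rpow_add hN]; congr 1; ring
  have b2 : (S.card : ℝ) ^ (3 / 8 : ℝ) ≤ (S.card : ℝ) ^ (1 / 2 - ε / 2) :=
    Real.rpow_le_rpow_of_exponent_le hN1 (by linarith)
  have b3 : (S.card : ℝ) ^ (3 / 8 : ℝ) =
      (S.card : ℝ) ^ (1 / 3 : ℝ) * (S.card : ℝ) ^ (1 / 24 : ℝ) := by
    rw [← Real.rpow_add hN]; norm_num
  have b4 : (v : ℝ) ≤ (S.card : ℝ) ^ (1 / 3 : ℝ) := by
    apply le_of_pow_le_pow_left₀ (n := 3) (by norm_num) (by positivity)
    rw [← Real.rpow_natCast ((S.card : ℝ) ^ (1 / 3 : ℝ)), ← Real.rpow_mul hN.le]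
    norm_num
    exact_mod_cast v1
  have p1 : (0 : ℝ) < (S.card : ℝ) ^ (1 / 2 - ε) := by positivity
  have p2 : (0 : ℝ) < (S.card : ℝ) ^ (1 / 3 : ℝ) := by positivity
  push_cast
  nlinarith

end Pool.Agent.Lib.MP_a147dc_co.B
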