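import Pool.Agent.Lib.MP_a147dc_co.B.SpecC
import Pool.Agent.Lib.MP_a147dc_co.B.PartK

/-! Real point sets with boundedly many parameters. -/

namespace Pool.Agent.Lib.MP_a147dc_co.B

open Finset NumberField Module Polynomial Filter
open scoped nonZeroDivisors

lemma final_det_of_collinear {p q r : EuclideanSpace ℝ (Fin 2)}
    (h : Collinear ℝ ({p, q, r} : Set (EuclideanSpace ℝ (Fin 2)))) :
    (q 0 - p 0) * (r 1 - p 1) - (q 1 - p 1) * (r 0 - p 0) = 0 := by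
  obtain ⟨v, hv⟩ := (collinear_iff_of_mem (p₀ := p) (by simp)).1 h
  obtain ⟨a, ha⟩ := hv q (by simp)
  obtain ⟨b, hb⟩ := hv r (by simp)
  rw [ha, hb]
  simp only [vadd_eq_add, PiLp.add_apply, PiLp.smul_apply, smul_eq_mul]
  ring

lemma final_smul_of_det {p q r : EuclideanSpace ℝ (Fin 2)} (hpq : p ≠ q)
    (h : (q 0 - p 0) * (r 1 - p 1) - (q 1 - p 1) * (r 0 - p 0) = 0) :
    ∃ a : ℝ, r = a • (q - p) +ᵥ p := by
  by_cases h0 : q 0 - p 0 = 0
  · have h1 : q 1 - p 1 ≠ 0 := by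
      intro h1; apply hpq; ext i; fin_cases i
      · simpa using (sub_eq_zero.1 h0).symm
      · simpa using (sub_eq_zero.1 h1).symm
    refine ⟨(r 1 - p 1) / (q 1 - p 1), ?_⟩
    ext i; fin_cases i
    · simp only [vadd_eq_add, PiLp.add_apply, PiLp.smul_apply, PiLp.sub_apply, smul_eq_mul,
        Fin.zero_eta]
      field_simp; linear_combination -h
    · simp only [vadd_eq_add, PiLp.add_apply, PiLp.smul_apply, PiLp.sub_apply, smul_eq_mul,
        Fin.mk_one]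
      field_simp; ring
  · refine ⟨(r 0 - p 0) / (q 0 - p 0), ?_⟩
    ext i; fin_cases i
    · simp only [vadd_eq_add, PiLp.add_apply, PiLp.smul_apply, PiLp.sub_apply, smul_eq_mul,
        Fin.zero_eta]
      field_simp; ring
    · simp only [vadd_eq_add, PiLp.add_apply, PiLp.smul_apply, PiLp.sub_apply, smul_eq_mul,
        Fin.mk_one]
      field_simp; linear_combination h

theorem final (r C : ℕ) : ∃ ε : ℝ, 0 < ε ∧ ∃ n₀ : ℕ, ∀ (g : Fin r → ℝ)
    (S : Finset (EuclideanSpace ℝ (Fin 2))), n₀ ≤ S.card →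
      (∀ p ∈ S, ∃ a b c : Fin r → ℤ,
        (∀ i, |a i| ≤ (S.card : ℤ) ^ C ∧ |b i| ≤ (S.card : ℤ) ^ C ∧ |c i| ≤ (S.card : ℤ) ^ C) ∧
        ∑ i, (c i : ℝ) * g i ≠ 0 ∧ p 0 = (∑ i, (a i : ℝ) * g i) / ∑ i, (c i : ℝ) * g i ∧
        p 1 = (∑ i, (b i : ℝ) * g i) / ∑ i, (c i : ℝ) * g i) →
      (∀ T ⊆ S, T.card = 4 → ¬ Collinear ℝ (T : Set (EuclideanSpace ℝ (Fin 2)))) →
      ∃ k : ℕ, (k : ℝ) ≤ (S.card : ℝ) ^ (1 / 2 - ε) ∧
        ∃ col : EuclideanSpace ℝ (Fin 2) → ℕ, (∀ p ∈ S, col p < k) ∧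
          ∀ T ⊆ S, T.card = 3 → (∀ p ∈ T, ∀ q ∈ T, col p = col q) →
            ¬ Collinear ℝ (T : Set (EuclideanSpace ℝ (Fin 2))) := by
  obtain ⟨D, c, hsp⟩ := spec_points r C
  obtain ⟨ε, hε, n₀, H⟩ := part_K D c
  refine ⟨ε, hε, n₀ + 2, fun g S hn hpar h4 => ?_⟩
  obtain ⟨K, _, _, hK, π, hinj, hH, hdet⟩ := hsp g S (by omega) hpar
  classical
  have hcard : (S.image π).card = S.card := card_image_of_injOn hinj
  obtain ⟨k, hk, col, c1, c2⟩ := H K hK (S.image π) (S.card ^ c) (by omega) (by rw [hcard])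
    (by
      intro x hx
      obtain ⟨p, hp, rfl⟩ := mem_image.1 hx
      exact hH p hp)
    (by
      intro x hx y hy z hz w hw xy xz xw yz yw zw d1 d2
      obtain ⟨p, hp, rfl⟩ := mem_image.1 hx
      obtain ⟨q, hq, rfl⟩ := mem_image.1 hy
      obtain ⟨u, hu, rfl⟩ := mem_image.1 hz
      obtain ⟨s, hs, rfl⟩ := mem_image.1 hw
      have pq : p ≠ q := fun h => xy (congrArg π h)
      have pu : p ≠ u := fun h => xz (congrArg π h)
      have ps : p ≠ s := fun h => xw (congrArg π h)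
      have qu : q ≠ u := fun h => yz (congrArg π h)
      have qs : q ≠ s := fun h => yw (congrArg π h)
      have us : u ≠ s := fun h => zw (congrArg π h)
      apply h4 {p, q, u, s}
      · intro v hv
        simp only [mem_insert, mem_singleton] at hv
        rcases hv with rfl | rfl | rfl | rfl <;> assumption
      · rw [card_insert_of_notMem (by simp [pq, pu, ps]), card_insert_of_notMem (by simp [qu, qs]),
          card_pair us]
      · rw [collinear_iff_of_mem (p₀ := p) (by simp)]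
        refine ⟨q - p, fun v hv => ?_⟩
        simp only [coe_insert, coe_singleton, Set.mem_insert_iff, Set.mem_singleton_iff] at hv
        rcases hv with rfl | rfl | rfl | rfl
        · exact ⟨0, by simp⟩
        · exact ⟨1, by simp⟩
        · exact final_smul_of_det pq ((hdet _ hp _ hq _ hu).1 d1)
        · exact final_smul_of_det pq ((hdet _ hp _ hq _ hs).1 d2))
  rw [hcard] at hk
  refine ⟨k, hk, col ∘ π, fun p hp => c1 _ (mem_image_of_mem _ hp), ?_⟩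
  intro T hT h3 hcol hc
  obtain ⟨p, q, u, pq, pu, qu, rfl⟩ := card_eq_three.1 h3
  have hp := hT (by simp : p ∈ ({p, q, u} : Finset _))
  have hq := hT (by simp : q ∈ ({p, q, u} : Finset _))
  have hu := hT (by simp : u ∈ ({p, q, u} : Finset _))
  rw [coe_insert, coe_insert, coe_singleton] at hc
  exact c2 _ (mem_image_of_mem _ hp) _ (mem_image_of_mem _ hq) _
    (mem_image_of_mem _ hu) (fun h => pq (hinj hp hq h)) (fun h => pu (hinj hp hu h))
    (fun h => qu (hinj hq hu h)) (hcol p (by simp) q (by simp)) (hcol p (by simp) u (by simp))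
    ((hdet p hp q hq u hu).2 (final_det_of_collinear hc))

/-- pigeonhole: a colouring gives a large colour class -/
theorem gp_of_col {ε : ℝ} {S : Finset (EuclideanSpace ℝ (Fin 2))} (hS : 1 ≤ S.card) {k : ℕ}
    (hk : (k : ℝ) ≤ (S.card : ℝ) ^ (1 / 2 - ε)) {col : EuclideanSpace ℝ (Fin 2) → ℕ}
    (h1 : ∀ p ∈ S, col p < k) (h2 : ∀ T ⊆ S, T.card = 3 → (∀ p ∈ T, ∀ q ∈ T, col p = col q) →
      ¬ Collinear ℝ (T : Set (EuclideanSpace ℝ (Fin 2)))) :
    ∃ G ⊆ S, (S.card : ℝ) ^ (1 / 2 + ε) ≤ G.card ∧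
      ∀ T ⊆ G, T.card = 3 → ¬ Collinear ℝ (T : Set (EuclideanSpace ℝ (Fin 2))) := by
  have hN : (0 : ℝ) < S.card := by exact_mod_cast hS
  obtain ⟨p₀, hp₀⟩ := card_pos.1 hS
  have hk0 : 0 < k := lt_of_le_of_lt (Nat.zero_le _) (h1 p₀ hp₀)
  have e3 : (S.card : ℝ) ^ (1 / 2 - ε) * (S.card : ℝ) ^ (1 / 2 + ε) = S.card := by
    rw [← Real.rpow_add hN]; norm_num
  obtain ⟨j, -, hj⟩ := exists_le_card_fiber_of_nsmul_le_card_of_maps_to
    (s := S) (t := range k) (f := col) (b := (S.card : ℝ) ^ (1 / 2 + ε))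
    (fun p hp => mem_range.2 (h1 p hp)) (nonempty_range_iff.2 hk0.ne') (by
      rw [card_range, nsmul_eq_mul]
      calc _ ≤ (S.card : ℝ) ^ (1 / 2 - ε) * (S.card : ℝ) ^ (1 / 2 + ε) := by gcongr
        _ = _ := e3)
  refine ⟨S.filter fun p => col p = j, filter_subset _ _, hj, fun T hT h3 => ?_⟩
  exact h2 T (hT.trans (filter_subset _ _)) h3 fun p hp q hq =>
    (mem_filter.1 (hT hp)).2.trans (mem_filter.1 (hT hq)).2.symm

/-- the former hand-in `PolyGrid` -/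
theorem polyGrid (C : ℕ) : ∃ ε : ℝ, 0 < ε ∧ ∃ n₀ : ℕ,
    ∀ S : Finset (EuclideanSpace ℝ (Fin 2)), n₀ ≤ S.card →
      (∀ p ∈ S, ∀ i, ∃ k : ℤ, p i = k ∧ |k| ≤ (S.card : ℤ) ^ C) →
      (∀ T ⊆ S, T.card = 4 → ¬ Collinear ℝ (T : Set (EuclideanSpace ℝ (Fin 2)))) →
      (∃ G ⊆ S, (S.card : ℝ) ^ (1 / 2 + ε) ≤ G.card ∧
        ∀ T ⊆ G, T.card = 3 → ¬ Collinear ℝ (T : Set (EuclideanSpace ℝ (Fin 2)))) ∧
      (∃ k : ℕ, (k : ℝ) ≤ (S.card : ℝ) ^ (1 / 2 - ε) ∧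
        ∃ col : EuclideanSpace ℝ (Fin 2) → ℕ, (∀ p ∈ S, col p < k) ∧
          ∀ T ⊆ S, T.card = 3 → (∀ p ∈ T, ∀ q ∈ T, col p = col q) →
            ¬ Collinear ℝ (T : Set (EuclideanSpace ℝ (Fin 2)))) := by
  obtain ⟨ε, hε, n₀, H⟩ := final 1 C
  refine ⟨ε, hε, n₀ + 1, fun S hn hint h4 => ?_⟩
  obtain ⟨k, hk, col, c1, c2⟩ := H (fun _ => 1) S (by omega) (fun p hp => by
    obtain ⟨a, ha, ha'⟩ := hint p hp 0
    obtain ⟨b, hb, hb'⟩ := hint p hp 1
    refine ⟨fun _ => a, fun _ => b, fun _ => 1, fun _ => ⟨ha', hb', ?_⟩, by simp, by simp [ha],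
      by simp [hb]⟩
    rw [abs_one]
    exact one_le_pow₀ (by exact_mod_cast (by omega : 1 ≤ S.card))) h4
  exact ⟨gp_of_col (by omega) hk c1 c2, k, hk, col, c1, c2⟩

end Pool.Agent.Lib.MP_a147dc_co.B
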