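import Pool.Agent.Lib.MP_a147dc_co.B.Defs
import Pool.Agent.Lib.MP_a147dc_co.Walsh2

/-! Abstract form of the count of close pairs. -/

namespace Pool.Agent.Lib.MP_a147dc_co.B

open Finset NumberField Module Polynomial Filter
open scoped nonZeroDivisors

section
variable {V ι : Type*}

open Classical in
/-- number of other points of `U` related to `x` -/
noncomputable def paNb (E : ι → V → V → Prop) (U : Finset V) (q : ι) (x : V) : ℕ :=
  (U.filter fun z => z ≠ x ∧ E q x z).card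

open Classical in
/-- the class of `x` for all relations of `s` -/
noncomputable def paCls (E : ι → V → V → Prop) (R : Finset V) (s : Finset ι) (x : V) : Finset V :=
  R.filter fun w => ∀ q ∈ s, E q x w

/-- large classes -/
def paLarge (E : ι → V → V → Prop) (R : Finset V) (i : ℕ) (s : Finset ι) (x : V) : Prop :=
  R.card < 16 ^ (i + 1) * (paCls E R s x).card

open Classical in
/-- weighted count of the points with a large class -/
noncomputable def paGd (E : ι → V → V → Prop) (R : Finset V) (i : ℕ) (s : Finset ι) : ℝ :=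
  ∑ x ∈ R.filter (paLarge E R i s), rt (paCls E R s x).card ^ 3

open Classical in
/-- weighted count after one more relation -/
noncomputable def paPhi (E : ι → V → V → Prop) (R : Finset V) (i : ℕ) (s : Finset ι) (q : ι) :
    ℝ :=
  ∑ x ∈ R.filter (paLarge E R i s), rt (paCls E R s x).card ^ 3 *
    om i ((paNb E (paCls E R s x) q x : ℝ) / (paCls E R s x).card)

variable {E : ι → V → V → Prop}

lemma pairsA_nb_le (U : Finset V) (q : ι) (x : V) : paNb E U q x ≤ U.card := by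
  classical
  unfold paNb
  exact card_filter_le _ _

open Classical in
lemma pairsA_mem {R : Finset V} {s : Finset ι} {x w : V} :
    w ∈ paCls E R s x ↔ w ∈ R ∧ ∀ q ∈ s, E q x w := by
  unfold paCls
  exact mem_filter

lemma pairsA_sub (R : Finset V) (s : Finset ι) (x : V) : paCls E R s x ⊆ R :=
  fun _ h => (pairsA_mem.1 h).1

lemma pairsA_mono (R : Finset V) {s s' : Finset ι} (h : s ⊆ s') (x : V) :
    paCls E R s' x ⊆ paCls E R s x := fun _ hz =>
  pairsA_mem.2 ⟨(pairsA_mem.1 hz).1, fun q hq => (pairsA_mem.1 hz).2 q (h hq)⟩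

lemma pairsA_large_mono {R : Finset V} {i : ℕ} {s s' : Finset ι} {x : V}
    (h : paLarge E R i s' x) (hd : s ⊆ s') : paLarge E R i s x :=
  lt_of_lt_of_le h (Nat.mul_le_mul_left _ (card_le_card (pairsA_mono R hd x)))

lemma pairsA_phi_nonneg (R : Finset V) (i : ℕ) (s : Finset ι) (q : ι) : 0 ≤ paPhi E R i s q :=
  sum_nonneg fun _ _ => mul_nonneg (pow_nonneg (rt_nonneg (by positivity)) _)
    (om_nonneg _ (by positivity))

lemma pairsA_gd_nonneg (R : Finset V) (i : ℕ) (s : Finset ι) : 0 ≤ paGd E R i s :=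
  sum_nonneg fun _ _ => pow_nonneg (rt_nonneg (by positivity)) _

open Classical in
lemma pairsA_hit {U T : Finset V} (hT : T ⊆ U) (r : ℕ) :
    (((Fintype.piFinset fun _ : Fin r => U).filter fun A => ∃ i, A i ∈ T).card : ℝ) =
      (U.card : ℝ) ^ r - ((U.card : ℝ) - T.card) ^ r := by
  have h1 := card_filter_add_card_filter_not (s := Fintype.piFinset fun _ : Fin r => U)
    (fun A => ∃ i, A i ∈ T)
  have h2 : ((Fintype.piFinset fun _ : Fin r => U).filter fun A => ¬ ∃ i, A i ∈ T) =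
      Fintype.piFinset fun _ : Fin r => U \ T := by
    ext A
    simp only [mem_filter, Fintype.mem_piFinset, Finset.mem_sdiff, not_exists]
    exact ⟨fun h i => ⟨h.1 i, h.2 i⟩, fun h => ⟨fun i => (h i).1, fun i => (h i).2⟩⟩
  rw [h2, Fintype.card_piFinset, Fintype.card_piFinset] at h1
  simp only [prod_const, card_univ, Fintype.card_fin, card_sdiff_of_subset hT] at h1
  have h3 := congrArg (Nat.cast : ℕ → ℝ) h1
  push_cast [Nat.cast_sub (card_le_card hT)] at h3
  linarith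

open Classical in
lemma pairsA_avg {U : Finset V} {Q : Finset ι} {r W : ℕ} (hU0 : 0 < U.card)
    (hfix : ∀ A : Fin r → V, (∀ k, A k ∈ U) →
      ∑ x ∈ U, (Q.filter fun q => ∃ k, A k ≠ x ∧ E q x (A k)).card ≤ W) :
    ∑ x ∈ U, ∑ q ∈ Q, min (1 : ℝ) (r * ((paNb E U q x : ℝ) / U.card)) ≤ 2 * W := by
  set Ω := Fintype.piFinset fun _ : Fin r => U with hΩ
  have hN : (0 : ℝ) < U.card := by exact_mod_cast hU0
  have hΩc : (Ω.card : ℝ) = (U.card : ℝ) ^ r := by
    rw [hΩ, Fintype.card_piFinset]; simp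
  have h1 : ∑ A ∈ Ω, ∑ x ∈ U, ((Q.filter fun q => ∃ i, A i ≠ x ∧ E q x (A i)).card : ℝ) ≤
      (U.card : ℝ) ^ r * W := by
    rw [← hΩc, ← nsmul_eq_mul]
    apply sum_le_card_nsmul
    intro A hA
    exact_mod_cast hfix A (Fintype.mem_piFinset.1 hA)
  have h2 : ∀ x ∈ U, ∀ q ∈ Q,
      (U.card : ℝ) ^ r * (min (1 : ℝ) (r * ((paNb E U q x : ℝ) / U.card)) / 2) ≤
      ∑ A ∈ Ω, if ∃ i, A i ≠ x ∧ E q x (A i) then (1 : ℝ) else 0 := by
    intro x _ q _
    rw [sum_boole]
    have e : (Ω.filter fun A => ∃ i, A i ≠ x ∧ E q x (A i)) =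
        Ω.filter fun A => ∃ i, A i ∈ U.filter fun z => z ≠ x ∧ E q x z := by
      apply filter_congr
      intro A hA
      simp only [mem_filter, Fintype.mem_piFinset.1 hA, true_and]
    rw [e, hΩ, pairsA_hit (filter_subset _ _)]
    have hle : (paNb E U q x : ℝ) ≤ U.card := Nat.cast_le.2 (pairsA_nb_le _ _ _)
    have := one_sub_pow_ge (μ := (paNb E U q x : ℝ) / U.card) (by positivity)
      ((div_le_one hN).2 hle) r
    have e2 : ((U.card : ℝ) - paNb E U q x) ^ r =
        (U.card : ℝ) ^ r * (1 - (paNb E U q x : ℝ) / U.card) ^ r := by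
      rw [← mul_pow]; congr 1; field_simp
    change _ ≤ (U.card : ℝ) ^ r - ((U.card : ℝ) - paNb E U q x) ^ r
    rw [e2, ← mul_one_sub]
    exact mul_le_mul_of_nonneg_left this (by positivity)
  have h3 : (U.card : ℝ) ^ r * ((∑ x ∈ U, ∑ q ∈ Q,
      min (1 : ℝ) (r * ((paNb E U q x : ℝ) / U.card))) / 2) ≤ (U.card : ℝ) ^ r * W := by
    refine le_trans ?_ h1
    rw [sum_comm (s := Ω), sum_div, mul_sum]
    refine sum_le_sum fun x hx => ?_
    rw [sum_div, mul_sum]
    refine (sum_le_sum fun q hq => h2 x hx q hq).trans (le_of_eq ?_)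
    rw [sum_comm]
    refine sum_congr rfl fun A _ => ?_
    rw [sum_boole]
  have := le_of_mul_le_mul_left h3 (by positivity)
  linarith

open Classical in
lemma pairsA_om {U : Finset V} {Q : Finset ι} {i L Z : ℕ} (hU0 : 0 < U.card)
    (hfix : ∀ j ≤ i, ∀ A : Fin (16 ^ (j + 1)) → V, (∀ k, A k ∈ U) →
      ∑ x ∈ U, (Q.filter fun q => ∃ k, A k ≠ x ∧ E q x (A k)).card ≤
        U.card * (64 * 4 ^ j * L) + Z * (16 ^ (j + 1) * L))
    (hZU : Z * 16 ^ (i + 1) ≤ U.card) :
    ∑ x ∈ U, ∑ q ∈ Q, om i ((paNb E U q x : ℝ) / U.card) ≤ 300 * L * U.card := by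
  have hN : (0 : ℝ) < U.card := by exact_mod_cast hU0
  have step : ∀ j ∈ range (i + 1), ∑ x ∈ U, ∑ q ∈ Q,
      min (1 : ℝ) ((16 ^ (j + 1) : ℕ) * ((paNb E U q x : ℝ) / U.card)) ≤
      136 * 4 ^ j * (L * U.card) := by
    intro j hj
    have hji : j + 1 ≤ i + 1 := by have := mem_range.1 hj; omega
    refine (pairsA_avg hU0 (hfix j (by omega))).trans ?_
    have hZ' : (Z : ℝ) * 16 ^ (j + 1) ≤ U.card := by
      have : Z * 16 ^ (j + 1) ≤ U.card :=
        (Nat.mul_le_mul_left _ (Nat.pow_le_pow_right (by norm_num) hji)).trans hZU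
      exact_mod_cast this
    have h4 : (1 : ℝ) ≤ 4 ^ j := one_le_pow₀ (by norm_num)
    have hL0 : (0 : ℝ) ≤ L := by positivity
    have h5 : (Z : ℝ) * (16 ^ (j + 1) * L) ≤ 4 ^ j * (L * U.card) := by
      calc _ = (Z : ℝ) * 16 ^ (j + 1) * L := by ring
        _ ≤ U.card * L := by gcongr
        _ = 1 * (L * U.card) := by ring
        _ ≤ _ := by gcongr
    have h6 : (0 : ℝ) ≤ 4 ^ j * (L * U.card) := by positivity
    have h7 : (U.card : ℝ) * (64 * 4 ^ j * L) = 64 * (4 ^ j * (L * U.card)) := by ring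
    push_cast
    rw [h7, mul_assoc (136 : ℝ)]
    linarith
  calc _ ≤ ∑ x ∈ U, ∑ q ∈ Q, ∑ j ∈ range (i + 1), (1 / 8 : ℝ) ^ j *
        min 1 ((16 ^ (j + 1) : ℕ) * ((paNb E U q x : ℝ) / U.card)) := by
        refine sum_le_sum fun x _ => sum_le_sum fun q _ => om_le_sum i (by positivity) ?_
        rw [div_le_one hN]; exact Nat.cast_le.2 (pairsA_nb_le _ _ _)
    _ = ∑ j ∈ range (i + 1), (1 / 8 : ℝ) ^ j * ∑ x ∈ U, ∑ q ∈ Q,
        min 1 ((16 ^ (j + 1) : ℕ) * ((paNb E U q x : ℝ) / U.card)) := by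
        simp only [mul_sum]
        rw [sum_comm (s := range (i + 1))]
        exact sum_congr rfl fun x _ => sum_comm
    _ ≤ ∑ j ∈ range (i + 1), 136 * (L * U.card) * (1 / 2 : ℝ) ^ j := by
        refine sum_le_sum fun j hj => ?_
        have : (1 / 8 : ℝ) ^ j * 4 ^ j = (1 / 2) ^ j := by rw [← mul_pow]; norm_num
        calc _ ≤ (1 / 8 : ℝ) ^ j * (136 * 4 ^ j * (L * U.card)) := by gcongr; exact step j hj
          _ = _ := by rw [← this]; ring
    _ ≤ 136 * (L * U.card) * 2 := by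
        rw [← mul_sum]; gcongr; exact sum_geometric_two_le _
    _ ≤ _ := by have : (0 : ℝ) ≤ L * U.card := by positivity
                linarith

lemma pairsA_cls_eq (hsymm : ∀ q x y, E q x y → E q y x)
    (htrans : ∀ q x y z, E q x y → E q y z → E q x z) {R : Finset V} {s : Finset ι} {x z : V}
    (h : ∀ q ∈ s, E q x z) : paCls E R s z = paCls E R s x := by
  ext w
  rw [pairsA_mem, pairsA_mem]
  exact ⟨fun h' => ⟨h'.1, fun q hq => htrans _ _ _ _ (h q hq) (h'.2 q hq)⟩,
    fun h' => ⟨h'.1, fun q hq => htrans _ _ _ _ (hsymm _ _ _ (h q hq)) (h'.2 q hq)⟩⟩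

lemma pairsA_self (hrefl : ∀ q x, E q x x) {R : Finset V} (s : Finset ι) {x : V} (h : x ∈ R) :
    x ∈ paCls E R s x := pairsA_mem.2 ⟨h, fun _ _ => hrefl _ _⟩

open Classical in
lemma pairsA_add_one (hrefl : ∀ q x, E q x x) {R : Finset V} {s : Finset ι} {q : ι} (hq : q ∈ s)
    {x : V} (h : x ∈ R) :
    paNb E (paCls E R (s.erase q) x) q x + 1 = (paCls E R s x).card := by
  rw [← card_erase_add_one (pairsA_self hrefl s h)]
  unfold paNb
  congr 2
  ext z
  simp only [mem_filter, mem_erase, pairsA_mem]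
  constructor
  · rintro ⟨⟨h1, h2⟩, h3, h4⟩
    refine ⟨h3, h1, fun q' hq' => ?_⟩
    by_cases e : q' = q
    · rw [e]; exact h4
    · exact h2 q' ⟨e, hq'⟩
  · rintro ⟨h1, h2, h3⟩
    exact ⟨⟨h2, fun q' hq' => h3 q' hq'.2⟩, h1, h3 q hq⟩

open Classical in
lemma pairsA_sum_phi (hrefl : ∀ q x, E q x x) (hsymm : ∀ q x y, E q x y → E q y x)
    (htrans : ∀ q x y z, E q x y → E q y z → E q x z) {R : Finset V} {QQ : Finset ι} {i L Z : ℕ}
    (hfix : ∀ U ⊆ R, ∀ j ≤ i, ∀ A : Fin (16 ^ (j + 1)) → V, (∀ k, A k ∈ U) →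
      ∑ x ∈ U, (QQ.filter fun q => ∃ k, A k ≠ x ∧ E q x (A k)).card ≤
        U.card * (64 * 4 ^ j * L) + Z * (16 ^ (j + 1) * L))
    (hZN : Z * 16 ^ (i + 1) * 16 ^ (i + 1) ≤ R.card) (s : Finset ι) :
    ∑ q ∈ QQ, paPhi E R i s q ≤ 300 * L * paGd E R i s := by
  unfold paPhi paGd
  rw [sum_comm, mul_sum]
  set A := R.filter (paLarge E R i s) with hA
  have hmap : ∀ x ∈ A, paCls E R s x ∈ A.image (paCls E R s) := fun x hx => mem_image_of_mem _ hx
  rw [← sum_fiberwise_of_maps_to hmap, ← sum_fiberwise_of_maps_to hmap]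
  refine sum_le_sum fun U hU => ?_
  obtain ⟨x₀, hx₀, rfl⟩ := mem_image.1 hU
  rw [hA, mem_filter] at hx₀
  have hfil : (A.filter fun x => paCls E R s x = paCls E R s x₀) = paCls E R s x₀ := by
    ext x
    simp only [hA, mem_filter]
    constructor
    · rintro ⟨⟨h1, -⟩, h2⟩
      rw [← h2]; exact pairsA_self hrefl s h1
    · intro h
      have h' := pairsA_mem.1 h
      have e := pairsA_cls_eq hsymm htrans (R := R) h'.2
      refine ⟨⟨h'.1, ?_⟩, e⟩
      unfold paLarge; rw [e]; exact hx₀.2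
  rw [hfil]
  have hZU : Z * 16 ^ (i + 1) ≤ (paCls E R s x₀).card := by
    have h1 := lt_of_le_of_lt hZN hx₀.2
    rw [mul_comm (16 ^ (i + 1))] at h1
    exact (Nat.lt_of_mul_lt_mul_right h1).le
  have := pairsA_om (card_pos.2 ⟨x₀, pairsA_self hrefl s hx₀.1⟩)
    (hfix _ (pairsA_sub R s x₀)) hZU
  calc _ = rt (paCls E R s x₀).card ^ 3 * ∑ x ∈ paCls E R s x₀, ∑ q ∈ QQ,
        om i ((paNb E (paCls E R s x₀) q x : ℝ) / (paCls E R s x₀).card) := by
        rw [mul_sum]
        refine sum_congr rfl fun x hx => ?_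
        have e := pairsA_cls_eq hsymm htrans (R := R) (pairsA_mem.1 hx).2
        rw [mul_sum, e]
    _ ≤ rt (paCls E R s x₀).card ^ 3 * (300 * L * (paCls E R s x₀).card) :=
        mul_le_mul_of_nonneg_left this (pow_nonneg (rt_nonneg (by positivity)) _)
    _ = _ := by
        rw [sum_congr rfl (g := fun _ => 300 * L * rt (paCls E R s x₀).card ^ 3)
          (fun x hx => by rw [pairsA_cls_eq hsymm htrans (R := R) (pairsA_mem.1 hx).2])]
        rw [sum_const, nsmul_eq_mul]; ring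

open Classical in
lemma pairsA_gd_le (hrefl : ∀ q x, E q x x) {R : Finset V} {i : ℕ} (hT : 16 ^ (i + 1) ≤ R.card)
    {s : Finset ι} {q : ι} (hq : q ∈ s) : paGd E R i s ≤ 4 * paPhi E R i (s.erase q) q := by
  unfold paGd paPhi
  rw [mul_sum]
  refine le_trans (sum_le_sum fun x hx => ?_) (sum_le_sum_of_subset_of_nonneg
    (s := R.filter (paLarge E R i s)) (fun x hx => ?_) fun _ _ _ => ?_)
  · rw [mem_filter] at hx
    have h1 := pairsA_add_one hrefl hq hx.1
    have h2 : 2 ≤ (paCls E R s x).card := by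
      have h3 := lt_of_le_of_lt hT hx.2
      by_contra h4
      have : (paCls E R s x).card = 1 := by omega
      rw [this] at h3; omega
    apply om_large (N := R.card)
    · exact_mod_cast card_pos.2 ⟨x, pairsA_self hrefl _ hx.1⟩
    · exact Nat.cast_le.2 (card_le_card (pairsA_sub _ _ _))
    · positivity
    · positivity
    · exact_mod_cast (by omega :
        (paCls E R s x).card ≤ 2 * paNb E (paCls E R (s.erase q) x) q x)
    · exact_mod_cast hx.2.le
  · rw [mem_filter] at hx ⊢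
    exact ⟨hx.1, pairsA_large_mono hx.2 (erase_subset _ _)⟩
  · exact mul_nonneg (by norm_num) (mul_nonneg (pow_nonneg (rt_nonneg (by positivity)) _)
      (om_nonneg _ (by positivity)))

open Classical in
lemma pairsA_succ (hrefl : ∀ q x, E q x x) {R : Finset V} {QQ : Finset ι} {i : ℕ}
    (hT : 16 ^ (i + 1) ≤ R.card) {Ad : Finset (Finset ι)}
    (hAd : ∀ s ∈ Ad, s ⊆ QQ ∧ ∀ s' ⊆ s, s' ∈ Ad) (k : ℕ) :
    (k + 1 : ℝ) * ∑ s ∈ Ad.filter (fun s => s.card = k + 1), paGd E R i s ≤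
      4 * ∑ s ∈ Ad.filter (fun s => s.card = k), ∑ q ∈ QQ, paPhi E R i s q := by
  let e : (Σ _ : Finset ι, ι) → Finset ι × ι := fun y => (y.1.erase y.2, y.2)
  set T := (Ad.filter fun s => s.card = k + 1).sigma fun s => s with hs
  have hinj : Set.InjOn e T := by
    rintro ⟨d, p⟩ h1 ⟨d', p'⟩ h2 h
    rw [mem_coe, hs, mem_sigma] at h1 h2
    simp only [e, Prod.mk.injEq] at h
    obtain ⟨b1, rfl⟩ := h
    have c1 : p ∈ d := h1.2
    have c2 : p ∈ d' := h2.2
    have : d = d' := by rw [← insert_erase c1, ← insert_erase c2, b1]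
    subst this; rfl
  calc _ = ∑ y ∈ T, paGd E R i y.1 := by
        rw [hs, sum_sigma, mul_sum]
        refine sum_congr rfl fun d hd => ?_
        dsimp only
        rw [sum_const, nsmul_eq_mul, (mem_filter.1 hd).2]; push_cast; rfl
    _ ≤ ∑ y ∈ T, 4 * paPhi E R i (e y).1 (e y).2 := by
        refine sum_le_sum fun y hy => ?_
        rw [hs, mem_sigma] at hy
        exact pairsA_gd_le hrefl hT hy.2
    _ = ∑ y ∈ T.image e, 4 * paPhi E R i y.1 y.2 :=
        (sum_image (f := fun y : Finset ι × ι => 4 * paPhi E R i y.1 y.2) hinj).symm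
    _ ≤ ∑ y ∈ (Ad.filter fun s => s.card = k) ×ˢ QQ, 4 * paPhi E R i y.1 y.2 := by
        refine sum_le_sum_of_subset_of_nonneg ?_ fun y _ _ =>
          mul_nonneg (by norm_num) (pairsA_phi_nonneg _ _ _ _)
        intro y hy
        obtain ⟨⟨d, p⟩, h1, rfl⟩ := mem_image.1 hy
        rw [hs, mem_sigma] at h1
        obtain ⟨a1, a2⟩ := mem_filter.1 h1.1
        have a3 := card_erase_add_one h1.2
        exact mem_product.2 ⟨mem_filter.2 ⟨(hAd d a1).2 _ (erase_subset _ _),
          by simp only [e] at a2 a3 ⊢; omega⟩, (hAd d a1).1 h1.2⟩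
    _ = _ := by rw [sum_product, mul_sum]; simp only [mul_sum]

open Classical in
/-- a minimal subfamily whose class is small -/
lemma pairsA_min {R : Finset V} {i : ℕ} {x : V} (hx : x ∈ R) {s : Finset ι}
    (hs : ¬ paLarge E R i s x) :
    ∃ s' ⊆ s, ∃ q ∈ s', paLarge E R i (s'.erase q) x ∧ ¬ paLarge E R i s' x := by
  obtain ⟨s', h1, h2⟩ := exists_min_image (s.powerset.filter fun t => ¬ paLarge E R i t x) card
    ⟨s, mem_filter.2 ⟨mem_powerset_self _, hs⟩⟩
  rw [mem_filter, mem_powerset] at h1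
  have hne : s'.Nonempty := by
    rw [nonempty_iff_ne_empty]
    rintro rfl
    apply h1.2
    unfold paLarge
    have : paCls E R ∅ x = R := by ext w; simp [pairsA_mem]
    rw [this]
    have : 1 < 16 ^ (i + 1) := Nat.one_lt_pow (by omega) (by norm_num)
    have := card_pos.2 ⟨x, hx⟩
    nlinarith
  obtain ⟨q, hq⟩ := hne
  refine ⟨s', h1.1, q, hq, ?_, h1.2⟩
  by_contra hc
  have h3 := h2 _ (mem_filter.2 ⟨mem_powerset.2 ((erase_subset q s').trans h1.1), hc⟩)
  have h4 := card_erase_add_one hq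
  omega

end

open Classical in
theorem pairs_abs {V ι : Type*} (R : Finset V) (QQ : Finset ι) (E : ι → V → V → Prop)
    (hrefl : ∀ q x, E q x x) (hsymm : ∀ q x y, E q x y → E q y x)
    (htrans : ∀ q x y z, E q x y → E q y z → E q x z)
    (Ad : Finset (Finset ι)) (hAd : ∀ s ∈ Ad, s ⊆ QQ ∧ ∀ s' ⊆ s, s' ∈ Ad) (Cl : V → V → Prop)
    {i L Z : ℕ} {Γ : ℝ} (hL1 : 1 ≤ L) (hΓ0 : 1 ≤ Γ)
    (hfix : ∀ U ⊆ R, ∀ j ≤ i, ∀ A : Fin (16 ^ (j + 1)) → V, (∀ k, A k ∈ U) →
      ∑ x ∈ U, (QQ.filter fun q => ∃ k, A k ≠ x ∧ E q x (A k)).card ≤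
        U.card * (64 * 4 ^ j * L) + Z * (16 ^ (j + 1) * L))
    (hZN : Z * 16 ^ (i + 1) * 16 ^ (i + 1) ≤ R.card) (hT : 16 ^ (i + 1) ≤ R.card)
    (hCl : ∀ x ∈ R, ∀ z ∈ R, x ≠ z → Cl x z → ∃ s ∈ Ad, (∀ q ∈ s, E q x z) ∧
      16 ^ (i + 1) * (R.filter fun w => ∀ q ∈ s, E q x w).card ≤ R.card)
    (hk : ∀ s ∈ Ad, s.card ≤ L ∧ (1200 * L : ℝ) ^ s.card / s.card.factorial ≤ Γ) :
    (((R ×ˢ R).filter fun y => y.1 ≠ y.2 ∧ Cl y.1 y.2).card : ℝ) ≤
      (R.card : ℝ) ^ 2 / 2 ^ (i + 1) * (300 * L * (L + 1) * Γ) := by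
  have _ := hL1
  have hN0 : (0 : ℝ) ≤ R.card := by positivity
  have hr0 := rt_nonneg hN0
  have hΓ1 : 0 ≤ Γ := zero_le_one.trans hΓ0
  have hBk : ∀ k : ℕ, ∑ s ∈ Ad.filter (fun s => s.card = k), paGd E R i s ≤
      R.card * rt R.card ^ 3 * ((1200 * L : ℝ) ^ k / k.factorial) := by
    intro k
    induction k with
    | zero =>
      have : Ad.filter (fun s => s.card = 0) ⊆ {∅} := by
        intro d hd
        rw [mem_singleton]; exact card_eq_zero.1 (mem_filter.1 hd).2
      refine (sum_le_sum_of_subset_of_nonneg this fun _ _ _ => pairsA_gd_nonneg _ _ _).trans ?_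
      simp only [sum_singleton, pow_zero, Nat.factorial_zero, Nat.cast_one, div_one, mul_one]
      unfold paGd
      refine (sum_le_card_nsmul _ _ (rt R.card ^ 3) fun x _ => ?_).trans ?_
      · exact pow_le_pow_left₀ (rt_nonneg (by positivity))
          (rt_mono (by positivity) (Nat.cast_le.2 (card_le_card (pairsA_sub _ _ _)))) _
      · rw [nsmul_eq_mul]
        gcongr
        exact filter_subset _ _
    | succ k ih =>
      have h1 := pairsA_succ hrefl hT hAd k
      have h2 : ∑ s ∈ Ad.filter (fun s => s.card = k), ∑ q ∈ QQ, paPhi E R i s q ≤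
          300 * L * ∑ s ∈ Ad.filter (fun s => s.card = k), paGd E R i s := by
        rw [mul_sum]
        exact sum_le_sum fun d _ => pairsA_sum_phi hrefl hsymm htrans hfix hZN _
      have h3 := mul_le_mul_of_nonneg_left ih (by positivity : (0 : ℝ) ≤ 300 * L)
      have hk : (0 : ℝ) < k + 1 := by positivity
      refine le_of_mul_le_mul_left (h1.trans ?_) hk
      have e : (k + 1 : ℝ) * (R.card * rt R.card ^ 3 *
          ((1200 * L : ℝ) ^ (k + 1) / (k + 1).factorial)) =
          4 * (300 * L * (R.card * rt R.card ^ 3 * ((1200 * L : ℝ) ^ k / k.factorial))) := by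
        rw [Nat.factorial_succ]; push_cast; field_simp; ring
      rw [e]; linarith
  have hG : ∑ s ∈ Ad, paGd E R i s ≤ (L + 1) * (R.card * rt R.card ^ 3 * Γ) := by
    have hmap : ∀ s ∈ Ad, s.card ∈ range (L + 1) := fun s hs =>
      mem_range.2 (Nat.lt_succ_of_le (hk s hs).1)
    rw [← sum_fiberwise_of_maps_to hmap]
    refine (sum_le_card_nsmul _ _ (R.card * rt R.card ^ 3 * Γ) fun k _ => ?_).trans (by simp)
    rcases (Ad.filter fun s => s.card = k).eq_empty_or_nonempty with h | ⟨d, hd⟩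
    · rw [h, sum_empty]; positivity
    · refine (hBk k).trans (mul_le_mul_of_nonneg_left ?_ (by positivity))
      rw [mem_filter] at hd
      rw [← hd.2]
      exact (hk d hd.1).2
  have hx : ∀ x ∈ R, ((R.filter fun z => x ≠ z ∧ Cl x z).card : ℝ) ≤
      ∑ y ∈ Ad ×ˢ QQ, if paLarge E R i y.1 x then rt R.card / 2 ^ (i + 1) *
        (rt (paCls E R y.1 x).card ^ 3 *
          om i ((paNb E (paCls E R y.1 x) y.2 x : ℝ) / (paCls E R y.1 x).card)) else 0 := by
    intro x hx
    have hsub : (R.filter fun z => x ≠ z ∧ Cl x z) ⊆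
        ((Ad ×ˢ QQ).filter fun y => paLarge E R i y.1 x ∧
          16 ^ (i + 1) * paNb E (paCls E R y.1 x) y.2 x ≤ R.card).biUnion
          fun y => (paCls E R y.1 x).filter fun z => z ≠ x ∧ E y.2 x z := by
      intro z hz
      rw [mem_filter] at hz
      obtain ⟨hz, hxz, hg⟩ := hz
      obtain ⟨s, hs, h1, h2⟩ := hCl x hx z hz hxz hg
      obtain ⟨s', a1, q, hq, a2, a3⟩ := pairsA_min (E := E) (i := i) (s := s) hx (not_lt.2 h2)
      have a4 := (hAd s hs).2 s' a1
      have h3 := not_lt.1 a3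
      have h4 := pairsA_add_one hrefl hq hx
      rw [mem_biUnion]
      refine ⟨(s'.erase q, q), mem_filter.2 ⟨mem_product.2
        ⟨(hAd s' a4).2 _ (erase_subset _ _), (hAd s' a4).1 hq⟩, a2, ?_⟩, mem_filter.2
        ⟨pairsA_mem.2 ⟨hz, fun q' hq' => h1 q' (a1 (mem_of_mem_erase hq'))⟩, hxz.symm,
          h1 q (a1 hq)⟩⟩
      exact le_trans (Nat.mul_le_mul_left _ (by dsimp only; omega)) h3
    have h1 := (card_le_card hsub).trans card_biUnion_le
    have h2 : ((R.filter fun z => x ≠ z ∧ Cl x z).card : ℝ) ≤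
        ∑ y ∈ (Ad ×ˢ QQ).filter fun y => paLarge E R i y.1 x ∧
          16 ^ (i + 1) * paNb E (paCls E R y.1 x) y.2 x ≤ R.card,
          (paNb E (paCls E R y.1 x) y.2 x : ℝ) := by
      exact_mod_cast h1
    refine h2.trans ?_
    rw [sum_filter]
    refine sum_le_sum fun y _ => ?_
    by_cases c1 : paLarge E R i y.1 x
    · rw [if_pos c1]
      have hpos : (0 : ℝ) < (paCls E R y.1 x).card := by
        exact_mod_cast card_pos.2 ⟨x, pairsA_self hrefl _ hx⟩
      split_ifs with c2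
      · apply om_small hpos (Nat.cast_le.2 (card_le_card (pairsA_sub _ _ _))) (by positivity)
        exact_mod_cast c2.2
      · exact mul_nonneg (by positivity) (mul_nonneg (pow_nonneg (rt_nonneg hpos.le) _)
          (om_nonneg _ (by positivity)))
    · rw [if_neg c1, if_neg (fun h => c1 h.1)]
  calc _ = ∑ x ∈ R, ((R.filter fun z => x ≠ z ∧ Cl x z).card : ℝ) := by
        rw [card_filter, sum_product]
        push_cast
        exact sum_congr rfl fun x _ => by rw [card_filter]; push_cast; rfl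
    _ ≤ _ := sum_le_sum hx
    _ = rt R.card / 2 ^ (i + 1) * ∑ s ∈ Ad, ∑ q ∈ QQ, paPhi E R i s q := by
        rw [sum_comm, sum_product, mul_sum]
        refine sum_congr rfl fun d _ => ?_
        rw [mul_sum]
        refine sum_congr rfl fun q _ => ?_
        unfold paPhi
        rw [mul_sum, sum_filter]
    _ ≤ rt R.card / 2 ^ (i + 1) * (300 * L * ((L + 1) * (R.card * rt R.card ^ 3 * Γ))) := by
        gcongr
        refine le_trans (sum_le_sum fun d _ => pairsA_sum_phi hrefl hsymm htrans hfix hZN d) ?_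
        rw [← mul_sum]
        gcongr
    _ = rt R.card ^ 4 * R.card / 2 ^ (i + 1) * (300 * L * (L + 1) * Γ) := by ring
    _ = _ := by rw [rt_pow hN0, sq]

end Pool.Agent.Lib.MP_a147dc_co.B
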