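import Pool.Agent.Lib.MP_a147dc_co.B.Cell
import Pool.Agent.Lib.MP_a147dc_co.B.Proj

/-! The sieve estimate through auxiliary polynomials over a number field. -/

namespace Pool.Agent.Lib.MP_a147dc_co.B

open Finset NumberField Module Polynomial Filter
open scoped nonZeroDivisors

/-- homogeneous form with prescribed integer coefficients -/
def walshF {R : Type*} [CommRing R] (a : ℕ) (τ : Fin (a + 1) × Fin (a + 1) → ℤ)
    (X : Fin 3 → R) : R :=
  ∑ p : Fin (a + 1) × Fin (a + 1),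
    X 1 ^ (p.1 : ℕ) * X 2 ^ (p.2 : ℕ) * X 0 ^ (2 * a - p.1 - p.2) * (τ p : R)

lemma walshF_map {R R' : Type*} [CommRing R] [CommRing R'] (φ : R →+* R') (a : ℕ)
    (τ : Fin (a + 1) × Fin (a + 1) → ℤ) (X : Fin 3 → R) :
    φ (walshF a τ X) = walshF a τ fun i => φ (X i) := by
  simp [walshF]

lemma walshF_smul {R : Type*} [CommRing R] (a : ℕ) (τ : Fin (a + 1) × Fin (a + 1) → ℤ) (c : R)
    (X : Fin 3 → R) : walshF a τ (fun i => c * X i) = c ^ (2 * a) * walshF a τ X := by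
  unfold walshF
  rw [mul_sum]
  refine sum_congr rfl fun p _ => ?_
  have h1 := p.1.2
  have h2 := p.2.2
  have e : c ^ (2 * a) = c ^ (p.1 : ℕ) * c ^ (p.2 : ℕ) * c ^ (2 * a - p.1 - p.2) := by
    rw [← pow_add, ← pow_add]
    exact congrArg (c ^ ·) (by omega)
  rw [e]
  simp only [mul_pow]
  ring

lemma walshF_sub {R : Type*} [CommRing R] (a : ℕ) (τ τ' : Fin (a + 1) × Fin (a + 1) → ℤ)
    (X : Fin 3 → R) : walshF a (τ - τ') X = walshF a τ X - walshF a τ' X := by
  unfold walshF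
  rw [← sum_sub_distrib]
  refine sum_congr rfl fun p _ => ?_
  simp only [Pi.sub_apply, Int.cast_sub]
  ring

lemma walshF_hm {K : Type*} [Field K] (a : ℕ) (τ : Fin (a + 1) × Fin (a + 1) → ℤ) (p : K × K) :
    walshF a τ (hm p) = (polyOf fun q => (τ q : K)).evalEval p.1 p.2 := by
  rw [evalEval_polyOf]
  simp [walshF, hm]

lemma walshF_Bd {K : Type*} [Field K] {a m T : ℕ} (τ : Fin (a + 1) × Fin (a + 1) → ℤ)
    (hτ : ∀ p, |τ p| ≤ T) {X : Fin 3 → K} (hX : ∀ i, Bd m (X i)) :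
    Bd (((a + 1) ^ 2 * T * m ^ (2 * a) : ℕ) : ℝ) (walshF a τ X) := by
  intro σ
  unfold walshF
  rw [map_sum]
  refine (norm_sum_le _ _).trans ?_
  refine (sum_le_card_nsmul _ _ ((m : ℝ) ^ (2 * a) * T) fun p _ => ?_).trans (le_of_eq ?_)
  · have h1 := p.1.2
    have h2 := p.2.2
    have hT : Bd T ((τ p : ℤ) : K) := fun σ => by
      rw [map_intCast, Complex.norm_intCast]
      exact_mod_cast hτ p
    have := ((((hX 1).pow p.1).mul ((hX 2).pow p.2)).mul
      ((hX 0).pow (2 * a - p.1 - p.2))).mul hT σ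
    refine this.trans (le_of_eq ?_)
    rw [← pow_add, ← pow_add]
    exact congrArg (fun n => (m : ℝ) ^ n * T) (by omega)
  · simp only [card_univ, Fintype.card_prod, Fintype.card_fin, nsmul_eq_mul]
    push_cast
    ring

variable {K : Type*} [Field K] [NumberField K]

open Classical in
lemma card_atoms_le {QQ : Finset (Ideal (𝓞 K) × ℕ)} (hQ : ∀ q ∈ QQ, q.1.IsPrime ∧ 1 ≤ q.2)
    {I : Ideal (𝓞 K)} (hI : I ≠ ⊥) {L : ℕ} (hL : Ideal.absNorm I ≤ 2 ^ L) :
    (QQ.filter fun q => q.1 ^ q.2 ∣ I).card ≤ L := by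
  set s := UniqueFactorizationMonoid.normalizedFactors I with hs
  have hsub : (QQ.filter fun q => q.1 ^ q.2 ∣ I) ⊆
      s.toFinset.biUnion fun p => ({p} : Finset (Ideal (𝓞 K))) ×ˢ Icc 1 (s.count p) := by
    intro q hq
    rw [mem_filter] at hq
    obtain ⟨hp, ha⟩ := hQ q hq.1
    have h0 : q.1 ^ q.2 ≠ 0 := ne_zero_of_dvd_ne_zero hI hq.2
    have hb : q.1 ≠ ⊥ := fun h => h0 (by rw [h, ← Ideal.zero_eq_bot, zero_pow (by omega)])
    have h1 := (UniqueFactorizationMonoid.dvd_iff_normalizedFactors_le_normalizedFactors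
      h0 hI).1 hq.2
    rw [UniqueFactorizationMonoid.normalizedFactors_pow,
      UniqueFactorizationMonoid.normalizedFactors_irreducible
        (Ideal.prime_of_isPrime hb hp).irreducible, normalize_eq,
      Multiset.nsmul_singleton, ← Multiset.le_count_iff_replicate_le] at h1
    rw [mem_biUnion]
    refine ⟨q.1, ?_, ?_⟩
    · rw [Multiset.mem_toFinset, ← Multiset.one_le_count_iff_mem]
      exact ha.trans h1
    · rw [mem_product, mem_singleton, mem_Icc]
      exact ⟨rfl, ha, h1⟩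
  have h1 : (QQ.filter fun q => q.1 ^ q.2 ∣ I).card ≤ s.card := by
    refine (card_le_card hsub).trans (card_biUnion_le.trans (le_of_eq ?_))
    rw [← Multiset.toFinset_sum_count_eq]
    refine sum_congr rfl fun p _ => ?_
    simp
  have h2 : 2 ^ s.card ≤ Ideal.absNorm I := by
    conv_rhs => rw [← Ideal.prod_normalizedFactors_eq_self hI, map_multiset_prod]
    rw [← Multiset.card_map Ideal.absNorm s]
    refine Multiset.pow_card_le_prod fun x hx => ?_
    obtain ⟨p, hp, rfl⟩ := Multiset.mem_map.1 hx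
    have hpp := UniqueFactorizationMonoid.prime_of_normalized_factor p hp
    have e0 : Ideal.absNorm p ≠ 0 := fun h => hpp.ne_zero (Ideal.absNorm_eq_zero_iff.1 h)
    have e1 : Ideal.absNorm p ≠ 1 := fun h =>
      hpp.not_isUnit (Ideal.isUnit_iff.2 (Ideal.absNorm_eq_one_iff.1 h))
    omega
  have := (Nat.pow_le_pow_iff_right (by norm_num : 1 < 2)).1 (h2.trans hL)
  omega

open Classical in
lemma walshK_card {QQ : Finset (Ideal (𝓞 K) × ℕ)} (hQ : ∀ q ∈ QQ, q.1.IsPrime ∧ 1 ≤ q.2)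
    {D M L : ℕ} (hD : finrank ℚ K ≤ D) (hM : 1 ≤ M) (hL : M ^ D ≤ 2 ^ L) {x : 𝓞 K} (hx : x ≠ 0)
    (hb : Bd M (x : K)) {W : Finset (Ideal (𝓞 K) × ℕ)} (hW : ∀ q ∈ W, q ∈ QQ ∧ x ∈ q.1 ^ q.2) :
    W.card ≤ L := by
  have h1 : Ideal.absNorm (Ideal.span {x}) ≤ 2 ^ L := by
    refine le_trans ?_ ((Nat.pow_le_pow_right hM hD).trans hL)
    have h := absNorm_span_eq x
    have h2 : ∏ σ : K →+* ℂ, ‖σ (x : K)‖ ≤ (M : ℝ) ^ finrank ℚ K := by
      refine (prod_le_prod (fun _ _ => norm_nonneg _) fun σ _ => hb σ).trans (le_of_eq ?_)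
      rw [prod_const, card_univ, Embeddings.card K ℂ]
    rw [← h] at h2
    exact_mod_cast h2
  refine le_trans (card_le_card fun q hq => ?_)
    (card_atoms_le hQ (by rwa [Ne, Ideal.span_singleton_eq_bot]) h1)
  rw [mem_filter, Ideal.dvd_span_singleton]
  exact hW q hq

lemma walshK_mem {a e : ℕ} (τ : Fin (a + 1) × Fin (a + 1) → ℤ) {J P : Ideal (𝓞 K)}
    (hP : P.IsPrime) {x z : K × K} (h : PC (J * P ^ e) (hm x) (hm z))
    (hz : walshF a τ (hm z) = 0) {c : K} (hc : c ≠ 0) {X : Fin 3 → 𝓞 K}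
    (hX : ∀ i, (X i : K) = c * hm x i) : walshF a τ X ∈ P ^ e := by
  obtain ⟨w, y, hy, l, hl⟩ := exists_prim (hm z) (hm_ne z) P hP.ne_top
  have hw : w ≠ 0 := by
    rintro rfl
    have h0 : y l = 0 := by
      apply RingOfIntegers.coe_injective
      simpa using hy l
    exact hl (h0 ▸ P.zero_mem)
  have h1 : PC (P ^ e) (fun i => (X i : K)) fun i => y i := by
    have := (PC_smul hc hw).2 (h.mono Ideal.mul_le_right)
    have e1 : (fun i => (X i : K)) = c • hm x := funext fun i => by simpa using hX i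
    have e2 : (fun i => (y i : K)) = w • hm z := funext fun i => by simpa using hy i
    rw [e1, e2]
    exact this
  have hy0 : walshF a τ y = 0 := by
    apply RingOfIntegers.coe_injective
    rw [walshF_map, map_zero]
    have e2 : (fun i => algebraMap (𝓞 K) K (y i)) = fun i => w * hm z i := funext hy
    rw [e2, walshF_smul, hz, mul_zero]
  have h2 : y l ^ (2 * a) * walshF a τ X ∈ P ^ e := by
    rw [← walshF_smul, ← Ideal.Quotient.eq_zero_iff_mem, walshF_map]
    have e3 : (fun i => Ideal.Quotient.mk (P ^ e) (y l * X i)) =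
        fun i => Ideal.Quotient.mk (P ^ e) (X l * y i) := by
      funext i
      rw [Ideal.Quotient.eq, mul_comm (y l)]
      exact h1.mem i l
    rw [e3, ← walshF_map, walshF_smul, hy0, mul_zero, map_zero]
  rcases Ideal.IsPrime.mul_mem_pow P h2 with h3 | h3
  · exact absurd (hP.mem_of_pow_mem _ h3) hl
  · exact h3

lemma walshK_siegel {a r m D : ℕ} (hD : finrank ℚ K ≤ D) (hm1 : 1 ≤ m)
    (hr : 2 * D * r ≤ (a + 1) ^ 2) (Y : Fin r → Fin 3 → 𝓞 K) (hY : ∀ k i, Bd m (Y k i : K)) :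
    ∃ τ : Fin (a + 1) × Fin (a + 1) → ℤ, τ ≠ 0 ∧
      (∀ p, |τ p| ≤ (26 * (a + 1) ^ 2 * m ^ (2 * a) : ℕ)) ∧ ∀ k, walshF a τ (Y k) = 0 := by
  classical
  set T := 26 * (a + 1) ^ 2 * m ^ (2 * a) with hT
  have hT1 : 1 ≤ T := Nat.succ_le_of_lt (by positivity)
  set ρ : ℕ := (a + 1) ^ 2 * T * m ^ (2 * a) with hρ
  have hρ1 : 1 ≤ ρ := Nat.succ_le_of_lt (by positivity)
  have hB : (Bx K ρ).card ≤ T ^ (2 * D) := by
    have h := card_Bx_le (K := K) (r := ρ) (by exact_mod_cast hρ1)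
    have h' : (Bx K ρ).card ≤ (26 * ρ) ^ finrank ℚ K := by exact_mod_cast h
    have e : 26 * ρ = T ^ 2 := by rw [hρ, sq T]; nth_rewrite 2 [hT]; ring
    rw [e, ← pow_mul] at h'
    exact h'.trans (Nat.pow_le_pow_right hT1 (by omega))
  have hc : (Fintype.piFinset fun _ : Fin r => Bx K ρ).card <
      (Fintype.piFinset fun _ : Fin (a + 1) × Fin (a + 1) => Icc (0 : ℤ) T).card := by
    simp only [Fintype.card_piFinset, prod_const, card_univ, Fintype.card_fin,
      Fintype.card_prod, Int.card_Icc]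
    have e : ((T : ℤ) + 1 - 0).toNat = T + 1 := by omega
    rw [e, ← sq]
    calc (Bx K ρ).card ^ r ≤ (T ^ (2 * D)) ^ r := Nat.pow_le_pow_left hB _
      _ ≤ T ^ ((a + 1) ^ 2) := by rw [← pow_mul]; exact Nat.pow_le_pow_right hT1 hr
      _ < (T + 1) ^ ((a + 1) ^ 2) := Nat.pow_lt_pow_left (by omega) (by positivity)
  obtain ⟨t, ht, t', ht', hne, he⟩ := exists_ne_map_eq_of_card_lt_of_maps_to hc
    (f := fun t k => walshF a t (Y k)) (fun t ht => by
      rw [mem_coe, Fintype.mem_piFinset] at ht ⊢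
      intro k
      rw [mem_Bx]
      have := walshF_Bd (T := T) t (fun p => by
        have := mem_Icc.1 (ht p)
        rw [abs_le]; constructor <;> omega) (hY k)
      rw [← walshF_map (algebraMap (𝓞 K) K)] at this
      exact this)
  rw [Fintype.mem_piFinset] at ht ht'
  refine ⟨t - t', sub_ne_zero.2 hne, fun p => ?_, fun k => ?_⟩
  · have h1 := mem_Icc.1 (ht p)
    have h2 := mem_Icc.1 (ht' p)
    rw [Pi.sub_apply, abs_le]; constructor <;> omega
  · rw [walshF_sub, sub_eq_zero]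
    exact congrFun he k

lemma walshK_num {a m l D L j : ℕ} (hD : 1 ≤ D) (hl : 1 ≤ l) (hml : m ≤ 2 ^ l)
    (hL : 3 * D ^ 2 * l ≤ L) (ha : a = 8 * D * 4 ^ j) :
    ((a + 1) ^ 2 * (26 * (a + 1) ^ 2 * m ^ (2 * a)) * m ^ (2 * a)) ^ D ≤
      2 ^ (64 * 4 ^ j * L) := by
  have h4 : 1 ≤ 4 ^ j := Nat.one_le_pow _ _ (by norm_num)
  have ha8 : 8 ≤ a := by rw [ha]; nlinarith
  have h1 : a + 1 ≤ 2 ^ a := Nat.lt_two_pow_self
  have h2 : 26 ≤ 2 ^ a := le_trans (by norm_num) (Nat.pow_le_pow_right (by norm_num) ha8)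
  have h3 : m ^ (2 * a) ≤ (2 ^ l) ^ (2 * a) := Nat.pow_le_pow_left hml _
  have h5 : (a + 1) ^ 2 * (26 * (a + 1) ^ 2 * m ^ (2 * a)) * m ^ (2 * a) ≤
      (2 ^ a) ^ 2 * (2 ^ a * (2 ^ a) ^ 2 * (2 ^ l) ^ (2 * a)) * (2 ^ l) ^ (2 * a) := by
    gcongr
  refine (Nat.pow_le_pow_left h5 D).trans ?_
  simp only [← pow_mul, ← pow_add]
  refine Nat.pow_le_pow_right (by norm_num) ?_
  have h6 : a ≤ l * a := Nat.le_mul_of_pos_left _ hl
  calc (a * 2 + (a + a * 2 + l * (2 * a)) + l * (2 * a)) * D ≤ (9 * (l * a)) * D := by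
        apply Nat.mul_le_mul_right; nlinarith
    _ = 24 * 4 ^ j * (3 * D ^ 2 * l) := by rw [ha]; ring
    _ ≤ 64 * 4 ^ j * L := by gcongr; norm_num

open Classical in
theorem walsh_K {S U : Finset (K × K)} {m l D L Z j : ℕ} (hD : finrank ℚ K ≤ D) (hl : 1 ≤ l)
    (hm1 : 1 ≤ m) (hml : m ≤ 2 ^ l) (hL : 3 * D ^ 2 * l ≤ L) (hS : ∀ p ∈ S, Hgt m p) (hU : U ⊆ S)
    (hZ : ∀ f : K[X][X], f ≠ 0 → Deg f (8 * D * 4 ^ j) (8 * D * 4 ^ j) →
      (S.filter fun p => f.evalEval p.1 p.2 = 0).card ≤ Z)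
    {QQ : Finset (Ideal (𝓞 K) × ℕ)} (hQ : ∀ q ∈ QQ, q.1.IsPrime ∧ 1 ≤ q.2) (J : Ideal (𝓞 K))
    (A : Fin (16 ^ (j + 1)) → K × K) (hA : ∀ k, A k ∈ U) :
    ∑ x ∈ U, (QQ.filter fun q => ∃ k, A k ≠ x ∧ PC (J * q.1 ^ q.2) (hm x) (hm (A k))).card ≤
      U.card * (64 * 4 ^ j * L) + Z * (16 ^ (j + 1) * L) := by
  have hD1 : 1 ≤ D := le_trans finrank_pos hD
  have hX : ∀ p ∈ S, ∃ (c : K) (X : Fin 3 → 𝓞 K), c ≠ 0 ∧ (∀ i, (X i : K) = c * hm p i) ∧
      ∀ i, Bd m (X i : K) := fun p hp => by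
    obtain ⟨c, hc, h⟩ := hS p hp
    exact ⟨c, fun i => ⟨c * hm p i, (h i).1⟩, hc, fun _ => rfl, fun i => (h i).2⟩
  choose! c X hc hX hB using hX
  obtain ⟨a, ha⟩ : ∃ a, a = 8 * D * 4 ^ j := ⟨_, rfl⟩
  rw [← ha] at hZ
  have hr : 2 * D * 16 ^ (j + 1) ≤ (a + 1) ^ 2 := by
    have e : 16 ^ (j + 1) = 16 * (4 ^ j) ^ 2 := by
      rw [pow_succ, ← pow_mul, mul_comm j 2, pow_mul]; norm_num [mul_comm]
    rw [e, ha]
    have : D ≤ D ^ 2 := by nlinarith
    nlinarith [Nat.zero_le (D * 4 ^ j), Nat.mul_le_mul_right ((4 ^ j) ^ 2) this]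
  obtain ⟨τ, h0, h1, h2⟩ := walshK_siegel hD hm1 hr (fun k => X (A k))
    fun k => hB _ (hU (hA k))
  set f : K[X][X] := polyOf fun q => (τ q : K) with hf
  have hF : ∀ p ∈ S, ((walshF a τ (X p) : 𝓞 K) : K) = c p ^ (2 * a) * f.evalEval p.1 p.2 := by
    intro p hp
    have e : (fun i => algebraMap (𝓞 K) K (X p i)) = fun i => c p * hm p i := funext (hX p hp)
    rw [← walshF_hm, ← walshF_smul, ← e, ← walshF_map]
  have hfA : ∀ k, walshF a τ (hm (A k)) = 0 := fun k => by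
    have h := hF _ (hU (hA k))
    rw [h2 k] at h
    rw [walshF_hm]
    exact (mul_eq_zero.1 h.symm).resolve_left (pow_ne_zero _ (hc _ (hU (hA k))))
  rw [← sum_filter_add_sum_filter_not U (fun x => f.evalEval x.1 x.2 = 0), add_comm]
  apply add_le_add
  · refine (sum_le_card_nsmul _ _ (64 * 4 ^ j * L) fun x hx => ?_).trans ?_
    · rw [mem_filter] at hx
      have hxS := hU hx.1
      have hb := walshF_Bd τ h1 (hB x hxS)
      rw [← walshF_map (algebraMap (𝓞 K) K)] at hb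
      refine walshK_card hQ hD (Nat.succ_le_of_lt (by positivity))
        (walshK_num hD1 hl hml hL ha) (fun h => ?_) hb fun q hq => ?_
      · have h' := hF x hxS
        rw [h] at h'
        exact hx.2 ((mul_eq_zero.1 h'.symm).resolve_left (pow_ne_zero _ (hc x hxS)))
      · rw [mem_filter] at hq
        obtain ⟨hq, k, -, hk⟩ := hq
        exact ⟨hq, walshK_mem τ (hQ q hq).1 hk (hfA k) (hc x hxS) (hX x hxS)⟩
    · rw [smul_eq_mul]; exact Nat.mul_le_mul_right _ (card_filter_le _ _)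
  · refine (sum_le_card_nsmul _ _ (16 ^ (j + 1) * L) fun x hx => ?_).trans ?_
    · rw [mem_filter] at hx
      have hxS := hU hx.1
      have hsub : (QQ.filter fun q => ∃ k, A k ≠ x ∧ PC (J * q.1 ^ q.2) (hm x) (hm (A k))) ⊆
          (univ : Finset (Fin (16 ^ (j + 1)))).biUnion fun k =>
            QQ.filter fun q => A k ≠ x ∧ PC (J * q.1 ^ q.2) (hm x) (hm (A k)) := by
        intro q hq
        rw [mem_filter] at hq
        obtain ⟨hq, k, hk⟩ := hq
        exact mem_biUnion.2 ⟨k, mem_univ _, mem_filter.2 ⟨hq, hk⟩⟩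
      refine (card_le_card hsub).trans (card_biUnion_le.trans ?_)
      refine (sum_le_card_nsmul _ _ L fun k _ => ?_).trans (by simp)
      by_cases hk : A k = x
      · simp [hk]
      have hkS := hU (hA k)
      obtain ⟨u, v, huv⟩ := exists_mn_ne (fun h => hk h.symm : x ≠ A k)
      have hb : Bd ((2 * m ^ 2 : ℕ) : ℝ)
          ((X x u * X (A k) v - X x v * X (A k) u : 𝓞 K) : K) := by
        push_cast
        refine (((hB x hxS u).mul (hB _ hkS v)).sub ((hB x hxS v).mul (hB _ hkS u))).mono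
          (le_of_eq (by ring))
      refine walshK_card hQ hD (Nat.succ_le_of_lt (by positivity)) ?_ (fun h => huv ?_) hb
        fun q hq => ?_
      · calc (2 * m ^ 2) ^ D ≤ (2 ^ l * (2 ^ l) ^ 2) ^ D := by
              gcongr
              exact le_trans (by norm_num) (Nat.pow_le_pow_right (by norm_num) hl)
          _ = 2 ^ (3 * D * l) := by rw [← pow_succ', ← pow_mul, ← pow_mul]; ring_nf
          _ ≤ 2 ^ L := Nat.pow_le_pow_right (by norm_num) (le_trans (by gcongr; nlinarith) hL)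
      · have h' := congrArg (fun y : 𝓞 K => (y : K)) h
        simp only [map_sub, map_mul, map_zero, hX x hxS, hX _ hkS] at h'
        have h3 : c x * c (A k) * mn (hm x) (hm (A k)) u v = 0 := by
          rw [← h', mn]; ring
        exact (mul_eq_zero.1 h3).resolve_left (mul_ne_zero (hc x hxS) (hc _ hkS))
      · rw [mem_filter] at hq
        refine ⟨hq.1, PC.mem ?_ u v⟩
        have e1 : (fun i => (X x i : K)) = c x • hm x := funext fun i => by
          simpa using hX x hxS i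
        have e2 : (fun i => (X (A k) i : K)) = c (A k) • hm (A k) := funext fun i => by
          simpa using hX _ hkS i
        rw [e1, e2]
        exact (PC_smul (hc x hxS) (hc _ hkS)).2 (hq.2.2.mono Ideal.mul_le_right)
    · rw [smul_eq_mul]
      apply Nat.mul_le_mul_right
      refine le_trans (card_le_card ?_) (hZ f (polyOf_ne_zero fun h => h0 ?_) (deg_polyOf _))
      · intro x hx
        rw [mem_filter] at hx ⊢
        exact ⟨hU hx.1, hx.2⟩
      · funext p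
        have := congrFun h p
        simpa using this

end Pool.Agent.Lib.MP_a147dc_co.B
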