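import Pool.Agent.Lib.MP_a147dc_co.B.Cell
import Pool.Agent.Lib.MP_a147dc_co.B.Proj
import Pool.Agent.Lib.MP_a147dc_co.B.PairsA
import Pool.Agent.Lib.MP_a147dc_co.B.WalshK

/-! Few pairs are congruent modulo a large ideal. -/

namespace Pool.Agent.Lib.MP_a147dc_co.B

open Finset NumberField Module Polynomial Filter
open scoped nonZeroDivisors

/-- few elements on each level force a large product -/
lemma pairsK_fact {ι : Type*} [DecidableEq ι] (f : ι → ℕ) (D : ℕ) (s : Finset ι)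
    (h1 : ∀ q ∈ s, 1 ≤ f q) (h : ∀ n, (s.filter fun q => f q = n).card ≤ D) :
    s.card.factorial ≤ ∏ q ∈ s, (D * f q) := by
  induction s using Finset.induction_on_max_value f with
  | empty => simp
  | insert a s ha hm ih =>
    rw [card_insert_of_notMem ha, Nat.factorial_succ, prod_insert ha]
    refine Nat.mul_le_mul ?_ (ih (fun q hq => h1 q (mem_insert_of_mem hq)) fun n =>
      (card_le_card (filter_subset_filter _ (subset_insert _ _))).trans (h n))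
    have h2 := card_le_mul_card_image_of_maps_to (f := f) (s := insert a s) (t := Icc 1 (f a))
      (fun x hx => mem_Icc.2 ⟨h1 x hx, by
        rcases mem_insert.1 hx with rfl | hx
        exacts [le_rfl, hm x hx]⟩) D fun n _ => h n
    rwa [card_insert_of_notMem ha, Nat.card_Icc, Nat.add_sub_cancel] at h2

variable {K : Type*} [Field K] [NumberField K]

lemma pairsK_two {P : Ideal (𝓞 K)} (hP : P.IsPrime) (h0 : P ≠ ⊥) : 2 ≤ Ideal.absNorm P := by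
  have h1 : Ideal.absNorm P ≠ 0 := fun h => h0 (Ideal.absNorm_eq_zero_iff.1 h)
  have h2 : Ideal.absNorm P ≠ 1 := fun h => hP.ne_top (Ideal.absNorm_eq_one_iff.1 h)
  omega

lemma pairsK_cop {s : Finset (Ideal (𝓞 K) × ℕ)} (hs : ∀ q ∈ s, q.1.IsPrime ∧ q.1 ≠ ⊥)
    (hi : Set.InjOn Prod.fst (s : Set (Ideal (𝓞 K) × ℕ))) (g : Ideal (𝓞 K) × ℕ → ℕ)
    {B : Ideal (𝓞 K)} (hB : ∀ q ∈ s, q.1 ^ g q ∣ B) : ∏ q ∈ s, q.1 ^ g q ∣ B := by
  refine Finset.prod_dvd_of_coprime (fun a ha b hb hab => ?_) hB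
  have h1 := (hs a ha).1.isMaximal (hs a ha).2
  have h2 := (hs b hb).1.isMaximal (hs b hb).2
  exact (Ideal.isCoprime_of_isMaximal fun h => hab (hi ha hb h)).pow

lemma pairsK_card {s : Finset (Ideal (𝓞 K) × ℕ)} {D X : ℕ} (hD : finrank ℚ K ≤ D)
    (hs : ∀ q ∈ s, q.1.IsPrime ∧ q.1 ≠ ⊥ ∧ 1 ≤ q.2)
    (hi : Set.InjOn Prod.fst (s : Set (Ideal (𝓞 K) × ℕ)))
    (hX : ∏ q ∈ s, Ideal.absNorm (q.1 ^ q.2) ≤ X) :
    2 ^ s.card ≤ X ∧ s.card.factorial ≤ X ^ (D + 1) := by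
  classical
  have h2 : ∀ q ∈ s, 2 ≤ Ideal.absNorm q.1 := fun q hq => pairsK_two (hs q hq).1 (hs q hq).2.1
  have h3 : ∏ q ∈ s, Ideal.absNorm q.1 ≤ X := by
    refine le_trans (prod_le_prod' fun q hq => ?_) hX
    rw [map_pow]
    exact Nat.le_self_pow (by have := (hs q hq).2.2; omega) _
  have h4 : 2 ^ s.card ≤ X := (pow_card_le_prod s _ 2 h2).trans h3
  refine ⟨h4, ?_⟩
  have h5 := pairsK_fact (fun q : Ideal (𝓞 K) × ℕ => Ideal.absNorm q.1) D s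
    (fun q hq => le_trans one_le_two (h2 q hq)) fun n => by
      rcases (s.filter fun q => Ideal.absNorm q.1 = n).eq_empty_or_nonempty with h | ⟨q, hq⟩
      · rw [h]; exact Nat.zero_le _
      have n2 : 2 ≤ n := (mem_filter.1 hq).2 ▸ h2 q (mem_filter.1 hq).1
      have h6 := map_dvd Ideal.absNorm (pairsK_cop (s := s.filter fun q => Ideal.absNorm q.1 = n)
        (fun q hq => ⟨(hs q (mem_filter.1 hq).1).1, (hs q (mem_filter.1 hq).1).2.1⟩)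
        (hi.mono (coe_subset.2 (filter_subset _ _))) (fun _ => 1)
        (B := Ideal.span {(n : 𝓞 K)}) fun q hq => by
          rw [pow_one, Ideal.dvd_span_singleton, ← (mem_filter.1 hq).2]
          exact Ideal.absNorm_mem _)
      rw [map_prod, prod_congr rfl (g := fun _ => n) (fun q hq => by
        rw [pow_one, (mem_filter.1 hq).2]), prod_const, Ideal.absNorm_span_natCast,
        RingOfIntegers.rank, Nat.pow_dvd_pow_iff_le_right n2] at h6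
      exact h6.trans hD
  rw [prod_mul_distrib, prod_const] at h5
  refine h5.trans ?_
  rw [pow_succ]
  refine Nat.mul_le_mul ?_ h3
  calc D ^ s.card ≤ (2 ^ D) ^ s.card := Nat.pow_le_pow_left Nat.lt_two_pow_self.le _
    _ = (2 ^ s.card) ^ D := by rw [← pow_mul, ← pow_mul, mul_comm]
    _ ≤ X ^ D := Nat.pow_le_pow_left h4 _

/-- an ideal as a product of prime powers -/
lemma pairsK_split {B : Ideal (𝓞 K)} (hB : B ≠ ⊥) : ∃ s : Finset (Ideal (𝓞 K) × ℕ),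
    (∀ q ∈ s, q.1.IsPrime ∧ q.1 ≠ ⊥ ∧ 1 ≤ q.2) ∧
      Set.InjOn Prod.fst (s : Set (Ideal (𝓞 K) × ℕ)) ∧ ∏ q ∈ s, q.1 ^ q.2 = B := by
  classical
  refine ⟨(UniqueFactorizationMonoid.normalizedFactors B).toFinset.image fun P =>
    (P, (UniqueFactorizationMonoid.normalizedFactors B).count P), fun q hq => ?_,
    fun a ha b hb hab => ?_, ?_⟩
  · obtain ⟨P, hP, rfl⟩ := mem_image.1 hq
    rw [Multiset.mem_toFinset] at hP
    have h := UniqueFactorizationMonoid.prime_of_normalized_factor P hP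
    exact ⟨Ideal.isPrime_of_prime h, h.ne_zero, Multiset.one_le_count_iff_mem.2 hP⟩
  · obtain ⟨P, -, rfl⟩ := mem_image.1 (mem_coe.1 ha)
    obtain ⟨Q, -, rfl⟩ := mem_image.1 (mem_coe.1 hb)
    obtain rfl : P = Q := hab
    rfl
  · rw [prod_image fun a _ b _ h => congrArg Prod.fst h, ← prod_multiset_count,
      Ideal.prod_normalizedFactors_eq_self hB]

lemma pairsK_norm {m D : ℕ} (hD : finrank ℚ K ≤ D) (hm1 : 1 ≤ m) {p q : K × K} (hp : Hgt m p)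
    (hq : Hgt m q) (hpq : p ≠ q) {J B : Ideal (𝓞 K)} (h : PC (J * B) (hm p) (hm q)) :
    B ≠ ⊥ ∧ Ideal.absNorm B ≤ (2 * m ^ 2) ^ D := by
  obtain ⟨h1, h2⟩ := pot_ge (ρ := fun _ => 2) hp hq hpq h fun σ => AC_two σ _ _
  rw [prod_const, card_univ, Embeddings.card K ℂ] at h2
  have h3 : Ideal.absNorm (J * B) ≤ m ^ (2 * finrank ℚ K) * 2 ^ finrank ℚ K := by
    exact_mod_cast h2
  have h4 : Ideal.absNorm J ≠ 0 := fun h => h1 (by rw [Ideal.absNorm_eq_zero_iff.1 h]; simp)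
  refine ⟨fun h => h1 (by rw [h]; simp), ?_⟩
  rw [map_mul, pow_mul, ← mul_pow, mul_comm (m ^ 2)] at h3
  exact ((Nat.le_mul_of_pos_left _ (Nat.pos_of_ne_zero h4)).trans h3).trans
    (Nat.pow_le_pow_right (by positivity) hD)

open Classical in
theorem pairs_K {S R : Finset (K × K)} {m l D L Z i H : ℕ} {Γ : ℝ} (hD : finrank ℚ K ≤ D)
    (hl : 1 ≤ l) (hm1 : 1 ≤ m) (hml : m ≤ 2 ^ l) (hL : 3 * D ^ 2 * l ≤ L)
    (hS : ∀ p ∈ S, Hgt m p) (hR : R ⊆ S)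
    (hZ : ∀ f : K[X][X], f ≠ 0 → Deg f (8 * D * 4 ^ i) (8 * D * 4 ^ i) →
      (S.filter fun p => f.evalEval p.1 p.2 = 0).card ≤ Z)
    (hZN : Z * 16 ^ (i + 1) * 16 ^ (i + 1) ≤ R.card) (hT : 16 ^ (i + 1) ≤ R.card)
    {J : Ideal (𝓞 K)} (hJ0 : J ≠ ⊥) (hJ : ∀ p ∈ R, ∀ q ∈ R, PC J (hm p) (hm q))
    (hsmall : ∀ p ∈ R, ∀ B : Ideal (𝓞 K), H ≤ Ideal.absNorm B →
      16 ^ (i + 1) * (R.filter fun q => PC (J * B) (hm p) (hm q)).card ≤ R.card)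
    (hΓ : ∀ k : ℕ, k.factorial ≤ ((2 * m ^ 2) ^ D) ^ (D + 1) →
      (1200 * L : ℝ) ^ k / k.factorial ≤ Γ) :
    (((R ×ˢ R).filter fun y => y.1 ≠ y.2 ∧ FC J H (hm y.1) (hm y.2)).card : ℝ) ≤
      (R.card : ℝ) ^ 2 / 2 ^ (i + 1) * (300 * L * (L + 1) * Γ) := by
  have D1 : 1 ≤ D := le_trans finrank_pos hD
  have hDL : 3 * l * D ≤ L := le_trans (by nlinarith [Nat.mul_le_mul_left (3 * l * D) D1]) hL
  have hXL : (2 * m ^ 2) ^ D ≤ 2 ^ L := by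
    have h1 : 2 * m ^ 2 ≤ 2 ^ (3 * l) :=
      calc 2 * m ^ 2 ≤ 2 ^ l * (2 ^ l) ^ 2 :=
            Nat.mul_le_mul (Nat.le_self_pow (by omega) 2) (Nat.pow_le_pow_left hml 2)
        _ = 2 ^ (3 * l) := by ring
    refine (Nat.pow_le_pow_left h1 D).trans ?_
    rw [← pow_mul]
    exact Nat.pow_le_pow_right two_pos hDL
  have X1 : 0 < (2 * m ^ 2) ^ D := by positivity
  have hN : ∀ p ∈ R, ∀ q ∈ R, p ≠ q → ∀ B : Ideal (𝓞 K), PC (J * B) (hm p) (hm q) →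
      B ≠ ⊥ ∧ Ideal.absNorm B ≤ (2 * m ^ 2) ^ D := fun p hp q hq hpq B h =>
    pairsK_norm hD hm1 (hS p (hR hp)) (hS q (hR hq)) hpq h
  generalize (2 * m ^ 2) ^ D = X at hΓ hXL X1 hN
  obtain ⟨QQ, hQ⟩ : ∃ QQ : Finset (Ideal (𝓞 K) × ℕ), ∀ q, q ∈ QQ ↔
      (Ideal.absNorm q.1 ≤ X ∧ q.2 ≤ X) ∧ q.1.IsPrime ∧ q.1 ≠ ⊥ ∧ 1 ≤ q.2 :=
    ⟨((Ideal.finite_setOfPred_absNorm_le X).toFinset ×ˢ Iic X).filter fun q =>
      q.1.IsPrime ∧ q.1 ≠ ⊥ ∧ 1 ≤ q.2, fun q => by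
        rw [mem_filter, mem_product, Set.Finite.mem_toFinset, mem_Iic]; rfl⟩
  obtain ⟨Ad, hA⟩ : ∃ Ad : Finset (Finset (Ideal (𝓞 K) × ℕ)), ∀ s, s ∈ Ad ↔ s ⊆ QQ ∧
      Set.InjOn Prod.fst (s : Set (Ideal (𝓞 K) × ℕ)) ∧
        ∏ q ∈ s, Ideal.absNorm (q.1 ^ q.2) ≤ X :=
    ⟨QQ.powerset.filter fun s => Set.InjOn Prod.fst (s : Set (Ideal (𝓞 K) × ℕ)) ∧
      ∏ q ∈ s, Ideal.absNorm (q.1 ^ q.2) ≤ X, fun s => by rw [mem_filter, mem_powerset]⟩
  have key := pairs_abs R QQ (fun q x y => PC (J * q.1 ^ q.2) (hm x) (hm y))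
    (fun _ _ => PC.refl _ _) (fun _ _ _ h => h.symm) (fun _ _ y _ h h' => h.trans (hm_ne y) h')
    Ad (fun s hs => ?_) (fun x z => FC J H (hm x) (hm z)) (i := i) (L := L) (Z := Z) (Γ := Γ)
    (le_trans (by nlinarith) hDL) (by simpa using hΓ 0 (Nat.pow_pos X1)) (fun U hU j hj A hA' => ?_)
    hZN hT (fun x hx z hz hxz hc => ?_) fun s hs => ?_
  · refine le_trans (Nat.cast_le.2 (card_le_card fun y hy => ?_)) key
    simpa only [mem_filter] using hy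
  · obtain ⟨h1, h2, h3⟩ := (hA s).1 hs
    refine ⟨h1, fun s' h => (hA s').2 ⟨h.trans h1, h2.mono (coe_subset.2 h), le_trans
      (prod_le_prod_of_subset_of_one_le' h fun q hq _ => ?_) h3⟩⟩
    obtain ⟨-, a, b, -⟩ := (hQ q).1 (h1 hq)
    rw [map_pow]
    exact Nat.one_le_pow _ _ (lt_of_lt_of_le two_pos (pairsK_two a b))
  · have h4 : 8 * D * 4 ^ j ≤ 8 * D * 4 ^ i :=
      Nat.mul_le_mul_left _ (Nat.pow_le_pow_right (by norm_num) hj)
    refine le_trans (sum_le_sum fun x _ => card_le_card fun q hq => ?_)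
      (walsh_K hD hl hm1 hml hL hS (hU.trans hR) (fun f hf hd => hZ f hf (hd.mono h4 h4))
        (QQ := QQ) (fun q hq => ⟨((hQ q).1 hq).2.1, ((hQ q).1 hq).2.2.2⟩) J A hA')
    simpa only [mem_filter] using hq
  · obtain ⟨B', b1, b2⟩ := hc
    obtain ⟨B, hB, -⟩ := PC.exists_exact hJ0 (hm_ne x) (hm_ne z) (hJ x hx z hz)
    obtain ⟨B0, BX⟩ := hN x hx z hz hxz B ((hB B).2 dvd_rfl)
    have Bp : 0 < Ideal.absNorm B :=
      Nat.pos_of_ne_zero fun h => B0 (Ideal.absNorm_eq_zero_iff.1 h)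
    obtain ⟨s, s1, s2, s3⟩ := pairsK_split B0
    have s4 : ∀ q ∈ s, q.1 ^ q.2 ∣ B := fun q hq =>
      s3 ▸ dvd_prod_of_mem (fun q : Ideal (𝓞 K) × ℕ => q.1 ^ q.2) hq
    refine ⟨s, (hA s).2 ⟨fun q hq => (hQ q).2 ⟨?_, s1 q hq⟩, s2, ?_⟩,
      fun q hq => (hB _).2 (s4 q hq), le_trans (Nat.mul_le_mul_left _ (card_le_card
        fun w hw => ?_)) (hsmall x hx B (b1.trans (Nat.le_of_dvd Bp
          (map_dvd Ideal.absNorm ((hB B').1 b2)))))⟩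
    · have h1 := (Nat.le_of_dvd Bp (map_dvd Ideal.absNorm (s4 q hq))).trans BX
      rw [map_pow] at h1
      exact ⟨(Nat.le_self_pow (by have := (s1 q hq).2.2; omega) _).trans h1,
        (Nat.lt_pow_self (pairsK_two (s1 q hq).1 (s1 q hq).2.1)).le.trans h1⟩
    · rw [← map_prod, s3]; exact BX
    · obtain ⟨w1, w2⟩ := mem_filter.1 hw
      obtain ⟨C, hC, -⟩ := PC.exists_exact hJ0 (hm_ne x) (hm_ne w) (hJ x hx w w1)
      exact mem_filter.2 ⟨w1, (hC B).2 (s3 ▸ pairsK_cop (fun q hq => ⟨(s1 q hq).1, (s1 q hq).2.1⟩)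
        s2 (fun q => q.2) fun q hq => (hC _).1 (w2 q hq))⟩
  · obtain ⟨h1, h2, h3⟩ := (hA s).1 hs
    obtain ⟨h4, h5⟩ := pairsK_card hD (fun q hq => ((hQ q).1 (h1 hq)).2) h2 h3
    exact ⟨(Nat.pow_le_pow_iff_right one_lt_two).1 (h4.trans hXL), hΓ _ h5⟩

end Pool.Agent.Lib.MP_a147dc_co.B
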