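import Pool.Agent.Lib.MP_a147dc_co.B.Proj
import Pool.Agent.Lib.MP_a147dc_co.B.Near
import Pool.Agent.Lib.MP_a147dc_co.B.PairsK
import Pool.Agent.Lib.MP_a147dc_co.B.CurveK
import Pool.Agent.Lib.MP_a147dc_co.B.Ball
import Pool.Agent.Lib.MP_a147dc_co.B.Chain

/-! One step of the iteration. -/

namespace Pool.Agent.Lib.MP_a147dc_co.B

open Finset NumberField Module Polynomial

lemma mk_cmul {c t a b : ℕ} (ht : 1 ≤ t) (hc : c ≤ t) (hab : a + 1 ≤ b) : c * t ^ a ≤ t ^ b :=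
  calc c * t ^ a ≤ t * t ^ a := Nat.mul_le_mul_right _ hc
    _ = t ^ (a + 1) := by ring
    _ ≤ t ^ b := Nat.pow_le_pow_right ht hab

open Classical in
lemma mk_pairs {V : Type*} (R : Finset V) (P : V → V → Prop) :
    ((R ×ˢ R).filter fun y => P y.1 y.2).card = ∑ p ∈ R, (R.filter fun q => P p q).card := by
  simp only [card_filter]
  rw [sum_product]

variable {K : Type*} [Field K]

lemma mk_third {R : Finset (K × K)} (h4 : No4K R) {x y z w : K × K} (hx : x ∈ R) (hy : y ∈ R)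
    (hz : z ∈ R) (hw : w ∈ R) (xy : x ≠ y) (xz : x ≠ z) (yz : y ≠ z) (xw : x ≠ w) (yw : y ≠ w)
    (d1 : dt x y z = 0) (d2 : dt x y w = 0) : z = w := by
  by_contra h
  exact h4 x hx y hy z hz w hw xy xz xw yz yw h d1 d2

open Classical in
/-- collinear triples -/
noncomputable def TK (R : Finset (K × K)) : Finset ((K × K) × (K × K) × (K × K)) :=
  (R ×ˢ R ×ˢ R).filter fun t =>
    t.1 ≠ t.2.1 ∧ t.1 ≠ t.2.2 ∧ t.2.1 ≠ t.2.2 ∧ dt t.1 t.2.1 t.2.2 = 0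

lemma mem_TK {R : Finset (K × K)} {t : (K × K) × (K × K) × (K × K)} : t ∈ TK R ↔
    (t.1 ∈ R ∧ t.2.1 ∈ R ∧ t.2.2 ∈ R) ∧
      t.1 ≠ t.2.1 ∧ t.1 ≠ t.2.2 ∧ t.2.1 ≠ t.2.2 ∧ dt t.1 t.2.1 t.2.2 = 0 := by
  simp [TK]

variable [NumberField K]

open Classical in
lemma mk_TK_le {R : Finset (K × K)} (h4 : No4K R) {J : Ideal (𝓞 K)} (hJ : J ≠ ⊥)
    {ρ : (K →+* ℂ) → ℝ} (hρ : ∀ σ, 0 < ρ σ) (hSt : St R J ρ) {H : ℕ} (hH : 1 ≤ H) :
    (TK R).card ≤ 2 * ((R ×ˢ R).filter fun y => y.1 ≠ y.2 ∧ Cls J ρ H (hm y.1) (hm y.2)).card +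
      ((R ×ˢ R).filter fun y => Near (H ^ 2) (hm y.1) (hm y.2)).card := by
  have h1 : ((TK R).filter fun t => Cls J ρ H (hm t.1) (hm t.2.1)).card ≤
      ((R ×ˢ R).filter fun y => y.1 ≠ y.2 ∧ Cls J ρ H (hm y.1) (hm y.2)).card := by
    refine card_le_card_of_injOn (fun t => (t.1, t.2.1)) (fun t ht => ?_) ?_
    · obtain ⟨h, hc⟩ := mem_filter.1 ht
      obtain ⟨⟨a, b, -⟩, c, -⟩ := mem_TK.1 h
      exact mem_filter.2 ⟨mem_product.2 ⟨a, b⟩, c, hc⟩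
    · rintro ⟨x, y, z⟩ ht ⟨x', y', z'⟩ ht' he
      obtain ⟨⟨a, b, c⟩, d, e, f, g⟩ := mem_TK.1 (mem_filter.1 ht).1
      obtain ⟨⟨-, -, c'⟩, -, e', f', g'⟩ := mem_TK.1 (mem_filter.1 ht').1
      obtain ⟨rfl, rfl⟩ := Prod.mk.inj he
      exact Prod.ext rfl (Prod.ext rfl (mk_third h4 a b c c' d e f e' f' g g'))
  have h2 : ((TK R).filter fun t => Cls J ρ H (hm t.1) (hm t.2.2)).card ≤
      ((R ×ˢ R).filter fun y => y.1 ≠ y.2 ∧ Cls J ρ H (hm y.1) (hm y.2)).card := by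
    refine card_le_card_of_injOn (fun t => (t.1, t.2.2)) (fun t ht => ?_) ?_
    · obtain ⟨h, hc⟩ := mem_filter.1 ht
      obtain ⟨⟨a, -, b⟩, -, c, -⟩ := mem_TK.1 h
      exact mem_filter.2 ⟨mem_product.2 ⟨a, b⟩, c, hc⟩
    · rintro ⟨x, y, z⟩ ht ⟨x', y', z'⟩ ht' he
      obtain ⟨⟨a, b, c⟩, d, e, f, g⟩ := mem_TK.1 (mem_filter.1 ht).1
      obtain ⟨⟨-, b', -⟩, d', -, f', g'⟩ := mem_TK.1 (mem_filter.1 ht').1
      obtain ⟨rfl, rfl⟩ := Prod.mk.inj he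
      exact Prod.ext rfl (Prod.ext (mk_third h4 a c b b' e d f.symm d' f'.symm
        (by unfold dt at g ⊢; linear_combination -g)
        (by unfold dt at g' ⊢; linear_combination -g')) rfl)
  have h3 : ((TK R).filter fun t => Near (H ^ 2) (hm t.2.2) (hm t.2.1)).card ≤
      ((R ×ˢ R).filter fun y => Near (H ^ 2) (hm y.1) (hm y.2)).card := by
    refine card_le_card_of_injOn (fun t => (t.2.2, t.2.1)) (fun t ht => ?_) ?_
    · obtain ⟨h, hc⟩ := mem_filter.1 ht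
      obtain ⟨⟨-, a, b⟩, -⟩ := mem_TK.1 h
      exact mem_filter.2 ⟨mem_product.2 ⟨b, a⟩, hc⟩
    · rintro ⟨x, y, z⟩ ht ⟨x', y', z'⟩ ht' he
      obtain ⟨⟨a, b, c⟩, d, e, f, g⟩ := mem_TK.1 (mem_filter.1 ht).1
      obtain ⟨⟨a', -, -⟩, d', e', -, g'⟩ := mem_TK.1 (mem_filter.1 ht').1
      obtain ⟨rfl, rfl⟩ := Prod.mk.inj he
      exact Prod.ext (mk_third h4 c b a a' f.symm e.symm d.symm e'.symm d'.symm
        (by unfold dt at g ⊢; linear_combination -g)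
        (by unfold dt at g' ⊢; linear_combination -g')) rfl
  have hsub : TK R ⊆ (((TK R).filter fun t => Cls J ρ H (hm t.1) (hm t.2.1)) ∪
      ((TK R).filter fun t => Cls J ρ H (hm t.1) (hm t.2.2))) ∪
      ((TK R).filter fun t => Near (H ^ 2) (hm t.2.2) (hm t.2.1)) := by
    intro t ht
    simp only [mem_union, mem_filter]
    by_cases c1 : Cls J ρ H (hm t.1) (hm t.2.1)
    · exact Or.inl (Or.inl ⟨ht, c1⟩)
    by_cases c2 : Cls J ρ H (hm t.1) (hm t.2.2)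
    · exact Or.inl (Or.inr ⟨ht, c2⟩)
    obtain ⟨⟨a, b, c⟩, d, e, f, g⟩ := mem_TK.1 ht
    obtain ⟨u, v, -, hv, huv⟩ := exists_param d e f g
    exact Or.inr ⟨ht, near_of_triple hJ hρ hH hv huv (exists_mn_ne d) (hSt _ a _ b).1
      (hSt _ a _ c).1 (hSt _ a _ b).2 (hSt _ a _ c).2 c1 c2⟩
  have := (card_le_card hsub).trans ((card_union_le _ _).trans
    (Nat.add_le_add_right (card_union_le _ _) _))
  omega

open Classical in
lemma mk_close {S R : Finset (K × K)} {D a t h E L l m x y : ℕ} (hD : finrank ℚ K ≤ D)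
    (ht : 40000 * D ^ 2 ≤ t) (ha : 1 ≤ a) (hh : 200 * D * (E + 5) ≤ h)
    (hx : x + (17 * E + 69) = 2 * (a * h)) (hy : y + E = 2 * (a * h))
    (hm1 : 1 ≤ m) (hl : 1 ≤ l) (hml : m ≤ 2 ^ l) (hL : 3 * D ^ 2 * l ≤ L)
    (hS : ∀ p ∈ S, Hgt m p) (h4 : No4K S) (hα : ∀ G ⊆ S, GPK G → G.card ≤ t ^ (a * h + 1))
    (hΓ : ∀ k : ℕ, k.factorial ≤ ((2 * m ^ 2) ^ D) ^ (D + 1) →
      300 * (L : ℝ) * (L + 1) * ((1200 * (L : ℝ)) ^ k / k.factorial) ≤ t)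
    (hR : R ⊆ S) {J : Ideal (𝓞 K)} (hJ : J ≠ ⊥) {ρ : (K →+* ℂ) → ℝ} (hSt : St R J ρ)
    (hsf : ∀ p ∈ R, ∀ B : Ideal (𝓞 K), t ^ h ≤ Ideal.absNorm B →
      (R.filter fun q => PC (J * B) (hm p) (hm q)).card ≤ t ^ x)
    (hsa : ∀ p ∈ R, ∀ σ,
      (R.filter fun q => AC σ (ρ σ / ((t ^ h : ℕ) : ℝ)) (hm p) (hm q)).card ≤ t ^ x)
    (hN : t ^ y < R.card) :
    (((R ×ˢ R).filter fun y => y.1 ≠ y.2 ∧ Cls J ρ (t ^ h) (hm y.1) (hm y.2)).card : ℝ) ≤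
      2 * (R.card : ℝ) ^ 2 * (t / t ^ (4 * E + 17)) := by
  have hD1 : 1 ≤ D := le_trans finrank_pos hD
  have hD2 : D ≤ D ^ 2 := Nat.le_self_pow (by norm_num) _
  have ht1 : 1 ≤ t := by omega
  have hL1 : 1 ≤ L := le_trans (by nlinarith) hL
  have hlL : l ≤ L := le_trans (by nlinarith) hL
  have hLr : (1 : ℝ) ≤ L := by exact_mod_cast hL1
  have hah : h ≤ a * h := Nat.le_mul_of_pos_left _ ha
  have hDE : E ≤ D * E := Nat.le_mul_of_pos_left _ hD1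
  have hh' : 200 * (D * E) + 1000 * D ≤ h := by
    calc _ = 200 * D * (E + 5) := by ring
      _ ≤ _ := hh
  obtain ⟨s, hs⟩ : ∃ s, s = 4 * E + 17 := ⟨_, rfl⟩
  rw [← hs]
  obtain ⟨i, hi1, hi2⟩ := exists_sixteen_pow (s := s) ht1
  have hLt : L ≤ t := by
    have := hΓ 0 (Nat.succ_le_of_lt (by positivity))
    simp only [pow_zero, Nat.factorial_zero, Nat.cast_one, div_one, mul_one] at this
    have : (L : ℝ) ≤ t := by nlinarith
    exact_mod_cast this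
  have h16 : (16 : ℕ) ^ (i + 1) = (4 ^ (i + 1)) ^ 2 := by
    rw [← pow_mul, mul_comm, pow_mul]; norm_num
  have h16' : (16 : ℕ) ^ (i + 1) = (2 ^ (i + 1)) ^ 4 := by
    rw [← pow_mul, mul_comm, pow_mul]; norm_num
  have h4i : 4 ^ i ≤ t ^ (2 * s) := by
    have : 4 ^ (i + 1) ≤ 4 * t ^ (2 * s) := by
      apply (Nat.pow_le_pow_iff_left (n := 2) (by norm_num)).1
      rw [← h16]
      calc _ ≤ _ := hi2
        _ = _ := by ring
    rw [pow_succ] at this; omega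
  have h2 : t ^ s ≤ 2 ^ (i + 1) := by
    apply (Nat.pow_le_pow_iff_left (n := 4) (by norm_num)).1
    rw [← h16', ← pow_mul, mul_comm]; exact hi1
  have hts : 1 ≤ t ^ (2 * s) := Nat.one_le_pow _ _ ht1
  have he1 : 8 * D * 4 ^ i + 1 ≤ 9 * D * t ^ (2 * s) := by
    have : 8 * D * 4 ^ i ≤ 8 * D * t ^ (2 * s) := Nat.mul_le_mul_left _ h4i
    have : 1 ≤ D * t ^ (2 * s) := Nat.mul_pos hD1 hts
    nlinarith
  obtain ⟨Z, hZd⟩ : ∃ Z, Z = (4096 * D * l * (8 * D * 4 ^ i + 1)) ^ (20 * D) *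
    (t ^ (a * h + 1) + 1) := ⟨_, rfl⟩
  have hZ : ∀ f : K[X][X], f ≠ 0 → Deg f (8 * D * 4 ^ i) (8 * D * 4 ^ i) →
      (S.filter fun p => f.evalEval p.1 p.2 = 0).card ≤ Z :=
    fun f hf hd => hZd ▸ curve_K hD hl hm1 hml hS h4 hα f hf hd
  have hY : 4096 * D * l * (8 * D * 4 ^ i + 1) ≤ t ^ (2 * s + 2) := by
    calc _ ≤ 4096 * D * t * (9 * D * t ^ (2 * s)) := by gcongr; omega
      _ = (36864 * D ^ 2) * t ^ (2 * s + 1) := by ring
      _ ≤ _ := mk_cmul ht1 (by omega) le_rfl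
  have hta : 1 ≤ t ^ (a * h + 1) := Nat.one_le_pow _ _ ht1
  have hZN : Z * 16 ^ (i + 1) * 16 ^ (i + 1) ≤ R.card := by
    have e1 : (2 * s + 2) * (20 * D) = 160 * (D * E) + 720 * D := by rw [hs]; ring
    calc _ ≤ (t ^ (2 * s + 2)) ^ (20 * D) * (2 * t ^ (a * h + 1)) * (16 * t ^ (4 * s)) *
          (16 * t ^ (4 * s)) := by rw [hZd]; gcongr; omega
      _ = 512 * t ^ ((2 * s + 2) * (20 * D) + (a * h + 1) + 8 * s) := by
          rw [← pow_mul, pow_add, pow_add]; ring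
      _ ≤ t ^ y := mk_cmul ht1 (by omega) (by omega)
      _ ≤ _ := hN.le
  have hT : 16 ^ (i + 1) ≤ R.card :=
    hi2.trans ((mk_cmul ht1 (by omega) (by omega)).trans hN.le)
  have hp := pairs_K (H := t ^ h) (Γ := t / (300 * L * (L + 1))) hD hl hm1 hml hL hS hR hZ hZN hT
    hJ (fun p hp q hq => (hSt p hp q hq).1) (fun p hp B hB => by
      calc _ ≤ (16 * t ^ (4 * s)) * t ^ x := Nat.mul_le_mul hi2 (hsf p hp B hB)
        _ = 16 * t ^ (4 * s + x) := by ring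
        _ ≤ t ^ y := mk_cmul ht1 (by omega) (by omega)
        _ ≤ _ := hN.le)
    (fun k hk => by rw [le_div_iff₀ (by positivity), mul_comm]; exact hΓ k hk)
  rw [mul_div_cancel₀ _ (by positivity)] at hp
  have hts0 : (0 : ℝ) < (t : ℝ) ^ s := by positivity
  have c1 := hp.trans (show _ ≤ (R.card : ℝ) ^ 2 * (t / t ^ s) by
    have : (t : ℝ) ^ s ≤ 2 ^ (i + 1) := by exact_mod_cast h2
    calc (R.card : ℝ) ^ 2 / 2 ^ (i + 1) * t ≤ (R.card : ℝ) ^ 2 / t ^ s * t := by gcongr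
      _ = _ := by ring)
  have c2 : ∀ σ : K →+* ℂ, ((R ×ˢ R).filter fun y =>
      AC σ (ρ σ / ((t ^ h : ℕ) : ℝ)) (hm y.1) (hm y.2)).card ≤ R.card * t ^ x := by
    intro σ
    rw [mk_pairs R fun p q => AC σ (ρ σ / ((t ^ h : ℕ) : ℝ)) (hm p) (hm q)]
    exact (sum_le_card_nsmul _ _ _ fun p hp => hsa p hp σ).trans (by simp)
  have c3 : ((R ×ˢ R).filter fun y => y.1 ≠ y.2 ∧ Cls J ρ (t ^ h) (hm y.1) (hm y.2)).card ≤
      ((R ×ˢ R).filter fun y => y.1 ≠ y.2 ∧ FC J (t ^ h) (hm y.1) (hm y.2)).card +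
        D * (R.card * t ^ x) := by
    have hsub : ((R ×ˢ R).filter fun y => y.1 ≠ y.2 ∧ Cls J ρ (t ^ h) (hm y.1) (hm y.2)) ⊆
        ((R ×ˢ R).filter fun y => y.1 ≠ y.2 ∧ FC J (t ^ h) (hm y.1) (hm y.2)) ∪
        univ.biUnion fun σ : K →+* ℂ => (R ×ˢ R).filter fun y =>
          AC σ (ρ σ / ((t ^ h : ℕ) : ℝ)) (hm y.1) (hm y.2) := by
      intro u hu
      obtain ⟨u1, u2, u3 | ⟨σ, u3⟩⟩ := mem_filter.1 hu
      · exact mem_union_left _ (mem_filter.2 ⟨u1, u2, u3⟩)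
      · exact mem_union_right _ (mem_biUnion.2 ⟨σ, mem_univ _, mem_filter.2 ⟨u1, u3⟩⟩)
    refine (card_le_card hsub).trans ((card_union_le _ _).trans (Nat.add_le_add_left ?_ _))
    refine card_biUnion_le.trans ((sum_le_card_nsmul _ _ _ fun σ _ => c2 σ).trans ?_)
    rw [card_univ, Embeddings.card K ℂ, smul_eq_mul]
    exact Nat.mul_le_mul_right _ hD
  have c4 : ((D * (R.card * t ^ x) : ℕ) : ℝ) ≤ (R.card : ℝ) ^ 2 * (t / t ^ s) := by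
    rw [← mul_div_assoc, le_div_iff₀ hts0]
    have : D * (R.card * t ^ x) * t ^ s ≤ R.card ^ 2 * t := by
      calc _ = R.card * (D * t ^ (x + s)) := by ring
        _ ≤ R.card * (t ^ (y + 1)) := Nat.mul_le_mul_left _ (mk_cmul ht1 (by omega) (by omega))
        _ = R.card * t ^ y * t := by ring
        _ ≤ R.card * R.card * t := by gcongr
        _ = _ := by ring
    exact_mod_cast this
  have c5 := (Nat.cast_le (α := ℝ)).2 c3
  rw [Nat.cast_add] at c5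
  linarith

end Pool.Agent.Lib.MP_a147dc_co.B
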