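import Pool.Agent.Lib.MP_a147dc_co.B.MainA

/-! The dichotomy and the iteration. -/

namespace Pool.Agent.Lib.MP_a147dc_co.B

open Finset NumberField Module Polynomial

variable {K : Type*} [Field K] [NumberField K]

open Classical in
lemma mk_caseA {R : Finset (K × K)} {t u y E H : ℕ} (ht : 128 ≤ t) (hy : y + E = 2 * u)
    (hu : E + 2 ≤ u) (hH : 1 ≤ H) (h4 : No4K R) (hα : ∀ G ⊆ R, GPK G → G.card ≤ t ^ (u + 1))
    {J : Ideal (𝓞 K)} (hJ : J ≠ ⊥) {ρ : (K →+* ℂ) → ℝ} (hρ : ∀ σ, 0 < ρ σ) (hSt : St R J ρ)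
    (hC : (((R ×ˢ R).filter fun y => y.1 ≠ y.2 ∧ Cls J ρ H (hm y.1) (hm y.2)).card : ℝ) ≤
      2 * (R.card : ℝ) ^ 2 * (t / t ^ (4 * E + 17)))
    (hB : ∀ p ∈ R, (R.filter fun q => Near (H ^ 2) (hm p) (hm q)).card * t ^ (E + 4) ≤ R.card)
    (hN : t ^ y < R.card) : False := by
  have ht1 : 1 ≤ t := by omega
  have htr : (0 : ℝ) < t := by exact_mod_cast ht1
  have hN0 : (0 : ℝ) < R.card := by exact_mod_cast (by omega : 0 < R.card)
  have h1 := (Nat.cast_le (α := ℝ)).2 (mk_TK_le h4 hJ hρ hSt hH)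
  have h2 : ((R ×ˢ R).filter fun y => Near (H ^ 2) (hm y.1) (hm y.2)).card * t ^ (E + 4) ≤
      R.card ^ 2 := by
    rw [mk_pairs R fun p q => Near (H ^ 2) (hm p) (hm q), sum_mul]
    exact (sum_le_card_nsmul _ _ _ hB).trans (by simp [sq])
  have h3 : (((R ×ˢ R).filter fun y => Near (H ^ 2) (hm y.1) (hm y.2)).card : ℝ) ≤
      (R.card : ℝ) ^ 2 * (1 / t ^ (E + 4)) := by
    rw [mul_one_div, le_div_iff₀ (by positivity)]
    exact_mod_cast h2
  have hd := deletion R (TK R) (t ^ (u + 1))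
    (fun τ hτ => by
      obtain ⟨⟨a, b, c⟩, d, e, f, -⟩ := mem_TK.1 hτ
      exact ⟨a, b, c, d, e, f⟩)
    (fun G hG h => hα G hG fun x hx y hy z hz xy xz yz hd =>
      h (x, y, z) (mem_TK.2 ⟨⟨hG hx, hG hy, hG hz⟩, xy, xz, yz, hd⟩) ⟨hx, hy, hz⟩)
    (π := 2 * (t : ℝ) ^ (u + 1) / R.card) (by positivity) (by
      rw [div_le_one hN0]
      have : 2 * t ^ (u + 1) ≤ R.card := (mk_cmul ht1 (by omega) (by omega)).trans hN.le
      exact_mod_cast this)
  have c1 : 128 * ((t : ℝ) ^ (u + 1)) ^ 2 * (t / t ^ (4 * E + 17)) ≤ R.card := by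
    rw [← mul_div_assoc, div_le_iff₀ (by positivity)]
    have : 128 * (t ^ (u + 1)) ^ 2 * t ≤ R.card * t ^ (4 * E + 17) := by
      calc _ = 128 * t ^ (2 * u + 3) := by ring
        _ ≤ t ^ (y + (4 * E + 17)) := mk_cmul ht1 ht (by omega)
        _ ≤ _ := by rw [pow_add]; exact Nat.mul_le_mul_right _ hN.le
    exact_mod_cast this
  have c2 : 32 * ((t : ℝ) ^ (u + 1)) ^ 2 * (1 / t ^ (E + 4)) ≤ R.card := by
    rw [mul_one_div, div_le_iff₀ (by positivity)]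
    have : 32 * (t ^ (u + 1)) ^ 2 ≤ R.card * t ^ (E + 4) := by
      calc _ = 32 * t ^ (2 * u + 2) := by ring
        _ ≤ t ^ (y + (E + 4)) := mk_cmul ht1 (by omega) (by omega)
        _ ≤ _ := by rw [pow_add]; exact Nat.mul_le_mul_right _ hN.le
    exact_mod_cast this
  push_cast at h1 hd
  have hA0 : (0 : ℝ) < (t : ℝ) ^ (u + 1) := by positivity
  generalize (t : ℝ) / t ^ (4 * E + 17) = v at *
  generalize 1 / (t : ℝ) ^ (E + 4) = w at *
  generalize (t : ℝ) ^ (u + 1) = A at *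
  have h5 : ((TK R).card : ℝ) ≤ (R.card : ℝ) ^ 2 * (4 * v + w) := by linarith
  generalize (R.card : ℝ) = N at *
  have c4 : (2 * A / N) ^ 3 * ((TK R).card : ℝ) ≤ A / 2 := by
    calc _ ≤ (2 * A / N) ^ 3 * (N ^ 2 * (4 * v + w)) := by gcongr
      _ = A / 4 * ((128 * A ^ 2 * v + 32 * A ^ 2 * w) / N) := by field_simp; ring
      _ ≤ A / 4 * 2 := by gcongr; rw [div_le_iff₀ hN0]; linarith
      _ = _ := by ring
  rw [div_mul_cancel₀ _ hN0.ne'] at hd
  linarith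

open Classical in
lemma mk_caseB {R : Finset (K × K)} {D a t h y E : ℕ} {β : ℝ} (hD : finrank ℚ K ≤ D)
    (ht : 128 * 2 ^ D ≤ t) (ha : 61 * D ^ 2 + 60 * D + 1 ≤ a) (hy : y + E = 2 * (a * h))
    (hh : 2 * E + 8 ≤ h) (h4 : No4K R) (hα : ∀ G ⊆ R, GPK G → G.card ≤ t ^ (a * h + 1))
    (hβ : 1 ≤ β) (k : IntermediateField ℚ K) (θ : Fin (finrank ℚ k) → 𝓞 k)
    (hθ : LinearIndependent ℚ fun i => (θ i : k)) (hb : ∀ i, Bd β (θ i : k))
    (hk : ∀ x : K, IsIntegral ℤ x → Bd (((t ^ h) ^ 10 : ℕ) : ℝ) x → x ∈ k)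
    (hβt : (1000 * D * β) ^ (12 * D) ≤ t)
    {J : Ideal (𝓞 K)} (hJ : J ≠ ⊥) {ρ : (K →+* ℂ) → ℝ} (hρ : ∀ σ, 0 < ρ σ) (hSt : St R J ρ)
    (hC : (((R ×ˢ R).filter fun y => y.1 ≠ y.2 ∧ Cls J ρ (t ^ h) (hm y.1) (hm y.2)).card : ℝ) ≤
      2 * (R.card : ℝ) ^ 2 * (t / t ^ (4 * E + 17)))
    {p : K × K} (hB : R.card <
      (R.filter fun q => Near ((t ^ h) ^ 2) (hm p) (hm q)).card * t ^ (E + 4))
    (hN : t ^ y < R.card) : False := by
  have hD1 : 1 ≤ D := le_trans finrank_pos hD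
  have hDr : (1 : ℝ) ≤ D := by exact_mod_cast hD1
  have h2D : 1 ≤ 2 ^ D := Nat.one_le_two_pow
  have ht1 : 1 ≤ t := by omega
  have htr : (0 : ℝ) < t := by exact_mod_cast ht1
  have hah : (61 * D ^ 2 + 60 * D) * h + h ≤ a * h := by
    calc _ = (61 * D ^ 2 + 60 * D + 1) * h := by ring
      _ ≤ _ := Nat.mul_le_mul_right _ ha
  obtain ⟨w, hw⟩ : ∃ w, w + (E + 4) = y := ⟨y - (E + 4), by omega⟩
  set R' := R.filter fun q => Near ((t ^ h) ^ 2) (hm p) (hm q) with hR'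
  have hsub : R' ⊆ R := filter_subset _ _
  have hN' : t ^ w ≤ R'.card := by
    have : t ^ w * t ^ (E + 4) < R'.card * t ^ (E + 4) := by
      rw [← pow_add, hw]; exact hN.trans hB
    exact (lt_of_mul_lt_mul_right this (Nat.zero_le _)).le
  have hN0 : (0 : ℝ) < R'.card := by
    exact_mod_cast lt_of_lt_of_le (by positivity) hN'
  have htH : t ≤ t ^ h := Nat.le_self_pow (by omega) t
  have hH1 : 1 ≤ t ^ h := by omega
  obtain ⟨P, hP, hP1, hP2⟩ := Nat.exists_prime_lt_and_le_two_mul ((t ^ h) ^ (61 * D))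
    (by positivity)
  have hHP : t ^ h ≤ P := (Nat.le_self_pow (by omega) _).trans hP1.le
  have hDβ : (1 : ℝ) ≤ D * β := by nlinarith
  have hb1 := ball_step (H := t ^ h) (α := t ^ (a * h + 1)) (P := P) hD (by omega) hβ k θ hθ hb hk
    hP (lt_of_le_of_lt (Nat.pow_le_pow_right hH1 (by omega)) hP1)
    (by
      calc (2 : ℝ) * (26 * D * β) ^ D ≤ 2 ^ D * (26 * D * β) ^ D := by
            gcongr; exact le_self_pow₀ (by norm_num) (by omega)
        _ = (52 * (D * β)) ^ D := by rw [← mul_pow]; ring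
        _ ≤ (1000 * (D * β)) ^ D := by gcongr; norm_num
        _ ≤ (1000 * (D * β)) ^ (12 * D) := pow_le_pow_right₀ (by linarith) (by omega)
        _ ≤ t := by rw [← mul_assoc]; exact hβt
        _ ≤ P := by exact_mod_cast htH.trans hHP)
    (h4.mono hsub) (fun G hG => hα G (hG.trans hsub)) hJ hρ
    (fun x hx z hz => hSt x (hsub hx) z (hsub hz)) (x₀ := hm p)
    (fun q hq => (mem_filter.1 hq).2) (lam := 4 * (t : ℝ) ^ (a * h + 1) / R'.card) (by positivity)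
    (by
      rw [div_mul_eq_mul_div, div_le_one hN0]
      have e1 : (4 * ((t ^ h : ℕ) : ℝ) ^ 15 * D * β) ^ (4 * D) ≤
          ((t ^ h : ℕ) : ℝ) ^ (60 * D) * t := by
        calc _ = ((t ^ h : ℕ) : ℝ) ^ (60 * D) * (4 * (D * β)) ^ (4 * D) := by
              rw [show 60 * D = 15 * (4 * D) by ring, pow_mul _ 15, ← mul_pow]; ring
          _ ≤ ((t ^ h : ℕ) : ℝ) ^ (60 * D) * (1000 * (D * β)) ^ (4 * D) := by gcongr; norm_num
          _ ≤ ((t ^ h : ℕ) : ℝ) ^ (60 * D) * (1000 * (D * β)) ^ (12 * D) := by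
              gcongr
              · linarith
              · norm_num
          _ ≤ _ := by rw [← mul_assoc 1000]; gcongr
      have e2 : 4 * t ^ (a * h + 1) * (2 * P ^ D * ((t ^ h) ^ (60 * D) * t)) ≤ R'.card := by
        calc _ ≤ 4 * t ^ (a * h + 1) * (2 * (2 * (t ^ h) ^ (61 * D)) ^ D *
              ((t ^ h) ^ (60 * D) * t)) := by gcongr
          _ = (8 * 2 ^ D) * t ^ (a * h + 2 + (61 * D ^ 2 + 60 * D) * h) := by
              rw [mul_pow]; simp only [← pow_mul]; ring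
          _ ≤ t ^ w := mk_cmul ht1 (by omega) (by omega)
          _ ≤ _ := hN'
      have e3 := (Nat.cast_le (α := ℝ)).2 e2
      refine le_trans ?_ e3
      push_cast at e1 ⊢
      gcongr)
  have hC' : (((R' ×ˢ R').filter fun y => y.1 ≠ y.2 ∧
      Cls J ρ (t ^ h) (hm y.1) (hm y.2)).card : ℝ) ≤
      2 * ((R'.card : ℝ) * t ^ (E + 4)) ^ 2 * (t / t ^ (4 * E + 17)) := by
    refine le_trans (Nat.cast_le.2 (card_le_card (filter_subset_filter _
      (product_subset_product hsub hsub)))) (hC.trans ?_)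
    have : (R.card : ℝ) ≤ (R'.card : ℝ) * t ^ (E + 4) := by exact_mod_cast hB.le
    gcongr
  have c0 : ((t ^ h : ℕ) : ℝ) ^ (60 * D) / P ≤ 1 / t ^ h := by
    have hP0 : (0 : ℝ) < P := by exact_mod_cast hP.pos
    rw [div_le_div_iff₀ hP0 (by positivity), one_mul]
    have : (t ^ h) ^ (60 * D) * t ^ h ≤ P := by
      rw [← pow_succ]
      exact (Nat.pow_le_pow_right hH1 (by omega)).trans hP1.le
    exact_mod_cast this
  have c1 : 128 * ((t : ℝ) ^ (a * h + 1)) ^ 2 * t * ((t : ℝ) ^ (E + 4)) ^ 2 *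
      (t / t ^ (4 * E + 17)) ≤ R'.card := by
    rw [← mul_div_assoc, div_le_iff₀ (by positivity)]
    have : 128 * (t ^ (a * h + 1)) ^ 2 * t * (t ^ (E + 4)) ^ 2 * t ≤
        R'.card * t ^ (4 * E + 17) := by
      calc _ = 128 * t ^ (2 * (a * h) + 2 * E + 12) := by ring
        _ ≤ t ^ (w + (4 * E + 17)) := mk_cmul ht1 (by omega) (by omega)
        _ ≤ _ := by rw [pow_add]; exact Nat.mul_le_mul_right _ hN'
    exact_mod_cast this
  have c2 : 64 * ((t : ℝ) ^ (a * h + 1)) ^ 2 * t * (1 / t ^ h) ≤ R'.card := by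
    rw [mul_one_div, div_le_iff₀ (by positivity)]
    have : 64 * (t ^ (a * h + 1)) ^ 2 * t ≤ R'.card * t ^ h := by
      calc _ = 64 * t ^ (2 * (a * h) + 3) := by ring
        _ ≤ t ^ (w + h) := mk_cmul ht1 (by omega) (by omega)
        _ ≤ _ := by rw [pow_add]; exact Nat.mul_le_mul_right _ hN'
    exact_mod_cast this
  have hA0 : (0 : ℝ) < (t : ℝ) ^ (a * h + 1) := by positivity
  rw [div_mul_cancel₀ _ hN0.ne', Nat.cast_pow t (a * h + 1)] at hb1
  have hc0 : (0 : ℝ) ≤ ((t ^ h : ℕ) : ℝ) ^ (60 * D) / P := by positivity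
  have hT0 := Nat.cast_nonneg (α := ℝ) ((R' ×ˢ R').filter fun y => y.1 ≠ y.2 ∧
      Cls J ρ (t ^ h) (hm y.1) (hm y.2)).card
  generalize (((R' ×ˢ R').filter fun y => y.1 ≠ y.2 ∧
      Cls J ρ (t ^ h) (hm y.1) (hm y.2)).card : ℝ) = Tp at *
  generalize ((t ^ h : ℕ) : ℝ) ^ (60 * D) / P = c at *
  generalize (t : ℝ) / t ^ (4 * E + 17) = v at *
  generalize 1 / (t : ℝ) ^ h = v' at *
  generalize (t : ℝ) ^ (a * h + 1) = A at *
  generalize (t : ℝ) ^ (E + 4) = W at *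
  generalize (R'.card : ℝ) = N at *
  have c4 : (4 * A / N) ^ 3 * ((1000 * D * β) ^ (12 * D) * (Tp + c * N ^ 2)) ≤ 2 * A := by
    calc _ ≤ (4 * A / N) ^ 3 * (t * (2 * (N * W) ^ 2 * v + v' * N ^ 2)) := by gcongr
      _ = A * ((128 * A ^ 2 * t * W ^ 2 * v + 64 * A ^ 2 * t * v') / N) := by field_simp; ring
      _ ≤ A * 2 := by gcongr; rw [div_le_iff₀ hN0]; linarith
      _ = _ := by ring
  linarith

end Pool.Agent.Lib.MP_a147dc_co.B
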