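import Pool.Agent.Lib.MP_a147dc_co.B.MainB

/-! The iteration and the choice of scales. -/

namespace Pool.Agent.Lib.MP_a147dc_co.B

open Finset NumberField Module Polynomial

section

variable {K : Type*} [Field K] [NumberField K]

open Classical in
lemma mk_iter {S : Finset (K × K)} {D a t h L l m : ℕ} {β : ℝ} (hD : finrank ℚ K ≤ D)
    (ha : 61 * D ^ 2 + 60 * D + 1 ≤ a)
    (hm1 : 1 ≤ m) (hl : 1 ≤ l) (hml : m ≤ 2 ^ l) (hL : 3 * D ^ 2 * l ≤ L)
    (hS : ∀ p ∈ S, Hgt m p) (h4 : No4K S) (hα : ∀ G ⊆ S, GPK G → G.card ≤ t ^ (a * h + 1))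
    (hΓ : ∀ k : ℕ, k.factorial ≤ ((2 * m ^ 2) ^ D) ^ (D + 1) →
      300 * (L : ℝ) * (L + 1) * ((1200 * (L : ℝ)) ^ k / k.factorial) ≤ t)
    (hβ : 1 ≤ β) (k : IntermediateField ℚ K) (θ : Fin (finrank ℚ k) → 𝓞 k)
    (hθ : LinearIndependent ℚ fun i => (θ i : k)) (hb : ∀ i, Bd β (θ i : k))
    (hk : ∀ x : K, IsIntegral ℤ x → Bd (((t ^ h) ^ 10 : ℕ) : ℝ) x → x ∈ k)
    (hβt : (1000 * D * β) ^ (12 * D) ≤ t) (n : ℕ) :
    ∀ E, 200 * D * ((fun E => 17 * E + 69)^[n] E + 5) ≤ h → ∀ R ⊆ S, ∀ J : Ideal (𝓞 K), J ≠ ⊥ →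
      ∀ ρ : (K →+* ℂ) → ℝ, (∀ σ, 0 < ρ σ) → St R J ρ →
      (m : ℝ) ^ (2 * finrank ℚ K) * ∏ σ, ρ σ < Ideal.absNorm J * (((t ^ h : ℕ) : ℝ) / 3) ^ n →
      R.card ≤ t ^ (2 * (a * h) - E) := by
  have hD1 : 1 ≤ D := le_trans finrank_pos hD
  have ht0 : (1000 * D) ^ (12 * D) ≤ t := by
    have : ((1000 : ℝ) * D) ^ (12 * D) ≤ t := by
      refine le_trans ?_ hβt
      exact pow_le_pow_left₀ (by positivity) (le_mul_of_one_le_right (by positivity) hβ) _
    exact_mod_cast this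
  have ht1 : 40000 * D ^ 2 ≤ t := by
    calc _ ≤ (1000 * D) ^ 2 := by rw [mul_pow]; gcongr; norm_num
      _ ≤ (1000 * D) ^ (12 * D) := Nat.pow_le_pow_right (by omega) (by omega)
      _ ≤ t := ht0
  have ht2 : 128 * 2 ^ D ≤ t := by
    calc _ = 2 ^ (7 + D) := by rw [pow_add]; norm_num
      _ ≤ 2 ^ (12 * D) := Nat.pow_le_pow_right (by omega) (by omega)
      _ ≤ (1000 * D) ^ (12 * D) := Nat.pow_le_pow_left (by omega) _
      _ ≤ t := ht0
  have h2D : 1 ≤ 2 ^ D := Nat.one_le_two_pow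
  have ha1 : 1 ≤ a := by omega
  have hah : h ≤ a * h := Nat.le_mul_of_pos_left _ ha1
  have hH1 : 1 ≤ t ^ h := Nat.one_le_pow _ _ (by omega)
  have hHr : (1 : ℝ) ≤ ((t ^ h : ℕ) : ℝ) := by exact_mod_cast hH1
  have hmono : ∀ n E, E ≤ (fun E => 17 * E + 69)^[n] E := by
    intro n
    induction n with
    | zero => simp
    | succ n ih =>
      intro E
      rw [Function.iterate_succ_apply]
      exact le_trans (by omega) (ih _)
  induction n with
  | zero =>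
    intro E _ R hR J _ ρ _ hSt hpot
    refine le_trans (card_le_one.2 fun x hx z hz => ?_) (Nat.one_le_pow _ _ (by omega))
    by_contra hne
    have := (pot_ge (hS x (hR hx)) (hS z (hR hz)) hne (hSt x hx z hz).1 (hSt x hx z hz).2).2
    rw [pow_zero, mul_one] at hpot
    linarith
  | succ n ih =>
    intro E hE R hR J hJ ρ hρ hSt hpot
    rw [Function.iterate_succ_apply] at hE
    have h1 := hmono n (17 * E + 69)
    have hE' : 200 * D * (17 * E + 69 + 5) ≤ h := le_trans (by gcongr) hE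
    have hE2 : 200 * (17 * E + 69 + 5) ≤ h :=
      le_trans (Nat.mul_le_mul_right _ (by omega)) hE'
    by_contra hN
    push Not at hN
    have hC := mk_close (E := E) (x := 2 * (a * h) - (17 * E + 69)) (y := 2 * (a * h) - E) hD ht1
      ha1 (le_trans (by gcongr; omega) hE') (by omega) (by omega) hm1 hl hml hL hS h4 hα hΓ hR hJ
      hSt (fun p _ B hB => ?_) (fun p _ σ => ?_) hN
    · by_cases hB : ∀ p ∈ R, (R.filter fun q => Near ((t ^ h) ^ 2) (hm p) (hm q)).card *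
          t ^ (E + 4) ≤ R.card
      · exact mk_caseA (u := a * h) (by omega) (by omega) (by omega) hH1 (h4.mono hR)
          (fun G hG => hα G (hG.trans hR)) hJ hρ hSt hC hB hN
      · push Not at hB
        obtain ⟨p, -, hp⟩ := hB
        exact mk_caseB hD ht2 ha (by omega) (by omega) (h4.mono hR)
          (fun G hG => hα G (hG.trans hR)) hβ k θ hθ hb hk hβt hJ hρ hSt hC hp hN
    · have hB0 : B ≠ ⊥ := by rintro rfl; rw [Ideal.absNorm_bot] at hB; omega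
      refine ih _ hE _ ((filter_subset _ _).trans hR) (J * B) (mul_ne_zero hJ hB0) ρ hρ
        (fun x hx z hz => ⟨(mem_filter.1 hx).2.symm.trans (hm_ne p) (mem_filter.1 hz).2,
          (hSt x (mem_filter.1 hx).1 z (mem_filter.1 hz).1).2⟩) (hpot.trans_le ?_)
      have : ((t ^ h : ℕ) : ℝ) / 3 ≤ Ideal.absNorm B := by
        have : ((t ^ h : ℕ) : ℝ) ≤ Ideal.absNorm B := by exact_mod_cast hB
        linarith
      rw [map_mul, Nat.cast_mul, pow_succ', ← mul_assoc]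
      gcongr
    · refine ih _ hE _ ((filter_subset _ _).trans hR) J hJ
        (Function.update ρ σ (3 * (ρ σ / ((t ^ h : ℕ) : ℝ)))) (fun τ => ?_)
        (fun x hx z hz => ⟨(hSt x (mem_filter.1 hx).1 z (mem_filter.1 hz).1).1, fun τ => ?_⟩) ?_
      · rcases eq_or_ne τ σ with rfl | hτ
        · rw [Function.update_self]; have := hρ τ; positivity
        · rw [Function.update_of_ne hτ]; exact hρ τ
      · rcases eq_or_ne τ σ with rfl | hτ
        · rw [Function.update_self]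
          exact AC.tri (hm_ne p) (mem_filter.1 hx).2 (mem_filter.1 hz).2
        · rw [Function.update_of_ne hτ]
          exact (hSt x (mem_filter.1 hx).1 z (mem_filter.1 hz).1).2 τ
      · rw [prod_update_of_mem (mem_univ σ)]
        rw [← mul_prod_erase univ ρ (mem_univ σ), ← sdiff_singleton_eq_erase, pow_succ] at hpot
        have h3 : (0 : ℝ) < ((t ^ h : ℕ) : ℝ) / 3 := by positivity
        refine lt_of_mul_lt_mul_right ?_ h3.le
        refine lt_of_eq_of_lt ?_ (hpot.trans_eq (by ring))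
        field_simp

end

lemma mk_core (D C a : ℕ) : ∃ h t₀ : ℕ, 1 ≤ h ∧ (61 * D ^ 2 + 60 * D + 1 ≤ a → ∀ t ≥ t₀,
    ∀ (K : Type) [Field K] [NumberField K], finrank ℚ K ≤ D → ∀ (S : Finset (K × K)) (m : ℕ),
      m ≤ t ^ ((2 * (a * h) + 1) * C) → (∀ p ∈ S, Hgt m p) → No4K S →
      (∀ G ⊆ S, GPK G → G.card ≤ t ^ (a * h + 1)) →
      ∀ (β : ℝ), 1 ≤ β → ∀ (k : IntermediateField ℚ K) (θ : Fin (finrank ℚ k) → 𝓞 k),
      (LinearIndependent ℚ fun i => (θ i : k)) → (∀ i, Bd β (θ i : k)) →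
      (∀ x : K, IsIntegral ℤ x → Bd (((t ^ h) ^ 10 : ℕ) : ℝ) x → x ∈ k) →
      (1000 * D * β) ^ (12 * D) ≤ t → S.card ≤ t ^ (2 * (a * h) - 1)) := by
  obtain ⟨n, hn⟩ : ∃ n, n = 2 * ((2 * ((2 * a + 1) * C) + 1) * D) := ⟨_, rfl⟩
  obtain ⟨h, hh⟩ : ∃ h, h = 200 * D * ((fun E => 17 * E + 69)^[n] 1 + 5) + 2 := ⟨_, rfl⟩
  obtain ⟨M, hM⟩ : ∃ M, M = (2 * (a * h) + 1) * C := ⟨_, rfl⟩
  obtain ⟨t₀, ht₀⟩ := gamma_bound (3 * D ^ 2 * (M + 1) + ((2 * M + 1) * D * (D + 1) + 1))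
    (by omega)
  refine ⟨h, t₀ + 4, by omega, fun ha t ht K _ _ hD S m hm hS h4 hα β hβ k θ hθ hb hk hβt => ?_⟩
  rw [← hM] at hm
  have hD1 : 1 ≤ D := le_trans finrank_pos hD
  have hM1 : 1 ≤ t ^ M := Nat.one_le_pow _ _ (by omega)
  have h2 : 2 * (t ^ M) ^ 2 ≤ t ^ (2 * M + 1) := by
    rw [← pow_mul]; exact mk_cmul (by omega) (by omega) (by omega)
  refine mk_iter (m := t ^ M) (l := (M + 1) * (Nat.log 2 t + 1)) hD ha hM1
    (Nat.mul_pos (by omega) (by omega)) ?_ ?_ (fun p hp => (hS p hp).mono hm) h4 hα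
    (fun j hj => ht₀ t (by omega) j (hj.trans ?_)) hβ k θ hθ hb hk hβt n 1 (by omega) S
    Subset.rfl ⊤ (by simp) (fun _ => 2) (fun _ => by norm_num)
    (fun p _ q _ => ⟨PC_top _ _, fun σ => AC_two σ _ _⟩) ?_
  · rw [mul_comm (M + 1), pow_mul 2]
    calc t ^ M ≤ t ^ (M + 1) := Nat.pow_le_pow_right (by omega) (by omega)
      _ ≤ _ := Nat.pow_le_pow_left (Nat.lt_pow_succ_log_self (by norm_num) t).le _
  · rw [← mul_assoc]
    exact Nat.mul_le_mul_right _ (by omega)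
  · calc _ ≤ ((t ^ (2 * M + 1)) ^ D) ^ (D + 1) := by gcongr
      _ = t ^ ((2 * M + 1) * D * (D + 1)) := by rw [← pow_mul, ← pow_mul, mul_assoc]
      _ ≤ _ := Nat.pow_le_pow_right (by omega) (by omega)
  · obtain ⟨g, rfl⟩ : ∃ g, h = g + 1 := ⟨h - 1, by omega⟩
    have htr : (4 : ℝ) ≤ t := by exact_mod_cast (by omega : 4 ≤ t)
    have e1 : (2 * M + 1) * D ≤ g * n := by
      have a1 : M ≤ (2 * a + 1) * C * (g + 1) := by rw [hM]; nlinarith [Nat.zero_le (g * C)]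
      have a2 : 2 * M + 1 ≤ (2 * ((2 * a + 1) * C) + 1) * (g + 1) := by nlinarith
      have a3 : g + 1 ≤ g * 2 := by omega
      calc _ ≤ (2 * ((2 * a + 1) * C) + 1) * (g * 2) * D := by gcongr; exact a2.trans (by gcongr)
        _ = _ := by rw [hn]; ring
    have e2 : ((t ^ M) ^ (2 * finrank ℚ K) * 2 ^ finrank ℚ K : ℕ) ≤ (t ^ g) ^ n := by
      calc _ = (2 * (t ^ M) ^ 2) ^ finrank ℚ K := by rw [mul_pow, ← pow_mul (t ^ M), mul_comm]
        _ ≤ (t ^ (2 * M + 1)) ^ finrank ℚ K := by gcongr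
        _ ≤ (t ^ (2 * M + 1)) ^ D :=
            Nat.pow_le_pow_right (Nat.one_le_pow _ _ (by omega)) hD
        _ ≤ _ := by rw [← pow_mul, ← pow_mul]; exact Nat.pow_le_pow_right (by omega) e1
    have e3 := (Nat.cast_le (α := ℝ)).2 e2
    have hn0 : n ≠ 0 := by rw [hn]; positivity
    rw [prod_const, card_univ, Embeddings.card K ℂ, Ideal.absNorm_top, Nat.cast_one, one_mul]
    push_cast at e3 ⊢
    refine e3.trans_lt (pow_lt_pow_left₀ ?_ (by positivity) hn0)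
    have : (0 : ℝ) < (t : ℝ) ^ g := by positivity
    rw [pow_succ]; nlinarith

theorem main_K (D C : ℕ) : ∃ ε : ℝ, 0 < ε ∧ ε ≤ 1 / 4 ∧ ∃ n₀ : ℕ,
    ∀ (K : Type) [Field K] [NumberField K], finrank ℚ K ≤ D → ∀ (S : Finset (K × K)) (m : ℕ),
      n₀ ≤ S.card → m ≤ S.card ^ C → (∀ p ∈ S, Hgt m p) → No4K S →
      ∃ G ⊆ S, GPK G ∧ (S.card : ℝ) ^ (1 / 2 + ε) ≤ G.card := by
  choose hf t₀ hf1 hcore using mk_core D C
  obtain ⟨a, a0, as⟩ : ∃ a : ℕ → ℕ, a 0 = 61 * D ^ 2 + 60 * D + 1 ∧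
      ∀ j, a (j + 1) = 120 * D * (2 * (a j * hf (a j)) + 1) :=
    ⟨fun j => (fun a => 120 * D * (2 * (a * hf a) + 1))^[j] (61 * D ^ 2 + 60 * D + 1), rfl,
      fun j => Function.iterate_succ_apply' _ _ _⟩
  obtain ⟨N, hN⟩ : ∃ N : ℕ → ℕ, ∀ j, N j = 2 * (a j * hf (a j)) := ⟨_, fun _ => rfl⟩
  obtain ⟨s₀, hs₀⟩ : ∃ s : ℕ, s = ∑ j ∈ range D, (N j + 1) + 2 := ⟨_, rfl⟩
  have hsr : (2 : ℝ) ≤ s₀ := by exact_mod_cast (by omega : 2 ≤ s₀)
  refine ⟨1 / (2 * s₀), by positivity, one_div_le_one_div_of_le (by norm_num) (by linarith),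
    ∑ j ∈ range D, (t₀ (a j) + 2 ^ N j + (1000 * D) ^ (24 * D)) ^ N j + 1,
    fun K _ _ hD S m hn hm hS h4 => ?_⟩
  have hD1 : 1 ≤ D := le_trans finrank_pos hD
  have ha : ∀ j, 61 * D ^ 2 + 60 * D + 1 ≤ a j := by
    intro j
    induction j with
    | zero => exact a0.ge
    | succ j ih =>
      have h1 : a j ≤ a j * hf (a j) := Nat.le_mul_of_pos_right _ (hf1 _)
      rw [as]
      exact le_trans (by omega) (Nat.le_mul_of_pos_left _ (by omega))
  have hN0 : ∀ j, N j ≠ 0 := fun j => by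
    have := Nat.mul_pos (lt_of_lt_of_le (by omega) (ha j)) (hf1 (a j))
    rw [hN]; omega
  obtain ⟨t, t1, t2, t3⟩ : ∃ t : ℕ → ℕ, (∀ j, t j ^ N j ≤ S.card) ∧
      (∀ j, S.card < (t j + 1) ^ N j) ∧ ∀ j x, x ^ N j ≤ S.card → x ≤ t j :=
    ⟨fun j => Nat.nthRoot (N j) S.card, fun j => Nat.pow_nthRoot_le (Or.inl (hN0 j)),
      fun j => Nat.lt_pow_nthRoot_add_one (hN0 j) _, fun j x => (Nat.le_nthRoot_iff (hN0 j)).2⟩
  have tpos : ∀ j, 1 ≤ t j := fun j => t3 j 1 (by rw [one_pow]; omega)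
  have t4 : ∀ j < D, t₀ (a j) + 2 ^ N j + (1000 * D) ^ (24 * D) ≤ t j := fun j hj =>
    t3 j _ (le_trans (single_le_sum (f := fun j => (t₀ (a j) + 2 ^ N j +
      (1000 * D) ^ (24 * D)) ^ N j) (fun _ _ => Nat.zero_le _) (mem_range.2 hj))
      (le_trans (Nat.le_succ _) hn))
  have t5 : ∀ j < D, S.card ≤ t j ^ (N j + 1) := fun j hj => by
    have := tpos j
    calc S.card ≤ (2 * t j) ^ N j := (t2 j).le.trans (Nat.pow_le_pow_left (by omega) _)
      _ = 2 ^ N j * t j ^ N j := mul_pow _ _ _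
      _ ≤ _ := mk_cmul this (le_trans ((Nat.le_add_left _ _).trans (Nat.le_add_right _ _))
          (t4 j hj)) le_rfl
  have hU : ∀ j < D, ((t (j + 1) ^ hf (a (j + 1))) ^ 10) ^ (24 * D) ≤ t j := fun j hj => by
    apply (Nat.pow_le_pow_iff_left (n := 5 * (N j + 1)) (by omega)).1
    calc _ = (t (j + 1) ^ N (j + 1)) ^ 5 := by
          simp only [← pow_mul]
          congr 1
          rw [hN (j + 1), hN j]
          nth_rewrite 2 [as j]
          ring
      _ ≤ (t j ^ (N j + 1)) ^ 5 := Nat.pow_le_pow_left ((t1 _).trans (t5 j hj)) _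
      _ = _ := by rw [← pow_mul, mul_comm]
  have hU1 : ∀ j, 1 ≤ (t j ^ hf (a j)) ^ 10 := fun j =>
    Nat.one_le_pow _ _ (Nat.one_le_pow _ _ (tpos j))
  obtain ⟨j, hj, k, θ, hθ, hb, hk⟩ := chain hD (fun j => (t j ^ hf (a j)) ^ 10) hU1 (fun j hj => by
    calc _ ≤ ((t (j + 1) ^ hf (a (j + 1))) ^ 10) ^ (24 * D) :=
          Nat.pow_le_pow_right (hU1 _) (by omega)
      _ ≤ t j := hU j hj
      _ ≤ _ := by
          rw [← pow_mul]
          exact Nat.le_self_pow (Nat.mul_ne_zero (by have := hf1 (a j); omega) (by norm_num)) _)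
  by_contra hc
  push Not at hc
  have hα : ∀ G ⊆ S, GPK G → G.card ≤ t j ^ (a j * hf (a j) + 1) := by
    intro G hG hGP
    have h1 := hc G hG hGP
    have hle : ((N j + 1 : ℕ) : ℝ) ≤ s₀ := by
      have := single_le_sum (f := fun j => N j + 1) (fun _ _ => Nat.zero_le _) (mem_range.2 hj)
      exact_mod_cast (by omega : N j + 1 ≤ s₀)
    have htr : (1 : ℝ) ≤ t j := by exact_mod_cast tpos j
    have h2 : (S.card : ℝ) ^ (1 / 2 + 1 / (2 * s₀) : ℝ) ≤ (t j : ℝ) ^ (a j * hf (a j) + 1) := by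
      calc _ ≤ ((t j : ℝ) ^ (N j + 1)) ^ (1 / 2 + 1 / (2 * s₀) : ℝ) :=
            Real.rpow_le_rpow (by positivity) (by exact_mod_cast t5 j hj) (by positivity)
        _ ≤ _ := by
            rw [← Real.rpow_natCast, ← Real.rpow_mul (by positivity), ← Real.rpow_natCast]
            apply Real.rpow_le_rpow_of_exponent_le htr
            have e1 : ((N j + 1 : ℕ) : ℝ) * (1 / (2 * s₀)) ≤ 1 / 2 := by
              rw [mul_one_div, div_le_iff₀ (by positivity)]; linarith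
            have e2 : ((N j + 1 : ℕ) : ℝ) = 2 * ((a j * hf (a j) : ℕ) : ℝ) + 1 := by
              rw [hN]; push_cast; ring
            rw [mul_add, Nat.cast_add (a j * hf (a j))]
            push_cast at e1 e2 ⊢
            linarith
    exact_mod_cast (h1.trans_le h2).le
  have t6 := t4 j hj
  have := hcore (a j) (ha j) (t j) (le_trans ((Nat.le_add_right _ _).trans (Nat.le_add_right _ _))
    t6) K hD S m (by
      rw [pow_mul, ← hN]; exact hm.trans (Nat.pow_le_pow_left (t5 j hj) _)) hS h4 hα _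
    (by exact_mod_cast hU1 (j + 1)) k θ hθ hb hk (by
      have : (1000 * D * (t (j + 1) ^ hf (a (j + 1))) ^ 10) ^ (12 * D) ≤ t j := by
        apply (Nat.pow_le_pow_iff_left (n := 2) (by norm_num)).1
        rw [← pow_mul, show 12 * D * 2 = 24 * D by ring, mul_pow, sq]
        exact Nat.mul_le_mul (le_trans (Nat.le_add_left _ _) t6) (hU j hj)
      exact_mod_cast this)
  rw [← hN] at this
  have h2 : 2 ≤ t j := by
    have : 2 ^ 1 ≤ 2 ^ N j := Nat.pow_le_pow_right (by norm_num) (Nat.pos_of_ne_zero (hN0 j))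
    exact le_trans (this.trans ((Nat.le_add_left _ _).trans (Nat.le_add_right _ _))) t6
  have h3 : t j ^ (N j - 1) < t j ^ N j :=
    Nat.pow_lt_pow_right h2 (by have := hN0 j; omega)
  have := t1 j
  omega

end Pool.Agent.Lib.MP_a147dc_co.B
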