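import Pool.Agent.Lib.MP_a147dc_co.B.SpecA0

/-! Specialisation of real parameters: one variable is removed. -/

namespace Pool.Agent.Lib.MP_a147dc_co.B

open Finset NumberField Module Polynomial Filter
open scoped nonZeroDivisors

/-- one polynomial of the family against the minimal polynomial -/
lemma spec_one {τ : Type*} {B : ℕ} (hB : 2 ≤ B) (φ : MvPolynomial τ ℤ →+* ℝ) (y : ℝ) {k κ : ℕ}
    {P p : (MvPolynomial τ ℤ)[X]} (hP : P.natDegree ≤ k) (hPs : ∀ j, SpSm B k (P.coeff j))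
    (hp : p.natDegree ≤ k) (hp1 : 1 ≤ p.natDegree) (hps : ∀ j, SpSm B κ (p.coeff j))
    (hl : φ p.leadingCoeff ≠ 0) (hy : p.eval₂ φ y = 0)
    (hmin : ∀ u : (MvPolynomial τ ℤ)[X],
      (∀ j, SpSm B ((2 * k + 2) * (κ + k + (2 * k + 2))) (u.coeff j)) → φ u.leadingCoeff ≠ 0 →
        u.eval₂ φ y = 0 → p.natDegree ≤ u.natDegree) :
    ∃ (c : MvPolynomial τ ℤ) (G : (MvPolynomial τ ℤ)[X]),
      SpSm B ((2 * k + 2) * (κ + k + (2 * k + 2))) c ∧ G.natDegree ≤ 2 * k + 1 ∧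
      (∀ j, SpSm B ((2 * k + 2) * (κ + k + (2 * k + 2)) + (κ + k) + (2 * k + 1 + 1) + 1 + 1)
        (G.coeff j)) ∧ φ c ≠ 0 ∧ G.map φ = 0 ∧
      ∀ (ψ : MvPolynomial τ ℤ →+* AlgebraicClosure ℚ) (y' : AlgebraicClosure ℚ), ψ c ≠ 0 →
        G.map ψ = 0 → p.eval₂ ψ y' = 0 → (P.eval₂ φ y = 0 ↔ P.eval₂ ψ y' = 0) := by
  obtain ⟨g, hg⟩ : ∃ g, g = (2 * k + 2) * (κ + k + (2 * k + 2)) := ⟨_, rfl⟩
  have hPs' : ∀ j, SpSm B (κ + k) (P.coeff j) := fun j => (hPs j).mono hB (Nat.le_add_left _ _)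
  have hps' : ∀ j, SpSm B (κ + k) (p.coeff j) := fun j => (hps j).mono hB (Nat.le_add_right _ _)
  have hp0 : p.map φ ≠ 0 := fun h => hl (by rw [leadingCoeff, ← coeff_map, h, coeff_zero])
  have hM : ∀ u : (MvPolynomial τ ℤ)[X], (∀ j, SpSm B g (u.coeff j)) →
      (∀ j, p.natDegree ≤ j → u.coeff j = 0) → u.eval₂ φ y = 0 → u.map φ = 0 := fun u a b c => by
    by_contra h
    obtain ⟨u', b1, b2, b3, b4⟩ := spec_trunc φ h
    have := hmin u' (fun j => by
      rcases b4 j with h | h <;> rw [h]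
      exacts [hg ▸ a j, spSm_zero _]) b2 (by rwa [eval₂_eq_eval_map, b1, ← eval₂_eq_eval_map])
    refine leadingCoeff_ne_zero.2 h ?_
    rw [leadingCoeff, coeff_map, b _ (b3 ▸ this), map_zero]
  have hd : ∀ (u Q : (MvPolynomial τ ℤ)[X]) (n : ℕ), (∀ j, n ≤ j → u.coeff j = 0) → n ≤ k + 1 →
      Q.natDegree ≤ k → (u * Q).natDegree ≤ 2 * k + 1 := fun u Q n a b c => by
    have : u.natDegree ≤ n := natDegree_le_iff_coeff_eq_zero.2 fun j hj => a j hj.le
    exact natDegree_mul_le.trans (by omega)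
  have hs : ∀ u v : (MvPolynomial τ ℤ)[X], (∀ j, SpSm B g (u.coeff j)) →
      (∀ j, SpSm B g (v.coeff j)) → (u * P).natDegree ≤ 2 * k + 1 →
      (v * p).natDegree ≤ 2 * k + 1 →
      ∀ j, SpSm B (g + (κ + k) + (2 * k + 1 + 1) + 1) ((u * P + v * p).coeff j) :=
    fun u v a b c d j => by
      rw [coeff_add]
      exact (spSm_coeff_mul hB a hPs' c j).add hB (spSm_coeff_mul hB b hps' d j)
  have hC : ∀ u : (MvPolynomial τ ℤ)[X], (∀ j, 1 ≤ j → u.coeff j = 0) → u = C (u.coeff 0) :=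
    fun u a => eq_C_of_natDegree_eq_zero
      (Nat.le_zero.1 (natDegree_le_iff_coeff_eq_zero.2 fun j hj => a j hj))
  by_cases h : P.eval₂ φ y = 0
  · obtain ⟨u, v, w, a1, a2, a3, a4, a5, a6⟩ := spec_three hB φ (n₁ := 1) (n₂ := k + 1)
      (n₃ := p.natDegree) (N := k + p.natDegree + 1) (n := 2 * k + 2) hPs' hps' (by omega)
      (by omega) (by omega) (by omega) (by omega)
    rw [← hg] at a1 ⊢
    have hw : w.map φ = 0 := hM w (fun j => (a1 j).2.2) a4 (by
      have := congrArg (eval y) a6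
      rwa [← eval₂_eq_eval_map, eval₂_add, eval₂_add, eval₂_mul, eval₂_mul, h, hy, mul_zero,
        mul_zero, zero_add, zero_add, eval_zero] at this)
    rw [Polynomial.map_add, hw, add_zero] at a6
    have d1 := hd u P 1 a2 (by omega) hP
    have d2 := hd v p _ a3 le_rfl hp
    refine ⟨u.coeff 0, u * P + v * p, (a1 0).1, (natDegree_add_le _ _).trans (max_le d1 d2),
      fun j => (hs u v (fun j => (a1 j).1) (fun j => (a1 j).2.1) d1 d2 j).mono hB (Nat.le_succ _),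
      fun h0 => ?_, a6, fun ψ y' b1 b2 b3 => iff_of_true h ?_⟩
    · have hu : u.map φ = 0 := by rw [hC u a2, map_C, h0, map_zero]
      rw [Polynomial.map_add, Polynomial.map_mul, Polynomial.map_mul, hu, zero_mul, zero_add] at a6
      exact a5 hu ((mul_eq_zero.1 a6).resolve_right hp0) hw
    · have := congrArg (eval y') b2
      rw [← eval₂_eq_eval_map, eval₂_add, eval₂_mul, eval₂_mul, b3, mul_zero, add_zero, hC u a2,
        eval₂_C, eval_zero] at this
      exact (mul_eq_zero.1 this).resolve_left b1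
  · obtain ⟨u, v, w, a1, a2, a3, a4, a5, a6⟩ := spec_three hB φ (n₁ := p.natDegree) (n₂ := k)
      (n₃ := 1) (N := k + p.natDegree) (n := 2 * k + 2) hPs' hps' (by omega)
      (by omega) (by omega) (by omega) (by omega)
    rw [← hg] at a1 ⊢
    have d1 := hd u P _ a2 (by omega) hP
    have d2 := hd v p _ a3 (by omega) hp
    have d3 : w.natDegree ≤ 2 * k + 1 :=
      natDegree_le_iff_coeff_eq_zero.2 fun j hj => a4 j (by omega)
    refine ⟨w.coeff 0, u * P + v * p + w, (a1 0).2.2, (natDegree_add_le _ _).trans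
      (max_le ((natDegree_add_le _ _).trans (max_le d1 d2)) d3), fun j => ?_,
      fun h0 => ?_, a6, fun ψ y' b1 b2 b3 => iff_of_false h fun b4 => b1 ?_⟩
    · rw [coeff_add]
      exact (hs u v (fun j => (a1 j).1) (fun j => (a1 j).2.1) d1 d2 j).add hB
        ((a1 j).2.2.mono hB (by omega))
    · have hw : w.map φ = 0 := by rw [hC w a4, map_C, h0, map_zero]
      rw [Polynomial.map_add, hw, add_zero] at a6
      have hu : u.map φ = 0 := hM u (fun j => (a1 j).1) a2 (by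
        have := congrArg (eval y) a6
        rw [← eval₂_eq_eval_map, eval₂_add, eval₂_mul, eval₂_mul, hy, mul_zero, add_zero,
          eval_zero] at this
        exact (mul_eq_zero.1 this).resolve_right h)
      rw [Polynomial.map_add, Polynomial.map_mul, Polynomial.map_mul, hu, zero_mul, zero_add] at a6
      exact a5 hu ((mul_eq_zero.1 a6).resolve_right hp0) hw
    · have := congrArg (eval y') b2
      rwa [← eval₂_eq_eval_map, eval₂_add, eval₂_add, eval₂_mul, eval₂_mul, b3, b4, mul_zero,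
        mul_zero, zero_add, zero_add, hC w a4, eval₂_C, eval_zero] at this

lemma spec_map_iff {A L L' : Type*} [CommRing A] [Field L] [Field L'] {φ : A →+* L} {ψ : A →+* L'}
    {G : A[X]} {D : ℕ} (hD : G.natDegree ≤ D)
    (h : ∀ j < D + 1, φ (G.coeff j) = 0 ↔ ψ (G.coeff j) = 0) : G.map φ = 0 ↔ G.map ψ = 0 := by
  simp only [Polynomial.ext_iff, coeff_map, coeff_zero]
  refine forall_congr' fun j => ?_
  rcases lt_or_ge j (D + 1) with hj | hj
  · exact h j hj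
  · rw [coeff_eq_zero_of_natDegree_lt (by omega), map_zero, map_zero]
    exact iff_of_true rfl rfl

theorem spec_step (s k : ℕ) : ∃ k' : ℕ, ∀ B : ℕ, 2 ≤ B →
    ∀ F : Finset (MvPolynomial (Fin s) ℤ)[X], F.card ≤ B ^ k →
    (∀ P ∈ F, P.natDegree ≤ k ∧ ∀ j, (P.coeff j).totalDegree ≤ k ∧ l1 (P.coeff j) ≤ B ^ k) →
    ∀ (z : Fin s → ℝ) (y : ℝ),
    ∃ (F' : Finset (MvPolynomial (Fin s) ℤ)) (p : (MvPolynomial (Fin s) ℤ)[X]),
      F'.card ≤ B ^ k' ∧ (∀ P ∈ F', P.totalDegree ≤ k' ∧ l1 P ≤ B ^ k') ∧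
      1 ≤ p.natDegree ∧ p.natDegree ≤ k' ∧
      (∀ j, (p.coeff j).totalDegree ≤ k' ∧ l1 (p.coeff j) ≤ B ^ k') ∧
      ∀ z' : Fin s → AlgebraicClosure ℚ,
        (∀ P ∈ F', MvPolynomial.aeval z P = 0 ↔ MvPolynomial.aeval z' P = 0) →
        MvPolynomial.aeval z' p.leadingCoeff ≠ 0 ∧
        ∃ a : ℕ, a ≤ B ^ k' ∧ ∀ y' : AlgebraicClosure ℚ,
          p.eval₂ (MvPolynomial.aeval z' : MvPolynomial (Fin s) ℤ →ₐ[ℤ] _).toRingHom (y' - a) = 0 →
          ∀ P ∈ F, P.eval₂ (MvPolynomial.aeval z : MvPolynomial (Fin s) ℤ →ₐ[ℤ] ℝ).toRingHom y = 0 ↔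
            P.eval₂ (MvPolynomial.aeval z' : MvPolynomial (Fin s) ℤ →ₐ[ℤ] _).toRingHom y' = 0 := by
  classical
  obtain ⟨b, hb⟩ := spec_desc (MvPolynomial (Fin s) ℤ)[X]
    (fun κ => (2 * k + 2) * (κ + k + (2 * k + 2))) k k
  obtain ⟨k', hk'⟩ : ∃ k', k' = (2 * k + 2) * (b + k + (2 * k + 2)) + b + 3 * k + 4 := ⟨_, rfl⟩
  have hk1 : 3 * k + 4 ≤ k' := by omega
  refine ⟨k', fun B hB F hF hs z y => ?_⟩
  obtain ⟨φ, hφ⟩ : ∃ φ, φ = (MvPolynomial.aeval z : MvPolynomial (Fin s) ℤ →ₐ[ℤ] ℝ).toRingHom :=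
    ⟨_, rfl⟩
  have hφ' : ∀ P, MvPolynomial.aeval z P = φ P := fun P => by rw [hφ]; rfl
  have hc : ∀ n, n ≤ 2 * k + 3 → F.card * n + 1 ≤ B ^ k' := fun n hn => by
    have h1 : F.card * n ≤ B ^ (3 * k + 3) := by
      rw [show 3 * k + 3 = k + (2 * k + 3) by ring, pow_add]
      exact Nat.mul_le_mul hF (hn.trans (spec_le_pow hB _))
    have h2 : 1 ≤ B ^ (3 * k + 3) := Nat.one_le_pow _ _ (by omega)
    refine le_trans ?_ (Nat.pow_le_pow_right (by omega) hk1)
    rw [pow_succ]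
    nlinarith
  simp only [← hφ, hφ']
  by_cases h : ∀ P ∈ F, P.map φ = 0 ∨ P.eval₂ φ y ≠ 0
  · refine ⟨F.biUnion fun P => (range (k + 1)).image P.coeff, X, ?_, fun P hP => ?_, by simp,
      by rw [natDegree_X]; omega, fun j => ?_, fun z' hz => ⟨by simp, ?_⟩⟩
    · refine (card_biUnion_le_card_mul _ _ (k + 1) fun P _ =>
        card_image_le.trans (card_range _).le).trans ((Nat.le_succ _).trans (hc _ (by omega)))
    · obtain ⟨Q, hQ, hP⟩ := mem_biUnion.1 hP
      obtain ⟨j, -, rfl⟩ := mem_image.1 hP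
      exact SpSm.mono hB ((hs Q hQ).2 j) (by omega)
    · rw [coeff_X]
      split_ifs
      exacts [spSm_one.mono hB (Nat.zero_le _), spSm_zero _]
    obtain ⟨ψ, hψ⟩ : ∃ ψ, ψ = (MvPolynomial.aeval z' :
      MvPolynomial (Fin s) ℤ →ₐ[ℤ] AlgebraicClosure ℚ).toRingHom := ⟨_, rfl⟩
    have hψ' : ∀ P, MvPolynomial.aeval z' P = ψ P := fun P => by rw [hψ]; rfl
    simp only [← hψ, hψ'] at hz ⊢
    obtain ⟨x, hx, hx'⟩ := exists_mem_notMem_of_card_lt_card
      (s := F.biUnion fun P => (P.map ψ).roots.toFinset)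
      (t := (range (F.card * k + 1)).image (Nat.cast : ℕ → AlgebraicClosure ℚ)) (by
        rw [card_image_of_injective _ Nat.cast_injective, card_range, Nat.lt_succ_iff]
        exact card_biUnion_le_card_mul _ _ k fun P hP => (Multiset.toFinset_card_le _).trans
          ((card_roots' _).trans (natDegree_map_le.trans (hs P hP).1)))
    obtain ⟨a, ha, rfl⟩ := mem_image.1 hx
    refine ⟨a, (mem_range.1 ha).le.trans (hc _ (by omega)), fun y' hy P hP => ?_⟩
    rw [eval₂_X, sub_eq_zero] at hy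
    have h1 : P.map φ = 0 ↔ P.map ψ = 0 := spec_map_iff (hs P hP).1 fun j hj =>
      hz _ (mem_biUnion.2 ⟨P, hP, mem_image_of_mem _ (mem_range.2 hj)⟩)
    refine ⟨fun h2 => ?_, fun h2 => ?_⟩
    · rw [eval₂_eq_eval_map, h1.1 ((h P hP).resolve_right fun h3 => h3 h2), eval_zero]
    · rw [eval₂_eq_eval_map, h1.2, eval_zero]
      by_contra h3
      refine hx' (mem_biUnion.2 ⟨P, hP, Multiset.mem_toFinset.2 ((mem_roots h3).2 ?_)⟩)
      rwa [IsRoot.def, ← eval₂_eq_eval_map, ← hy]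
  · push Not at h
    obtain ⟨P₀, hP₀, h1, h2⟩ := h
    obtain ⟨u, b1, b2, b3, b4⟩ := spec_trunc φ h1
    obtain ⟨κ, hκ, p, ⟨c1, c2, c3⟩, c4, c5⟩ := hb (fun κ u => (∀ j, SpSm B κ (u.coeff j)) ∧
      φ u.leadingCoeff ≠ 0 ∧ u.eval₂ φ y = 0) natDegree u ⟨fun j => by
        rcases b4 j with h | h <;> rw [h]
        exacts [(hs P₀ hP₀).2 j, spSm_zero _], b2,
        by rwa [eval₂_eq_eval_map, b1, ← eval₂_eq_eval_map]⟩
      (b3.trans_le (natDegree_map_le.trans (hs P₀ hP₀).1))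
    have hp1 : 1 ≤ p.natDegree := Nat.pos_of_ne_zero fun h0 => c2 (by
      rwa [eq_C_of_natDegree_eq_zero h0, eval₂_C, ← h0] at c3)
    choose! c G e1 e2 e3 e4 e5 e6 using fun P (hP : P ∈ F) => spec_one hB φ y (hs P hP).1
      (hs P hP).2 c4 hp1 c1 c2 c3 fun u a b c => c5 u ⟨a, b, c⟩
    have hm := Nat.mul_le_mul_left (2 * k + 2)
      (show κ + k + (2 * k + 2) ≤ b + k + (2 * k + 2) by omega)
    refine ⟨insert p.leadingCoeff (F.biUnion fun P =>
      insert (c P) ((range (2 * k + 1 + 1)).image (G P).coeff)), p, ?_, fun P hP => ?_, hp1,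
      by omega, fun j => (c1 j).mono hB (by omega), fun z' hz => ⟨fun h0 => c2 ?_, 0,
        Nat.zero_le _, fun y' hy P hP => ?_⟩⟩
    · refine (card_insert_le _ _).trans (le_trans (Nat.succ_le_succ ?_) (hc _ le_rfl))
      exact card_biUnion_le_card_mul _ _ _ fun P _ => (card_insert_le _ _).trans
        (Nat.succ_le_succ (card_image_le.trans (card_range _).le))
    · rcases mem_insert.1 hP with rfl | hP
      · exact (c1 _).mono hB (by omega)
      obtain ⟨Q, hQ, hP⟩ := mem_biUnion.1 hP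
      rcases mem_insert.1 hP with rfl | hP
      · exact (e1 Q hQ).mono hB (by omega)
      obtain ⟨j, -, rfl⟩ := mem_image.1 hP
      exact (e3 Q hQ j).mono hB (by omega)
    · exact (hz _ (mem_insert_self _ _)).2 h0
    · rw [Nat.cast_zero, sub_zero] at hy
      have hz' := fun Q hQ => hz Q (mem_insert_of_mem (mem_biUnion.2 ⟨P, hP, hQ⟩))
      exact e6 P hP _ y' (fun h0 => e4 P hP ((hz' _ (mem_insert_self _ _)).2 h0))
        ((spec_map_iff (e2 P hP) fun j hj =>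
          hz' _ (mem_insert_of_mem (mem_image_of_mem _ (mem_range.2 hj)))).1 (e5 P hP)) hy

end Pool.Agent.Lib.MP_a147dc_co.B
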