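import Pool.Agent.Lib.MP_a147dc_co.B.Ker

/-! Specialisation of real parameters: small relations between polynomials. -/

namespace Pool.Agent.Lib.MP_a147dc_co.B

open Finset NumberField Module Polynomial Filter
open scoped nonZeroDivisors

section sm

variable {τ : Type*} {B : ℕ}

/-- small degree and small length -/
def SpSm (B κ : ℕ) (a : MvPolynomial τ ℤ) : Prop := a.totalDegree ≤ κ ∧ l1 a ≤ B ^ κ

lemma SpSm.mono (hB : 2 ≤ B) {κ κ' : ℕ} {a : MvPolynomial τ ℤ} (h : SpSm B κ a) (hκ : κ ≤ κ') :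
    SpSm B κ' a := ⟨h.1.trans hκ, h.2.trans (Nat.pow_le_pow_right (by omega) hκ)⟩

lemma spSm_zero (κ : ℕ) : SpSm B κ (0 : MvPolynomial τ ℤ) := ⟨by simp, by simp [l1]⟩

lemma spSm_one : SpSm B 0 (1 : MvPolynomial τ ℤ) :=
  ⟨by simp, by simpa using (l1_monomial (0 : τ →₀ ℕ) 1).le⟩

lemma SpSm.neg {κ : ℕ} {a : MvPolynomial τ ℤ} (h : SpSm B κ a) : SpSm B κ (-a) :=
  ⟨by simpa using h.1, by rw [l1_neg]; exact h.2⟩

lemma SpSm.mul {κ κ' : ℕ} {a b : MvPolynomial τ ℤ} (h : SpSm B κ a) (h' : SpSm B κ' b) :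
    SpSm B (κ + κ') (a * b) :=
  ⟨(MvPolynomial.totalDegree_mul _ _).trans (add_le_add h.1 h'.1),
    (l1_mul _ _).trans (by rw [pow_add]; exact Nat.mul_le_mul h.2 h'.2)⟩

lemma spec_le_pow (hB : 2 ≤ B) (n : ℕ) : n ≤ B ^ n := (Nat.lt_pow_self (by omega)).le

lemma SpSm.add (hB : 2 ≤ B) {κ : ℕ} {a b : MvPolynomial τ ℤ} (h : SpSm B κ a) (h' : SpSm B κ b) :
    SpSm B (κ + 1) (a + b) :=
  ⟨(MvPolynomial.totalDegree_add _ _).trans ((max_le h.1 h'.1).trans (Nat.le_succ _)),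
    (l1_add _ _).trans (by have := h.2; have := h'.2; rw [pow_succ]; nlinarith)⟩

lemma spSm_sum (hB : 2 ≤ B) {ι : Type*} {s : Finset ι} {κ n : ℕ} {a : ι → MvPolynomial τ ℤ}
    (h : ∀ i ∈ s, SpSm B κ (a i)) (hn : s.card ≤ n) : SpSm B (κ + n) (∑ i ∈ s, a i) := by
  refine ⟨(MvPolynomial.totalDegree_finsetSum_le fun i hi => (h i hi).1).trans
    (Nat.le_add_right _ _), (l1_sum _ _).trans ?_⟩
  refine (sum_le_card_nsmul _ _ _ fun i hi => (h i hi).2).trans ?_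
  rw [smul_eq_mul, pow_add, mul_comm]
  exact Nat.mul_le_mul_left _ (hn.trans (spec_le_pow hB n))

lemma spSm_coeff_mul (hB : 2 ≤ B) {κ κ' D : ℕ} {u P : (MvPolynomial τ ℤ)[X]}
    (hu : ∀ j, SpSm B κ (u.coeff j)) (hP : ∀ j, SpSm B κ' (P.coeff j))
    (hD : (u * P).natDegree ≤ D) (j : ℕ) : SpSm B (κ + κ' + (D + 1)) ((u * P).coeff j) := by
  rcases le_or_gt j D with h | h
  · rw [coeff_mul]
    exact spSm_sum hB (fun i _ => (hu _).mul (hP _)) (by rw [Nat.card_antidiagonal]; omega)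
  · rw [coeff_eq_zero_of_natDegree_lt (hD.trans_lt h)]
    exact spSm_zero _

/-- a small relation between polynomials -/
lemma spec_ker (hB : 2 ≤ B) (φ : MvPolynomial τ ℤ →+* ℝ) {ι : Type*} [Fintype ι] {N n κ : ℕ}
    (q : ι → (MvPolynomial τ ℤ)[X]) (hN : N < Fintype.card ι) (hn : Fintype.card ι ≤ n)
    (hq : ∀ i j, N ≤ j → (q i).coeff j = 0) (hs : ∀ i j, SpSm B κ ((q i).coeff j)) :
    ∃ t : ι → MvPolynomial τ ℤ, (∃ i, φ (t i) ≠ 0) ∧ (∑ i, C (t i) * q i).map φ = 0 ∧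
      ∀ i, SpSm B (n * (κ + n)) (t i) := by
  classical
  obtain ⟨t₀, h1, h0⟩ := (Submodule.ne_bot_iff _).1 (LinearMap.ker_ne_bot_of_finrank_lt
    (f := Matrix.mulVecLin (Matrix.of fun (r : Fin N) (i : ι) => φ ((q i).coeff r)))
    (by simpa using hN))
  obtain ⟨t, a1, a2, a3⟩ := ker_minors φ (fun (r : Fin N) (i : ι) => (q i).coeff r) t₀ h0
    fun r => congrFun h1 r
  refine ⟨t, a1, ?_, fun i => ?_⟩
  · ext j
    rw [coeff_map, finsetSum_coeff, map_sum, coeff_zero]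
    simp only [coeff_C_mul, map_mul]
    rcases lt_or_ge j N with h | h
    · rw [← a2 ⟨j, h⟩]
      exact sum_congr rfl fun i _ => mul_comm _ _
    · exact sum_eq_zero fun i _ => by rw [hq i j h, map_zero, mul_zero]
  · rcases a3 i with h | ⟨m, ρ, γ, hm, h⟩
    · rw [h]
      exact spSm_zero _
    · have hd := l1_det (Matrix.of fun a b => (q (γ b)).coeff (ρ a)) fun a b => hs (γ b) (ρ a)
      have hmn : m ≤ n := hm.le.trans hn
      have : SpSm B (n * (κ + n)) (Matrix.of fun a b => (q (γ b)).coeff (ρ a)).det := by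
        refine ⟨hd.1.trans (Nat.mul_le_mul hmn (Nat.le_add_right _ _)), hd.2.trans ?_⟩
        rw [mul_comm n, pow_mul]
        refine (Nat.pow_le_pow_left ?_ _).trans (Nat.pow_le_pow_right (by positivity) hmn)
        rw [pow_add, mul_comm]
        exact Nat.mul_le_mul_left _ (hmn.trans (spec_le_pow hB n))
      rcases h with h | h <;> rw [h]
      exacts [this, this.neg]

/-- a polynomial from finitely many coefficients -/
noncomputable def spPf {A : Type*} [CommRing A] {n : ℕ} (t : Fin n → A) : A[X] :=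
  ∑ j, C (t j) * X ^ (j : ℕ)

lemma spPf_lt {A : Type*} [CommRing A] {n : ℕ} (t : Fin n → A) (j : Fin n) :
    (spPf t).coeff j = t j := by
  rw [spPf, finsetSum_coeff, sum_eq_single j]
  · simp
  · exact fun b _ hb => by rw [coeff_C_mul_X_pow, if_neg fun h => hb (Fin.ext h.symm)]
  · simp

lemma spPf_ge {A : Type*} [CommRing A] {n : ℕ} (t : Fin n → A) {j : ℕ} (h : n ≤ j) :
    (spPf t).coeff j = 0 := by
  rw [spPf, finsetSum_coeff]
  exact sum_eq_zero fun b _ => by rw [coeff_C_mul_X_pow, if_neg (by have := b.2; omega)]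

lemma spSm_X_pow_mul {κ : ℕ} {P : (MvPolynomial τ ℤ)[X]} (hP : ∀ j, SpSm B κ (P.coeff j))
    (i j : ℕ) : SpSm B κ ((X ^ i * P).coeff j) := by
  rw [coeff_X_pow_mul']
  split_ifs
  exacts [hP _, spSm_zero _]

/-- the three term relation -/
lemma spec_three (hB : 2 ≤ B) (φ : MvPolynomial τ ℤ →+* ℝ) {n₁ n₂ n₃ N n κ : ℕ}
    {P p : (MvPolynomial τ ℤ)[X]} (hP : ∀ j, SpSm B κ (P.coeff j)) (hp : ∀ j, SpSm B κ (p.coeff j))
    (h1 : P.natDegree + n₁ ≤ N) (h2 : p.natDegree + n₂ ≤ N) (h3 : n₃ ≤ N) (hN : N < n₁ + n₂ + n₃)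
    (hn : n₁ + n₂ + n₃ ≤ n) : ∃ u v w : (MvPolynomial τ ℤ)[X],
      (∀ j, SpSm B (n * (κ + n)) (u.coeff j) ∧ SpSm B (n * (κ + n)) (v.coeff j) ∧
        SpSm B (n * (κ + n)) (w.coeff j)) ∧ (∀ j, n₁ ≤ j → u.coeff j = 0) ∧
      (∀ j, n₂ ≤ j → v.coeff j = 0) ∧ (∀ j, n₃ ≤ j → w.coeff j = 0) ∧
      (u.map φ = 0 → v.map φ = 0 → w.map φ = 0 → False) ∧ (u * P + v * p + w).map φ = 0 := by
  have hz : ∀ (Q : (MvPolynomial τ ℤ)[X]) (i m j : ℕ), i < m → Q.natDegree + m ≤ N → N ≤ j →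
      (X ^ i * Q).coeff j = 0 := fun Q i m j a b c => by
    rw [coeff_X_pow_mul', coeff_eq_zero_of_natDegree_lt (by omega), ite_self]
  obtain ⟨t, ⟨i, a1⟩, a2, a3⟩ := spec_ker hB φ (N := N) (n := n) (κ := κ)
    (ι := Fin n₁ ⊕ Fin n₂ ⊕ Fin n₃) (Sum.elim (fun j => X ^ (j : ℕ) * P)
      (Sum.elim (fun j => X ^ (j : ℕ) * p) fun j => X ^ (j : ℕ) * 1))
    (by simpa [add_assoc] using hN) (by simpa [add_assoc] using hn)
    (by
      rintro (i | i | i) j hj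
      exacts [hz _ _ _ _ i.2 h1 hj, hz _ _ _ _ i.2 h2 hj, hz _ _ _ _ i.2 (by simpa using h3) hj])
    (by
      rintro (i | i | i) j
      refine spSm_X_pow_mul hP _ _
      · exact spSm_X_pow_mul hp _ _
      · refine spSm_X_pow_mul (fun j => ?_) _ _
        rw [coeff_one]
        split_ifs
        exacts [spSm_one.mono hB (Nat.zero_le _), spSm_zero _])
  have hc : ∀ {m : ℕ} (f : Fin m → MvPolynomial τ ℤ), (∀ i, SpSm B (n * (κ + n)) (f i)) →
      ∀ j, SpSm B (n * (κ + n)) ((spPf f).coeff j) := fun {m} f hf j => by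
    rcases lt_or_ge j m with h | h
    · exact spPf_lt f ⟨j, h⟩ ▸ hf _
    · exact spPf_ge f h ▸ spSm_zero _
  have hm : ∀ {m : ℕ} (f : Fin m → MvPolynomial τ ℤ), (spPf f).map φ = 0 → ∀ i, φ (f i) = 0 :=
    fun f hf i => by rw [← spPf_lt f i, ← coeff_map, hf, coeff_zero]
  refine ⟨spPf fun j => t (.inl j), spPf fun j => t (.inr (.inl j)),
    spPf fun j => t (.inr (.inr j)),
    fun j => ⟨hc _ (fun _ => a3 _) j, hc _ (fun _ => a3 _) j, hc _ (fun _ => a3 _) j⟩,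
    fun j => spPf_ge _, fun j => spPf_ge _, fun j => spPf_ge _, fun b1 b2 b3 => a1 ?_, ?_⟩
  · rcases i with i | i | i
    exacts [hm _ b1 i, hm _ b2 i, hm _ b3 i]
  · rw [← a2]
    simp only [spPf, Fintype.sum_sum_type, Sum.elim_inl, Sum.elim_inr, sum_mul, mul_assoc, mul_one,
      add_assoc]

end sm

lemma spec_desc (α : Type) (g : ℕ → ℕ) (e κ : ℕ) : ∃ b : ℕ, ∀ (Gd : ℕ → α → Prop) (dg : α → ℕ)
    (p : α), Gd κ p → dg p ≤ e →
    ∃ κ' ≤ b, ∃ p', Gd κ' p' ∧ dg p' ≤ e ∧ ∀ u, Gd (g κ') u → dg p' ≤ dg u := by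
  induction e generalizing κ with
  | zero => exact ⟨κ, fun Gd dg p h1 h2 => ⟨κ, le_rfl, p, h1, h2, fun u _ => by omega⟩⟩
  | succ e ih =>
    obtain ⟨b, hb⟩ := ih (g κ)
    refine ⟨max κ b, fun Gd dg p h1 h2 => ?_⟩
    by_cases h : ∀ u, Gd (g κ) u → dg p ≤ dg u
    · exact ⟨κ, le_max_left _ _, p, h1, h2, h⟩
    · push Not at h
      obtain ⟨u, hu, hu'⟩ := h
      obtain ⟨κ', a1, p', a2, a3, a4⟩ := hb Gd dg u hu (by omega)
      exact ⟨κ', a1.trans (le_max_right _ _), p', a2, by omega, a4⟩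

/-- truncation at the degree of the image -/
lemma spec_trunc {A L : Type*} [CommRing A] [Field L] (φ : A →+* L) {u : A[X]}
    (hu : u.map φ ≠ 0) : ∃ u' : A[X], u'.map φ = u.map φ ∧ φ u'.leadingCoeff ≠ 0 ∧
      u'.natDegree = (u.map φ).natDegree ∧ ∀ j, u'.coeff j = u.coeff j ∨ u'.coeff j = 0 := by
  obtain ⟨n, hn⟩ : ∃ n, n = (u.map φ).natDegree := ⟨_, rfl⟩
  have h1 : ∀ j, (spPf fun j : Fin (n + 1) => u.coeff j).coeff j =
      if j < n + 1 then u.coeff j else 0 := fun j => by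
    split_ifs with h
    · exact spPf_lt _ ⟨j, h⟩
    · exact spPf_ge _ (not_lt.1 h)
  have h2 : φ (u.coeff n) ≠ 0 := by
    rw [← coeff_map, hn]
    exact leadingCoeff_ne_zero.2 hu
  have h3 : (spPf fun j : Fin (n + 1) => u.coeff j).natDegree = n := by
    refine natDegree_eq_of_le_of_coeff_ne_zero (natDegree_le_iff_coeff_eq_zero.2 fun j hj => ?_) ?_
    · rw [h1, if_neg (by omega)]
    · rw [h1, if_pos (Nat.lt_succ_self _)]
      exact fun h => h2 (by rw [h, map_zero])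
  refine ⟨_, ?_, ?_, h3.trans hn, fun j => ?_⟩
  · ext j
    rw [coeff_map, h1]
    split_ifs with h
    · rw [coeff_map]
    · rw [map_zero, coeff_eq_zero_of_natDegree_lt (by omega)]
  · rwa [leadingCoeff, h3, h1, if_pos (Nat.lt_succ_self _)]
  · rw [h1]
    split_ifs
    exacts [.inl rfl, .inr rfl]

end Pool.Agent.Lib.MP_a147dc_co.B
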