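import Pool.Agent.Lib.MP_a147dc_co.B.Ker
import Pool.Agent.Lib.MP_a147dc_co.B.SpecA

/-! Specialisation of real points to algebraic points of bounded degree and height. -/

namespace Pool.Agent.Lib.MP_a147dc_co.B

open Finset NumberField Module Polynomial Filter
open scoped nonZeroDivisors

lemma specB_cons {L : Type*} [CommRing L] [Algebra ℤ L] {s : ℕ} (z : Fin s → L) (y : L)
    (P : MvPolynomial (Fin (s + 1)) ℤ) :
    MvPolynomial.aeval (Fin.cons y z : Fin (s + 1) → L) P =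
      (MvPolynomial.finSuccEquiv ℤ s P).eval₂
        (MvPolynomial.aeval z : MvPolynomial (Fin s) ℤ →ₐ[ℤ] L).toRingHom y := by
  induction P using MvPolynomial.induction_on with
  | C a =>
    rw [eq_intCast (MvPolynomial.C : ℤ →+* MvPolynomial (Fin (s + 1)) ℤ) a, map_intCast,
      map_intCast, ← Polynomial.coe_eval₂RingHom, map_intCast]
  | add p q hp hq => rw [map_add, map_add, Polynomial.eval₂_add, hp, hq]
  | mul_X p i hp =>
    rw [map_mul, map_mul, Polynomial.eval₂_mul, hp, MvPolynomial.aeval_X]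
    refine Fin.cases ?_ (fun j => ?_) i
    · rw [MvPolynomial.finSuccEquiv_X_zero, Polynomial.eval₂_X, Fin.cons_zero]
    · rw [MvPolynomial.finSuccEquiv_X_succ, Polynomial.eval₂_C, Fin.cons_succ]
      simp

lemma specB_map {L L' τ : Type*} [CommRing L] [CommRing L'] [Algebra ℤ L] [Algebra ℤ L']
    (f : L →+* L') (x : τ → L) (P : MvPolynomial τ ℤ) :
    f (MvPolynomial.aeval x P) = MvPolynomial.aeval (fun i => f (x i)) P := by
  induction P using MvPolynomial.induction_on with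
  | C a =>
    rw [eq_intCast (MvPolynomial.C : ℤ →+* MvPolynomial τ ℤ) a, map_intCast, map_intCast,
      map_intCast]
  | add p q hp hq => rw [map_add, map_add, map_add, hp, hq]
  | mul_X p i hp =>
    rw [map_mul, map_mul, map_mul, hp, MvPolynomial.aeval_X, MvPolynomial.aeval_X]

lemma specB_int {L : Type*} [CommRing L] [Algebra ℤ L] (n : ℤ) : IsIntegral ℤ (n : L) := by
  rw [← eq_intCast (algebraMap ℤ L) n]
  exact isIntegral_algebraMap

lemma specB_int_map {L L' : Type*} [CommRing L] [CommRing L'] [Algebra ℤ L] [Algebra ℤ L']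
    (f : L →+* L') {x : L} (hx : IsIntegral ℤ x) : IsIntegral ℤ (f x) := by
  obtain ⟨p, hp, h⟩ := hx
  refine ⟨p, hp, ?_⟩
  have h2 := congrArg f h
  rw [Polynomial.hom_eval₂, map_zero] at h2
  rwa [RingHom.ext_int (algebraMap ℤ L') (f.comp (algebraMap ℤ L))]

lemma specB_bd_map {L L' : Type*} [Field L] [Field L'] (f : L →+* L') {M : ℝ} {x : L}
    (hx : Bd M x) : Bd M (f x) := fun σ => hx (σ.comp f)

lemma specB_hom {L τ : Type*} [Field L] [Algebra ℤ L] {β : L} {w : τ → L} {M : ℝ}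
    (hβ : β ≠ 0) (h1 : IsIntegral ℤ β) (h2 : Bd M β)
    (hw : ∀ i, IsIntegral ℤ (w i) ∧ Bd M (w i)) {k : ℕ}
    (P : MvPolynomial τ ℤ) (hP : P.totalDegree ≤ k) :
    IsIntegral ℤ (β ^ k * MvPolynomial.aeval (fun i => w i / β) P) ∧
      Bd (l1 P * M ^ k) (β ^ k * MvPolynomial.aeval (fun i => w i / β) P) := by
  have hd : ∀ m ∈ P.support, ∑ i ∈ m.support, m i ≤ k := fun m hm =>
    (MvPolynomial.le_totalDegree hm).trans hP
  have key : β ^ k * MvPolynomial.aeval (fun i => w i / β) P =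
      ∑ m ∈ P.support, ((P.coeff m : ℤ) : L) *
        (β ^ (k - ∑ i ∈ m.support, m i) * ∏ i ∈ m.support, w i ^ m i) := by
    rw [MvPolynomial.aeval_def, MvPolynomial.eval₂_eq, Finset.mul_sum]
    refine Finset.sum_congr rfl fun m hm => ?_
    obtain ⟨e, he⟩ := Nat.exists_eq_add_of_le (hd m hm)
    have h3 : ∏ i ∈ m.support, (w i / β) ^ m i =
        (∏ i ∈ m.support, w i ^ m i) / β ^ (∑ i ∈ m.support, m i) := by
      rw [← Finset.prod_pow_eq_pow_sum, ← Finset.prod_div_distrib]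
      exact Finset.prod_congr rfl fun i _ => div_pow _ _ _
    rw [eq_intCast, h3, he, Nat.add_sub_cancel_left, pow_add]
    field_simp
  rw [key]
  constructor
  · refine IsIntegral.sum _ fun m _ => (specB_int _).mul ((h1.pow _).mul ?_)
    exact IsIntegral.prod _ fun i _ => (hw i).1.pow _
  · intro σ
    have hM : 0 ≤ M := (norm_nonneg _).trans (h2 σ)
    rw [map_sum, l1, Nat.cast_sum, Finset.sum_mul]
    refine (norm_sum_le _ _).trans (Finset.sum_le_sum fun m hm => ?_)
    rw [map_mul, norm_mul, map_intCast, Complex.norm_intCast, Nat.cast_natAbs, Int.cast_abs]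
    refine mul_le_mul_of_nonneg_left ?_ (abs_nonneg _)
    obtain ⟨e, he⟩ := Nat.exists_eq_add_of_le (hd m hm)
    rw [he, Nat.add_sub_cancel_left, pow_add, mul_comm (M ^ _), map_mul, norm_mul]
    refine mul_le_mul ((h2.pow e) σ) ?_ (norm_nonneg _) (pow_nonneg hM _)
    rw [map_prod, norm_prod, ← Finset.prod_pow_eq_pow_sum]
    exact Finset.prod_le_prod (fun i _ => norm_nonneg _) fun i _ => ((hw i).2.pow _) σ

lemma specB_root {L : Type*} [Field L] [Algebra ℤ L] {M : ℝ} (q : L[X]) (hq : 1 ≤ q.natDegree)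
    (h : ∀ j, IsIntegral ℤ (q.coeff j) ∧ Bd M (q.coeff j)) {η : L} (hη : q.eval η = 0) :
    IsIntegral ℤ (q.leadingCoeff * η) ∧ Bd (q.natDegree * M) (q.leadingCoeff * η) := by
  constructor
  · have hl : q ∈ Polynomial.lifts (algebraMap (integralClosure ℤ L) L) := by
      rw [Polynomial.lifts_iff_coeff_lifts]
      exact fun n => ⟨⟨q.coeff n, (h n).1⟩, rfl⟩
    obtain ⟨p, rfl⟩ := (Polynomial.mem_lifts q).1 hl
    have hinj : Function.Injective (algebraMap (integralClosure ℤ L) L) := Subtype.val_injective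
    rw [Polynomial.leadingCoeff_map_of_injective hinj, ← Algebra.smul_def]
    rw [Polynomial.eval_map_algebraMap] at hη
    exact isIntegral_trans (A := integralClosure ℤ L) _ (isIntegral_leadingCoeff_smul p η hη)
  · intro σ
    have hM : 0 ≤ M := (norm_nonneg _).trans ((h 0).2 σ)
    have hn : (1 : ℝ) ≤ q.natDegree := by exact_mod_cast hq
    rw [map_mul, norm_mul]
    have hc : ‖σ q.leadingCoeff‖ ≤ M := (h q.natDegree).2 σ
    rcases le_or_gt ‖σ η‖ 1 with hx | hx
    · calc _ ≤ M * 1 := mul_le_mul hc hx (norm_nonneg _) hM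
        _ ≤ q.natDegree * M := by nlinarith
    · obtain ⟨n, hn'⟩ := Nat.exists_eq_add_of_le' hq
      rw [Polynomial.eval_eq_sum_range, Finset.sum_range_succ] at hη
      have h1 : q.leadingCoeff * η ^ q.natDegree =
          -∑ i ∈ Finset.range q.natDegree, q.coeff i * η ^ i := by
        rw [Polynomial.leadingCoeff]; linear_combination hη
      have h2 := congrArg (fun t => ‖σ t‖) h1
      simp only [map_mul, map_neg, norm_neg, norm_mul, map_pow, norm_pow, map_sum] at h2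
      have h3 : ‖∑ i ∈ Finset.range q.natDegree, σ (q.coeff i) * σ η ^ i‖ ≤
          q.natDegree * (M * ‖σ η‖ ^ n) := by
        refine (norm_sum_le _ _).trans ?_
        refine (Finset.sum_le_card_nsmul _ _ (M * ‖σ η‖ ^ n) fun i hi => ?_).trans ?_
        · rw [norm_mul, norm_pow]
          have hi' : i ≤ n := by have := Finset.mem_range.1 hi; omega
          exact mul_le_mul ((h i).2 σ) (pow_le_pow_right₀ hx.le hi') (by positivity) hM
        · rw [Finset.card_range, nsmul_eq_mul]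
      have hpos : 0 < ‖σ η‖ ^ n := by positivity
      refine le_of_mul_le_mul_right ?_ hpos
      rw [← h2] at h3
      calc _ = ‖σ q.leadingCoeff‖ * ‖σ η‖ ^ q.natDegree := by rw [hn', pow_succ]; ring
        _ ≤ _ := h3
        _ = _ := by ring

lemma specB_ext (K : IntermediateField ℚ (AlgebraicClosure ℚ)) [FiniteDimensional ℚ K]
    (q : K[X]) (hq : 1 ≤ q.natDegree) :
    ∃ (K' : IntermediateField ℚ (AlgebraicClosure ℚ)) (ι : K →+* K') (η : K'),
      FiniteDimensional ℚ K' ∧ finrank ℚ K' ≤ finrank ℚ K * q.natDegree ∧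
      (∀ x : K, ((ι x : K') : AlgebraicClosure ℚ) = x) ∧ (q.map ι).eval η = 0 := by
  have hq0 : q ≠ 0 := by rintro rfl; simp at hq
  have hdeg : q.degree ≠ 0 := fun h => by
    rw [Polynomial.natDegree_eq_of_degree_eq_some (n := 0) h] at hq; omega
  obtain ⟨η, hη⟩ := IsAlgClosed.exists_aeval_eq_zero (AlgebraicClosure ℚ) q hdeg
  have hint : IsIntegral K η := (IsAlgebraic.isIntegral ⟨q, hq0, hη⟩)
  let E : IntermediateField K (AlgebraicClosure ℚ) := IntermediateField.adjoin K {η}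
  have hfd : FiniteDimensional K E := IntermediateField.adjoin.finiteDimensional hint
  have hrk : finrank K E ≤ q.natDegree := by
    rw [IntermediateField.adjoin.finrank hint]
    exact Polynomial.natDegree_le_natDegree (minpoly.degree_le_of_ne_zero K η hq0 hη)
  have hfd' : FiniteDimensional ℚ E := Module.Finite.trans K E
  have hrk' : finrank ℚ E ≤ finrank ℚ K * q.natDegree := by
    have hfr : Module.Free K E := Module.Free.of_divisionRing K E
    rw [← Module.finrank_mul_finrank ℚ K E]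
    exact Nat.mul_le_mul_left _ hrk
  refine ⟨E.restrictScalars ℚ, algebraMap K E,
    ⟨η, IntermediateField.mem_adjoin_simple_self K η⟩, hfd', hrk', fun x => rfl, ?_⟩
  have h1 : Polynomial.aeval (⟨η, IntermediateField.mem_adjoin_simple_self K η⟩ : E) q = 0 := by
    apply (algebraMap E (AlgebraicClosure ℚ)).injective
    rw [← Polynomial.aeval_algebraMap_apply, map_zero]
    exact hη
  exact (Polynomial.eval_map_algebraMap (B := E) q
    ⟨η, IntermediateField.mem_adjoin_simple_self K η⟩).trans h1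

lemma specB_adj {s k : ℕ} (K : IntermediateField ℚ (AlgebraicClosure ℚ)) [FiniteDimensional ℚ K]
    {β : K} {w : Fin s → K} {M N : ℝ} (hN : 1 ≤ N) (hβ : β ≠ 0) (h1 : IsIntegral ℤ β)
    (h2 : Bd M β) (hw : ∀ i, IsIntegral ℤ (w i) ∧ Bd M (w i))
    (p : (MvPolynomial (Fin s) ℤ)[X]) (hp1 : 1 ≤ p.natDegree) (hpk : p.natDegree ≤ k)
    (hc : ∀ j, (p.coeff j).totalDegree ≤ k ∧ (l1 (p.coeff j) : ℝ) ≤ N)
    (hlc : MvPolynomial.aeval (fun i => w i / β) p.leadingCoeff ≠ 0) (a : ℕ) (ha : (a : ℝ) ≤ N) :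
    ∃ K' : IntermediateField ℚ (AlgebraicClosure ℚ), FiniteDimensional ℚ K' ∧
      finrank ℚ K' ≤ finrank ℚ K * k ∧ ∃ (β' : K') (w' : Fin (s + 1) → K'), β' ≠ 0 ∧
        IsIntegral ℤ β' ∧ Bd (M * ((k + N) * (N * M ^ k))) β' ∧
        (∀ i, IsIntegral ℤ (w' i) ∧ Bd (M * ((k + N) * (N * M ^ k))) (w' i)) ∧
        (∀ i : Fin s, ((w' i.succ / β' : K') : AlgebraicClosure ℚ) = (w i / β : K)) ∧
        p.eval₂ (MvPolynomial.aeval (fun i => ((w i / β : K) : AlgebraicClosure ℚ)) :
          MvPolynomial (Fin s) ℤ →ₐ[ℤ] _).toRingHom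
          (((w' 0 / β' : K') : AlgebraicClosure ℚ) - a) = 0 := by
  set ψ : MvPolynomial (Fin s) ℤ →+* K :=
    (MvPolynomial.aeval (fun i => w i / β) : MvPolynomial (Fin s) ℤ →ₐ[ℤ] K).toRingHom with hψ
  have hbk : β ^ k ≠ 0 := pow_ne_zero _ hβ
  set q : K[X] := Polynomial.C (β ^ k) * p.map ψ with hq
  have hqd : q.natDegree = p.natDegree := by
    rw [hq, Polynomial.natDegree_C_mul hbk, Polynomial.natDegree_map_of_leadingCoeff_ne_zero _ hlc]
  obtain ⟨K', ι, η, hfd, hrk, hι, hη⟩ := specB_ext K q (hqd ▸ hp1)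
  have hqd' : (q.map ι).natDegree = p.natDegree := by rw [Polynomial.natDegree_map, hqd]
  have hq0 : q.map ι ≠ 0 := fun h => by rw [h] at hqd'; simp at hqd'; omega
  have hb : (q.map ι).leadingCoeff ≠ 0 := Polynomial.leadingCoeff_ne_zero.2 hq0
  obtain ⟨σ₀⟩ : Nonempty (K →+* ℂ) := by
    have : Algebra.IsAlgebraic ℚ K := inferInstance
    exact ⟨(IsAlgClosed.lift (R := ℚ) (S := K) (M := ℂ)).toRingHom⟩
  have hM : 0 ≤ M := (norm_nonneg _).trans (h2 σ₀)
  have hco : ∀ j, IsIntegral ℤ ((q.map ι).coeff j) ∧ Bd (N * M ^ k) ((q.map ι).coeff j) := by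
    intro j
    rw [Polynomial.coeff_map, hq, Polynomial.coeff_C_mul, Polynomial.coeff_map]
    obtain ⟨h3, h4⟩ := specB_hom hβ h1 h2 hw (p.coeff j) (hc j).1
    exact ⟨specB_int_map ι h3, specB_bd_map ι (h4.mono
      (mul_le_mul_of_nonneg_right (hc j).2 (pow_nonneg hM _)))⟩
  obtain ⟨h5, h6⟩ := specB_root (q.map ι) (hqd' ▸ hp1) hco hη
  set b := (q.map ι).leadingCoeff with hbdef
  have hbi : IsIntegral ℤ b := (hco _).1
  have hbb : Bd (N * M ^ k) b := (hco _).2
  have hNM : 0 ≤ N * M ^ k := mul_nonneg (by linarith) (pow_nonneg hM _)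
  have hk0 : (0 : ℝ) ≤ k := Nat.cast_nonneg k
  have hle : M * (N * M ^ k) ≤ M * ((k + N) * (N * M ^ k)) :=
    mul_le_mul_of_nonneg_left (by nlinarith) hM
  have hιβ : ι β ≠ 0 := (map_ne_zero ι).2 hβ
  have hab : Bd N (a : K') := fun σ => by
    rw [map_natCast, Complex.norm_natCast]; exact ha
  have hai : IsIntegral ℤ (a : K') := by
    have := specB_int (L := K') (a : ℤ)
    rwa [Int.cast_natCast] at this
  refine ⟨K', hfd, hrk.trans (Nat.mul_le_mul_left _ (hqd ▸ hpk)), ι β * b,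
    Fin.cons (ι β * (b * η + a * b)) fun i => ι (w i) * b, mul_ne_zero hιβ hb,
    (specB_int_map ι h1).mul hbi, ((specB_bd_map ι h2).mul hbb).mono hle, fun i => ?_,
    fun i => ?_, ?_⟩
  · refine Fin.cases ?_ (fun j => ?_) i
    · rw [Fin.cons_zero]
      refine ⟨(specB_int_map ι h1).mul (h5.add (hai.mul hbi)),
        ((specB_bd_map ι h2).mul (h6.add (hab.mul hbb))).mono ?_⟩
      have h7 : (((q.map ι).natDegree : ℕ) : ℝ) ≤ k := by exact_mod_cast hqd' ▸ hpk
      refine mul_le_mul_of_nonneg_left ?_ hM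
      nlinarith
    · rw [Fin.cons_succ]
      exact ⟨(specB_int_map ι (hw j).1).mul hbi, ((specB_bd_map ι (hw j).2).mul hbb).mono hle⟩
  · rw [Fin.cons_succ, mul_div_mul_right _ _ hb, ← map_div₀, hι]
  · have h8 : ι β * (b * η + a * b) / (ι β * b) = η + a := by field_simp
    rw [Fin.cons_zero, h8]
    have h9 : p.eval₂ (ι.comp ψ) η = 0 := by
      rw [hq, Polynomial.map_mul, Polynomial.map_C, Polynomial.eval_mul, Polynomial.eval_C,
        Polynomial.map_map, Polynomial.eval_map] at hη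
      exact (mul_eq_zero.1 hη).resolve_left ((map_ne_zero ι).2 hbk)
    have h10 := congrArg (algebraMap K' (AlgebraicClosure ℚ)) h9
    rw [Polynomial.hom_eval₂, map_zero] at h10
    have h11 : (algebraMap K' (AlgebraicClosure ℚ)).comp (ι.comp ψ) =
        (MvPolynomial.aeval (fun i => ((w i / β : K) : AlgebraicClosure ℚ)) :
          MvPolynomial (Fin s) ℤ →ₐ[ℤ] _).toRingHom := by
      refine RingHom.ext fun P => ?_
      exact (hι _).trans (specB_map (algebraMap K (AlgebraicClosure ℚ)) _ P)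
    rw [h11] at h10
    have h12 : ((η + a : K') : AlgebraicClosure ℚ) - a = algebraMap K' _ η := by
      simp
    rw [h12]
    exact h10

lemma specB_num {B : ℕ} (hB : 2 ≤ B) (c k : ℕ) :
    (B : ℝ) ^ c * ((k + (B : ℝ) ^ k) * ((B : ℝ) ^ k * ((B : ℝ) ^ c) ^ k)) ≤
      (B : ℝ) ^ (c + (k + 1 + (k + c * k))) := by
  have h1 : k ≤ B ^ k := (Nat.lt_pow_self (by omega)).le
  have h2 : (k : ℝ) ≤ (B : ℝ) ^ k := by exact_mod_cast h1
  have h3 : (2 : ℝ) ≤ B := by exact_mod_cast hB
  have h4 : (0 : ℝ) < (B : ℝ) ^ k := by positivity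
  have h5 : (k : ℝ) + (B : ℝ) ^ k ≤ (B : ℝ) ^ (k + 1) := by rw [pow_succ]; nlinarith
  rw [pow_add, pow_add, pow_add _ k (c * k), pow_mul]
  refine mul_le_mul_of_nonneg_left (mul_le_mul_of_nonneg_right h5 ?_) ?_ <;> positivity

theorem spec (s k : ℕ) : ∃ D c : ℕ, ∀ B : ℕ, 2 ≤ B →
    ∀ F : Finset (MvPolynomial (Fin s) ℤ), F.card ≤ B ^ k →
    (∀ P ∈ F, P.totalDegree ≤ k ∧ l1 P ≤ B ^ k) → ∀ z : Fin s → ℝ,
    ∃ K : IntermediateField ℚ (AlgebraicClosure ℚ), FiniteDimensional ℚ K ∧ finrank ℚ K ≤ D ∧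
      ∃ (β : K) (w : Fin s → K), β ≠ 0 ∧ IsIntegral ℤ β ∧ Bd ((B : ℝ) ^ c) β ∧
        (∀ i, IsIntegral ℤ (w i) ∧ Bd ((B : ℝ) ^ c) (w i)) ∧
        ∀ P ∈ F, MvPolynomial.aeval z P = 0 ↔ MvPolynomial.aeval (fun i => w i / β) P = 0 := by
  induction s generalizing k with
  | zero =>
    refine ⟨1, 0, fun B hB F _ _ z => ⟨⊥, inferInstance, by simp, 1, fun i => i.elim0,
      one_ne_zero, isIntegral_one, fun σ => by simp, fun i => i.elim0, fun P _ => ?_⟩⟩
    obtain ⟨a, rfl⟩ := MvPolynomial.C_surjective (Fin 0) P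
    rw [eq_intCast (MvPolynomial.C : ℤ →+* MvPolynomial (Fin 0) ℤ) a, map_intCast, map_intCast,
      Int.cast_eq_zero, Int.cast_eq_zero]
  | succ s ih =>
    classical
    obtain ⟨k', hk'⟩ := spec_step s k
    obtain ⟨D, c, hD⟩ := ih k'
    refine ⟨D * k', c + (k' + 1 + (k' + c * k')), fun B hB F hF hP z => ?_⟩
    obtain ⟨F', p, hF', hP', hp1, hpk, hpc, hspec⟩ := hk' B hB
      (F.image (MvPolynomial.finSuccEquiv ℤ s)) (Finset.card_image_le.trans hF) (by
        intro Q hQ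
        obtain ⟨P, hPF, rfl⟩ := Finset.mem_image.1 hQ
        refine ⟨?_, fun j => ⟨(l1_coeff_finSuccEquiv P j).1.trans (hP P hPF).1,
          (l1_coeff_finSuccEquiv P j).2.trans (hP P hPF).2⟩⟩
        rw [MvPolynomial.natDegree_finSuccEquiv]
        exact (MvPolynomial.degreeOf_le_totalDegree P 0).trans (hP P hPF).1) (Fin.tail z) (z 0)
    obtain ⟨K, hfd, hrk, β, w, hβ, hβi, hβb, hw, hmatch⟩ := hD B hB F' hF' hP' (Fin.tail z)
    have hcoe : ∀ P : MvPolynomial (Fin s) ℤ,
        MvPolynomial.aeval (fun i => ((w i / β : K) : AlgebraicClosure ℚ)) P = 0 ↔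
          MvPolynomial.aeval (fun i => w i / β) P = 0 := fun P => by
      rw [← map_eq_zero_iff (algebraMap K (AlgebraicClosure ℚ)) (RingHom.injective _), specB_map]
      rfl
    obtain ⟨hlc, a, ha, hy⟩ := hspec (fun i => ((w i / β : K) : AlgebraicClosure ℚ))
      fun P hPF => (hmatch P hPF).trans (hcoe P).symm
    have hB1 : (1 : ℝ) ≤ (B : ℝ) ^ k' := one_le_pow₀ (by exact_mod_cast (by omega : 1 ≤ B))
    obtain ⟨K', hfd', hrk', β', w', hβ', hβi', hβb', hw', hs, h0⟩ :=
      specB_adj (k := k') (N := (B : ℝ) ^ k') K hB1 hβ hβi hβb hw p hp1 hpk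
        (fun j => ⟨(hpc j).1, by exact_mod_cast (hpc j).2⟩) (fun h => hlc ((hcoe _).2 h)) a
        (by exact_mod_cast ha)
    refine ⟨K', hfd', hrk'.trans (Nat.mul_le_mul_right _ hrk), β', w', hβ', hβi',
      hβb'.mono (specB_num hB c k'), fun i => ⟨(hw' i).1, (hw' i).2.mono (specB_num hB c k')⟩,
      fun P hPF => ?_⟩
    have h1 := hy _ h0 _ (Finset.mem_image_of_mem _ hPF)
    rw [← specB_cons, ← specB_cons, Fin.cons_self_tail] at h1
    rw [h1, ← map_eq_zero_iff (algebraMap K' (AlgebraicClosure ℚ)) (RingHom.injective _),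
      specB_map]
    have h2 : (Fin.cons ((w' 0 / β' : K') : AlgebraicClosure ℚ)
        (fun i => ((w i / β : K) : AlgebraicClosure ℚ)) : Fin (s + 1) → AlgebraicClosure ℚ) =
        fun i => algebraMap K' (AlgebraicClosure ℚ) (w' i / β') := by
      funext i
      refine Fin.cases ?_ (fun j => ?_) i
      · rfl
      · exact (hs j).symm
    rw [h2]

end Pool.Agent.Lib.MP_a147dc_co.B
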