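import Pool.Agent.Lib.MP_a147dc_co.B.Ker
import Pool.Agent.Lib.MP_a147dc_co.B.SpecB

/-! Specialisation of point sets: real parameters are replaced by algebraic ones. -/

namespace Pool.Agent.Lib.MP_a147dc_co.B

open Finset NumberField Module Polynomial Filter

/-- the linear form with coefficients `a` -/
noncomputable def specC_lin {r : ℕ} (a : Fin r → ℤ) : MvPolynomial (Fin r) ℤ :=
  ∑ i, MvPolynomial.monomial (Finsupp.single i 1) (a i)

/-- degree and size bound -/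
def specC_G {r : ℕ} (d M : ℕ) (P : MvPolynomial (Fin r) ℤ) : Prop :=
  P.totalDegree ≤ d ∧ l1 P ≤ M

lemma specC_G_mono {r d d' M M' : ℕ} {P : MvPolynomial (Fin r) ℤ} (h : specC_G d M P)
    (hd : d ≤ d') (hM : M ≤ M') : specC_G d' M' P := ⟨h.1.trans hd, h.2.trans hM⟩

lemma specC_G_mul {r d d' M M' : ℕ} {P Q : MvPolynomial (Fin r) ℤ} (h : specC_G d M P)
    (h' : specC_G d' M' Q) : specC_G (d + d') (M * M') (P * Q) :=
  ⟨(MvPolynomial.totalDegree_mul P Q).trans (add_le_add h.1 h'.1),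
    (l1_mul P Q).trans (Nat.mul_le_mul h.2 h'.2)⟩

lemma specC_G_sub {r d M : ℕ} {P Q : MvPolynomial (Fin r) ℤ} (h : specC_G d M P)
    (h' : specC_G d M Q) : specC_G d (2 * M) (P - Q) :=
  ⟨(MvPolynomial.totalDegree_sub P Q).trans (max_le h.1 h'.1),
    (l1_sub P Q).trans (by have := h.2; have := h'.2; omega)⟩

lemma specC_r_le {r n : ℕ} (hn : 2 ≤ n) : r ≤ n ^ r :=
  (Nat.lt_two_pow_self).le.trans (Nat.pow_le_pow_left hn r)

lemma specC_G_lin {r n C : ℕ} (hn : 2 ≤ n) {a : Fin r → ℤ} (h : ∀ i, |a i| ≤ (n : ℤ) ^ C) :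
    specC_G 1 (n ^ (r + C)) (specC_lin a) := by
  refine ⟨(MvPolynomial.totalDegree_finsetSum _ _).trans (Finset.sup_le fun i _ => ?_), ?_⟩
  · refine (MvPolynomial.totalDegree_monomial_le _ _).trans ?_
    simp
  · refine (l1_sum _ _).trans ?_
    have h1 : ∀ i ∈ (univ : Finset (Fin r)),
        l1 (MvPolynomial.monomial (Finsupp.single i 1) (a i)) ≤ n ^ C := fun i _ => by
      rw [l1_monomial]
      have h2 : ((a i).natAbs : ℤ) ≤ ((n ^ C : ℕ) : ℤ) := by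
        rw [Int.natCast_natAbs]; exact_mod_cast h i
      exact_mod_cast h2
    refine (Finset.sum_le_card_nsmul _ _ _ h1).trans ?_
    rw [pow_add, card_univ, Fintype.card_fin, smul_eq_mul]
    exact Nat.mul_le_mul_right _ (specC_r_le hn)

lemma specC_eval {r : ℕ} {L : Type*} [CommRing L] [Algebra ℤ L] (z : Fin r → L)
    (a : Fin r → ℤ) : MvPolynomial.aeval z (specC_lin a) = ∑ i, (a i : L) * z i := by
  simp [specC_lin, MvPolynomial.aeval_monomial]

lemma specC_diff {L : Type*} [Field L] {a c a' c' : L} (hc : c ≠ 0) (hc' : c' ≠ 0) :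
    a / c = a' / c' ↔ a' * c - a * c' = 0 := by
  rw [div_eq_div_iff hc hc', sub_eq_zero, eq_comm]

lemma specC_det {L : Type*} [Field L] {a b c a' b' c' a'' b'' c'' : L} (hc : c ≠ 0)
    (hc' : c' ≠ 0) (hc'' : c'' ≠ 0) :
    (a' / c' - a / c) * (b'' / c'' - b / c) - (b' / c' - b / c) * (a'' / c'' - a / c) = 0 ↔
      (a' * c - a * c') * (b'' * c - b * c'') - (b' * c - b * c') * (a'' * c - a * c'') = 0 := by
  have e : (a' * c - a * c') * (b'' * c - b * c'') - (b' * c - b * c') * (a'' * c - a * c'') =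
      ((a' / c' - a / c) * (b'' / c'' - b / c) - (b' / c' - b / c) * (a'' / c'' - a / c)) *
        (c * c * c' * c'') := by
    field_simp
  rw [e, mul_eq_zero, or_iff_left (mul_ne_zero (mul_ne_zero (mul_ne_zero hc hc) hc') hc'')]

lemma specC_int {r n C c : ℕ} (hn : 2 ≤ n) {L : Type*} [Field L] {w : Fin r → L}
    (hw : ∀ i, IsIntegral ℤ (w i) ∧ Bd ((n : ℝ) ^ c) (w i)) {a : Fin r → ℤ}
    (h : ∀ i, |a i| ≤ (n : ℤ) ^ C) :
    IsIntegral ℤ (∑ i, (a i : L) * w i) ∧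
      Bd ((n ^ (r + C + c) : ℕ) : ℝ) (∑ i, (a i : L) * w i) := by
  refine ⟨IsIntegral.sum _ fun i _ => IsIntegral.mul ?_ (hw i).1, fun σ => ?_⟩
  · exact isIntegral_algebraMap (R := ℤ) (x := a i)
  · rw [map_sum]
    refine (norm_sum_le _ _).trans ?_
    have h1 : ∀ i ∈ (univ : Finset (Fin r)),
        ‖σ ((a i : L) * w i)‖ ≤ (n : ℝ) ^ C * (n : ℝ) ^ c := fun i _ => by
      rw [map_mul, norm_mul, map_intCast, Complex.norm_intCast]
      refine mul_le_mul ?_ ((hw i).2 σ) (norm_nonneg _) (by positivity)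
      exact_mod_cast h i
    refine (Finset.sum_le_card_nsmul _ _ _ h1).trans ?_
    rw [card_univ, Fintype.card_fin, nsmul_eq_mul, Nat.cast_pow, add_assoc, pow_add, pow_add]
    refine mul_le_mul_of_nonneg_right ?_ (by positivity)
    exact_mod_cast specC_r_le (r := r) hn

lemma specC_hgt {r n C c : ℕ} (hn : 2 ≤ n) {L : Type*} [Field L] {β : L} (hβ : β ≠ 0)
    {w : Fin r → L} (hw : ∀ i, IsIntegral ℤ (w i) ∧ Bd ((n : ℝ) ^ c) (w i)) {a b e : Fin r → ℤ}
    (h : ∀ i, |a i| ≤ (n : ℤ) ^ C ∧ |b i| ≤ (n : ℤ) ^ C ∧ |e i| ≤ (n : ℤ) ^ C)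
    (he : ∑ i, (e i : L) * (w i / β) ≠ 0) :
    Hgt (n ^ (r + C + c)) ((∑ i, (a i : L) * (w i / β)) / ∑ i, (e i : L) * (w i / β),
      (∑ i, (b i : L) * (w i / β)) / ∑ i, (e i : L) * (w i / β)) := by
  have hs : ∀ x : Fin r → ℤ, β * ∑ i, (x i : L) * (w i / β) = ∑ i, (x i : L) * w i := fun x => by
    rw [Finset.mul_sum]
    exact Finset.sum_congr rfl fun i _ => by field_simp
  refine ⟨β * ∑ i, (e i : L) * (w i / β), mul_ne_zero hβ he, fun i => ?_⟩
  fin_cases i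
  · simp only [hm, Fin.zero_eta, Matrix.cons_val_zero, mul_one]
    rw [hs]
    exact specC_int hn hw fun i => (h i).2.2
  · simp only [hm, Fin.mk_one, Matrix.cons_val_one, Matrix.cons_val_zero]
    rw [mul_assoc, mul_div_cancel₀ _ he, hs]
    exact specC_int hn hw fun i => (h i).1
  · simp only [hm, Fin.reduceFinMk, Matrix.cons_val]
    rw [mul_assoc, mul_div_cancel₀ _ he, hs]
    exact specC_int hn hw fun i => (h i).2.1

theorem spec_points (r C : ℕ) : ∃ D c : ℕ, ∀ (g : Fin r → ℝ)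
    (S : Finset (EuclideanSpace ℝ (Fin 2))), 2 ≤ S.card →
    (∀ p ∈ S, ∃ a b c : Fin r → ℤ,
      (∀ i, |a i| ≤ (S.card : ℤ) ^ C ∧ |b i| ≤ (S.card : ℤ) ^ C ∧ |c i| ≤ (S.card : ℤ) ^ C) ∧
      ∑ i, (c i : ℝ) * g i ≠ 0 ∧ p 0 = (∑ i, (a i : ℝ) * g i) / ∑ i, (c i : ℝ) * g i ∧
      p 1 = (∑ i, (b i : ℝ) * g i) / ∑ i, (c i : ℝ) * g i) →
    ∃ (K : Type) (_ : Field K) (_ : NumberField K), finrank ℚ K ≤ D ∧
      ∃ π : EuclideanSpace ℝ (Fin 2) → K × K, Set.InjOn π S ∧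
        (∀ p ∈ S, Hgt (S.card ^ c) (π p)) ∧
        ∀ p ∈ S, ∀ q ∈ S, ∀ u ∈ S, dt (π p) (π q) (π u) = 0 ↔
          (q 0 - p 0) * (u 1 - p 1) - (q 1 - p 1) * (u 0 - p 0) = 0 := by
  classical
  obtain ⟨D, c₀, hspec⟩ := spec r (4 * (r + C) + 5)
  refine ⟨D, r + C + c₀, fun g S hn hS => ?_⟩
  choose! a b e hb he h0 h1 using hS
  set n := S.card with hnS
  let X : (Fin r → ℤ) → (Fin r → ℤ) → (Fin r → ℤ) → (Fin r → ℤ) → MvPolynomial (Fin r) ℤ :=
    fun x y x' y' => specC_lin x' * specC_lin y - specC_lin x * specC_lin y'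
  let Φ : EuclideanSpace ℝ (Fin 2) × EuclideanSpace ℝ (Fin 2) × EuclideanSpace ℝ (Fin 2) →
      Finset (MvPolynomial (Fin r) ℤ) := fun t =>
    {specC_lin (e t.1), X (a t.1) (e t.1) (a t.2.1) (e t.2.1),
      X (b t.1) (e t.1) (b t.2.1) (e t.2.1),
      X (a t.1) (e t.1) (a t.2.1) (e t.2.1) * X (b t.1) (e t.1) (b t.2.2) (e t.2.2) -
        X (b t.1) (e t.1) (b t.2.1) (e t.2.1) * X (a t.1) (e t.1) (a t.2.2) (e t.2.2)}
  have hn1 : 1 ≤ n := by omega
  have hpw : ∀ i j : ℕ, i ≤ j → n ^ i ≤ n ^ j := fun i j h => Nat.pow_le_pow_right hn1 h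
  have h2 : ∀ i : ℕ, 2 * n ^ i ≤ n ^ (i + 1) := fun i => by
    rw [pow_succ, mul_comm]; exact Nat.mul_le_mul_left _ hn
  have hcard : ((S ×ˢ S ×ˢ S).biUnion Φ).card ≤ n ^ (4 * (r + C) + 5) := by
    refine (Finset.card_biUnion_le_card_mul _ _ 4 fun t _ => Finset.card_le_four).trans ?_
    rw [card_product, card_product, ← hnS]
    have h3 : 2 * n ^ 3 ≤ n ^ 4 := h2 3
    have h4 : 2 * n ^ 4 ≤ n ^ 5 := h2 4
    have h5 := hpw 5 (4 * (r + C) + 5) (by omega)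
    have h6 : n * (n * n) = n ^ 3 := by ring
    rw [h6]
    omega
  have hX : ∀ x y x' y' : Fin r → ℤ, (∀ i, |x i| ≤ (n : ℤ) ^ C) → (∀ i, |y i| ≤ (n : ℤ) ^ C) →
      (∀ i, |x' i| ≤ (n : ℤ) ^ C) → (∀ i, |y' i| ≤ (n : ℤ) ^ C) →
      specC_G 2 (n ^ (2 * (r + C) + 1)) (X x y x' y') := fun x y x' y' hx hy hx' hy' => by
    refine specC_G_mono (specC_G_sub (specC_G_mul (specC_G_lin hn hx') (specC_G_lin hn hy))
      (specC_G_mul (specC_G_lin hn hx) (specC_G_lin hn hy'))) le_rfl ?_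
    rw [← pow_add, ← two_mul]; exact h2 _
  have hdeg : ∀ P ∈ (S ×ˢ S ×ˢ S).biUnion Φ,
      specC_G (4 * (r + C) + 5) (n ^ (4 * (r + C) + 5)) P := by
    intro P hP
    obtain ⟨⟨p, q, u⟩, ht, hP⟩ := Finset.mem_biUnion.1 hP
    simp only [mem_product] at ht
    obtain ⟨hp, hq, hu⟩ := ht
    have xa : ∀ q ∈ S, specC_G 2 (n ^ (2 * (r + C) + 1)) (X (a p) (e p) (a q) (e q)) :=
      fun q hq => hX _ _ _ _ (fun i => (hb p hp i).1) (fun i => (hb p hp i).2.2)
        (fun i => (hb q hq i).1) fun i => (hb q hq i).2.2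
    have xb : ∀ q ∈ S, specC_G 2 (n ^ (2 * (r + C) + 1)) (X (b p) (e p) (b q) (e q)) :=
      fun q hq => hX _ _ _ _ (fun i => (hb p hp i).2.1) (fun i => (hb p hp i).2.2)
        (fun i => (hb q hq i).2.1) fun i => (hb q hq i).2.2
    simp only [Φ, mem_insert, mem_singleton] at hP
    rcases hP with rfl | rfl | rfl | rfl
    · exact specC_G_mono (specC_G_lin hn fun i => (hb p hp i).2.2) (by omega)
        (hpw _ _ (by omega))
    · exact specC_G_mono (xa q hq) (by omega) (hpw _ _ (by omega))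
    · exact specC_G_mono (xb q hq) (by omega) (hpw _ _ (by omega))
    · refine specC_G_mono (specC_G_sub (specC_G_mul (xa q hq) (xb u hu))
        (specC_G_mul (xb q hq) (xa u hu))) (by omega) ?_
      rw [← pow_add]
      exact (h2 _).trans (hpw _ _ (by omega))
  obtain ⟨K, hfin, hD, β, w, hβ, -, -, hw, hF⟩ := hspec n hn _ hcard hdeg g
  have hΦ : ∀ p ∈ S, ∀ q ∈ S, ∀ u ∈ S, ∀ P ∈ Φ (p, q, u),
      MvPolynomial.aeval g P = 0 ↔ MvPolynomial.aeval (fun i => w i / β) P = 0 :=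
    fun p hp q hq u hu P hP =>
      hF P (Finset.mem_biUnion.2 ⟨(p, q, u), by simp [hp, hq, hu], hP⟩)
  have he' : ∀ p ∈ S, ∑ i, (e p i : K) * (w i / β) ≠ 0 := fun p hp h => by
    have := hΦ p hp p hp p hp (specC_lin (e p)) (by simp [Φ])
    rw [specC_eval, specC_eval] at this
    exact he p hp (this.2 h)
  refine ⟨K, inferInstance, { to_charZero := inferInstance, to_finiteDimensional := hfin }, hD,
    fun p => ((∑ i, (a p i : K) * (w i / β)) / ∑ i, (e p i : K) * (w i / β),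
      (∑ i, (b p i : K) * (w i / β)) / ∑ i, (e p i : K) * (w i / β)), ?_,
    fun p hp => specC_hgt hn hβ hw (hb p hp) (he' p hp), fun p hp q hq u hu => ?_⟩
  · intro p hp q hq hpq
    simp only [Prod.mk.injEq] at hpq
    have ha := hΦ p hp q hq q hq (X (a p) (e p) (a q) (e q)) (by simp [Φ])
    have hb' := hΦ p hp q hq q hq (X (b p) (e p) (b q) (e q)) (by simp [Φ])
    simp only [X, map_sub, map_mul, specC_eval] at ha hb'
    rw [← specC_diff (he p hp) (he q hq), ← specC_diff (he' p hp) (he' q hq)] at ha hb'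
    ext i
    fin_cases i
    · exact (h0 p hp).trans ((ha.2 hpq.1).trans (h0 q hq).symm)
    · exact (h1 p hp).trans ((hb'.2 hpq.2).trans (h1 q hq).symm)
  · have hd := hΦ p hp q hq u hu
      (X (a p) (e p) (a q) (e q) * X (b p) (e p) (b u) (e u) -
        X (b p) (e p) (b q) (e q) * X (a p) (e p) (a u) (e u)) (by simp [Φ])
    simp only [X, map_sub, map_mul, specC_eval] at hd
    rw [← specC_det (he p hp) (he q hq) (he u hu),
      ← specC_det (he' p hp) (he' q hq) (he' u hu)] at hd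
    rw [h0 p hp, h0 q hq, h0 u hu, h1 p hp, h1 q hq, h1 u hu]
    exact hd.symm

end Pool.Agent.Lib.MP_a147dc_co.B
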